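import Pool.Agent.Lib.MP_2f3286_ag.Koe.Root

/-!
# Finiteness of the number of classes modulo `p`-th powers
-/

namespace Pool.Agent.Lib.MP_2f3286_ag.Koe

variable {k kb : Type*} [Field k] [Field kb] [Algebra k kb] [IsGalois k kb] [IsAlgClosed kb]
  [CharZero kb]

variable {v : AbsoluteValue kb ℝ} {D : Subgroup Gal(kb/k)} {p : ℕ}

open RootAux

namespace ClsAux

omit [IsGalois k kb] [IsAlgClosed kb] [CharZero kb] in
/-- finitely many representatives, in the field itself, of the integral elements modulo the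
maximal ideal -/
theorem reps_one (hd : LocData v D p) {U : Subgroup Gal(kb/k)} (hU : FinIn D U) :
    ∃ R : Finset kb, (∀ r ∈ R, r ∈ fixk U) ∧
      ∀ a ∈ fixk U, v a ≤ 1 → ∃ r ∈ R, v (a - r) < 1 := by
  classical
  obtain ⟨R, hR⟩ := hd.res U hU
  let g : kb → kb := fun r =>
    if h : ∃ a ∈ fixk U, v a ≤ 1 ∧ v (a - r) < 1 then h.choose else 0
  refine ⟨R.image g, ?_, ?_⟩
  · intro r hr
    obtain ⟨r', _, rfl⟩ := Finset.mem_image.mp hr
    simp only [g]
    split_ifs with h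
    · exact h.choose_spec.1
    · exact zero_mem _
  · intro a ha ha1
    obtain ⟨r, hr, hr1⟩ := hR a ha ha1
    have h : ∃ a ∈ fixk U, v a ≤ 1 ∧ v (a - r) < 1 := ⟨a, ha, ha1, hr1⟩
    refine ⟨g r, Finset.mem_image_of_mem g hr, ?_⟩
    have h1 : g r = h.choose := dif_pos h
    have h2 := h.choose_spec.2.2
    rw [← h1] at h2
    have h3 : a - g r = (a - r) - (g r - r) := by ring
    rw [h3]
    exact (na_sub hd.nonarch _ _).trans_lt (max_lt hr1 h2)

omit [IsGalois k kb] [IsAlgClosed kb] [CharZero kb] in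
theorem reps (hd : LocData v D p) {U : Subgroup Gal(kb/k)} (hU : FinIn D U) {π : kb}
    (hπ : π ∈ fixk U) (hπ0 : 0 < v π) (hmax : ∀ a ∈ fixk U, v a < 1 → v a ≤ v π) (j : ℕ) :
    ∃ R : Finset kb, (∀ r ∈ R, r ∈ fixk U) ∧
      ∀ a ∈ fixk U, v a ≤ 1 → ∃ r ∈ R, v (a - r) ≤ v π ^ j := by
  classical
  have hπne : π ≠ 0 := fun h => by rw [h, map_zero] at hπ0; exact lt_irrefl _ hπ0
  obtain ⟨R₁, hR₁, hR₁'⟩ := reps_one hd hU
  induction j with
  | zero =>
    refine ⟨{0}, ?_, ?_⟩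
    · intro r hr
      rw [Finset.mem_singleton] at hr
      rw [hr]
      exact zero_mem _
    · intro a _ ha1
      exact ⟨0, Finset.mem_singleton_self 0, by simpa using ha1⟩
  | succ j ih =>
    obtain ⟨R, hR, hR'⟩ := ih
    refine ⟨(R₁ ×ˢ R).image fun x => x.1 + π * x.2, ?_, ?_⟩
    · intro r hr
      obtain ⟨x, hx, rfl⟩ := Finset.mem_image.mp hr
      rw [Finset.mem_product] at hx
      exact add_mem (hR₁ _ hx.1) (mul_mem hπ (hR _ hx.2))
    · intro a ha ha1
      obtain ⟨r, hr, hr1⟩ := hR₁' a ha ha1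
      have h1 : a - r ∈ fixk U := sub_mem ha (hR₁ r hr)
      have h2 : v ((a - r) / π) ≤ 1 := by
        rw [map_div₀]
        exact div_le_one_of_le₀ (hmax _ h1 hr1) hπ0.le
      obtain ⟨s, hs, hs1⟩ := hR' _ (div_mem h1 hπ) h2
      refine ⟨r + π * s, Finset.mem_image.mpr ⟨(r, s), Finset.mk_mem_product hr hs, rfl⟩, ?_⟩
      have h3 : a - (r + π * s) = π * ((a - r) / π - s) := by field_simp; ring
      rw [h3, map_mul, pow_succ, mul_comm]
      exact mul_le_mul_of_nonneg_right hs1 hπ0.le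

end ClsAux

/-- CLS -/
theorem fin_classes (hd : LocData v D p) {U : Subgroup Gal(kb/k)} (hU : FinIn D U) :
    ∃ R : Finset kb, (∀ r ∈ R, r ∈ fixk U ∧ r ≠ 0) ∧
      ∀ a ∈ fixk U, a ≠ 0 → ∃ r ∈ R, ∃ b ∈ fixk U, b ≠ 0 ∧ a = r * b ^ p := by
  classical
  obtain ⟨π, hπ, hπ0, hπ1, hmax⟩ := hd.disc U hU
  have hπne : π ≠ 0 := fun h => by rw [h, map_zero] at hπ0; exact lt_irrefl _ hπ0
  have hp0 : p ≠ 0 := hd.prime.ne_zero
  have hpk : (p : kb) ≠ 0 := Nat.cast_ne_zero.mpr hp0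
  have hvp : 0 < v (p : kb) ^ 2 := pow_pos (v.pos hpk) 2
  obtain ⟨j, hj⟩ := exists_pow_lt_of_lt_one hvp hπ1
  have hj1 : v π ^ j < 1 := hj.trans_le (pow_le_one₀ (v.nonneg _) (na_nat hd.nonarch p))
  obtain ⟨S, hS, hS'⟩ := ClsAux.reps hd hU hπ hπ0 hmax j
  refine ⟨((Finset.range p ×ˢ S).image fun x => π ^ x.1 * x.2).erase 0, ?_, ?_⟩
  · intro r hr
    rw [Finset.mem_erase, Finset.mem_image] at hr
    obtain ⟨hr0, x, hx, rfl⟩ := hr
    rw [Finset.mem_product] at hx
    exact ⟨mul_mem (pow_mem hπ _) (hS _ hx.2), hr0⟩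
  · intro a ha ha0
    have hva : 0 < v a := v.pos ha0
    obtain ⟨m, hm1, hm2⟩ := exists_mem_Ioc_zpow (y := (v π)⁻¹) hva (one_lt_inv₀ hπ0 |>.mpr hπ1)
    -- `(v π)⁻¹ ^ m < v a ≤ (v π)⁻¹ ^ (m + 1)`
    set e : ℤ := -(m + 1) with he
    have hm1' : v π ^ (e + 1) < v a := by
      have h1 : e + 1 = -m := by rw [he]; ring
      rw [h1, zpow_neg, ← inv_zpow]
      exact hm1
    have hm2' : v a ≤ v π ^ e := by
      rw [he, zpow_neg, ← inv_zpow]
      exact hm2
    set u : kb := a / π ^ e with hu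
    have hπe : π ^ e ≠ 0 := zpow_ne_zero e hπne
    have hvπe : 0 < v π ^ e := zpow_pos hπ0 e
    have huU : u ∈ fixk U := div_mem ha (zpow_mem hπ e)
    have hvu : v u = v a / v π ^ e := by rw [hu, map_div₀, map_zpow₀]
    have hvu1 : v u ≤ 1 := by rw [hvu]; exact div_le_one_of_le₀ hm2' hvπe.le
    have hvu2 : v π < v u := by
      rw [hvu, lt_div_iff₀ hvπe]
      rw [zpow_add_one₀ hπ0.ne'] at hm1'
      rwa [mul_comm]
    have hvu3 : v u = 1 := by
      rcases hvu1.lt_or_eq with h | h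
      · exact absurd (hmax u huU h) (not_le.mpr hvu2)
      · exact h
    obtain ⟨s, hs, hs1⟩ := hS' u huU hvu1
    have hvs : v s = 1 := by
      have h1 : v (s - u) < v u := by
        rw [← AbsoluteValue.map_neg, neg_sub, hvu3]
        exact hs1.trans_lt hj1
      rw [na_eq_of_sub_lt hd.nonarch h1, hvu3]
    have hs0 : s ≠ 0 := fun h => by rw [h, map_zero] at hvs; exact zero_ne_one hvs
    have h2 : v (u / s - 1) < v (p : kb) ^ 2 := by
      have h3 : u / s - 1 = (u - s) / s := by field_simp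
      rw [h3, map_div₀, hvs, div_one]
      exact hs1.trans_lt hj
    obtain ⟨b, hb, hbp⟩ := root_p hd hU.1 (div_mem huU (hS s hs)) h2
    -- `e = p * q + i`
    have hpz : (p : ℤ) ≠ 0 := by exact_mod_cast hp0
    set q : ℤ := e / p with hq
    have hi0 : 0 ≤ e % p := Int.emod_nonneg e hpz
    have hi1 : e % p < p := Int.emod_lt_of_pos e (by positivity)
    obtain ⟨i, hi⟩ := Int.eq_ofNat_of_zero_le hi0
    have hip : i < p := by omega
    have hee : e = i + q * p := by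
      rw [← hi, hq]
      have := Int.emod_add_mul_ediv e p
      linarith [mul_comm (e / (p : ℤ)) (p : ℤ)]
    have hb0 : b ≠ 0 := by
      intro h
      rw [h, zero_pow hp0] at hbp
      have h4 : u ≠ 0 := fun h => by rw [h, map_zero] at hvu3; exact zero_ne_one hvu3
      exact div_ne_zero h4 hs0 hbp.symm
    refine ⟨π ^ i * s, ?_, π ^ q * b, mul_mem (zpow_mem hπ q) hb,
      mul_ne_zero (zpow_ne_zero q hπne) hb0, ?_⟩
    · rw [Finset.mem_erase]
      refine ⟨mul_ne_zero (pow_ne_zero i hπne) hs0, Finset.mem_image.mpr ⟨(i, s), ?_, rfl⟩⟩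
      exact Finset.mk_mem_product (Finset.mem_range.mpr hip) hs
    · have h5 : u = s * b ^ p := by rw [hbp]; field_simp
      have h6 : a = π ^ e * u := by rw [hu]; field_simp
      rw [h6, h5, hee, zpow_add₀ hπne, zpow_natCast, zpow_mul, zpow_natCast, mul_pow]
      ring

end Pool.Agent.Lib.MP_2f3286_ag.Koe
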