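import Pool.Agent.Lib.MP_2f3286_ag.Koe.Defs

/-!
# Roots of elements close to one in local fields
-/

open Polynomial

namespace Pool.Agent.Lib.MP_2f3286_ag.Koe

variable {k kb : Type*} [Field k] [Field kb] [Algebra k kb] [IsGalois k kb] [IsAlgClosed kb]
  [CharZero kb]

variable {v : AbsoluteValue kb ℝ} {D : Subgroup Gal(kb/k)} {p : ℕ}

namespace RootAux

variable {F : Type*} [Field F] {w : AbsoluteValue F ℝ}

theorem na_sub (h : ∀ a b, w (a + b) ≤ max (w a) (w b)) (a b : F) :
    w (a - b) ≤ max (w a) (w b) := by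
  have := h a (-b)
  rwa [← sub_eq_add_neg, AbsoluteValue.map_neg] at this

theorem na_nat (h : ∀ a b, w (a + b) ≤ max (w a) (w b)) (n : ℕ) : w (n : F) ≤ 1 := by
  induction n with
  | zero => simp
  | succ n ih =>
    push_cast
    refine (h _ _).trans (max_le ih ?_)
    rw [map_one]

theorem na_int (h : ∀ a b, w (a + b) ≤ max (w a) (w b)) (n : ℤ) : w (n : F) ≤ 1 := by
  rcases Int.eq_nat_or_neg n with ⟨m, rfl | rfl⟩
  · simpa using na_nat h m
  · simpa using na_nat h m

theorem na_nat_eq (h : ∀ a b, w (a + b) ≤ max (w a) (w b)) {p : ℕ} (hp : p.Prime)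
    (hs : w (p : F) < 1) {n : ℕ} (hn : ¬ p ∣ n) : w (n : F) = 1 := by
  refine le_antisymm (na_nat h n) ?_
  by_contra hlt
  push Not at hlt
  have hco : IsCoprime (n : ℤ) (p : ℤ) :=
    Nat.isCoprime_iff_coprime.mpr ((hp.coprime_iff_not_dvd.mpr hn).symm)
  obtain ⟨a, b, hab⟩ := hco
  have h1 : (1 : F) = (a : F) * (n : F) + (b : F) * (p : F) := by
    have := congrArg (Int.cast : ℤ → F) hab
    push_cast at this
    exact this.symm
  have h2 : w (1 : F) < 1 := by
    rw [h1]
    refine (h _ _).trans_lt (max_lt ?_ ?_)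
    · rw [map_mul]
      calc w (a : F) * w (n : F) ≤ 1 * w (n : F) :=
            mul_le_mul_of_nonneg_right (na_int h a) (w.nonneg _)
        _ < 1 := by rw [one_mul]; exact hlt
    · rw [map_mul]
      calc w (b : F) * w (p : F) ≤ 1 * w (p : F) :=
            mul_le_mul_of_nonneg_right (na_int h b) (w.nonneg _)
        _ < 1 := by rw [one_mul]; exact hs
  rw [map_one] at h2
  exact lt_irrefl _ h2

theorem na_sum_le (h : ∀ a b, w (a + b) ≤ max (w a) (w b)) {ι : Type*} (s : Finset ι) (f : ι → F)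
    {c : ℝ} (hc : 0 ≤ c) (hf : ∀ i ∈ s, w (f i) ≤ c) : w (∑ i ∈ s, f i) ≤ c := by
  classical
  induction s using Finset.induction_on with
  | empty => simpa using hc
  | insert a s ha ih =>
    rw [Finset.sum_insert ha]
    exact (h _ _).trans (max_le (hf a (Finset.mem_insert_self a s))
      (ih fun i hi => hf i (Finset.mem_insert_of_mem hi)))

theorem na_sum_lt (h : ∀ a b, w (a + b) ≤ max (w a) (w b)) {ι : Type*} (s : Finset ι) (f : ι → F)
    {c : ℝ} (hc : 0 < c) (hf : ∀ i ∈ s, w (f i) < c) : w (∑ i ∈ s, f i) < c := by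
  classical
  induction s using Finset.induction_on with
  | empty => simpa using hc
  | insert a s ha ih =>
    rw [Finset.sum_insert ha]
    exact (h _ _).trans_lt (max_lt (hf a (Finset.mem_insert_self a s))
      (ih fun i hi => hf i (Finset.mem_insert_of_mem hi)))

/-- an element close to a second one has the same absolute value -/
theorem na_eq_of_sub_lt (h : ∀ a b, w (a + b) ≤ max (w a) (w b)) {a b : F}
    (hab : w (a - b) < w b) : w a = w b := by
  refine le_antisymm ?_ ?_
  · have := h (a - b) b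
    rw [sub_add_cancel] at this
    exact this.trans (max_le hab.le le_rfl)
  · by_contra hlt
    push Not at hlt
    have := na_sub h a (a - b)
    rw [sub_sub_cancel] at this
    exact absurd (this.trans_lt (max_lt hlt hab)) (lt_irrefl _)

theorem na_pow_sub_one (h : ∀ a b, w (a + b) ≤ max (w a) (w b)) {z : F} (hz : w z ≤ 1) (i : ℕ) :
    w (z ^ i - 1) ≤ w (z - 1) := by
  have h1 : z ^ i - 1 = (z - 1) * ∑ j ∈ Finset.range i, z ^ j := (mul_geom_sum z i).symm
  rw [h1, map_mul]
  have h2 : w (∑ j ∈ Finset.range i, z ^ j) ≤ 1 := by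
    refine na_sum_le h _ _ zero_le_one fun j _ => ?_
    rw [map_pow]
    exact pow_le_one₀ (w.nonneg _) hz
  calc w (z - 1) * w (∑ j ∈ Finset.range i, z ^ j) ≤ w (z - 1) * 1 :=
        mul_le_mul_of_nonneg_left h2 (w.nonneg _)
    _ = w (z - 1) := mul_one _

theorem na_unity (h : ∀ a b, w (a + b) ≤ max (w a) (w b)) {p : ℕ} (hp : p.Prime)
    (hs : w (p : F) < 1) {z : F} {n : ℕ} (hn : ¬ p ∣ n) (hz : z ^ n = 1)
    (h1 : w (z - 1) < 1) : z = 1 := by
  by_contra hne
  have hzv : w z = 1 := by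
    have := na_eq_of_sub_lt h (a := z) (b := 1) (by rwa [map_one])
    rwa [map_one] at this
  have hsum : ∑ j ∈ Finset.range n, z ^ j = 0 := by
    have h2 : (z - 1) * ∑ j ∈ Finset.range n, z ^ j = 0 := by
      rw [mul_geom_sum, hz, sub_self]
    exact (mul_eq_zero.mp h2).resolve_left (sub_ne_zero.mpr hne)
  have h3 : w (∑ j ∈ Finset.range n, (z ^ j - 1)) < 1 := by
    refine na_sum_lt h _ _ zero_lt_one fun j _ => ?_
    exact (na_pow_sub_one h hzv.le j).trans_lt h1
  rw [Finset.sum_sub_distrib, hsum] at h3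
  simp only [Finset.sum_const, Finset.card_range, nsmul_eq_mul, mul_one, zero_sub,
    AbsoluteValue.map_neg] at h3
  rw [na_nat_eq h hp hs hn] at h3
  exact lt_irrefl _ h3

/-- some root of `X ^ n - a` is close to one if `a` is -/
theorem exists_root_near [IsAlgClosed F] {a : F} {n : ℕ} (hn : n ≠ 0) {t : ℝ} (ht : 0 ≤ t)
    (h1 : w (a - 1) < t ^ n) : ∃ b : F, b ^ n = a ∧ w (b - 1) < t := by
  by_contra hcon
  push Not at hcon
  have hsp : (X ^ n - C a : F[X]).Splits := IsAlgClosed.splits _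
  have hmon : (X ^ n - C a : F[X]).Monic := monic_X_pow_sub_C a hn
  have hprod := hsp.eq_prod_roots_of_monic hmon
  have hev := congrArg (Polynomial.eval 1) hprod
  have hcard : (X ^ n - C a : F[X]).roots.card = n := by
    rw [← hsp.natDegree_eq_card_roots]
    exact natDegree_X_pow_sub_C
  have hroot : ∀ b ∈ (X ^ n - C a : F[X]).roots, b ^ n = a := by
    intro b hb
    have h2 := (mem_roots hmon.ne_zero).mp hb
    simp only [IsRoot.def, eval_sub, eval_pow, eval_X, eval_C] at h2
    exact sub_eq_zero.mp h2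
  have hkey : ∀ m : Multiset F, (∀ b ∈ m, t ≤ w (b - 1)) →
      t ^ m.card ≤ w (Polynomial.eval 1 (m.map fun b => X - C b).prod) := by
    intro m
    induction m using Multiset.induction_on with
    | empty => intro _; simp
    | cons b m ih =>
      intro hb
      rw [Multiset.map_cons, Multiset.prod_cons, Multiset.card_cons, eval_mul, map_mul, pow_succ,
        mul_comm]
      refine mul_le_mul ?_ (ih fun c hc => hb c (Multiset.mem_cons_of_mem hc)) (by positivity)
        (w.nonneg _)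
      rw [eval_sub, eval_X, eval_C, ← AbsoluteValue.map_neg, neg_sub]
      exact hb b (Multiset.mem_cons_self b m)
  have h3 := hkey _ fun b hb => hcon b (hroot b hb)
  rw [hcard, ← hprod] at h3
  simp only [eval_sub, eval_pow, eval_X, eval_C, one_pow] at h3
  rw [← AbsoluteValue.map_neg, neg_sub] at h3
  exact absurd (h3.trans_lt h1) (lt_irrefl _)

/-- the absolute value of `ζ - 1` for a primitive `p`-th root of unity -/
theorem na_prim (h : ∀ a b, w (a + b) ≤ max (w a) (w b)) {p : ℕ} (hp : p.Prime)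
    {ζ : F} (hζ : IsPrimitiveRoot ζ p) : w (ζ - 1) ^ (p - 1) = w (p : F) := by
  have hone : ∀ {x : F}, x ^ p = 1 → w x = 1 := by
    intro x hx
    have h2 : w x ^ p = 1 := by rw [← map_pow, hx, map_one]
    exact (pow_eq_one_iff_of_nonneg (w.nonneg _) hp.ne_zero).mp h2
  have hle : ∀ {x y : F}, IsPrimitiveRoot x p → IsPrimitiveRoot y p →
      w (y - 1) ≤ w (x - 1) := by
    intro x y hx hy
    have : NeZero p := ⟨hp.ne_zero⟩
    obtain ⟨i, _, hi⟩ := hx.eq_pow_of_pow_eq_one hy.pow_eq_one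
    rw [← hi]
    exact na_pow_sub_one h (hone hx.pow_eq_one).le i
  have hcyc : (Polynomial.cyclotomic p F).eval 1 = (p : F) := by
    have : Fact p.Prime := ⟨hp⟩
    exact Polynomial.eval_one_cyclotomic_prime
  rw [← hcyc, Polynomial.cyclotomic_eq_prod_X_sub_primitiveRoots hζ, Polynomial.eval_prod,
    map_prod]
  have h4 : ∀ μ ∈ primitiveRoots p F, w (Polynomial.eval 1 (X - C μ)) = w (ζ - 1) := by
    intro μ hμ
    rw [mem_primitiveRoots hp.pos] at hμ
    rw [eval_sub, eval_X, eval_C, ← AbsoluteValue.map_neg, neg_sub]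
    exact le_antisymm (hle hζ hμ) (hle hμ hζ)
  rw [Finset.prod_congr rfl h4, Finset.prod_const, hζ.card_primitiveRoots,
    Nat.totient_prime hp]

end RootAux

open RootAux

omit [IsGalois k kb] [IsAlgClosed kb] in
/-- ROOT -/
theorem unity_eq (hd : LocData v D p) {z : kb} {n : ℕ} (hn : ¬ p ∣ n) (hz : z ^ n = 1)
    (h1 : v (z - 1) < 1) : z = 1 :=
  na_unity hd.nonarch hd.prime hd.small hn hz h1

/-- ROOT -/
theorem root_one (hd : LocData v D p) {U : Subgroup Gal(kb/k)} (hU : U ≤ D) {a : kb}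
    (ha : a ∈ fixk U) (h1 : v (a - 1) < 1) {n : ℕ} (hn : ¬ p ∣ n) :
    ∃ b ∈ fixk U, b ^ n = a ∧ v (b - 1) < 1 := by
  have hn0 : n ≠ 0 := fun h => hn (h ▸ dvd_zero p)
  obtain ⟨b, hb, hb1⟩ := exists_root_near (w := v) hn0 zero_le_one (a := a)
    (by rwa [one_pow])
  have hvb : v b = 1 := by
    have := na_eq_of_sub_lt hd.nonarch (a := b) (b := 1) (by rwa [map_one])
    rwa [map_one] at this
  have hb0 : b ≠ 0 := fun h => by rw [h, map_zero] at hvb; exact zero_ne_one hvb
  refine ⟨b, ?_, hb, hb1⟩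
  rw [mem_fixk]
  intro σ hσ
  have h2 : (σ b / b) ^ n = 1 := by
    rw [div_pow, ← map_pow, hb, mem_fixk.mp ha σ hσ, div_self]
    rw [← hb]
    exact pow_ne_zero n hb0
  have h3 : v (σ b / b - 1) < 1 := by
    have h4 : σ b / b - 1 = (σ b - b) / b := by field_simp
    rw [h4, map_div₀, hvb, div_one]
    have h5 : σ b - b = σ (b - 1) - (b - 1) := by rw [map_sub, map_one]; ring
    rw [h5]
    refine (na_sub hd.nonarch _ _).trans_lt (max_lt ?_ hb1)
    rw [hd.isom σ (hU hσ)]
    exact hb1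
  have h6 := unity_eq hd hn h2 h3
  rwa [div_eq_one_iff_eq hb0] at h6

/-- ROOT -/
theorem root_p (hd : LocData v D p) {U : Subgroup Gal(kb/k)} (hU : U ≤ D) {a : kb}
    (ha : a ∈ fixk U) (h1 : v (a - 1) < v (p : kb) ^ 2) : ∃ b ∈ fixk U, b ^ p = a := by
  have hp := hd.prime
  have hp0 : p ≠ 0 := hp.ne_zero
  have hpk : (p : kb) ≠ 0 := Nat.cast_ne_zero.mpr hp0
  have : NeZero (p : kb) := ⟨hpk⟩
  obtain ⟨ζ, hζ⟩ := HasEnoughRootsOfUnity.exists_primitiveRoot kb p
  set t := v (ζ - 1) with ht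
  have ht0 : 0 ≤ t := v.nonneg _
  have hvζ : v ζ = 1 := by
    have h2 : v ζ ^ p = 1 := by rw [← map_pow, hζ.pow_eq_one, map_one]
    exact (pow_eq_one_iff_of_nonneg (v.nonneg _) hp0).mp h2
  have ht1 : t ≤ 1 := by
    refine (na_sub hd.nonarch _ _).trans (max_le hvζ.le ?_)
    rw [map_one]
  have htp : t ^ (p - 1) = v (p : kb) := na_prim hd.nonarch hp hζ
  have hp1 : 1 ≤ p - 1 := by have := hp.two_le; omega
  have htle : v (p : kb) ≤ t := by
    rw [← htp]
    exact pow_le_of_le_one ht0 ht1 (by omega)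
  have hlt : v (a - 1) < t ^ p := by
    refine h1.trans_le ?_
    have h3 : t ^ p = v (p : kb) * t := by
      rw [← htp, ← pow_succ]
      congr 1
      omega
    rw [h3, sq]
    exact mul_le_mul_of_nonneg_left htle (v.nonneg _)
  obtain ⟨b, hb, hb1⟩ := exists_root_near (w := v) hp0 ht0 hlt
  have hb1' : v (b - 1) < 1 := hb1.trans_le ht1
  have hvb : v b = 1 := by
    have := na_eq_of_sub_lt hd.nonarch (a := b) (b := 1) (by rwa [map_one])
    rwa [map_one] at this
  have hb0 : b ≠ 0 := fun h => by rw [h, map_zero] at hvb; exact zero_ne_one hvb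
  refine ⟨b, ?_, hb⟩
  rw [mem_fixk]
  intro σ hσ
  have h2 : (σ b / b) ^ p = 1 := by
    rw [div_pow, ← map_pow, hb, mem_fixk.mp ha σ hσ, div_self]
    rw [← hb]
    exact pow_ne_zero p hb0
  have h3 : v (σ b / b - 1) < t := by
    have h4 : σ b / b - 1 = (σ b - b) / b := by field_simp
    rw [h4, map_div₀, hvb, div_one]
    have h5 : σ b - b = σ (b - 1) - (b - 1) := by rw [map_sub, map_one]; ring
    rw [h5]
    refine (na_sub hd.nonarch _ _).trans_lt (max_lt ?_ hb1)
    rw [hd.isom σ (hU hσ)]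
    exact hb1
  by_contra hne
  have h6 : σ b / b ≠ 1 := fun h => hne ((div_eq_one_iff_eq hb0).mp h)
  have h7 : IsPrimitiveRoot (σ b / b) p := by
    have h8 := IsPrimitiveRoot.orderOf (σ b / b)
    have h9 : orderOf (σ b / b) = p := by
      rcases (Nat.dvd_prime hp).mp (orderOf_dvd_of_pow_eq_one h2) with h | h
      · exact absurd (orderOf_eq_one_iff.mp h) h6
      · exact h
    rwa [h9] at h8
  have h10 := na_prim hd.nonarch hp h7
  rw [← htp] at h10
  have h11 : v (σ b / b - 1) = t :=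
    (pow_left_inj₀ (v.nonneg _) ht0 (by omega)).mp h10
  exact absurd h3 (by rw [h11]; exact lt_irrefl _)

end Pool.Agent.Lib.MP_2f3286_ag.Koe
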