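import Pool.Agent.Lib.MP_2f3286_ag.Koe.Defs
import Pool.Agent.Lib.MP_2f3286_ag.Koe.Root

namespace Pool.Agent.Lib.MP_2f3286_ag.Koe

open Polynomial

variable {k kb : Type*} [Field k] [Field kb] [Algebra k kb] [IsGalois k kb] [IsAlgClosed kb]
  [CharZero kb]

variable {v : AbsoluteValue kb ℝ} {D : Subgroup Gal(kb/k)} {p : ℕ}

/-- the unit ball of `fixk U` -/
def ballU (hd : LocData v D p) (U : Subgroup Gal(kb/k)) : ValuationSubring (fixk U) where
  carrier := {a | v (a : kb) ≤ 1}
  mul_mem' := fun {a b} (ha : v (a : kb) ≤ 1) (hb : v (b : kb) ≤ 1) => by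
    change v ((a : kb) * b) ≤ 1
    rw [map_mul]
    exact mul_le_one₀ ha (v.nonneg _) hb
  one_mem' := by change v (1 : kb) ≤ 1; simp
  add_mem' := fun {a b} (ha : v (a : kb) ≤ 1) (hb : v (b : kb) ≤ 1) => by
    change v ((a : kb) + b) ≤ 1
    exact (hd.nonarch _ _).trans (max_le ha hb)
  zero_mem' := by change v (0 : kb) ≤ 1; simp
  neg_mem' := fun {a} (ha : v (a : kb) ≤ 1) => by
    change v (-(a : kb)) ≤ 1
    rwa [v.map_neg]
  mem_or_inv_mem' := fun a => by
    change v (a : kb) ≤ 1 ∨ v ((a : kb)⁻¹) ≤ 1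
    rcases le_total (v (a : kb)) 1 with h | h
    · exact Or.inl h
    · right
      rw [map_inv₀]
      exact inv_le_one_of_one_le₀ h

omit [IsGalois k kb] [IsAlgClosed kb] [CharZero kb] in
theorem mem_ballU (hd : LocData v D p) (U : Subgroup Gal(kb/k)) {a : fixk U} :
    a ∈ ballU hd U ↔ v (a : kb) ≤ 1 := Iff.rfl

omit [IsGalois k kb] [IsAlgClosed kb] [CharZero kb] in
theorem ballU_unit (hd : LocData v D p) (U : Subgroup Gal(kb/k)) (a : ballU hd U) :
    IsUnit a ↔ v ((a : fixk U) : kb) = 1 := by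
  constructor
  · intro h
    obtain ⟨b, hb⟩ := h.exists_right_inv
    have h1 : ((a : fixk U) : kb) * ((b : fixk U) : kb) = 1 := by
      have := congrArg (fun x : ballU hd U => ((x : fixk U) : kb)) hb
      simpa using this
    have h2 : v ((a : fixk U) : kb) * v ((b : fixk U) : kb) = 1 := by
      rw [← map_mul, h1, map_one]
    have h3 : v ((a : fixk U) : kb) ≤ 1 := a.2
    have h4 : v ((b : fixk U) : kb) ≤ 1 := b.2
    refine le_antisymm h3 ?_
    nlinarith [v.nonneg ((a : fixk U) : kb)]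
  · intro h
    have h0 : (a : fixk U) ≠ 0 := by
      intro h0
      rw [h0] at h
      simp at h
    have h1 : (a : fixk U)⁻¹ ∈ ballU hd U := by
      change v (((a : fixk U) : kb)⁻¹) ≤ 1
      rw [map_inv₀, h, inv_one]
    refine IsUnit.of_mul_eq_one ⟨(a : fixk U)⁻¹, h1⟩ ?_
    apply Subtype.ext
    change (a : fixk U) * (a : fixk U)⁻¹ = 1
    exact mul_inv_cancel₀ h0

omit [IsGalois k kb] [IsAlgClosed kb] [CharZero kb] in
theorem ballU_res (hd : LocData v D p) (U : Subgroup Gal(kb/k)) (a : ballU hd U) :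
    IsLocalRing.residue (ballU hd U) a = 0 ↔ v ((a : fixk U) : kb) < 1 := by
  rw [IsLocalRing.residue_eq_zero_iff, IsLocalRing.mem_maximalIdeal, mem_nonunits_iff, ballU_unit]
  have h : v ((a : fixk U) : kb) ≤ 1 := a.2
  exact ⟨fun h1 => lt_of_le_of_ne h h1, fun h1 => h1.ne⟩

omit [IsGalois k kb] [CharZero kb] in
/-- approximate roots of `X ^ q - X` -/
theorem near_root (v : AbsoluteValue kb ℝ) {q : ℕ} (hq : 2 ≤ q) {a : kb}
    (h : v (a ^ q - a) < 1) : ∃ x : kb, x ^ q = x ∧ v (a - x) < 1 := by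
  have hm : (X ^ q - X : kb[X]).Monic := by
    apply monic_X_pow_sub
    rw [degree_X]
    exact_mod_cast hq
  have h1 := (IsAlgClosed.splits (X ^ q - X : kb[X])).eval_eq_prod_roots_of_monic hm a
  by_contra hcon
  push Not at hcon
  have h2 : ∀ s : Multiset kb, (∀ x ∈ s, x ^ q = x) → 1 ≤ v ((s.map (a - ·)).prod) := by
    intro s
    induction s using Multiset.induction_on with
    | empty => simp
    | cons x s ih =>
      intro hs
      rw [Multiset.map_cons, Multiset.prod_cons, map_mul]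
      exact one_le_mul_of_one_le_of_one_le (hcon x (hs x (Multiset.mem_cons_self x s)))
        (ih fun y hy => hs y (Multiset.mem_cons_of_mem hy))
  have h3 := h2 (X ^ q - X : kb[X]).roots (fun x hx => by
    have := Polynomial.isRoot_of_mem_roots hx
    simpa [IsRoot.def, sub_eq_zero] using this)
  rw [← h1] at h3
  simp only [eval_sub, eval_pow, eval_X] at h3
  linarith

omit [IsGalois k kb] in
/-- TEICH -/
theorem teich (hd : LocData v D p) {U : Subgroup Gal(kb/k)} (hU : FinIn D U) :
    ∃ f : ℕ, 1 ≤ f ∧ (∀ x : kb, x ^ (p ^ f) = x → x ∈ fixk U) ∧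
      ∀ a ∈ fixk U, v a ≤ 1 → ∃ x : kb, x ^ (p ^ f) = x ∧ v (a - x) < 1 := by
  classical
  have hp : Fact p.Prime := ⟨hd.prime⟩
  set B := ballU hd U with hB
  let κ := IsLocalRing.ResidueField B
  have hsur : ∀ c : κ, ∃ a : B, IsLocalRing.residue B a = c := IsLocalRing.residue_surjective
  choose lift hlift using hsur
  obtain ⟨R, hR⟩ := hd.res U hU
  have hR' : ∀ c : κ, ∃ r : R, v (((lift c : fixk U) : kb) - r) < 1 := by
    intro c
    obtain ⟨r, hr, hr'⟩ := hR _ (lift c : fixk U).2 (lift c).2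
    exact ⟨⟨r, hr⟩, hr'⟩
  choose g hg using hR'
  have hsubres : ∀ a b : B, v (((a : fixk U) : kb) - ((b : fixk U) : kb)) < 1 →
      IsLocalRing.residue B a = IsLocalRing.residue B b := by
    intro a b h
    rw [← sub_eq_zero, ← map_sub, ballU_res]
    exact h
  have hinj : Function.Injective g := by
    intro c d hcd
    have h1 := hg c
    have h2 := hg d
    rw [hcd] at h1
    rw [← hlift c, ← hlift d]
    apply hsubres
    have h3 : (((lift c : fixk U) : kb) - ((lift d : fixk U) : kb)) =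
      (((lift c : fixk U) : kb) - (g d : kb)) + -(((lift d : fixk U) : kb) - (g d : kb)) := by ring
    rw [h3]
    refine (hd.nonarch _ _).trans_lt (max_lt h1 ?_)
    rwa [v.map_neg]
  have hfin : Finite κ := Finite.of_injective g hinj
  have hchar : CharP κ p := by
    refine (CharP.charP_iff_prime_eq_zero hd.prime).mpr ?_
    have h1 : IsLocalRing.residue B ((p : ℕ) : B) = 0 := by
      rw [ballU_res]
      simpa using hd.small
    simpa using h1
  have : Fintype κ := Fintype.ofFinite κ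
  obtain ⟨f, -, hf⟩ := FiniteField.card κ p
  have hf1 : 1 ≤ (f : ℕ) := f.2
  have hq2 : 2 ≤ p ^ (f : ℕ) :=
    hd.prime.two_le.trans (Nat.le_self_pow (by omega) p)
  have hA : ∀ a : B, v (((a : fixk U) : kb) ^ (p ^ (f : ℕ)) - ((a : fixk U) : kb)) < 1 := by
    intro a
    have h1 : IsLocalRing.residue B (a ^ (p ^ (f : ℕ)) - a) = 0 := by
      rw [map_sub, map_pow, ← hf]
      rw [FiniteField.pow_card, sub_self]
    rw [ballU_res] at h1
    simpa using h1
  have hA' : ∀ a : B, ∃ x : kb, x ^ (p ^ (f : ℕ)) = x ∧ v (((a : fixk U) : kb) - x) < 1 :=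
    fun a => near_root v hq2 (hA a)
  refine ⟨f, hf1, ?_, fun a ha hva => hA' ⟨⟨a, ha⟩, hva⟩⟩
  choose X' hX hX' using hA'
  have hneg : ∀ x y z : kb, v (x - y) < 1 → v (x - z) < 1 → v (y - z) < 1 := by
    intro x y z h1 h2
    have h3 : y - z = -(x - y) + (x - z) := by ring
    rw [h3]
    refine (hd.nonarch _ _).trans_lt (max_lt ?_ h2)
    rwa [v.map_neg]
  -- every root of `X ^ q - X` is one of the chosen ones
  set P : kb[X] := X ^ (p ^ (f : ℕ)) - X with hP
  have hPm : P.Monic := by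
    apply monic_X_pow_sub
    rw [degree_X]
    exact_mod_cast hq2
  have hPdeg : P.natDegree = p ^ (f : ℕ) := by
    rw [hP]
    apply natDegree_eq_of_degree_eq_some
    rw [degree_sub_eq_left_of_degree_lt, degree_X_pow]
    rw [degree_X, degree_X_pow]
    exact_mod_cast hq2
  have hroot : ∀ x : kb, x ∈ P.roots.toFinset ↔ x ^ (p ^ (f : ℕ)) = x := by
    intro x
    rw [Multiset.mem_toFinset, mem_roots hPm.ne_zero, IsRoot.def, hP]
    simp [sub_eq_zero]
  have himg : (Finset.univ.image fun c : κ => X' (lift c)) = P.roots.toFinset := by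
    apply Finset.eq_of_subset_of_card_le
    · intro x hx
      rw [Finset.mem_image] at hx
      obtain ⟨c, -, rfl⟩ := hx
      rw [hroot]
      exact hX _
    · rw [Finset.card_image_of_injective, Finset.card_univ, hf]
      · refine (Multiset.toFinset_card_le _).trans ?_
        rw [← hPdeg]
        exact card_roots' P
      · intro c d hcd
        have hcd' : X' (lift c) = X' (lift d) := hcd
        rw [← hlift c, ← hlift d]
        apply hsubres
        apply hneg (X' (lift c))
        · rw [v.map_sub]; exact hX' _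
        · rw [hcd', v.map_sub]; exact hX' _
  intro x hx
  rw [← hroot, ← himg, Finset.mem_image] at hx
  obtain ⟨c, -, rfl⟩ := hx
  intro σ hσ
  have hσD : σ ∈ D := hU.1 hσ
  have h1 := hX' (lift c)
  have h2 : v (((lift c : fixk U) : kb) - σ (X' (lift c))) < 1 := by
    have h3 : σ ((lift c : fixk U) : kb) = ((lift c : fixk U) : kb) := (lift c : fixk U).2 σ hσ
    have h4 := hd.isom σ hσD (((lift c : fixk U) : kb) - X' (lift c))
    rw [map_sub, h3] at h4
    rw [h4]; exact h1
  have h5 : v (σ (X' (lift c)) - X' (lift c)) < 1 := hneg _ _ _ h2 h1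
  by_cases h0 : X' (lift c) = 0
  · rw [h0, map_zero]
  have h6 : X' (lift c) ^ (p ^ (f : ℕ) - 1) = 1 := by
    have h7 := hX (lift c)
    have h8 : X' (lift c) ^ (p ^ (f : ℕ) - 1) * X' (lift c) = 1 * X' (lift c) := by
      rw [← pow_succ, Nat.sub_add_cancel (by omega), h7, one_mul]
    exact mul_right_cancel₀ h0 h8
  have h7 : (σ (X' (lift c)) / X' (lift c)) ^ (p ^ (f : ℕ) - 1) = 1 := by
    rw [div_pow, ← map_pow, h6, map_one, div_one]
  have h8 : v (X' (lift c)) = 1 := by
    have h9 : v (X' (lift c)) ^ (p ^ (f : ℕ) - 1) = 1 := by rw [← map_pow, h6, map_one]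
    exact (pow_eq_one_iff_of_nonneg (v.nonneg _) (by omega)).mp h9
  have h9 : ¬ p ∣ (p ^ (f : ℕ) - 1) := by
    intro h10
    have h11 : p ∣ p ^ (f : ℕ) := dvd_pow_self p (by omega)
    have h12 : p ∣ 1 := by
      have := (Nat.dvd_sub h11 h10)
      rwa [Nat.sub_sub_self (by omega)] at this
    exact hd.prime.one_lt.ne' (Nat.dvd_one.mp h12)
  have h10 := unity_eq hd h9 h7 (by
    have h11 : σ (X' (lift c)) / X' (lift c) - 1 = (σ (X' (lift c)) - X' (lift c)) / X' (lift c) := by
      field_simp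
    rw [h11, map_div₀, h8, div_one]
    exact h5)
  rwa [div_eq_one_iff_eq h0] at h10

end Pool.Agent.Lib.MP_2f3286_ag.Koe
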