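import Mathlib

/-!
# Residue fields of a nonarchimedean absolute value on a subfield, and `ℓ`-th powers in finite fields
-/

namespace Pool.Agent.Lib.MP_2f3286_ag.Koe

/-- the ring of elements of absolute value at most one of the subfield `F` -/
def ringOf {kb : Type*} [Field kb] (v : AbsoluteValue kb ℝ)
    (hna : ∀ a b, v (a + b) ≤ max (v a) (v b)) (F : Subfield kb) : Subring kb where
  carrier := {a | a ∈ F ∧ v a ≤ 1}
  mul_mem' := fun {a b} ha hb => ⟨F.mul_mem ha.1 hb.1, by
    rw [map_mul]; exact mul_le_one₀ ha.2 (v.nonneg b) hb.2⟩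
  one_mem' := ⟨F.one_mem, by rw [map_one]⟩
  add_mem' := fun {a b} ha hb => ⟨F.add_mem ha.1 hb.1, (hna a b).trans (max_le ha.2 hb.2)⟩
  zero_mem' := ⟨F.zero_mem, by rw [map_zero]; exact zero_le_one⟩
  neg_mem' := fun {a} ha => ⟨F.neg_mem ha.1, by rw [v.map_neg]; exact ha.2⟩

/-- the ideal of elements of absolute value less than one -/
def idealOf {kb : Type*} [Field kb] (v : AbsoluteValue kb ℝ)
    (hna : ∀ a b, v (a + b) ≤ max (v a) (v b)) (F : Subfield kb) : Ideal (ringOf v hna F) where
  carrier := {a | v (a : kb) < 1}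
  add_mem' := fun {a b} ha hb => by
    have : v ((a : kb) + b) < 1 := lt_of_le_of_lt (hna a b) (max_lt ha hb)
    exact this
  zero_mem' := by
    have : v ((0 : ringOf v hna F) : kb) < 1 := by simp
    exact this
  smul_mem' := fun c {a} ha => by
    have h : v ((c : kb) * a) < 1 := by
      rw [map_mul]
      exact mul_lt_one_of_nonneg_of_lt_one_right c.2.2 (v.nonneg _) ha
    exact h

universe u in
/-- the residue field -/
theorem exists_residue {kb : Type u} [Field kb] (v : AbsoluteValue kb ℝ)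
    (hna : ∀ a b, v (a + b) ≤ max (v a) (v b)) (F : Subfield kb) :
    ∃ (κ : Type u) (_ : Field κ) (red : ringOf v hna F →+* κ), Function.Surjective red ∧
      ∀ a, red a = 0 ↔ v (a : kb) < 1 := by
  have hmax : (idealOf v hna F).IsMaximal := by
    rw [Ideal.isMaximal_iff]
    refine ⟨fun h => ?_, fun I a hle ha haI => ?_⟩
    · have h1 : v ((1 : ringOf v hna F) : kb) < 1 := h
      simp at h1
    · have ha1 : v (a : kb) = 1 := le_antisymm a.2.2 (not_lt.1 ha)
      have ha0 : (a : kb) ≠ 0 := fun h => by rw [h, map_zero] at ha1; exact zero_ne_one ha1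
      have hinv : (a : kb)⁻¹ ∈ ringOf v hna F := ⟨F.inv_mem a.2.1, by rw [map_inv₀, ha1, inv_one]⟩
      have h1 : (1 : ringOf v hna F) = ⟨(a : kb)⁻¹, hinv⟩ * a := by
        apply Subtype.ext
        simp [inv_mul_cancel₀ ha0]
      rw [h1]
      exact I.mul_mem_left _ haI
  refine ⟨ringOf v hna F ⧸ idealOf v hna F, Ideal.Quotient.field _, Ideal.Quotient.mk _,
    Ideal.Quotient.mk_surjective, fun a => ?_⟩
  exact Ideal.Quotient.eq_zero_iff_mem

theorem red_eq_iff {kb : Type*} [Field kb] {v : AbsoluteValue kb ℝ}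
    {hna : ∀ a b, v (a + b) ≤ max (v a) (v b)} {F : Subfield kb} {κ : Type*} [Field κ]
    {red : ringOf v hna F →+* κ} (hred : ∀ a, red a = 0 ↔ v (a : kb) < 1) {a b : ringOf v hna F} :
    red a = red b ↔ v ((a : kb) - b) < 1 := by
  rw [← sub_eq_zero, ← map_sub, hred]
  rfl

/-- in a finite field with `q ≥ ℓ²` elements, `ℓ ∣ q - 1`, some `e` which is not an `ℓ`-th power is
such that `1 + e` is a non-zero `ℓ`-th power -/
theorem exists_nonpower {κ : Type*} [Field κ] [Finite κ] {ℓ : ℕ} (hℓ : ℓ.Prime) (h2 : ℓ ≠ 2)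
    (hdvd : ℓ ∣ Nat.card κ - 1) (hcard : ℓ ^ 2 ≤ Nat.card κ) :
    ∃ e : κ, (¬ ∃ y : κ, y ^ ℓ = e) ∧ ∃ y : κ, y ≠ 0 ∧ y ^ ℓ = 1 + e := by
  classical
  by_contra hcon
  push Not at hcon
  have hodd : Odd ℓ := hℓ.odd_of_ne_two h2
  have hℓ0 : ℓ ≠ 0 := hℓ.ne_zero
  -- the set of all powers is a subfield
  have hsub1 : ∀ r : κ, (∃ y : κ, y ^ ℓ = r) → ∃ y : κ, y ^ ℓ = r - 1 := by
    rintro r ⟨y, rfl⟩
    by_contra h
    have h1 := hcon (y ^ ℓ - 1) (fun z hz => h ⟨z, hz⟩) y
    by_cases hy : y = 0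
    · apply h
      refine ⟨-1, ?_⟩
      rw [hy, zero_pow hℓ0, zero_sub, hodd.neg_one_pow]
    · exact h1 hy (by ring)
  let S : Subfield κ :=
    { carrier := {x | ∃ y : κ, y ^ ℓ = x}
      mul_mem' := by
        rintro a b ⟨x, rfl⟩ ⟨y, rfl⟩
        exact ⟨x * y, mul_pow _ _ _⟩
      one_mem' := ⟨1, one_pow _⟩
      add_mem' := by
        rintro a b ⟨x, rfl⟩ ⟨y, rfl⟩
        by_cases hy : y = 0
        · exact ⟨x, by rw [hy, zero_pow hℓ0, add_zero]⟩
        · obtain ⟨z, hz⟩ := hsub1 ((-x / y) ^ ℓ) ⟨_, rfl⟩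
          refine ⟨-y * z, ?_⟩
          rw [mul_pow, hz, div_pow, hodd.neg_pow, hodd.neg_pow]
          have : y ^ ℓ ≠ 0 := pow_ne_zero _ hy
          field_simp
          ring
      zero_mem' := ⟨0, zero_pow hℓ0⟩
      neg_mem' := by
        rintro a ⟨x, rfl⟩
        exact ⟨-x, hodd.neg_pow x⟩
      inv_mem' := by
        rintro a ⟨x, rfl⟩
        exact ⟨x⁻¹, inv_pow _ _⟩ }
  have hfinκ : Fintype κ := Fintype.ofFinite κ
  have hfinS : Finite S := inferInstance
  -- some element is not a power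
  have hne : ∃ e : κ, e ∉ S := by
    by_contra hall
    push Not at hall
    have hsurj : Function.Surjective (fun y : κ => y ^ ℓ) := fun e => hall e
    have hinj : Function.Injective (fun y : κ => y ^ ℓ) := Finite.injective_iff_surjective.2 hsurj
    have hcu : Nat.card κˣ = Nat.card κ - 1 := by
      rw [Nat.card_eq_fintype_card, Nat.card_eq_fintype_card, Fintype.card_units]
    have : Fact ℓ.Prime := ⟨hℓ⟩
    obtain ⟨u, hu⟩ := exists_prime_orderOf_dvd_card' (G := κˣ) ℓ (by rw [hcu]; exact hdvd)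
    have h1 : u ^ ℓ = 1 := by rw [← hu]; exact pow_orderOf_eq_one u
    have h2' : (fun y : κ => y ^ ℓ) (u : κ) = (fun y : κ => y ^ ℓ) 1 := by
      simp only [one_pow]
      rw [← Units.val_pow_eq_pow_val, h1, Units.val_one]
    have h3 := hinj h2'
    have h4 : u = 1 := Units.ext h3
    rw [h4, orderOf_one] at hu
    exact hℓ.one_lt.ne hu
  -- counting
  set t := Nat.card S with ht
  have ht2 : t ^ 2 ≤ Nat.card κ := by
    have h1 : Nat.card κ = t ^ Module.finrank S κ := by
      have := Module.natCard_eq_pow_finrank (K := S) (V := κ)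
      exact this
    rw [h1]
    apply Nat.pow_le_pow_right Nat.card_pos
    by_contra h3
    have h4 : Module.finrank S κ ≤ 1 := by omega
    have h5 : 0 < Module.finrank S κ := Module.finrank_pos
    have h6 : Module.finrank S κ = 1 := by omega
    obtain ⟨e, he⟩ := hne
    have h7 : (S : Set κ) = Set.univ := by
      apply Set.eq_of_subset_of_ncard_le (Set.subset_univ _)
      · rw [Set.ncard_univ, h1, h6, pow_one, ht]
        exact le_of_eq (Nat.card_coe_set_eq (S : Set κ)).symm.symm
    have : e ∈ (S : Set κ) := by rw [h7]; trivial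
    exact he this
  have hq : Nat.card κ - 1 ≤ ℓ * (t - 1) := by
    -- the fibres of the power map on the non-zero elements
    have h1 : (Finset.univ.erase (0 : κ)).card ≤
        ℓ * ((Finset.univ.filter (· ∈ S)).erase (0 : κ)).card := by
      apply Finset.card_le_mul_card_image_of_maps_to (f := fun y : κ => y ^ ℓ)
      · intro y hy
        rw [Finset.mem_erase] at hy ⊢
        exact ⟨pow_ne_zero _ hy.1, Finset.mem_filter.2 ⟨Finset.mem_univ _, y, rfl⟩⟩
      · intro b hb
        have : (Finset.univ.erase (0 : κ)).filter (fun y => y ^ ℓ = b) ⊆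
            (Polynomial.nthRoots ℓ b).toFinset := by
          intro y hy
          rw [Multiset.mem_toFinset, Polynomial.mem_nthRoots hℓ.pos]
          exact (Finset.mem_filter.1 hy).2
        exact (Finset.card_le_card this).trans
          ((Multiset.toFinset_card_le _).trans (Polynomial.card_nthRoots ℓ b))
    rw [Finset.card_erase_of_mem (Finset.mem_univ _), Finset.card_erase_of_mem (by
      simp [S.zero_mem])] at h1
    have h2 : (Finset.univ.filter (· ∈ S)).card = t := by
      rw [ht, Nat.card_eq_fintype_card, Fintype.card_subtype]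
    rw [h2, Finset.card_univ, ← Nat.card_eq_fintype_card] at h1
    exact h1
  have htpos : 2 ≤ t := by
    have : Nontrivial S := inferInstance
    have := Finite.one_lt_card (α := S)
    omega
  have hkpos : 1 ≤ Nat.card κ := Nat.card_pos
  have hℓ2 := hℓ.two_le
  obtain ⟨s, hs⟩ : ∃ s, t = s + 1 := ⟨t - 1, by omega⟩
  rw [hs] at ht2 hq htpos
  simp only [Nat.add_sub_cancel] at hq
  have h3 : s * (s + 2) ≤ ℓ * s := by nlinarith [Nat.sub_add_cancel hkpos]
  have h4 : s + 2 ≤ ℓ := by
    have : 0 < s := by omega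
    nlinarith
  have h5 : Nat.card κ ≤ ℓ * s + 1 := by omega
  nlinarith

end Pool.Agent.Lib.MP_2f3286_ag.Koe
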