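import Pool.Agent.Lib.MP_2f3286_ag.Koe.Root
import Pool.Agent.Lib.MP_2f3286_ag.Koe.Resid

/-!
# A root of unity `ε` which is not an `ℓ`-th power while `1 + ε` is one
-/

namespace Pool.Agent.Lib.MP_2f3286_ag.Koe

section resid

variable {k kb : Type*} [Field k] [Field kb] [Algebra k kb]
  {v : AbsoluteValue kb ℝ} {D : Subgroup Gal(kb/k)} {p : ℕ}

/-- the residue field of `fixk U` is finite of characteristic `p` -/
theorem resid_finite (hd : LocData v D p) {U : Subgroup Gal(kb/k)} (hU : FinIn D U) {κ : Type*}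
    [Field κ] {red : ringOf v hd.nonarch (fixk U) →+* κ} (hsurj : Function.Surjective red)
    (hred : ∀ a, red a = 0 ↔ v (a : kb) < 1) : Finite κ := by
  obtain ⟨R, hR⟩ := hd.res U hU
  have h1 : ∀ c : κ, ∃ r : R, ∃ a : ringOf v hd.nonarch (fixk U), red a = c ∧
      v ((a : kb) - r) < 1 := by
    intro c
    obtain ⟨a, rfl⟩ := hsurj c
    obtain ⟨r, hr, h⟩ := hR a a.2.1 a.2.2
    exact ⟨⟨r, hr⟩, a, rfl, h⟩
  choose f a ha1 ha2 using h1
  refine Finite.of_injective f (fun c c' hcc => ?_)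
  rw [← ha1 c, ← ha1 c', red_eq_iff hred]
  have h3 : ((a c : kb) - a c') = ((a c : kb) - f c) + -((a c' : kb) - f c) := by ring
  rw [h3]
  refine lt_of_le_of_lt (hd.nonarch _ _) (max_lt (ha2 c) ?_)
  rw [v.map_neg, hcc]
  exact ha2 c'

theorem resid_char (hd : LocData v D p) {U : Subgroup Gal(kb/k)} {κ : Type*}
    [Field κ] {red : ringOf v hd.nonarch (fixk U) →+* κ}
    (hred : ∀ a, red a = 0 ↔ v (a : kb) < 1) : (p : κ) = 0 := by
  have h1 : red (p : ringOf v hd.nonarch (fixk U)) = 0 := by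
    rw [hred]
    have := hd.small
    simpa using this
  rwa [map_natCast] at h1

theorem resid_card (hd : LocData v D p) {U : Subgroup Gal(kb/k)} {κ : Type*}
    [Field κ] [Finite κ] {red : ringOf v hd.nonarch (fixk U) →+* κ}
    (hred : ∀ a, red a = 0 ↔ v (a : kb) < 1) : p ∣ Nat.card κ := by
  have := Fintype.ofFinite κ
  have hp0 := resid_char hd hred
  obtain ⟨q, hq⟩ := CharP.exists κ
  have h1 : q ∣ p := (CharP.cast_eq_zero_iff κ q p).1 hp0
  have h2 : q = p := by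
    rcases (Nat.dvd_prime hd.prime).1 h1 with h | h
    · exfalso
      subst h
      exact CharP.char_ne_one κ 1 rfl
    · exact h
  subst h2
  obtain ⟨n, -, hn⟩ := FiniteField.card κ q
  rw [Nat.card_eq_fintype_card, hn]
  exact dvd_pow_self _ n.pos.ne'

end resid

variable {k kb : Type*} [Field k] [Field kb] [Algebra k kb] [IsGalois k kb] [IsAlgClosed kb]
  [CharZero kb]
variable {v : AbsoluteValue kb ℝ} {D : Subgroup Gal(kb/k)} {p : ℕ}

/-- the stabiliser in `D` of a root of unity is closed of finite index -/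
theorem finIn_stab (hd : LocData v D p) {ζ : kb} {n : ℕ} (hn : 0 < n) (hζ : ζ ^ n = 1) :
    FinIn D (D ⊓ MulAction.stabilizer Gal(kb/k) ζ) := by
  classical
  refine ⟨inf_le_left, ?_, ?_⟩
  · have h1 : IsClosed ((MulAction.stabilizer Gal(kb/k) ζ : Subgroup Gal(kb/k)) :
        Set Gal(kb/k)) :=
      Subgroup.isClosed_of_isOpen _ (stabilizer_isOpen_of_isIntegral ζ)
    exact hd.closed.inter h1
  · have h1 : (MulAction.stabilizer Gal(kb/k) ζ).FiniteIndex := by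
      refine ⟨?_⟩
      rw [MulAction.index_stabilizer]
      have h2 : (MulAction.orbit Gal(kb/k) ζ) ⊆
          ((Polynomial.nthRoots n (1 : kb)).toFinset : Set kb) := by
        rintro _ ⟨σ, rfl⟩
        rw [Finset.mem_coe, Multiset.mem_toFinset, Polynomial.mem_nthRoots hn]
        change (σ ζ) ^ n = 1
        rw [← map_pow, hζ, map_one]
      have h3 : (MulAction.orbit Gal(kb/k) ζ).Finite := (Finset.finite_toSet _).subset h2
      exact (Set.ncard_pos h3).2 (MulAction.nonempty_orbit ζ) |>.ne'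
    rw [Subgroup.inf_relIndex_left]
    have h2 : ((MulAction.stabilizer Gal(kb/k) ζ).subgroupOf D).FiniteIndex := inferInstance
    exact h2.index_ne_zero

/-- EPS -/
theorem eps (hd : LocData v D p) {ℓ : ℕ} (hℓ : ℓ.Prime) (h2 : ℓ ≠ 2) (hp : ℓ ≠ p) :
    ∃ U₀, FinIn D U₀ ∧ ∀ U, FinIn D U → U ≤ U₀ →
      (∀ z : kb, z ^ ℓ = 1 → z ∈ fixk U) ∧
      ∃ ε ∈ fixk U, ∃ N : ℕ, 1 ≤ N ∧ ε ^ N = 1 ∧ (¬ ∃ b ∈ fixk U, b ^ ℓ = ε) ∧
        (∃ b ∈ fixk U, b ≠ 0 ∧ b ^ ℓ = 1 + ε) ∧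
        ∀ a ∈ fixk U, v a = 1 → ∃ j : ℕ, ∃ b ∈ fixk U, b ≠ 0 ∧ a = ε ^ j * b ^ ℓ := by
  classical
  have hpp := hd.prime
  have hℓ3 : 3 ≤ ℓ := by
    have := hℓ.two_le
    omega
  -- the order of the root of unity
  set M := (ℓ - 1) * (2 * ℓ) with hM
  have hdvd : ℓ ∣ p ^ M - 1 := by
    have hcop : Nat.Coprime p ℓ := (Nat.coprime_primes hpp hℓ).2 (Ne.symm hp)
    have h1 : p ^ (ℓ - 1) ≡ 1 [MOD ℓ] := by
      have := Nat.ModEq.pow_totient hcop
      rwa [Nat.totient_prime hℓ] at this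
    have h3 : p ^ M ≡ 1 [MOD ℓ] := by
      have := h1.pow (2 * ℓ)
      rwa [← pow_mul, one_pow] at this
    exact (Nat.modEq_iff_dvd' (Nat.one_le_pow _ _ hpp.pos)).1 h3.symm
  have hbig : ℓ ^ 2 ≤ p ^ M := by
    calc ℓ ^ 2 ≤ (2 ^ ℓ) ^ 2 := Nat.pow_le_pow_left Nat.lt_two_pow_self.le 2
      _ = 2 ^ (1 * (2 * ℓ)) := by rw [← pow_mul]; ring_nf
      _ ≤ p ^ (1 * (2 * ℓ)) := Nat.pow_le_pow_left hpp.two_le _
      _ ≤ p ^ M := Nat.pow_le_pow_right hpp.pos (Nat.mul_le_mul_right _ (by omega))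
  set N₀ := p ^ M - 1 with hN₀
  have hN₀pos : 0 < N₀ := by
    have : 9 ≤ ℓ ^ 2 := by nlinarith
    omega
  have hN₀p : ¬ p ∣ N₀ := by
    intro h
    have h1 : p ∣ p ^ M := dvd_pow_self p (by
      have : 0 < (ℓ - 1) * (2 * ℓ) := Nat.mul_pos (by omega) (by omega)
      omega)
    have h3 : p ^ M = N₀ + 1 := by omega
    rw [h3] at h1
    have h4 : p ∣ 1 := (Nat.dvd_add_right h).1 h1
    exact hpp.one_lt.ne' (Nat.dvd_one.1 h4)
  have : NeZero N₀ := ⟨hN₀pos.ne'⟩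
  obtain ⟨ζ, hζ⟩ := HasEnoughRootsOfUnity.exists_primitiveRoot kb N₀
  refine ⟨D ⊓ MulAction.stabilizer Gal(kb/k) ζ, finIn_stab hd hN₀pos hζ.pow_eq_one,
    fun U hU hU₀ => ?_⟩
  have hζU : ζ ∈ fixk U := fun σ hσ => (hU₀ hσ).2
  have hUD : U ≤ D := hU.1
  have hmu : ∀ z : kb, z ^ ℓ = 1 → z ∈ fixk U := by
    intro z hz
    obtain ⟨c, hc⟩ := hdvd
    have h1 : z ^ N₀ = 1 := by rw [hc, pow_mul, hz, one_pow]
    obtain ⟨i, -, hi⟩ := hζ.eq_pow_of_pow_eq_one h1
    rw [← hi]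
    exact (fixk U).pow_mem hζU i
  refine ⟨hmu, ?_⟩
  -- the residue field
  obtain ⟨κ, hκ, red, hsurj, hred⟩ := exists_residue v hd.nonarch (fixk U)
  have hfin : Finite κ := resid_finite hd hU hsurj hred
  have hft := Fintype.ofFinite κ
  have hpc : p ∣ Nat.card κ := resid_card hd hred
  have hcpos : 1 ≤ Nat.card κ := Nat.card_pos
  have hpc1 : ¬ p ∣ Nat.card κ - 1 := by
    intro h
    have h3 : Nat.card κ = (Nat.card κ - 1) + 1 := by omega
    rw [h3] at hpc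
    have h4 : p ∣ 1 := (Nat.dvd_add_right h).1 hpc
    exact hpp.one_lt.ne' (Nat.dvd_one.1 h4)
  -- units of norm one
  have hv1 : ∀ {z : kb} {n : ℕ}, 0 < n → z ^ n = 1 → v z = 1 := by
    intro z n hn hz
    have h1 : v z ^ n = 1 := by rw [← map_pow, hz, map_one]
    exact (pow_eq_one_iff_of_nonneg (v.nonneg z) hn.ne').1 h1
  have hcu : Nat.card κˣ = Nat.card κ - 1 := by
    rw [Nat.card_eq_fintype_card, Nat.card_eq_fintype_card, Fintype.card_units]
  have hζv : v ζ = 1 := hv1 hN₀pos hζ.pow_eq_one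
  -- the order of the residue class of `ζ`
  let ζ' : ringOf v hd.nonarch (fixk U) := ⟨ζ, hζU, hζv.le⟩
  have hord : N₀ ∣ Nat.card κ - 1 := by
    have hz0 : red ζ' ≠ 0 := by
      intro h
      rw [hred] at h
      exact (lt_irrefl _ (hζv ▸ h))
    have h1 : ∀ n : ℕ, (red ζ') ^ n = 1 → N₀ ∣ n := by
      intro n hn
      have h3 : v (ζ ^ n - 1) < 1 := by
        have h4 : red (ζ' ^ n) = red 1 := by rw [map_pow, hn, map_one]
        have h5 := (red_eq_iff hred).1 h4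
        simpa using h5
      have h4 : ζ ^ n = 1 := by
        apply unity_eq hd hN₀p _ h3
        rw [← pow_mul, mul_comm, pow_mul, hζ.pow_eq_one, one_pow]
      exact hζ.dvd_of_pow_eq_one n h4
    apply h1
    rw [Nat.card_eq_fintype_card]
    exact FiniteField.pow_card_sub_one_eq_one _ hz0
  have hℓq : ℓ ∣ Nat.card κ - 1 := hdvd.trans hord
  have hq2 : 2 ≤ Nat.card κ := Finite.one_lt_card
  have hqbig : ℓ ^ 2 ≤ Nat.card κ := by
    have := Nat.le_of_dvd (by omega) hord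
    omega
  obtain ⟨e, he1, y, hy0, hy⟩ := exists_nonpower hℓ h2 hℓq hqbig
  have he0 : e ≠ 0 := fun h => he1 ⟨0, by rw [h, zero_pow hℓ.ne_zero]⟩
  have hℓp : ¬ p ∣ ℓ := fun h => hp ((Nat.prime_dvd_prime_iff_eq hpp hℓ).1 h).symm
  -- lifting an equality in the residue field
  have hlift : ∀ (a c : kb), a ∈ fixk U → c ∈ fixk U → v c = 1 → v (a - c) < 1 →
      ∀ n : ℕ, ¬ p ∣ n → ∃ b ∈ fixk U, v (b - 1) < 1 ∧ a = c * b ^ n := by
    intro a c ha hc hc1 hac n hn
    have hc0 : c ≠ 0 := fun h => by rw [h, map_zero] at hc1; exact zero_ne_one hc1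
    have h1 : v (a / c - 1) < 1 := by
      have : a / c - 1 = (a - c) / c := by field_simp
      rw [this, map_div₀, hc1, div_one]
      exact hac
    obtain ⟨b, hb, hbn, hb1⟩ := root_one hd hUD ((fixk U).div_mem ha hc) h1 hn
    exact ⟨b, hb, hb1, by rw [hbn]; field_simp⟩
  have hred1 : ∀ (a : ringOf v hd.nonarch (fixk U)), red a ≠ 0 → v (a : kb) = 1 := by
    intro a ha
    rw [Ne, hred, not_lt] at ha
    exact le_antisymm a.2.2 ha
  -- lift of `e`
  obtain ⟨a, ha⟩ := hsurj e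
  have hav : v (a : kb) = 1 := hred1 a (by rw [ha]; exact he0)
  set Q := Nat.card κ - 1 with hQ
  have hQpos : 0 < Q := by omega
  have haQ : v ((a : kb) ^ Q - 1) < 1 := by
    have h4 : red (a ^ Q) = red 1 := by
      rw [map_pow, ha, map_one, hQ, Nat.card_eq_fintype_card]
      exact FiniteField.pow_card_sub_one_eq_one _ he0
    have h5 := (red_eq_iff hred).1 h4
    simpa using h5
  obtain ⟨b, hbU, hbQ, hb1⟩ := root_one hd hUD ((fixk U).pow_mem a.2.1 Q) haQ hpc1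
  have hbv : v b = 1 := by
    have h1 : v b ^ Q = 1 := by rw [← map_pow, hbQ, map_pow, hav, one_pow]
    exact (pow_eq_one_iff_of_nonneg (v.nonneg b) hQpos.ne').1 h1
  have hb0 : b ≠ 0 := fun h => by rw [h, map_zero] at hbv; exact zero_ne_one hbv
  set ε := (a : kb) / b with hε
  have hεU : ε ∈ fixk U := (fixk U).div_mem a.2.1 hbU
  have hεQ : ε ^ Q = 1 := by
    rw [hε, div_pow, hbQ, div_self]
    rw [← hbQ]
    exact pow_ne_zero _ hb0
  have hεv : v ε = 1 := by rw [hε, map_div₀, hav, hbv, div_one]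
  let ε' : ringOf v hd.nonarch (fixk U) := ⟨ε, hεU, hεv.le⟩
  have hεe : red ε' = e := by
    rw [← ha, red_eq_iff hred]
    change v (ε - (a : kb)) < 1
    have h1 : ε - (a : kb) = -(ε * (b - 1)) := by
      rw [hε]; field_simp; ring
    rw [h1, v.map_neg, map_mul, hεv, one_mul]
    exact hb1
  refine ⟨ε, hεU, Q, hQpos, hεQ, ?_, ?_, ?_⟩
  · rintro ⟨c, hc, hcε⟩
    have hcv : v c = 1 := by
      have h1 : v c ^ ℓ = 1 := by rw [← map_pow, hcε, hεv]
      exact (pow_eq_one_iff_of_nonneg (v.nonneg c) hℓ.ne_zero).1 h1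
    apply he1
    refine ⟨red ⟨c, hc, hcv.le⟩, ?_⟩
    rw [← map_pow, ← hεe]
    congr 1
    exact Subtype.ext hcε
  · obtain ⟨c, hc⟩ := hsurj y
    have hcv : v (c : kb) = 1 := hred1 c (by rw [hc]; exact hy0)
    have h1 : v ((1 + ε) - (c : kb) ^ ℓ) < 1 := by
      have h4 : red (1 + ε') = red (c ^ ℓ) := by
        rw [map_add, map_one, hεe, map_pow, hc, hy]
      have h5 := (red_eq_iff hred).1 h4
      simpa using h5
    obtain ⟨b', hb', hb'1, h3⟩ := hlift (1 + ε) ((c : kb) ^ ℓ) ((fixk U).add_mem (fixk U).one_mem hεU)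
      ((fixk U).pow_mem c.2.1 ℓ) (by rw [map_pow, hcv, one_pow]) h1 ℓ hℓp
    refine ⟨(c : kb) * b', (fixk U).mul_mem c.2.1 hb', ?_, by rw [mul_pow, h3]⟩
    apply mul_ne_zero
    · intro h
      rw [h, map_zero] at hcv
      exact zero_ne_one hcv
    · intro h
      rw [h, zero_sub, v.map_neg, map_one] at hb'1
      exact lt_irrefl _ hb'1
  · intro a' ha' ha'v
    -- the cyclic group of units
    let a'' : ringOf v hd.nonarch (fixk U) := ⟨a', ha', ha'v.le⟩
    have ha''0 : red a'' ≠ 0 := by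
      intro h
      rw [hred] at h
      exact lt_irrefl _ (ha'v ▸ h)
    obtain ⟨g, hg⟩ := IsCyclic.exists_generator (α := κˣ)
    obtain ⟨i, hi⟩ := Subgroup.mem_zpowers_iff.1 (hg (Units.mk0 e he0))
    obtain ⟨m, hm⟩ := Subgroup.mem_zpowers_iff.1 (hg (Units.mk0 (red a'') ha''0))
    have hℓi : ¬ (ℓ : ℤ) ∣ i := by
      rintro ⟨c, hc⟩
      apply he1
      refine ⟨((g ^ c : κˣ) : κ), ?_⟩
      have : (g ^ c) ^ ℓ = Units.mk0 e he0 := by
        rw [← hi, hc, mul_comm, zpow_mul, zpow_natCast]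
      rw [← Units.val_pow_eq_pow_val, this, Units.val_mk0]
    -- solve `i * j ≡ m (mod ℓ)`
    obtain ⟨j, c, hjc⟩ : ∃ (j : ℕ) (c : ℤ), m = i * j + ℓ * c := by
      have : Fact ℓ.Prime := ⟨hℓ⟩
      have hi0 : ((i : ℤ) : ZMod ℓ) ≠ 0 := by
        rwa [Ne, ZMod.intCast_zmod_eq_zero_iff_dvd]
      set j : ZMod ℓ := (m : ZMod ℓ) / (i : ZMod ℓ) with hj
      have h1 : ((m - i * (j.val : ℤ) : ℤ) : ZMod ℓ) = 0 := by
        push_cast
        rw [ZMod.natCast_zmod_val, hj]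
        field_simp
        ring
      obtain ⟨c, hc⟩ := (ZMod.intCast_zmod_eq_zero_iff_dvd _ _).1 h1
      exact ⟨j.val, c, by linarith⟩
    have hprod : Units.mk0 (red a'') ha''0 = (Units.mk0 e he0) ^ j * (g ^ c) ^ ℓ := by
      rw [← hm, ← hi, hjc, zpow_add, zpow_mul, zpow_natCast, ← zpow_natCast (g ^ c), ← zpow_mul,
        mul_comm (ℓ : ℤ) c]
    obtain ⟨d, hdd⟩ := hsurj ((g ^ c : κˣ) : κ)
    have hdv : v (d : kb) = 1 := hred1 d (by rw [hdd]; exact Units.ne_zero _)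
    have h1 : v (a' - ε ^ j * (d : kb) ^ ℓ) < 1 := by
      have h4 : red a'' = red (ε' ^ j * d ^ ℓ) := by
        rw [map_mul, map_pow, map_pow, hεe, hdd]
        have := congrArg Units.val hprod
        simpa using this
      have h5 := (red_eq_iff hred).1 h4
      simpa using h5
    obtain ⟨b', hb', hb'1, h3⟩ := hlift a' (ε ^ j * (d : kb) ^ ℓ) ha'
      ((fixk U).mul_mem ((fixk U).pow_mem hεU j) ((fixk U).pow_mem d.2.1 ℓ))
      (by rw [map_mul, map_pow, map_pow, hεv, hdv, one_pow, one_pow, one_mul]) h1 ℓ hℓp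
    refine ⟨j, (d : kb) * b', (fixk U).mul_mem d.2.1 hb', ?_, by rw [mul_pow, h3]; ring⟩
    apply mul_ne_zero
    · intro h
      rw [h, map_zero] at hdv
      exact zero_ne_one hdv
    · intro h
      rw [h, zero_sub, v.map_neg, map_one] at hb'1
      exact lt_irrefl _ hb'1

end Pool.Agent.Lib.MP_2f3286_ag.Koe
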