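import Pool.Agent.Lib.MP_2f3286_ag.Koe.Can

/-!
# KOE: an ultrafilter limit of the canonical valuation rings (module ULT)
-/

namespace Pool.Agent.Lib.MP_2f3286_ag.Koe

variable {k kb : Type*} [Field k] [Field kb] [Algebra k kb] [IsGalois k kb] [IsAlgClosed kb]
  [CharZero kb] {K Ω : Type*} [Field K] [Field Ω] [Algebra K Ω] [Algebra kb Ω]
  [Algebra.IsAlgebraic K Ω] [IsAlgClosed Ω]

variable {v : AbsoluteValue kb ℝ} {D : Subgroup Gal(kb/k)} {p : ℕ}

namespace Ult

omit [IsAlgClosed kb] [CharZero kb] in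
/-- a closed subgroup of finite index of `D` contains the trace of an open normal subgroup -/
theorem exists_normal {U₀ : Subgroup Gal(kb/k)} (hU : FinIn D U₀) :
    ∃ N : OpenNormalSubgroup Gal(kb/k), N.toSubgroup ⊓ D ≤ U₀ := by
  have h1 : (U₀.subgroupOf D).FiniteIndex := ⟨hU.2.2⟩
  have h2 : IsClosed ((U₀.subgroupOf D : Subgroup D) : Set D) :=
    hU.2.1.preimage continuous_subtype_val
  have h3 : IsOpen ((U₀.subgroupOf D : Subgroup D) : Set D) :=
    Subgroup.isOpen_of_isClosed_of_finiteIndex _ h2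
  obtain ⟨W, hW, hW2⟩ := isOpen_induced_iff.1 h3
  have h4 : (1 : Gal(kb/k)) ∈ W := by
    have : (1 : D) ∈ (Subtype.val ⁻¹' W : Set D) := by
      rw [hW2]
      exact one_mem (U₀.subgroupOf D)
    exact this
  obtain ⟨N, hN⟩ := ProfiniteGrp.exist_openNormalSubgroup_sub_open_nhds_of_one hW h4
  refine ⟨N, ?_⟩
  rintro x ⟨hx1, hx2⟩
  have : (⟨x, hx2⟩ : D) ∈ (Subtype.val ⁻¹' W : Set D) := hN hx1
  rw [hW2] at this
  exact this

omit [IsAlgClosed kb] [CharZero kb] in
theorem finIn_inf (hD : IsClosed (D : Set Gal(kb/k))) (N : OpenNormalSubgroup Gal(kb/k)) :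
    FinIn D (N.toSubgroup ⊓ D) := by
  have h1 : IsClosed (N.toSubgroup : Set Gal(kb/k)) := N.toOpenSubgroup.isClosed
  have h2 : N.toSubgroup.FiniteIndex := N.toOpenSubgroup.toSubgroup.finiteIndex_of_finite_quotient
  refine ⟨inf_le_right, ?_, ?_⟩
  · rw [Subgroup.coe_inf]
    exact h1.inter hD
  · rw [Subgroup.inf_relIndex_right]
    have h3 : (N.toSubgroup.subgroupOf D).FiniteIndex := inferInstance
    exact h3.index_ne_zero

omit [IsAlgClosed kb] [CharZero kb] in
/-- an element of `kb` is fixed by an open normal subgroup -/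
theorem exists_fixk (a : kb) : ∃ N : OpenNormalSubgroup Gal(kb/k), ∀ σ ∈ N, σ a = a := by
  have hfin : FiniteDimensional k (IntermediateField.adjoin k {a}) :=
    IntermediateField.adjoin.finiteDimensional (Algebra.IsIntegral.isIntegral a)
  have h1 := IntermediateField.fixingSubgroup_isOpen (IntermediateField.adjoin k {a})
  obtain ⟨N, hN⟩ := ProfiniteGrp.exist_openNormalSubgroup_sub_open_nhds_of_one h1 (one_mem _)
  refine ⟨N, fun σ hσ => ?_⟩
  have := hN hσ
  exact (IntermediateField.mem_fixingSubgroup_iff _ _).1 this a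
    (IntermediateField.mem_adjoin_simple_self k a)

omit [IsAlgClosed kb] [CharZero kb] [Algebra kb Ω] [IsAlgClosed Ω] in
/-- an element of `Ω` is fixed by the image of an open normal subgroup -/
theorem exists_fixO (s : Gal(kb/k) →* Gal(Ω/K)) (hs : Continuous s) (x : Ω) :
    ∃ N : OpenNormalSubgroup Gal(kb/k), ∀ σ ∈ N, s σ x = x := by
  have hfin : FiniteDimensional K (IntermediateField.adjoin K {x}) :=
    IntermediateField.adjoin.finiteDimensional (Algebra.IsIntegral.isIntegral x)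
  have h1 := (IntermediateField.fixingSubgroup_isOpen (IntermediateField.adjoin K {x})).preimage hs
  have h2 : (1 : Gal(kb/k)) ∈ (s ⁻¹' ((IntermediateField.adjoin K {x}).fixingSubgroup :
      Set Gal(Ω/K))) := by
    change s 1 ∈ (IntermediateField.adjoin K {x}).fixingSubgroup
    rw [map_one]
    exact one_mem _
  obtain ⟨N, hN⟩ := ProfiniteGrp.exist_openNormalSubgroup_sub_open_nhds_of_one h1 h2
  refine ⟨N, fun σ hσ => ?_⟩
  have : s σ ∈ (IntermediateField.adjoin K {x}).fixingSubgroup := hN hσ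
  exact (IntermediateField.mem_fixingSubgroup_iff _ _).1 this x
    (IntermediateField.mem_adjoin_simple_self K x)

end Ult

open Ult in
/-- ULT -/
theorem ult (hd : LocData v D p) (s : Gal(kb/k) →* Gal(Ω/K)) (hs : Continuous s)
    (hsec : ∀ σ a, s σ (algebraMap kb Ω a) = algebraMap kb Ω (σ a)) :
    ∃ A : ValuationSubring Ω, Good s v D A := by
  classical
  obtain ⟨U₀, hU₀, hcan⟩ := can hd s hs hsec
  obtain ⟨N₀, hN₀⟩ := exists_normal hU₀
  have hne : Nonempty (OpenNormalSubgroup Gal(kb/k)) := ⟨N₀⟩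
  have hch : ∀ N : OpenNormalSubgroup Gal(kb/k), ∃ O : Subring Ω, N ≤ N₀ →
      ((∀ x ∈ O, x ∈ fixO s (N.toSubgroup ⊓ D)) ∧
      (∀ x ∈ fixO s (N.toSubgroup ⊓ D), x ∈ O ∨ x⁻¹ ∈ O) ∧
      (∀ a ∈ fixk (N.toSubgroup ⊓ D), algebraMap kb Ω a ∈ O ↔ v a ≤ 1) ∧
      ∀ τ ∈ D, (∀ σ, σ ∈ N.toSubgroup ⊓ D ↔ τ * σ * τ⁻¹ ∈ N.toSubgroup ⊓ D) →
        ∀ x ∈ O, s τ x ∈ O) := by
    intro N
    by_cases h : N ≤ N₀
    · obtain ⟨O, hO⟩ := hcan (N.toSubgroup ⊓ D) (finIn_inf hd.closed N)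
        (le_trans (inf_le_inf_right D h) hN₀)
      exact ⟨O, fun _ => hO⟩
    · exact ⟨⊤, fun h' => absurd h' h⟩
  choose O hO using hch
  let F : Ultrafilter (OpenNormalSubgroup Gal(kb/k)) := Ultrafilter.of Filter.atBot
  have hF : ∀ N₁ : OpenNormalSubgroup Gal(kb/k), ∀ᶠ N in (F : Filter _), N ≤ N₁ := fun N₁ =>
    Ultrafilter.of_le Filter.atBot (Filter.eventually_le_atBot N₁)
  let R : Subring Ω :=
    { carrier := {x | ∀ᶠ N in (F : Filter _), x ∈ O N}
      mul_mem' := fun ha hb => by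
        filter_upwards [ha, hb] with N h1 h2
        exact mul_mem h1 h2
      one_mem' := Filter.Eventually.of_forall fun N => one_mem (O N)
      add_mem' := fun ha hb => by
        filter_upwards [ha, hb] with N h1 h2
        exact add_mem h1 h2
      zero_mem' := Filter.Eventually.of_forall fun N => zero_mem (O N)
      neg_mem' := fun ha => by
        filter_upwards [ha] with N h1
        exact neg_mem h1 }
  have hR : ∀ x, x ∈ R ↔ ∀ᶠ N in (F : Filter _), x ∈ O N := fun x => Iff.rfl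
  have hval : ∀ x : Ω, x ∈ R ∨ x⁻¹ ∈ R := by
    intro x
    rw [hR, hR, ← Ultrafilter.eventually_or]
    obtain ⟨N₁, hN₁⟩ := exists_fixO s hs x
    filter_upwards [hF N₀, hF N₁] with N h0 h1
    refine (hO N h0).2.1 x ?_
    intro σ hσ
    exact hN₁ σ (h1 hσ.1)
  refine ⟨{ R with mem_or_inv_mem' := hval }, ?_, ?_⟩
  · intro σ hσ x hx
    have hx' : ∀ᶠ N in (F : Filter _), x ∈ O N := hx
    change ∀ᶠ N in (F : Filter _), s σ x ∈ O N
    filter_upwards [hF N₀, hx'] with N h0 h1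
    refine (hO N h0).2.2.2 σ hσ ?_ x h1
    intro g
    constructor
    · rintro ⟨h2, h3⟩
      exact ⟨N.isNormal'.conj_mem g h2 σ, D.mul_mem (D.mul_mem hσ h3) (D.inv_mem hσ)⟩
    · rintro ⟨h2, h3⟩
      have e : g = σ⁻¹ * (σ * g * σ⁻¹) * σ⁻¹⁻¹ := by group
      rw [e]
      exact ⟨N.isNormal'.conj_mem _ h2 σ⁻¹, D.mul_mem (D.mul_mem (D.inv_mem hσ) h3)
        (D.inv_mem (D.inv_mem hσ))⟩
  · intro a
    change (∀ᶠ N in (F : Filter _), algebraMap kb Ω a ∈ O N) ↔ v a ≤ 1
    obtain ⟨N₁, hN₁⟩ := exists_fixk (k := k) a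
    have h2 : ∀ᶠ N in (F : Filter _), (algebraMap kb Ω a ∈ O N ↔ v a ≤ 1) := by
      filter_upwards [hF N₀, hF N₁] with N h0 h1
      refine (hO N h0).2.2.1 a ?_
      intro σ hσ
      exact hN₁ σ (h1 hσ.1)
    constructor
    · intro h3
      obtain ⟨N, h4, h5⟩ := (h2.and h3).exists
      exact h4.1 h5
    · intro h3
      filter_upwards [h2] with N h4
      exact h4.2 h3

end Pool.Agent.Lib.MP_2f3286_ag.Koe
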