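import Mathlib

/-!
# Galois sections over local fields: set-up

`kb` is an algebraically closed Galois extension of `k`, `Ω` an algebraic closure of `K` containing
`kb`, `s : Gal(kb/k) → Gal(Ω/K)` a section. `D` is a closed subgroup of `Gal(kb/k)` acting by
isometries on `kb` (a decomposition group), `U` runs over its closed subgroups of finite index.
-/

namespace Pool.Agent.Lib.MP_2f3286_ag.Koe

variable {k kb : Type*} [Field k] [Field kb] [Algebra k kb]
  {K Ω : Type*} [Field K] [Field Ω] [Algebra K Ω]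

/-- the elements of `kb` fixed by `U` -/
def fixk (U : Subgroup Gal(kb/k)) : Subfield kb where
  carrier := {a | ∀ σ ∈ U, σ a = a}
  mul_mem' := fun ha hb σ hσ => by rw [map_mul, ha σ hσ, hb σ hσ]
  one_mem' := fun σ _ => map_one σ
  add_mem' := fun ha hb σ hσ => by rw [map_add, ha σ hσ, hb σ hσ]
  zero_mem' := fun σ _ => map_zero σ
  neg_mem' := fun ha σ hσ => by rw [map_neg, ha σ hσ]
  inv_mem' := fun a ha σ hσ => by rw [map_inv₀, ha σ hσ]

theorem mem_fixk {U : Subgroup Gal(kb/k)} {a : kb} : a ∈ fixk U ↔ ∀ σ ∈ U, σ a = a := Iff.rfl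

/-- the elements of `Ω` fixed by `s(U)` -/
def fixO (s : Gal(kb/k) →* Gal(Ω/K)) (U : Subgroup Gal(kb/k)) : Subfield Ω where
  carrier := {x | ∀ σ ∈ U, s σ x = x}
  mul_mem' := fun ha hb σ hσ => by rw [map_mul, ha σ hσ, hb σ hσ]
  one_mem' := fun σ _ => map_one (s σ)
  add_mem' := fun ha hb σ hσ => by rw [map_add, ha σ hσ, hb σ hσ]
  zero_mem' := fun σ _ => map_zero (s σ)
  neg_mem' := fun ha σ hσ => by rw [map_neg, ha σ hσ]
  inv_mem' := fun a ha σ hσ => by rw [map_inv₀, ha σ hσ]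

theorem mem_fixO {s : Gal(kb/k) →* Gal(Ω/K)} {U : Subgroup Gal(kb/k)} {x : Ω} :
    x ∈ fixO s U ↔ ∀ σ ∈ U, s σ x = x := Iff.rfl

/-- `U` is a closed subgroup of finite index of `D` -/
def FinIn (D U : Subgroup Gal(kb/k)) : Prop :=
  U ≤ D ∧ IsClosed (U : Set Gal(kb/k)) ∧ U.relIndex D ≠ 0

/-- `D` is a closed group of isometries of `kb` with respect to the nonarchimedean absolute value
`v` of residue characteristic `p`; the fields of elements fixed by closed subgroups of finite index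
are discretely valued with finite residue field. -/
structure LocData (v : AbsoluteValue kb ℝ) (D : Subgroup Gal(kb/k)) (p : ℕ) : Prop where
  prime : p.Prime
  closed : IsClosed (D : Set Gal(kb/k))
  nonarch : ∀ a b, v (a + b) ≤ max (v a) (v b)
  isom : ∀ σ ∈ D, ∀ a, v (σ a) = v a
  small : v (p : kb) < 1
  disc : ∀ U, FinIn D U → ∃ π ∈ fixk U, 0 < v π ∧ v π < 1 ∧ ∀ a ∈ fixk U, v a < 1 → v a ≤ v π
  res : ∀ U, FinIn D U → ∃ R : Finset kb, ∀ a ∈ fixk U, v a ≤ 1 → ∃ r ∈ R, v (a - r) < 1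

/-- the elements outside `H` with `1 + x ∈ T` -/
def Sm {L : Type*} [Field L] (T H : Subgroup Lˣ) (x : Lˣ) : Prop :=
  x ∉ H ∧ ∃ u ∈ T, (u : L) = 1 + x

/-- `A` is an `s(D)`-invariant valuation ring of `Ω` whose trace on `kb` is the unit ball -/
def Good [Algebra kb Ω] (s : Gal(kb/k) →* Gal(Ω/K)) (v : AbsoluteValue kb ℝ)
    (D : Subgroup Gal(kb/k)) (A : ValuationSubring Ω) : Prop :=
  (∀ σ ∈ D, ∀ x ∈ A, s σ x ∈ A) ∧ ∀ a : kb, algebraMap kb Ω a ∈ A ↔ v a ≤ 1

end Pool.Agent.Lib.MP_2f3286_ag.Koe
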