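import Pool.Agent.Lib.MP_2f3286_ag.E.AddSub

/-!
# The logarithmic derivative of an elliptic curve (campaign KOE, module LOGD)

For an elliptic curve `y² = x³ + a x + b` with constant coefficients and a derivation `δ` of the
field, `P = (x, y) ↦ δ x / (2 y) = δ y / (3 x² + a)` is a homomorphism to the additive group.
-/

set_option autoImplicit false

open WeierstrassCurve WeierstrassCurve.Affine WeierstrassCurve.Affine.Point

namespace Pool.Agent.Lib.MP_2f3286_ag.Koe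

namespace LogDerAux

variable {Ω : Type*} [Field Ω] [CharZero Ω]

section

variable {R : Type*} [CommRing R] [Algebra R Ω] (δ : Derivation R Ω Ω)
  {W : Affine Ω} [W.IsShortNF]

/-- the characterisation of the value of the logarithmic derivative at an affine point -/
def Is (W : Affine Ω) (x y u : Ω) : Prop :=
  2 * y * u = δ x ∧ (3 * x ^ 2 + W.a₄) * u = δ y

omit [CharZero Ω] in
theorem eqn {x y : Ω} (h : W.Nonsingular x y) : y ^ 2 = x ^ 3 + W.a₄ * x + W.a₆ := by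
  have := (W.equation_iff x y).1 h.1
  simp only [a₁_of_isShortNF, a₃_of_isShortNF, a₂_of_isShortNF] at this
  linear_combination this

omit [CharZero Ω] in
theorem sing {x y : Ω} (h : W.Nonsingular x y) : 2 * y ≠ 0 ∨ 3 * x ^ 2 + W.a₄ ≠ 0 := by
  have hns := h
  rw [W.nonsingular_iff] at hns
  simp only [a₁_of_isShortNF, a₂_of_isShortNF, a₃_of_isShortNF] at hns
  rcases hns.2 with h6 | h6
  · right
    intro h
    apply h6
    linear_combination -h
  · left
    intro h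
    apply h6
    linear_combination h

theorem Is.uniq {x y u v : Ω} (h : W.Nonsingular x y) (hu : Is δ W x y u) (hv : Is δ W x y v) :
    u = v := by
  rcases sing h with h1 | h1
  · exact mul_left_cancel₀ h1 (hu.1.trans hv.1.symm)
  · exact mul_left_cancel₀ h1 (hu.2.trans hv.2.symm)

theorem der_eqn (h4 : δ W.a₄ = 0) (h6 : δ W.a₆ = 0) {x y : Ω} (h : W.Nonsingular x y) :
    2 * y * δ y = (3 * x ^ 2 + W.a₄) * δ x := by
  have e := congrArg δ (eqn h)
  simp only [map_add, Derivation.leibniz, Derivation.leibniz_pow, h4, h6, smul_eq_mul,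
    nsmul_eq_mul, Nat.cast_ofNat] at e
  linear_combination e

theorem exists_is (h4 : δ W.a₄ = 0) (h6 : δ W.a₆ = 0) {x y : Ω} (h : W.Nonsingular x y) :
    ∃ u, Is δ W x y u := by
  have e := der_eqn δ h4 h6 h
  by_cases hy : 2 * y = 0
  · have h3 : 3 * x ^ 2 + W.a₄ ≠ 0 := (sing h).resolve_left (fun h' => h' hy)
    have hx : δ x = 0 := by
      rw [hy, zero_mul] at e
      exact (mul_eq_zero.1 e.symm).resolve_left h3
    refine ⟨δ y / (3 * x ^ 2 + W.a₄), ?_, ?_⟩
    · rw [hy, zero_mul, hx]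
    · rw [mul_div_cancel₀ _ h3]
  · refine ⟨δ x / (2 * y), ?_, ?_⟩
    · rw [mul_div_cancel₀ _ hy]
    · rw [mul_div_assoc', ← e, mul_div_cancel_left₀ _ hy]

omit [CharZero Ω] [W.IsShortNF] in
theorem Is.neg {x y u : Ω} (hu : Is δ W x y u) : Is δ W x (-y) (-u) := by
  refine ⟨?_, ?_⟩
  · rw [← hu.1]; ring
  · rw [map_neg, ← hu.2]; ring

theorem Is.add {x₁ y₁ x₂ y₂ u₁ u₂ : Ω} (h₁ : W.Nonsingular x₁ y₁) (h₂ : W.Nonsingular x₂ y₂)
    (hx : x₁ ≠ x₂) (hu₁ : Is δ W x₁ y₁ u₁) (hu₂ : Is δ W x₂ y₂ u₂) :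
    Is δ W (((y₁ - y₂) / (x₁ - x₂)) ^ 2 - x₁ - x₂)
      (-((y₁ - y₂) / (x₁ - x₂) * ((((y₁ - y₂) / (x₁ - x₂)) ^ 2 - x₁ - x₂) - x₁) + y₁))
      (u₁ + u₂) := by
  have hd : x₁ - x₂ ≠ 0 := sub_ne_zero.2 hx
  set m := (y₁ - y₂) / (x₁ - x₂) with hm
  have hR : m * (x₁ - x₂) = y₁ - y₂ := div_mul_cancel₀ _ hd
  clear_value m
  have hE : m * (y₁ + y₂) = x₁ ^ 2 + x₁ * x₂ + x₂ ^ 2 + W.a₄ := by
    apply mul_left_cancel₀ hd
    have e₁ := eqn h₁
    have e₂ := eqn h₂
    linear_combination (y₁ + y₂) * hR + e₁ - e₂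
  have ha : W.a₄ = m * (y₁ + y₂) - (x₁ ^ 2 + x₁ * x₂ + x₂ ^ 2) := by rw [hE]; ring
  have hdR := congrArg δ hR
  simp only [map_sub, Derivation.leibniz, smul_eq_mul] at hdR
  obtain ⟨a₁, b₁⟩ := hu₁
  obtain ⟨a₂, b₂⟩ := hu₂
  have hy : y₁ = y₂ + m * (x₁ - x₂) := by rw [hR]; ring
  have hdm : δ m = (2 * x₁ + x₂ - m ^ 2) * u₁ + (2 * x₂ + x₁ - m ^ 2) * u₂ := by
    apply mul_left_cancel₀ hd
    rw [← a₁, ← a₂, ← b₁, ← b₂, ha, hy] at hdR
    linear_combination hdR
  have hdx : δ (m ^ 2 - x₁ - x₂) = 2 * m * δ m - 2 * y₁ * u₁ - 2 * y₂ * u₂ := by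
    rw [map_sub, map_sub, Derivation.leibniz_pow, a₁, a₂]
    simp only [nsmul_eq_mul, smul_eq_mul, Nat.cast_ofNat]
    ring
  refine ⟨?_, ?_⟩
  · rw [hdx, hdm, hy]
    ring
  · rw [map_neg, map_add, Derivation.leibniz, map_sub, hdx, hdm, ← a₁, ← b₁, ha, hy]
    simp only [smul_eq_mul]
    ring

omit [CharZero Ω] [W.IsShortNF] in
theorem Is.double (h4 : δ W.a₄ = 0) {x y u : Ω} (hy : 2 * y ≠ 0)
    (hu : Is δ W x y u) :
    Is δ W (((3 * x ^ 2 + W.a₄) / (2 * y)) ^ 2 - 2 * x)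
      (-((3 * x ^ 2 + W.a₄) / (2 * y) * ((((3 * x ^ 2 + W.a₄) / (2 * y)) ^ 2 - 2 * x) - x) + y))
      (u + u) := by
  set m := (3 * x ^ 2 + W.a₄) / (2 * y) with hm
  have hR : m * (2 * y) = 3 * x ^ 2 + W.a₄ := div_mul_cancel₀ _ hy
  clear_value m
  have ha : W.a₄ = m * (2 * y) - 3 * x ^ 2 := by rw [hR]; ring
  obtain ⟨a₁, b₁⟩ := hu
  have h2 : δ (2 : Ω) = 0 := by
    have := δ.map_natCast 2
    simpa using this
  have h3 : δ (3 : Ω) = 0 := by
    have := δ.map_natCast 3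
    simpa using this
  have hdR := congrArg δ hR
  simp only [map_add, Derivation.leibniz, Derivation.leibniz_pow, h2, h3, h4, smul_eq_mul,
    nsmul_eq_mul, Nat.cast_ofNat] at hdR
  have hdm : δ m = (6 * x - 2 * m ^ 2) * u := by
    apply mul_left_cancel₀ hy
    rw [← a₁, ← b₁, ha] at hdR
    linear_combination hdR
  have hdx : δ (m ^ 2 - 2 * x) = 2 * m * δ m - 2 * (2 * y * u) := by
    rw [map_sub, Derivation.leibniz_pow, Derivation.leibniz, h2, a₁]
    simp only [nsmul_eq_mul, smul_eq_mul, Nat.cast_ofNat]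
    ring
  refine ⟨?_, ?_⟩
  · rw [hdx, hdm]
    ring
  · rw [map_neg, map_add, Derivation.leibniz, map_sub, hdx, hdm, ← a₁, ← b₁, ha]
    simp only [smul_eq_mul]
    ring

open scoped Classical in
theorem exists_hom (h4 : δ W.a₄ = 0) (h6 : δ W.a₆ = 0) :
    ∃ lam : W.Point →+ Ω, ∀ x y (h : W.Nonsingular x y), Is δ W x y (lam (Point.some x y h)) := by
  have hex : ∀ P : W.Point, ∃ u : Ω, (P = 0 → u = 0) ∧
      ∀ x y (h : W.Nonsingular x y), P = Point.some x y h → Is δ W x y u := by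
    intro P
    rcases P with _ | ⟨x, y, h⟩
    · exact ⟨0, fun _ => rfl, fun x y h he => by rw [← zero_def] at he; simp at he⟩
    · obtain ⟨u, hu⟩ := exists_is δ h4 h6 h
      refine ⟨u, fun he => by simp at he, fun x' y' h' he => ?_⟩
      rw [Point.some.injEq] at he
      obtain ⟨rfl, rfl⟩ := he
      exact hu
  choose f hf0 hf using hex
  have key : ∀ {x y u : Ω} (h : W.Nonsingular x y), Is δ W x y u → f (Point.some x y h) = u :=
    fun h hu => (hf _ _ _ h rfl).uniq δ h hu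
  have hneg : ∀ P : W.Point, f (-P) = -f P := by
    intro P
    rcases P with _ | ⟨x, y, h⟩
    · rw [← zero_def, _root_.neg_zero, hf0 0 rfl, _root_.neg_zero]
    · obtain ⟨h', e⟩ := E.neg_some' h
      rw [e]
      exact key h' ((hf _ _ _ h rfl).neg δ)
  have hadd : ∀ P Q : W.Point, f (P + Q) = f P + f Q := by
    intro P Q
    rcases P with _ | ⟨x₁, y₁, h₁⟩
    · rw [← zero_def, zero_add, hf0 0 rfl, zero_add]
    rcases Q with _ | ⟨x₂, y₂, h₂⟩
    · rw [← zero_def, add_zero, hf0 0 rfl, add_zero]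
    by_cases hx : x₁ = x₂
    · have hPQ : (Point.some _ _ h₁ : W.Point) = Point.some _ _ h₂ ∨
          (Point.some _ _ h₁ : W.Point) = -Point.some _ _ h₂ := Point.X_eq_iff.1 hx
      rcases hPQ with h | h
      · rw [← h]
        by_cases hy : 2 * y₁ = 0
        · have h0 : (Point.some _ _ h₁ : W.Point) + Point.some _ _ h₁ = 0 := by
            apply Point.add_self_of_Y_eq
            rw [E.negY_eq]; linear_combination hy
          have h1 : (Point.some _ _ h₁ : W.Point) = -Point.some _ _ h₁ :=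
            eq_neg_of_add_eq_zero_left h0
          have h2 : f (Point.some _ _ h₁) = -f (Point.some _ _ h₁) := by
            conv_lhs => rw [h1]
            exact hneg _
          rw [h0, hf0 0 rfl]
          linear_combination -h2
        · obtain ⟨h₃, h₃'⟩ := E.exists_double h₁ hy
          rw [h₃']
          exact key h₃ ((hf _ _ _ h₁ rfl).double δ h4 hy)
      · rw [h, neg_add_cancel, hneg, hf0 0 rfl, neg_add_cancel]
    · obtain ⟨h₃, h₃'⟩ := E.exists_add h₁ h₂ hx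
      rw [h₃']
      exact key h₃ ((hf _ _ _ h₁ rfl).add δ h₁ h₂ hx (hf _ _ _ h₂ rfl))
  exact ⟨AddMonoidHom.mk' f hadd, fun x y h => hf _ x y h rfl⟩

end

end LogDerAux

open scoped Classical in
/-- LOGD: the logarithmic derivative of an elliptic curve -/
theorem exists_logder {F Ω : Type*} [Field F] [CharZero F] [Field Ω] [Algebra F Ω]
    (W : WeierstrassCurve F) [W.IsShortNF] [W.IsElliptic] (δ : Derivation F Ω Ω) :
    ∃ lam : (W⁄Ω).Point →+ Ω, ∀ x y (h : (W⁄Ω).Nonsingular x y),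
      2 * y * lam (Point.some x y h) = δ x ∧
      (3 * x ^ 2 + algebraMap F Ω W.a₄) * lam (Point.some x y h) = δ y := by
  have : CharZero Ω := charZero_of_injective_algebraMap (algebraMap F Ω).injective
  have : WeierstrassCurve.IsShortNF (W⁄Ω) :=
    ⟨by simp, by simp, by simp⟩
  have h4 : δ (W⁄Ω).a₄ = 0 := δ.map_algebraMap W.a₄
  have h6 : δ (W⁄Ω).a₆ = 0 := δ.map_algebraMap W.a₆
  exact LogDerAux.exists_hom (W := W⁄Ω) δ h4 h6

end Pool.Agent.Lib.MP_2f3286_ag.Koe
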