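import Pool.Agent.Lib.MP_2f3286_ag.Koe.Defs
import Pool.Agent.Lib.MP_2f3286_ag.Koe.LogDer
import Pool.Agent.Lib.MP_2f3286_ag.Top.Sec
import Pool.Agent.Lib.MP_2f3286_ag.Pt.GenPt

/-!
# Points of an elliptic curve near a place
-/

open WeierstrassCurve WeierstrassCurve.Affine WeierstrassCurve.Affine.Point

namespace Pool.Agent.Lib.MP_2f3286_ag.Koe

namespace Germ

section

variable {Ω : Type*} [Field Ω] (A : ValuationSubring Ω)

theorem inv_of_notMem {y : Ω} (hy : y ∉ A) : A.valuation y⁻¹ < 1 := by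
  rw [map_inv₀]
  rw [← A.valuation_le_one_iff, not_le] at hy
  exact inv_lt_one_of_one_lt₀ hy

theorem ne_zero_of_notMem {y : Ω} (hy : y ∉ A) : y ≠ 0 := by
  rintro rfl
  exact hy (zero_mem _)

/-- elements close to `1` -/
theorem val_one_sub {x : Ω} (hx : A.valuation x < 1) : A.valuation (1 - x) = 1 := by
  rw [Valuation.map_sub_eq_of_lt_left, map_one]
  rwa [map_one]

theorem val_add_lt {x y : Ω} (hx : A.valuation x < 1) (hy : A.valuation y < 1) :
    A.valuation (x + y) < 1 :=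
  (A.valuation.map_add _ _).trans_lt (max_lt hx hy)

theorem val_mul_lt {x y : Ω} (hx : A.valuation x < 1) (hy : y ∈ A) : A.valuation (x * y) < 1 := by
  rw [map_mul]
  exact (mul_le_of_le_one_right zero_le' ((A.valuation_le_one_iff y).2 hy)).trans_lt hx

/-- the cubic equation has a root outside `A` -/
theorem exists_root [IsAlgClosed Ω] {u a b : Ω} (hu : A.valuation u < 1) (hu0 : u ≠ 0) :
    ∃ y : Ω, y ∉ A ∧ u ^ 3 * y ^ 3 - y ^ 2 + a * u * y + b = 0 := by
  have hu3 : u ^ 3 ≠ 0 := pow_ne_zero 3 hu0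
  have hinv : (u ^ 3)⁻¹ ∉ A := by
    rw [← A.valuation_le_one_iff, not_le, map_inv₀, map_pow]
    exact (one_lt_inv₀ (pow_pos (zero_lt_iff.2 ((_root_.map_ne_zero _).2 hu0)) 3)).2
      (pow_lt_one₀ zero_le' hu (by norm_num))
  -- first root
  obtain ⟨y₁, h1⟩ := IsAlgClosed.exists_root (Polynomial.C (u ^ 3) * Polynomial.X ^ 3 -
    Polynomial.X ^ 2 + Polynomial.C (a * u) * Polynomial.X + Polynomial.C b) (by
      have : (Polynomial.C (u ^ 3) * Polynomial.X ^ 3 -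
        Polynomial.X ^ 2 + Polynomial.C (a * u) * Polynomial.X + Polynomial.C b).degree = 3 := by
        compute_degree!
      rw [this]; norm_num)
  have h1' : u ^ 3 * y₁ ^ 3 - y₁ ^ 2 + a * u * y₁ + b = 0 := by
    simpa [Polynomial.IsRoot] using h1
  by_cases hy₁ : y₁ ∈ A
  swap
  · exact ⟨y₁, hy₁, h1'⟩
  -- second root, of `u³ Y² + (u³ y₁ - 1) Y + (u³ y₁² - y₁ + a u)`
  obtain ⟨y₂, h2⟩ := IsAlgClosed.exists_root (Polynomial.C (u ^ 3) * Polynomial.X ^ 2 +
    Polynomial.C (u ^ 3 * y₁ - 1) * Polynomial.X +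
    Polynomial.C (u ^ 3 * y₁ ^ 2 - y₁ + a * u)) (by
      have : (Polynomial.C (u ^ 3) * Polynomial.X ^ 2 +
        Polynomial.C (u ^ 3 * y₁ - 1) * Polynomial.X +
        Polynomial.C (u ^ 3 * y₁ ^ 2 - y₁ + a * u)).degree = 2 := by
        compute_degree!
      rw [this]; norm_num)
  have h2' : u ^ 3 * y₂ ^ 2 + (u ^ 3 * y₁ - 1) * y₂ + (u ^ 3 * y₁ ^ 2 - y₁ + a * u) = 0 := by
    simpa [Polynomial.IsRoot] using h2
  by_cases hy₂ : y₂ ∈ A
  swap
  · refine ⟨y₂, hy₂, ?_⟩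
    linear_combination (y₂ - y₁) * h2' + h1'
  -- third root
  refine ⟨(u ^ 3)⁻¹ - y₁ - y₂, ?_, ?_⟩
  · intro h3
    apply hinv
    have := add_mem (add_mem h3 hy₂) hy₁
    rwa [sub_add_cancel, sub_add_cancel] at this
  · set y₃ := (u ^ 3)⁻¹ - y₁ - y₂ with hy₃
    have h3 : u ^ 3 * (y₁ + y₂ + y₃) = 1 := by
      rw [hy₃]; field_simp; ring
    linear_combination (y₃ - y₁) * h2' + (y₃ - y₁) * (y₃ - y₂) * h3 + h1'

/-- only one root lies outside `A` -/
theorem unique_root {u a b : Ω} (ha : a ∈ A) (hb : b ∈ A) (hu : A.valuation u < 1) {y y' : Ω}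
    (hy : y ∉ A) (hy' : y' ∉ A) (h : u ^ 3 * y ^ 3 - y ^ 2 + a * u * y + b = 0)
    (h' : u ^ 3 * y' ^ 3 - y' ^ 2 + a * u * y' + b = 0) : y = y' := by
  have hy0 := ne_zero_of_notMem A hy
  have hy0' := ne_zero_of_notMem A hy'
  set w := y⁻¹ with hw
  set w' := y'⁻¹ with hw'
  have hwv : A.valuation w < 1 := inv_of_notMem A hy
  have hwv' : A.valuation w' < 1 := inv_of_notMem A hy'
  have e : u ^ 3 - w + a * u * w ^ 2 + b * w ^ 3 = 0 := by
    have : u ^ 3 - w + a * u * w ^ 2 + b * w ^ 3 =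
        (u ^ 3 * y ^ 3 - y ^ 2 + a * u * y + b) * w ^ 3 := by
      rw [hw]; field_simp
    rw [this, h, zero_mul]
  have e' : u ^ 3 - w' + a * u * w' ^ 2 + b * w' ^ 3 = 0 := by
    have : u ^ 3 - w' + a * u * w' ^ 2 + b * w' ^ 3 =
        (u ^ 3 * y' ^ 3 - y' ^ 2 + a * u * y' + b) * w' ^ 3 := by
      rw [hw']; field_simp
    rw [this, h', zero_mul]
  have hwA : w ∈ A := (A.valuation_le_one_iff w).1 hwv.le
  have hwA' : w' ∈ A := (A.valuation_le_one_iff w').1 hwv'.le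
  have huA : u ∈ A := (A.valuation_le_one_iff u).1 hu.le
  have hunit : A.valuation (1 - (a * u * (w + w') + b * (w ^ 2 + w * w' + w' ^ 2))) = 1 := by
    apply val_one_sub
    have e1 : a * u * (w + w') + b * (w ^ 2 + w * w' + w' ^ 2) =
        u * (a * (w + w')) + (w * (b * (w + w')) + w' * (b * w')) := by ring
    rw [e1]
    exact val_add_lt A (val_mul_lt A hu (mul_mem ha (add_mem hwA hwA')))
      (val_add_lt A (val_mul_lt A hwv (mul_mem hb (add_mem hwA hwA')))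
        (val_mul_lt A hwv' (mul_mem hb hwA')))
  have hprod : (w - w') * (1 - (a * u * (w + w') + b * (w ^ 2 + w * w' + w' ^ 2))) = 0 := by
    linear_combination e' - e
  rcases mul_eq_zero.1 hprod with h3 | h3
  · have h4 : w = w' := sub_eq_zero.1 h3
    exact inv_injective h4
  · rw [h3, _root_.map_zero] at hunit
    exact absurd hunit zero_ne_one

end

section

variable {F Ω : Type*} [Field F] [Field Ω] [Algebra F Ω] (W : WeierstrassCurve F) [W.IsShortNF]

theorem equation_iff' (x y : Ω) : (W⁄Ω).Equation x y ↔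
    y ^ 2 = x ^ 3 + algebraMap F Ω W.a₄ * x + algebraMap F Ω W.a₆ := by
  rw [Affine.equation_iff]
  have h1 : (W⁄Ω).a₁ = 0 := by
    change algebraMap F Ω W.a₁ = 0
    rw [a₁_of_isShortNF, _root_.map_zero]
  have h2 : (W⁄Ω).a₂ = 0 := by
    change algebraMap F Ω W.a₂ = 0
    rw [a₂_of_isShortNF, _root_.map_zero]
  have h3 : (W⁄Ω).a₃ = 0 := by
    change algebraMap F Ω W.a₃ = 0
    rw [a₃_of_isShortNF, _root_.map_zero]
  have h4 : (W⁄Ω).a₄ = algebraMap F Ω W.a₄ := rfl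
  have h6 : (W⁄Ω).a₆ = algebraMap F Ω W.a₆ := rfl
  rw [h1, h2, h3, h4, h6]
  constructor <;> intro h <;> linear_combination h

variable [W.IsElliptic] [IsAlgClosed Ω] (A : ValuationSubring Ω)

omit [W.IsElliptic] [IsAlgClosed Ω] in
theorem disc {x y : Ω} (h : (W⁄Ω).Nonsingular x y) :
    2 * y ≠ 0 ∨ 3 * x ^ 2 + algebraMap F Ω W.a₄ ≠ 0 := by
  have h0 := ((W⁄Ω).nonsingular_iff x y).1 h
  have h1 : (W⁄Ω).a₁ = 0 := by
    change algebraMap F Ω W.a₁ = 0
    rw [a₁_of_isShortNF, _root_.map_zero]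
  have h2 : (W⁄Ω).a₂ = 0 := by
    change algebraMap F Ω W.a₂ = 0
    rw [a₂_of_isShortNF, _root_.map_zero]
  have h3 : (W⁄Ω).a₃ = 0 := by
    change algebraMap F Ω W.a₃ = 0
    rw [a₃_of_isShortNF, _root_.map_zero]
  have h4 : (W⁄Ω).a₄ = algebraMap F Ω W.a₄ := rfl
  rw [h1, h2, h3, h4] at h0
  rcases h0.2 with h5 | h5
  · right
    intro h6
    apply h5
    linear_combination -h6
  · left
    intro h6
    apply h5
    linear_combination h6

/-- the point near the origin with `x / y = u` -/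
theorem exists_pt {u : Ω} (hu : A.valuation u < 1) (hu0 : u ≠ 0) :
    ∃ (y : Ω) (_ : y ∉ A), (W⁄Ω).Nonsingular (u * y) y ∧
      u ^ 3 * y ^ 3 - y ^ 2 + algebraMap F Ω W.a₄ * u * y + algebraMap F Ω W.a₆ = 0 := by
  obtain ⟨y, hy, h⟩ := exists_root A (a := algebraMap F Ω W.a₄) (b := algebraMap F Ω W.a₆) hu hu0
  refine ⟨y, hy, equation_iff_nonsingular.mp ((equation_iff' W _ _).2 ?_), h⟩
  linear_combination -h

/-- the logarithmic derivative near the origin -/
theorem lam_mul {δ : Derivation F Ω Ω} {u y l : Ω} (hy0 : y ≠ 0)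
    (h : u ^ 3 * y ^ 3 - y ^ 2 + algebraMap F Ω W.a₄ * u * y + algebraMap F Ω W.a₆ = 0)
    (h1 : 2 * y * l = δ (u * y)) (h2 : (3 * (u * y) ^ 2 + algebraMap F Ω W.a₄) * l = δ y) :
    l * (1 - (u * (2 * algebraMap F Ω W.a₄ * y⁻¹) + y⁻¹ * (3 * algebraMap F Ω W.a₆ * y⁻¹))) =
      -δ u := by
  rw [Derivation.leibniz, smul_eq_mul, smul_eq_mul, ← h2] at h1
  have h3 : y ^ 2 ≠ 0 := pow_ne_zero 2 hy0
  have e : y ^ 2 * (l * (1 - (u * (2 * algebraMap F Ω W.a₄ * y⁻¹) +
      y⁻¹ * (3 * algebraMap F Ω W.a₆ * y⁻¹)))) =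
      l * (y ^ 2 - 2 * algebraMap F Ω W.a₄ * u * y - 3 * algebraMap F Ω W.a₆) := by
    field_simp
    ring
  apply mul_left_cancel₀ h3
  rw [e]
  linear_combination (-3 * l) * h - y * h1

end

end Germ

open scoped Classical in
/-- GERM: points of an elliptic curve in the neighbourhood of a place -/
theorem exists_germs {F Ω : Type*} [Field F] [CharZero F] [Field Ω] [IsAlgClosed Ω] [Algebra F Ω]
    (W : WeierstrassCurve F) [W.IsShortNF] [W.IsElliptic] (A : ValuationSubring Ω)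
    (hF : ∀ a : F, algebraMap F Ω a ∈ A) {t : Ω} (ht : A.valuation t < 1)
    (htr : Transcendental F t) :
    ∃ η₁ η₂ : (W⁄Ω).Point,
      (∀ g : Ω ≃ₐ[F] Ω, g t = t → (∀ x, g x ∈ A ↔ x ∈ A) →
        Point.map (g : Ω →ₐ[F] Ω) η₁ = η₁ ∧ Point.map (g : Ω →ₐ[F] Ω) η₂ = η₂) ∧
      ∀ a b : ℤ, (∃ Q : (W⁄F).Point, a • η₁ + b • η₂ = Point.baseChange F Ω Q) →
        a = 0 ∧ b = 0 := by
  have ht0 : t ≠ 0 := by
    rintro rfl
    exact htr (isAlgebraic_zero)
  have ht2 : A.valuation (t ^ 2) < 1 := by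
    rw [map_pow]; exact pow_lt_one₀ zero_le' ht (by norm_num)
  obtain ⟨y₁, hy₁, hn₁, he₁⟩ := Germ.exists_pt W A ht ht0
  obtain ⟨y₂, hy₂, hn₂, he₂⟩ := Germ.exists_pt W A ht2 (pow_ne_zero 2 ht0)
  refine ⟨Point.some _ _ hn₁, Point.some _ _ hn₂, ?_, ?_⟩
  · intro g hg hgA
    have key : ∀ u y : Ω, g u = u → A.valuation u < 1 → y ∉ A →
        u ^ 3 * y ^ 3 - y ^ 2 + algebraMap F Ω W.a₄ * u * y + algebraMap F Ω W.a₆ = 0 →
        g y = y := by
      intro u y hu hu1 hy h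
      refine Germ.unique_root A (hF _) (hF _) hu1 (fun h' => hy ((hgA y).1 h')) hy ?_ h
      have h1 := congrArg g h
      simpa only [map_add, map_sub, map_mul, map_pow, hu, AlgEquiv.commutes, _root_.map_zero]
        using h1
    have k1 := key t y₁ hg ht hy₁ he₁
    have k2 := key (t ^ 2) y₂ (by rw [map_pow, hg]) ht2 hy₂ he₂
    refine ⟨?_, ?_⟩
    · rw [Point.map_some, some.injEq]
      refine ⟨?_, k1⟩
      change g (t * y₁) = t * y₁
      rw [map_mul, hg, k1]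
    · rw [Point.map_some, some.injEq]
      refine ⟨?_, k2⟩
      change g (t ^ 2 * y₂) = t ^ 2 * y₂
      rw [map_mul, map_pow, hg, k2]
  · rintro a b ⟨Q, hQ⟩
    obtain ⟨δ, hδ⟩ := Pt.GenPt.exists_der t htr
    obtain ⟨lam, hlam⟩ := exists_logder W δ
    have hdisc : ∀ x y, (W⁄Ω).Nonsingular x y →
        2 * y ≠ 0 ∨ 3 * x ^ 2 + algebraMap F Ω W.a₄ ≠ 0 := fun x y h => Germ.disc W h
    have hconst : lam (Point.baseChange F Ω Q) = 0 := by
      rcases Q with _ | ⟨x, y, hxy⟩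
      · exact _root_.map_zero lam
      · have h0 : ∀ c : F, δ (algebraMap F Ω c) = 0 := fun c => δ.map_algebraMap c
        have hxy' : (W⁄Ω).Nonsingular (algebraMap F Ω x) (algebraMap F Ω y) :=
          ((Affine.baseChange_nonsingular (W := W) (Algebra.ofId F Ω).injective _ _).mpr hxy)
        have h1 := hlam _ _ hxy'
        rw [h0, h0] at h1
        change lam (Point.some _ _ hxy') = 0
        rcases hdisc _ _ hxy' with h2 | h2
        · exact (mul_eq_zero.1 h1.1).resolve_left h2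
        · exact (mul_eq_zero.1 h1.2).resolve_left h2
    have h1 := congrArg lam hQ
    rw [hconst, map_add, map_zsmul, map_zsmul] at h1
    set l₁ := lam (Point.some _ _ hn₁) with hl₁
    set l₂ := lam (Point.some _ _ hn₂) with hl₂
    have e₁ := Germ.lam_mul W (Germ.ne_zero_of_notMem A hy₁) he₁ (hlam _ _ hn₁).1 (hlam _ _ hn₁).2
    have e₂ := Germ.lam_mul W (Germ.ne_zero_of_notMem A hy₂) he₂ (hlam _ _ hn₂).1 (hlam _ _ hn₂).2
    rw [← hl₁] at e₁
    rw [← hl₂] at e₂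
    have hδ2 : δ (t ^ 2) = 2 * t * δ t := by
      rw [Derivation.leibniz_pow]
      simp [nsmul_eq_mul, mul_assoc]
    rw [hδ2] at e₂
    rw [zsmul_eq_mul, zsmul_eq_mul] at h1
    set ε₁ := t * (2 * algebraMap F Ω W.a₄ * y₁⁻¹) + y₁⁻¹ * (3 * algebraMap F Ω W.a₆ * y₁⁻¹)
      with hε₁
    set ε₂ := t ^ 2 * (2 * algebraMap F Ω W.a₄ * y₂⁻¹) + y₂⁻¹ * (3 * algebraMap F Ω W.a₆ * y₂⁻¹)
      with hε₂
    have hε : ∀ u y : Ω, A.valuation u < 1 → y ∉ A →
        A.valuation (u * (2 * algebraMap F Ω W.a₄ * y⁻¹) +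
          y⁻¹ * (3 * algebraMap F Ω W.a₆ * y⁻¹)) < 1 := by
      intro u y hu hy
      have h2 := Germ.inv_of_notMem A hy
      have h3 : y⁻¹ ∈ A := (A.valuation_le_one_iff _).1 h2.le
      have h4 : (2 : Ω) ∈ A := by exact_mod_cast natCast_mem A 2
      have h5 : (3 : Ω) ∈ A := by exact_mod_cast natCast_mem A 3
      exact Germ.val_add_lt A (Germ.val_mul_lt A hu (mul_mem (mul_mem h4 (hF _)) h3))
        (Germ.val_mul_lt A h2 (mul_mem (mul_mem h5 (hF _)) h3))
    have g₁ := Germ.val_one_sub A (hε t y₁ ht hy₁)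
    have g₂ := Germ.val_one_sub A (hε (t ^ 2) y₂ ht2 hy₂)
    rw [← hε₁] at g₁
    rw [← hε₂] at g₂
    have h2 : (a : Ω) * (1 - ε₂) + 2 * b * t * (1 - ε₁) = 0 := by
      have h3 : δ t * ((a : Ω) * (1 - ε₂) + 2 * b * t * (1 - ε₁)) = 0 := by
        linear_combination (-(1 - ε₁) * (1 - ε₂)) * h1 + a * (1 - ε₂) * e₁ + b * (1 - ε₁) * e₂
      exact (mul_eq_zero.1 h3).resolve_left hδ
    have hne : ∀ {x : Ω}, A.valuation x = 1 → x ≠ 0 := by
      rintro x hx rfl
      rw [_root_.map_zero] at hx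
      exact zero_ne_one hx
    have ha : a = 0 := by
      by_contra ha
      have h3 : A.valuation (a : Ω) = 1 := by
        have h4 : ((a : F) : F) ≠ 0 := Int.cast_ne_zero.2 ha
        have h5 : (a : Ω) = algebraMap F Ω a := by simp
        have h6 : A.valuation (a : Ω) ≤ 1 := (A.valuation_le_one_iff _).2 (h5 ▸ hF _)
        have h7 : A.valuation ((a : Ω)⁻¹) ≤ 1 := by
          rw [A.valuation_le_one_iff, h5, ← map_inv₀]; exact hF _
        refine le_antisymm h6 ?_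
        rw [map_inv₀] at h7
        have h8 : A.valuation (a : Ω) ≠ 0 := by
          rw [h5]
          exact (_root_.map_ne_zero _).2 ((_root_.map_ne_zero _).2 h4)
        exact (inv_le_one₀ (zero_lt_iff.2 h8)).1 h7
      have h4 : A.valuation ((a : Ω) * (1 - ε₂)) < 1 := by
        have h5 : (a : Ω) * (1 - ε₂) = t * (-(2 * b) * (1 - ε₁)) := by linear_combination h2
        rw [h5]
        refine Germ.val_mul_lt A ht (mul_mem (neg_mem (mul_mem ?_ (intCast_mem A b))) ?_)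
        · exact_mod_cast natCast_mem A 2
        · exact (A.valuation_le_one_iff _).1 g₁.le
      rw [map_mul, h3, g₂, one_mul] at h4
      exact lt_irrefl _ h4
    refine ⟨ha, ?_⟩
    rw [ha, Int.cast_zero, zero_mul, zero_add] at h2
    have h3 := (mul_eq_zero.1 h2).resolve_right (hne g₁)
    have h4 := (mul_eq_zero.1 h3).resolve_right ht0
    have hchar : CharZero Ω := charZero_of_injective_algebraMap (algebraMap F Ω).injective
    have h5 := (mul_eq_zero.1 h4).resolve_left two_ne_zero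
    exact_mod_cast h5

end Pool.Agent.Lib.MP_2f3286_ag.Koe
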