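import Pool.Agent.Lib.MP_2f3286_ag.Koe.Main
import Pool.Agent.Lib.MP_2f3286_ag.Koe.Germ

/-!
# The fixed field of a geometric section has two independent points
-/

open WeierstrassCurve WeierstrassCurve.Affine WeierstrassCurve.Affine.Point
open IsDedekindDomain NumberField
open Pool.Agent.Lib.MP_2f3286_ag

namespace Pool.Agent.Lib.MP_2f3286_ag.Koe

/-- values of elements of `K` are rational -/
theorem value_rational {k kb K Ω : Type*} [Field k] [Field kb] [Algebra k kb] [IsGalois k kb]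
    [Field K] [Field Ω] [Algebra K Ω] [Algebra kb Ω] {s : Gal(kb/k) →* Gal(Ω/K)}
    {A : ValuationSubring Ω} {ψ : A →+* kb}
    (h : MP_2f3286_bir.IsPlaceOf s k (RingHom.id kb) A ψ) (f : K) (hf : algebraMap K Ω f ∈ A) :
    ∃ a : k, ψ ⟨algebraMap K Ω f, hf⟩ = algebraMap k kb a := by
  have h1 : ∀ τ : Gal(kb/k), τ (ψ ⟨algebraMap K Ω f, hf⟩) = ψ ⟨algebraMap K Ω f, hf⟩ := by
    intro τ
    obtain ⟨h3, h4⟩ := h.2.2 τ τ (fun _ => rfl) ⟨algebraMap K Ω f, hf⟩
    rw [← h4]
    congr 1
    apply Subtype.ext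
    exact AlgEquiv.commutes (s τ) f
  have h2 : ψ ⟨algebraMap K Ω f, hf⟩ ∈ (⊥ : IntermediateField k kb) := by
    rw [InfiniteGalois.mem_bot_iff_fixed]; exact h1
  obtain ⟨a, ha⟩ := IntermediateField.mem_bot.mp h2
  exact ⟨a, ha.symm⟩

open scoped Classical in
theorem exists_points {k kb : Type*} [Field k] [CharZero k] [Field kb] [Algebra k kb]
    [IsGalois k kb]
    {K : Type*} [Field K] [Algebra k K] (htr : Algebra.trdeg k K = 1)
    {Ω : Type*} [Field Ω] [Algebra K Ω] [IsAlgClosed Ω] [Algebra kb Ω] [Algebra k Ω]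
    [IsScalarTower k K Ω] [IsScalarTower k kb Ω]
    (s : Gal(kb/k) →* Gal(Ω/K))
    (hsec : ∀ σ a, s σ (algebraMap kb Ω a) = algebraMap kb Ω (σ a))
    {F : Type*} [Field F] [Algebra k F] [Algebra.IsAlgebraic k F]
    [Algebra F kb] [IsScalarTower k F kb] [Algebra F Ω] [IsScalarTower F kb Ω]
    (W : WeierstrassCurve F) [W.IsShortNF] [W.IsElliptic]
    {A : ValuationSubring Ω} {ψ : A →+* kb}
    (h : MP_2f3286_bir.IsPlaceOf s k (RingHom.id kb) A ψ) :
    ∃ η₁ η₂ : (W⁄Ω).Point, FixedPt s η₁ ∧ FixedPt s η₂ ∧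
      ∀ a b : ℤ, (∃ Q : (W⁄F).Point, a • η₁ + b • η₂ = Point.baseChange F Ω Q) →
        a = 0 ∧ b = 0 := by
  have t3 : IsScalarTower k F Ω := IsScalarTower.of_algebraMap_eq fun a => by
    rw [IsScalarTower.algebraMap_apply F kb Ω, ← IsScalarTower.algebraMap_apply k F kb,
      ← IsScalarTower.algebraMap_apply k kb Ω]
  have hcharF : CharZero F := charZero_of_injective_algebraMap (algebraMap k F).injective
  -- a local parameter
  obtain ⟨t, htt, ht⟩ : ∃ t : K, Transcendental k t ∧ A.valuation (algebraMap K Ω t) < 1 := by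
    have h0 : ∃ f : K, Transcendental k f := by
      by_contra hcon
      push Not at hcon
      have : Algebra.IsAlgebraic k K := ⟨fun x => by
        have := hcon x
        rwa [Transcendental, not_not] at this⟩
      rw [trdeg_eq_zero] at htr
      exact zero_ne_one htr
    obtain ⟨f, hf⟩ := h0
    by_cases hfA : algebraMap K Ω f ∈ A
    · obtain ⟨c, hc⟩ := value_rational h f hfA
      refine ⟨f - algebraMap k K c, ?_, ?_⟩
      · intro h1
        apply hf
        have := h1.add (isAlgebraic_algebraMap (R := k) (A := K) c)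
        rwa [sub_add_cancel] at this
      · obtain ⟨h2, h3⟩ := h.1 (algebraMap k kb c)
        have h4 : algebraMap kb Ω (algebraMap k kb c) = algebraMap K Ω (algebraMap k K c) := by
          rw [← IsScalarTower.algebraMap_apply, ← IsScalarTower.algebraMap_apply]
        have h5 : algebraMap K Ω (f - algebraMap k K c) ∈ A := by
          rw [map_sub, ← h4]; exact sub_mem hfA h2
        have h6 : ψ ⟨_, h5⟩ = 0 := by
          have h7 : (⟨_, h5⟩ : A) = ⟨_, hfA⟩ - ⟨_, h2⟩ := by
            apply Subtype.ext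
            change algebraMap K Ω (f - algebraMap k K c) = algebraMap K Ω f - _
            rw [map_sub, ← h4]
          rw [h7, map_sub, hc, h3, sub_eq_zero]
          rfl
        by_contra h8
        have h9 : A.valuation (algebraMap K Ω (f - algebraMap k K c)) = 1 :=
          le_antisymm ((A.valuation_le_one_iff _).2 h5) (not_lt.1 h8)
        have h10 : (algebraMap K Ω (f - algebraMap k K c))⁻¹ ∈ A := by
          rw [← A.valuation_le_one_iff, map_inv₀, h9, inv_one]
        have h11 : algebraMap K Ω (f - algebraMap k K c) ≠ 0 := by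
          intro h0
          rw [h0, _root_.map_zero] at h9
          exact zero_ne_one h9
        have h12 : (⟨_, h5⟩ : A) * ⟨_, h10⟩ = 1 := Subtype.ext (mul_inv_cancel₀ h11)
        have h13 := congrArg ψ h12
        rw [map_mul, h6, zero_mul, map_one] at h13
        exact zero_ne_one h13
    · refine ⟨f⁻¹, ?_, ?_⟩
      · intro h1
        apply hf
        have := h1.inv
        rwa [inv_inv] at this
      · rw [map_inv₀, map_inv₀]
        rw [← A.valuation_le_one_iff, not_le] at hfA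
        exact inv_lt_one_of_one_lt₀ hfA
  have htF : Transcendental F (algebraMap K Ω t) := by
    intro h1
    have h2 : IsAlgebraic k (algebraMap K Ω t) := h1.restrictScalars k
    exact htt ((isAlgebraic_algebraMap_iff (algebraMap K Ω).injective).1 h2)
  obtain ⟨η₁, η₂, h1, h2⟩ := exists_germs W A (fun a => by
    rw [IsScalarTower.algebraMap_apply F kb Ω]
    exact (h.1 _).1) ht htF
  have key : ∀ σ : Gal(kb/k), (∀ a : F, σ (algebraMap F kb a) = algebraMap F kb a) →
      ∃ g : Ω ≃ₐ[F] Ω, (∀ x, g x = s σ x) ∧ Point.map (g : Ω →ₐ[F] Ω) η₁ = η₁ ∧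
        Point.map (g : Ω →ₐ[F] Ω) η₂ = η₂ := by
    intro σ hσ
    let g : Ω ≃ₐ[F] Ω := AlgEquiv.ofRingEquiv (f := (s σ : Ω ≃+* Ω)) (fun a => by
      change s σ (algebraMap F Ω a) = _
      rw [IsScalarTower.algebraMap_apply F kb Ω, hsec, hσ])
    refine ⟨g, fun x => rfl, h1 g ((s σ).commutes t) fun x => ⟨fun hx => ?_, fun hx => ?_⟩⟩
    · obtain ⟨h3, -⟩ := h.2.2 σ⁻¹ σ⁻¹ (fun _ => rfl) ⟨s σ x, hx⟩
      change s σ⁻¹ (s σ x) ∈ A at h3
      rwa [← AlgEquiv.mul_apply, ← map_mul, inv_mul_cancel, map_one] at h3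
    · exact (h.2.2 σ σ (fun _ => rfl) ⟨x, hx⟩).1
  refine ⟨η₁, η₂, ?_, ?_, h2⟩
  · rcases η₁ with _ | ⟨x, y, hxy⟩
    · trivial
    · intro σ hσ
      obtain ⟨g, hg, h3, -⟩ := key σ hσ
      rw [Point.map_some, some.injEq] at h3
      rw [← hg, ← hg]
      exact h3
  · rcases η₂ with _ | ⟨x, y, hxy⟩
    · trivial
    · intro σ hσ
      obtain ⟨g, hg, -, h3⟩ := key σ hσ
      rw [Point.map_some, some.injEq] at h3
      rw [← hg, ← hg]
      exact h3

end Pool.Agent.Lib.MP_2f3286_ag.Koe
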