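import Pool.Agent.Lib.MP_2f3286_ag.Koe.Defs
import Pool.Agent.Lib.MP_2f3286_ag.Kummer
import Pool.Agent.Lib.MP_2f3286_ag.Aux2

open IntermediateField

namespace Pool.Agent.Lib.MP_2f3286_ag.Koe

variable {k kb : Type*} [Field k] [Field kb] [Algebra k kb] [IsGalois k kb] [IsAlgClosed kb]
  [CharZero kb] {K Ω : Type*} [Field K] [Field Ω] [Algebra K Ω] [Algebra kb Ω]
  [Algebra.IsAlgebraic K Ω] [IsAlgClosed Ω]

omit [CharZero kb] in
/-- KUM -/
theorem kum (s : Gal(kb/k) →* Gal(Ω/K)) (hs : Continuous s)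
    (hsec : ∀ σ a, s σ (algebraMap kb Ω a) = algebraMap kb Ω (σ a))
    {U : Subgroup Gal(kb/k)} (hU : IsClosed (U : Set Gal(kb/k))) {x : Ω} (hx : x ∈ fixO s U)
    (hx0 : x ≠ 0) {n : ℕ} (hn : 1 ≤ n) :
    ∃ a ∈ fixk U, a ≠ 0 ∧ ∃ y ∈ fixO s U, y ≠ 0 ∧ x = algebraMap kb Ω a * y ^ n := by
  set E : IntermediateField k kb := IntermediateField.fixedField U with hE
  have hEU : E.fixingSubgroup = U := InfiniteGalois.fixingSubgroup_fixedField ⟨U, hU⟩
  obtain ⟨T, hT⟩ := IsAlgClosed.exists_pow_nat_eq x (by omega : 0 < n)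
  have hT0 : T ≠ 0 := by
    rintro rfl
    rw [zero_pow (by omega)] at hT
    exact hx0 hT.symm
  have hTn : T ^ n ≠ 0 := pow_ne_zero n hT0
  let r : Gal(kb/E) → Gal(kb/k) := fun τ => τ.restrictScalars k
  have hr : ∀ τ, r τ ∈ U := by
    intro τ
    rw [← hEU]
    intro x
    exact τ.commutes x
  have h1 : ∀ τ : Gal(kb/E), ∃ c : kbˣ, s (r τ) T = algebraMap kb Ω c * T ∧ c ^ n = 1 := by
    intro τ
    have h2 : (s (r τ) T / T) ^ n = 1 := by
      rw [div_pow, ← map_pow, hT, hx _ (hr τ), div_self hx0]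
    obtain ⟨c, hc⟩ := root_of_unity_mem kb Ω (by omega) h2
    have hc1 : c ^ n = 1 := by
      apply (algebraMap kb Ω).injective
      rw [map_pow, hc, h2, map_one]
    have hc0 : c ≠ 0 := by
      rintro rfl
      rw [zero_pow (by omega)] at hc1
      exact zero_ne_one hc1
    refine ⟨Units.mk0 c hc0, ?_, ?_⟩
    · rw [Units.val_mk0, hc, div_mul_cancel₀ _ hT0]
    · ext; simpa using hc1
  choose c hc hc' using h1
  have hcoc : ∀ σ τ : Gal(kb/E), (c (σ * τ) : kb) = c σ * σ (c τ) := by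
    intro σ τ
    apply (algebraMap kb Ω).injective
    apply mul_right_cancel₀ hT0
    have h3 : r (σ * τ) = r σ * r τ := rfl
    have h4 : ∀ x : kb, r σ x = σ x := fun x => rfl
    rw [← hc, h3, map_mul (s : Gal(kb/k) →* Gal(Ω/K)), AlgEquiv.mul_apply, hc τ, map_mul (s (r σ)),
      hsec, hc σ, map_mul, h4]
    ring
  have hopen : {σ : Gal(kb/E) | c σ = 1} ∈ nhds 1 := by
    have hTalg : IsIntegral K T := Algebra.IsIntegral.isIntegral T
    have hfin : FiniteDimensional K K⟮T⟯ := adjoin.finiteDimensional hTalg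
    have ho := IntermediateField.fixingSubgroup_isOpen (K⟮T⟯ : IntermediateField K Ω)
    have hmem : ((K⟮T⟯ : IntermediateField K Ω).fixingSubgroup : Set Gal(Ω/K)) ∈ nhds (s 1) := by
      rw [map_one]
      exact ho.mem_nhds (one_mem _)
    have h5 := hs.continuousAt hmem
    obtain ⟨F, hF, hFU⟩ := (krullTopology_mem_nhds_one_iff k kb _).mp h5
    let b := Module.finBasis k F
    let E' : IntermediateField E kb := IntermediateField.adjoin E (Set.range fun i => (b i : kb))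
    have hE' : FiniteDimensional E E' := by
      apply IntermediateField.finiteDimensional_adjoin
      rintro x -
      exact Algebra.IsIntegral.isIntegral x
    rw [krullTopology_mem_nhds_one_iff]
    refine ⟨E', hE', fun τ hτ => ?_⟩
    have h6 : r τ ∈ F.fixingSubgroup := by
      intro x
      have h7 : ∀ i, r τ (b i : kb) = (b i : kb) := by
        intro i
        exact hτ ⟨(b i : kb), IntermediateField.subset_adjoin E _ ⟨i, rfl⟩⟩
      change r τ (x : kb) = (x : kb)
      have h8 := b.sum_repr x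
      have h9 : (x : kb) = ∑ i, (b.repr x i) • (b i : kb) := by
        have h10 := congrArg F.val h8
        rw [map_sum] at h10
        simpa using h10.symm
      rw [h9, map_sum]
      refine Finset.sum_congr rfl fun i _ => ?_
      rw [map_smul, h7]
    have h7 : s (r τ) ∈ (K⟮T⟯ : IntermediateField K Ω).fixingSubgroup := hFU h6
    have h3 : s (r τ) T = T := by
      rw [IntermediateField.mem_fixingSubgroup_iff] at h7
      exact h7 T (IntermediateField.mem_adjoin_simple_self _ _)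
    change c τ = 1
    ext
    apply (algebraMap kb Ω).injective
    apply mul_right_cancel₀ hT0
    rw [← hc, h3, Units.val_one, map_one, one_mul]
  obtain ⟨z, hz⟩ := hilbert90 E kb c hcoc hopen
  have hfix : ∀ σ ∈ U, ∃ τ : Gal(kb/E), r τ = σ := by
    intro σ hσ
    rw [← hEU] at hσ
    exact ⟨IntermediateField.fixingSubgroupEquiv E ⟨σ, hσ⟩, by ext x; rfl⟩
  have hz0 : (z : kb) ≠ 0 := z.ne_zero
  have hz0' : algebraMap kb Ω (z : kb) ≠ 0 := by
    rw [Ne, map_eq_zero]; exact hz0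
  refine ⟨(z : kb) ^ n, ?_, pow_ne_zero n hz0, T / algebraMap kb Ω z, ?_, div_ne_zero hT0 hz0', ?_⟩
  · intro σ hσ
    obtain ⟨τ, rfl⟩ := hfix σ hσ
    change τ ((z : kb) ^ n) = _
    rw [map_pow, ← hz, mul_pow, ← Units.val_pow_eq_pow_val, hc', Units.val_one, one_mul]
  · intro σ hσ
    obtain ⟨τ, rfl⟩ := hfix σ hσ
    have h10 : (c τ : kb) ≠ 0 := (c τ).ne_zero
    have h10' : algebraMap kb Ω (c τ : kb) ≠ 0 := by
      rw [Ne, map_eq_zero]; exact h10
    rw [map_div₀, hc, hsec]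
    change _ / algebraMap kb Ω (τ z) = _
    rw [← hz, map_mul]
    field_simp
  · rw [div_pow, hT, map_pow, mul_div_cancel₀]
    exact pow_ne_zero n hz0'

omit [IsGalois k kb] [CharZero kb] [Algebra.IsAlgebraic K Ω] [IsAlgClosed Ω] in
/-- KUM -/
theorem kum_inj (s : Gal(kb/k) →* Gal(Ω/K))
    (hsec : ∀ σ a, s σ (algebraMap kb Ω a) = algebraMap kb Ω (σ a))
    {U : Subgroup Gal(kb/k)} {a : kb} {y : Ω} (hy : y ∈ fixO s U) {n : ℕ} (hn : 1 ≤ n)
    (h : algebraMap kb Ω a = y ^ n) :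
    ∃ b ∈ fixk U, b ^ n = a ∧ algebraMap kb Ω b = y := by
  obtain ⟨b, hb1, hb2⟩ := root_mem (algebraMap kb Ω)
    (Polynomial.X_pow_sub_C_ne_zero (by omega : 0 < n) a) (x := y) (by simp [← h])
  refine ⟨b, ?_, ?_, hb2⟩
  · intro σ hσ
    apply (algebraMap kb Ω).injective
    rw [← hsec, hb2, hy σ hσ]
  · simpa [Polynomial.IsRoot.def, sub_eq_zero] using hb1

end Pool.Agent.Lib.MP_2f3286_ag.Koe
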