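import Mathlib

/-!
# Points of an elliptic curve fixed by a section
-/

open WeierstrassCurve WeierstrassCurve.Affine

namespace Pool.Agent.Lib.MP_2f3286_ag.Koe

/-- `s : Gal(kb/k) → Gal(Ω/K)` is a homomorphism, `F` a subfield of `kb` and of `Ω`, `W` an elliptic
curve over `F`. The coordinates of the point `η` of `W` over `Ω` are fixed by `s σ`, for all `σ`
which are the identity on `F`. -/
def FixedPt {k kb K Ω : Type*} [Field k] [Field kb] [Algebra k kb] [Field K] [Field Ω]
    [Algebra K Ω] (s : Gal(kb/k) →* Gal(Ω/K)) {F : Type*} [Field F] [Algebra F kb] [Algebra F Ω]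
    {W : WeierstrassCurve F} : (W⁄Ω).Point → Prop
  | .zero => True
  | .some x y _ => ∀ σ : Gal(kb/k), (∀ a : F, σ (algebraMap F kb a) = algebraMap F kb a) →
      s σ x = x ∧ s σ y = y

end Pool.Agent.Lib.MP_2f3286_ag.Koe
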