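import Pool.Agent.Lib.MP_2f3286_ag.Top.Defs
import Pool.Agent.Lib.MP_2f3286_ag.Koe.FDefs

/-!
# Quadratic twists over the fixed field of a section: the definitions used in the statement
-/

open WeierstrassCurve WeierstrassCurve.Affine

namespace Pool.Agent.Lib.MP_2f3286_ag.Koe

/-- `s` is the section of a place: there are a valuation ring `A₀` of `Ω` containing `kb` and a
homomorphism `ψ₀ : A₀ → kb`, the identity on `kb`, with kernel the maximal ideal of `A₀`, such that
`s σ` preserves `A₀` and `ψ₀ (s σ a) = σ (ψ₀ a)` for all `a` in `A₀` and all `σ`. -/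
def IsGeometric {k kb K Ω : Type*} [Field k] [Field kb] [Algebra k kb] [Field K] [Field Ω]
    [Algebra K Ω] [Algebra kb Ω] (s : Gal(kb/k) →* Gal(Ω/K)) : Prop :=
  ∃ (A₀ : ValuationSubring Ω) (ψ₀ : A₀ →+* kb), Sel.IsPlaceOf s k (RingHom.id kb) A₀ ψ₀

/-- The element `x` of `Ω` is fixed by `s σ`, for all `σ` which are the identity on `F`. -/
def Fixed {k kb K Ω : Type*} [Field k] [Field kb] [Algebra k kb] [Field K] [Field Ω]
    [Algebra K Ω] (s : Gal(kb/k) →* Gal(Ω/K)) (F : Type*) [Field F] [Algebra F kb] (x : Ω) : Prop :=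
  ∀ σ : Gal(kb/k), (∀ a : F, σ (algebraMap F kb a) = algebraMap F kb a) → s σ x = x

/-- The quadratic twist `d y² = x³ + A x + B`, in the form `y² = x³ + A d² x + B d³`. -/
def twist {F : Type*} [Field F] (A B d : F) : WeierstrassCurve F := ⟨0, 0, 0, A * d ^ 2, B * d ^ 3⟩

end Pool.Agent.Lib.MP_2f3286_ag.Koe
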