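import Pool.Agent.Lib.MP_2f3286_ag.Koe.Mestre
import Pool.Agent.Lib.MP_2f3286_ag.Koe.TDefs

/-!
# Quadratic twists over the fixed field of a section
-/

open WeierstrassCurve WeierstrassCurve.Affine WeierstrassCurve.Affine.Point
open IsDedekindDomain NumberField Polynomial

namespace Pool.Agent.Lib.MP_2f3286_ag.Koe

instance twist_isShortNF {F : Type*} [Field F] (A B d : F) : (twist A B d).IsShortNF := ⟨rfl, rfl, rfl⟩

theorem twist_isElliptic {F : Type*} [Field F] [CharZero F] {A B d : F} (hd : d ≠ 0)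
    (h : 4 * A ^ 3 + 27 * B ^ 2 ≠ 0) : (twist A B d).IsElliptic := by
  refine ⟨isUnit_iff_ne_zero.2 ?_⟩
  rw [WeierstrassCurve.Δ_of_isShortNF]
  show -16 * (4 * (A * d ^ 2) ^ 3 + 27 * (B * d ^ 3) ^ 2) ≠ 0
  have e : -16 * (4 * (A * d ^ 2) ^ 3 + 27 * (B * d ^ 3) ^ 2) =
      -16 * d ^ 6 * (4 * A ^ 3 + 27 * B ^ 2) := by ring
  rw [e]
  refine mul_ne_zero (mul_ne_zero (by norm_num) (pow_ne_zero _ hd)) h

section

variable {F : Type*} [Field F] {Ω : Type*} [Field Ω] [Algebra F Ω]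

theorem twist_nonsingular {A B d : F} [(twist A B d).IsElliptic] {x l : Ω}
    (h : x ^ 3 + algebraMap F Ω A * x + algebraMap F Ω B = algebraMap F Ω d * l ^ 2) :
    (((twist A B d)⁄Ω) : Affine Ω).Nonsingular (algebraMap F Ω d * x)
      (algebraMap F Ω d ^ 2 * l) := by
  apply Affine.equation_iff_nonsingular.mp
  rw [Affine.equation_iff]
  have e1 : ((twist A B d)⁄Ω).a₁ = 0 := WeierstrassCurve.a₁_of_isShortNF _
  have e2 : ((twist A B d)⁄Ω).a₂ = 0 := WeierstrassCurve.a₂_of_isShortNF _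
  have e3 : ((twist A B d)⁄Ω).a₃ = 0 := WeierstrassCurve.a₃_of_isShortNF _
  have e4 : ((twist A B d)⁄Ω).a₄ = algebraMap F Ω (A * d ^ 2) := rfl
  have e6 : ((twist A B d)⁄Ω).a₆ = algebraMap F Ω (B * d ^ 3) := rfl
  rw [e1, e2, e3, e4, e6, map_mul, map_mul, map_pow, map_pow]
  linear_combination (-(algebraMap F Ω d) ^ 3) * h

end

section

variable {k : Type*} [Field k] {kb : Type*} [Field kb] [Algebra k kb] [IsGalois k kb]
  {K : Type*} [Field K] {Ω : Type*} [Field Ω] [Algebra K Ω] [Algebra kb Ω]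
  {F : Type*} [Field F] [Algebra k F] [Algebra F kb] [IsScalarTower k F kb]

/-- elements of `kb` fixed by `G_F` -/
theorem mem_F {a : kb} (h : ∀ σ : Gal(kb/k), (∀ a : F, σ (algebraMap F kb a) = algebraMap F kb a) →
    σ a = a) : ∃ w : F, algebraMap F kb w = a := by
  have : IsGalois F kb := IsGalois.tower_top_of_isGalois k F kb
  refine mem_of_fixed (F := F) fun τ => ?_
  exact h (τ.restrictScalars k) fun b => τ.commutes b

/-- constants fixed by `s(G_F)` -/
theorem mem_F' [Algebra F Ω] [IsScalarTower F kb Ω] (s : Gal(kb/k) →* Gal(Ω/K))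
    (hsec : ∀ σ a, s σ (algebraMap kb Ω a) = algebraMap kb Ω (σ a)) {t : Ω} (ht : Fixed s F t)
    {c : kb} (hc : algebraMap kb Ω c = t) : ∃ w : F, algebraMap F Ω w = t := by
  obtain ⟨w, hw⟩ := mem_F (k := k) (F := F) (a := c) fun σ hσ => by
    apply (algebraMap kb Ω).injective
    rw [← hsec, hc, ht σ hσ]
  exact ⟨w, by rw [IsScalarTower.algebraMap_apply F kb Ω, hw, hc]⟩

variable (k kb F) in
/-- `G_F` -/
def GF : Subgroup Gal(kb/k) := (IsScalarTower.toAlgHom k F kb).fieldRange.fixingSubgroup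

theorem mem_GF {σ : Gal(kb/k)} : σ ∈ GF k kb F ↔
    ∀ a : F, σ (algebraMap F kb a) = algebraMap F kb a := by
  rw [GF, IntermediateField.mem_fixingSubgroup_iff]
  constructor
  · intro h a
    exact h _ ⟨a, rfl⟩
  · rintro h _ ⟨a, rfl⟩
    exact h a

variable [IsAlgClosed kb] [CharZero kb] [Algebra.IsAlgebraic K Ω] [IsAlgClosed Ω]
  [Algebra F Ω] [IsScalarTower F kb Ω]

/-- Kummer theory: fixed elements are, up to squares of fixed elements, in `F` -/
theorem exists_square (s : Gal(kb/k) →* Gal(Ω/K)) (hs : Continuous s)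
    (hsec : ∀ σ a, s σ (algebraMap kb Ω a) = algebraMap kb Ω (σ a)) {x : Ω} (hx : Fixed s F x)
    (hx0 : x ≠ 0) : ∃ d : F, d ≠ 0 ∧ ∃ l : Ω, Fixed s F l ∧ x = algebraMap F Ω d * l ^ 2 := by
  have hcl : IsClosed ((GF k kb F : Subgroup Gal(kb/k)) : Set Gal(kb/k)) :=
    InfiniteGalois.fixingSubgroup_isClosed _
  have hx' : x ∈ fixO s (GF k kb F) := fun σ hσ => hx σ (mem_GF.1 hσ)
  obtain ⟨a, ha, ha0, l, hl, -, h⟩ := kum s hs hsec hcl hx' hx0 (n := 2) (by norm_num)
  obtain ⟨d, hd⟩ := mem_F (k := k) (F := F) (a := a) fun σ hσ => ha σ (mem_GF.2 hσ)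
  refine ⟨d, ?_, l, fun σ hσ => hl σ (mem_GF.2 hσ), ?_⟩
  · rintro rfl
    rw [_root_.map_zero] at hd
    exact ha0 hd.symm
  · rw [IsScalarTower.algebraMap_apply F kb Ω, hd, ← h]

omit [CharZero kb] [Algebra.IsAlgebraic K Ω] [IsAlgClosed Ω] [IsGalois k kb] [Algebra k F]
  [IsScalarTower k F kb] in
/-- non-constant elements are transcendental -/
theorem transcendental_of {t : Ω} (h : ∀ c : kb, algebraMap kb Ω c ≠ t) : Transcendental kb t := by
  rintro ⟨p, hp, hpt⟩
  obtain ⟨c, -, hc⟩ := root_mem (algebraMap kb Ω) hp hpt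
  exact h c hc

end

section main

variable {k : Type*} [Field k] [NumberField k] {kb : Type*} [Field kb] [Algebra k kb]
  [IsAlgClosed kb] [Algebra.IsAlgebraic k kb] {K : Type*} [Field K] [Algebra k K]
  {Ω : Type*} [Field Ω] [Algebra K Ω] [Algebra.IsAlgebraic K Ω] [IsAlgClosed Ω]
  [Algebra kb Ω] [Algebra k Ω] [IsScalarTower k K Ω] [IsScalarTower k kb Ω]

open scoped Classical in
universe u in
/-- A section over which an elliptic curve of rank at most one acquires two independent points is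
geometric. -/
theorem exists_place_le_one (htr : Algebra.trdeg k K = 1)
    (s : Gal(kb/k) →* Gal(Ω/K)) (hs : Continuous s)
    (hsec : ∀ σ a, s σ (algebraMap kb Ω a) = algebraMap kb Ω (σ a))
    {F : Type u} [Field F] [NumberField F] [Algebra k F]
    [Algebra F kb] [IsScalarTower k F kb] [Algebra F Ω] [IsScalarTower F kb Ω]
    (W : WeierstrassCurve F) [W.IsShortNF] [W.IsElliptic]
    (P : (W⁄F).Point) (hrk : ∀ Q : (W⁄F).Point, ∃ a : ℤ, IsOfFinAddOrder (Q - a • P))
    (m : ℕ) (hm : 1 ≤ m) (hsha : Sel.ShaKilledBy W ∅ m)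
    (η₁ η₂ : (W⁄Ω).Point) (h₁ : FixedPt s η₁) (h₂ : FixedPt s η₂)
    (hind : ∀ a b : ℤ, (∃ Q : (W⁄F).Point, a • η₁ + b • η₂ = Point.baseChange F Ω Q) →
      a = 0 ∧ b = 0) : IsGeometric s := by
  by_cases hP : ∀ n : ℕ, n ≠ 0 → n • P ≠ 0
  · exact exists_place htr s hs hsec W P hP hrk m hm hsha _ _ h₁ h₂ hind
  · push Not at hP
    obtain ⟨n, hn, hn'⟩ := hP
    have hPtors : IsOfFinAddOrder P :=
      isOfFinAddOrder_iff_nsmul_eq_zero.2 ⟨n, Nat.pos_of_ne_zero hn, hn'⟩
    refine exists_place_zero htr s hs hsec W (fun Q => ?_) m hm hsha _ h₁ ?_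
    · obtain ⟨a, ha⟩ := hrk Q
      have h1 := ha.add (hPtors.zsmul (i := a))
      rwa [sub_add_cancel] at h1
    · rintro ⟨Q, hQ⟩
      have := (hind 1 0 ⟨Q, by rw [one_smul, zero_smul, add_zero, hQ]⟩).1
      exact one_ne_zero this

open scoped Classical in
universe u in
/-- If the section is not geometric, the twist which acquires a point has a point of infinite
order. -/
theorem rank_one (htr : Algebra.trdeg k K = 1)
    (s : Gal(kb/k) →* Gal(Ω/K)) (hs : Continuous s)
    (hsec : ∀ σ a, s σ (algebraMap kb Ω a) = algebraMap kb Ω (σ a)) (hgeo : ¬ IsGeometric s)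
    {F : Type u} [Field F] [NumberField F] [Algebra k F]
    [Algebra F kb] [IsScalarTower k F kb] [Algebra F Ω] [IsScalarTower F kb Ω]
    {A B : F} (hΔ : 4 * A ^ 3 + 27 * B ^ 2 ≠ 0) {t : Ω} (ht : Fixed s F t)
    (htF : ∀ c : F, algebraMap F Ω c ≠ t) {d : F} (hd : d ≠ 0) {l : Ω} (hl : Fixed s F l)
    (h : t ^ 3 + algebraMap F Ω A * t + algebraMap F Ω B = algebraMap F Ω d * l ^ 2)
    (m : ℕ) (hm : 1 ≤ m) (hsha : Sel.ShaKilledBy (twist A B d) ∅ m) :
    ∃ P : ((twist A B d)⁄F).Point, ∀ n : ℕ, n ≠ 0 → n • P ≠ 0 := by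
  have hE := twist_isElliptic hd hΔ
  have hns := twist_nonsingular h
  by_contra hcon
  push Not at hcon
  apply hgeo
  have hdfix : ∀ σ : Gal(kb/k), (∀ a : F, σ (algebraMap F kb a) = algebraMap F kb a) →
      s σ (algebraMap F Ω d) = algebraMap F Ω d := by
    intro σ hσ
    rw [IsScalarTower.algebraMap_apply F kb Ω, hsec, hσ]
  have hd' : algebraMap F Ω d ≠ 0 := by
    rw [Ne, map_eq_zero]; exact hd
  refine exists_place_zero htr s hs hsec (twist A B d) (fun Q => ?_) m hm hsha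
    (Point.some _ _ hns : ((twist A B d)⁄Ω).Point) (fun σ hσ => ⟨?_, ?_⟩) ?_
  · obtain ⟨n, hn, hn'⟩ := hcon Q
    exact isOfFinAddOrder_iff_nsmul_eq_zero.2 ⟨n, Nat.pos_of_ne_zero hn, hn'⟩
  · rw [map_mul, hdfix σ hσ, ht σ hσ]
  · rw [map_mul, map_pow, hdfix σ hσ, hl σ hσ]
  · rintro ⟨Q, hQ⟩
    rcases Q with _ | ⟨x, y, hxy⟩
    · exact some_ne_zero _ hQ
    · have h1 : algebraMap F Ω d * t = algebraMap F Ω x := (Top.some_inj' hQ).1
      refine htF (x / d) ?_
      rw [map_div₀, ← h1]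
      field_simp

open scoped Classical in
universe u in
/-- If the section is not geometric, the twists which acquire two points have rank at least two. -/
theorem rank_two (htr : Algebra.trdeg k K = 1)
    (s : Gal(kb/k) →* Gal(Ω/K)) (hs : Continuous s)
    (hsec : ∀ σ a, s σ (algebraMap kb Ω a) = algebraMap kb Ω (σ a)) (hgeo : ¬ IsGeometric s)
    {F : Type u} [Field F] [NumberField F] [Algebra k F]
    [Algebra F kb] [IsScalarTower k F kb] [Algebra F Ω] [IsScalarTower F kb Ω]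
    {A B : F} (hΔ : 4 * A ^ 3 + 27 * B ^ 2 ≠ 0) (hA : A ≠ 0) (hB : B ≠ 0)
    {u : Ω} (hu : Fixed s F u) (huF : ∀ c : F, algebraMap F Ω c ≠ u) {x : Ω}
    (hx : algebraMap F Ω A * (u ^ 2 * (u ^ 2 + 1)) * x =
      -(algebraMap F Ω B * (u ^ 4 + u ^ 2 + 1)))
    {d : F} (hd : d ≠ 0) {l : Ω} (hl : Fixed s F l)
    (h : x ^ 3 + algebraMap F Ω A * x + algebraMap F Ω B = algebraMap F Ω d * l ^ 2)
    (m : ℕ) (hm : 1 ≤ m) (hsha : Sel.ShaKilledBy (twist A B d) ∅ m)
    (P : ((twist A B d)⁄F).Point) :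
    ∃ Q : ((twist A B d)⁄F).Point, ∀ a : ℤ, ¬ IsOfFinAddOrder (Q - a • P) := by
  have hchar : CharZero kb := charZero_of_injective_algebraMap (algebraMap k kb).injective
  have hE := twist_isElliptic hd hΔ
  have hdfix : ∀ σ : Gal(kb/k), (∀ a : F, σ (algebraMap F kb a) = algebraMap F kb a) →
      ∀ a : F, s σ (algebraMap F Ω a) = algebraMap F Ω a := by
    intro σ hσ a
    rw [IsScalarTower.algebraMap_apply F kb Ω, hsec, hσ]
  have inj : ∀ {a : F}, a ≠ 0 → algebraMap F Ω a ≠ 0 := by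
    intro a ha
    rw [Ne, map_eq_zero]; exact ha
  have hd' := inj hd
  have hA' := inj hA
  have hB' := inj hB
  have hac : IsAlgClosure k kb := ⟨inferInstance, inferInstance⟩
  have hnor : Normal k kb := IsAlgClosure.normal k kb
  have hgal : IsGalois k kb := ⟨⟩
  have huc : ∀ c : kb, algebraMap kb Ω c ≠ u := fun c hc => by
    obtain ⟨w, hw⟩ := mem_F' s hsec hu hc
    exact huF w hw
  have hut : Transcendental kb u := transcendental_of huc
  -- a polynomial in `u` with a non-zero coefficient does not vanish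
  have hpol : ∀ a b c : kb, algebraMap kb Ω a * u ^ 4 + algebraMap kb Ω b * u ^ 2 +
      algebraMap kb Ω c = 0 → a = 0 ∧ c = 0 := by
    intro a b c h0
    have h1 : aeval u (C a * X ^ 4 + C b * X ^ 2 + C c : kb[X]) = 0 := by
      simpa using h0
    have h2 : (C a * X ^ 4 + C b * X ^ 2 + C c : kb[X]) = 0 := by
      by_contra h2
      exact hut ⟨_, h2, h1⟩
    have h3 := congrArg (fun p => coeff p 4) h2
    have h4 := congrArg (fun p => coeff p 0) h2
    constructor
    · simpa [coeff_X, coeff_C] using h3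
    · simpa [coeff_X, coeff_C] using h4
  have hu0 : u ≠ 0 := fun h0 => huc 0 (by rw [_root_.map_zero, h0])
  have hu1 : u ^ 2 + 1 ≠ 0 := by
    intro h0
    have := (hpol 0 1 1 (by simpa using h0)).2
    exact one_ne_zero this
  have eF : ∀ a : F, algebraMap F Ω a = algebraMap kb Ω (algebraMap F kb a) :=
    fun a => IsScalarTower.algebraMap_apply F kb Ω a
  have hBkb : algebraMap F kb B ≠ 0 := by
    rw [Ne, map_eq_zero]; exact hB
  -- the endomorphism
  have htr2 : Algebra.trdeg kb Ω = 1 :=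
    trdeg_fix (k := k) (F := kb) (K := K) (L := Ω) (Ω := Ω) htr
  obtain ⟨ι, hι⟩ := exists_neg htr2.le u hut
  have hιF : ∀ a : F, ι (algebraMap F Ω a) = algebraMap F Ω a := fun a => by
    rw [eF]; exact ι.commutes _
  have hιx : ι x = x := by
    have h1 := congrArg ι hx
    simp only [map_mul, map_neg, map_add, map_pow, map_one, hι, hιF] at h1
    have h2 : algebraMap F Ω A * (u ^ 2 * (u ^ 2 + 1)) * ι x =
        algebraMap F Ω A * (u ^ 2 * (u ^ 2 + 1)) * x := by
      rw [hx]; linear_combination h1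
    exact mul_left_cancel₀ (mul_ne_zero hA' (mul_ne_zero (pow_ne_zero _ hu0) hu1)) h2
  have hιl : ι l = l ∨ ι l = -l := by
    have h1 := congrArg ι h
    simp only [map_mul, map_add, map_pow, hιF, hιx] at h1
    rw [h] at h1
    have h2 := mul_left_cancel₀ hd' h1
    exact sq_eq_sq_iff_eq_or_eq_neg.1 h2.symm
  -- the points
  have h' : (u ^ 2 * x) ^ 3 + algebraMap F Ω A * (u ^ 2 * x) + algebraMap F Ω B =
      algebraMap F Ω d * (u ^ 3 * l) ^ 2 := by
    linear_combination u ^ 6 * h + (1 - u ^ 2) * hx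
  have hns := twist_nonsingular h
  have hns' := twist_nonsingular h'
  have hc1 : ∀ c : kb, algebraMap kb Ω c ≠ algebraMap F Ω d * x := by
    intro c hc
    have h1 : x = algebraMap kb Ω (c / algebraMap F kb d) := by
      rw [map_div₀, hc, ← eF]; field_simp
    have h2 := (hpol (algebraMap F kb A * (c / algebraMap F kb d) + algebraMap F kb B)
      (algebraMap F kb A * (c / algebraMap F kb d) + algebraMap F kb B) (algebraMap F kb B) (by
        rw [map_add, map_mul, ← h1, ← eF, ← eF]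
        linear_combination hx)).2
    exact hBkb h2
  have hc2 : ∀ c : kb, algebraMap kb Ω c ≠ algebraMap F Ω d * (u ^ 2 * x) := by
    intro c hc
    have h1 : u ^ 2 * x = algebraMap kb Ω (c / algebraMap F kb d) := by
      rw [map_div₀, hc, ← eF]; field_simp
    have h2 := (hpol (algebraMap F kb B)
      (algebraMap F kb A * (c / algebraMap F kb d) + algebraMap F kb B)
      (algebraMap F kb A * (c / algebraMap F kb d) + algebraMap F kb B) (by
        rw [map_add, map_mul, ← h1, ← eF, ← eF]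
        linear_combination hx)).1
    exact hBkb h2
  have hind := indep (twist A B d) ι hns hns' hc1 hc2 (by rw [map_mul, hιF, hιx])
    (by rw [map_mul, map_mul, map_pow, hιF, hιx, hι]; ring)
    (by
      rcases hιl with h1 | h1
      · left
        constructor
        · rw [map_mul, map_pow, hιF, h1]
        · rw [map_mul, map_mul, map_pow, map_pow, hιF, h1, hι]; ring
      · right
        constructor
        · rw [map_mul, map_pow, hιF, h1]; ring
        · rw [map_mul, map_mul, map_pow, map_pow, hιF, h1, hι]; ring)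
  have hxfix : ∀ σ : Gal(kb/k), (∀ a : F, σ (algebraMap F kb a) = algebraMap F kb a) →
      s σ x = x := by
    intro σ hσ
    have h1 := congrArg (s σ) hx
    simp only [map_mul, map_neg, map_add, map_pow, map_one, hu σ hσ, hdfix σ hσ] at h1
    exact mul_left_cancel₀ (mul_ne_zero hA' (mul_ne_zero (pow_ne_zero _ hu0) hu1)) (h1.trans hx.symm)
  have hfix₁ : FixedPt s (F := F) (W := twist A B d) (Point.some _ _ hns) := by
    intro σ hσ
    constructor
    · rw [map_mul, hdfix σ hσ, hxfix σ hσ]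
    · rw [map_mul, map_pow, hdfix σ hσ, hl σ hσ]
  have hfix₂ : FixedPt s (F := F) (W := twist A B d) (Point.some _ _ hns') := by
    intro σ hσ
    constructor
    · rw [map_mul, map_mul, map_pow, hdfix σ hσ, hxfix σ hσ, hu σ hσ]
    · rw [map_mul, map_mul, map_pow, map_pow, hdfix σ hσ, hl σ hσ, hu σ hσ]
  by_contra hcon
  push Not at hcon
  exact hgeo (exists_place_le_one htr s hs hsec (twist A B d) P hcon m hm hsha _ _ hfix₁ hfix₂
    hind)

open scoped Classical in
universe u in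
theorem rank_one' (htr : Algebra.trdeg k K = 1)
    (s : Gal(kb/k) →* Gal(Ω/K)) (hs : Continuous s)
    (hsec : ∀ σ a, s σ (algebraMap kb Ω a) = algebraMap kb Ω (σ a)) (hgeo : ¬ IsGeometric s)
    {F : Type u} [Field F] [NumberField F] [Algebra k F]
    [Algebra F kb] [IsScalarTower k F kb] [Algebra F Ω] [IsScalarTower F kb Ω]
    {A B : F} (hΔ : 4 * A ^ 3 + 27 * B ^ 2 ≠ 0) {t : Ω} (ht : Fixed s F t)
    (htF : ∀ c : F, algebraMap F Ω c ≠ t) {d : F} (hd : d ≠ 0) {l : Ω} (hl : Fixed s F l)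
    (h : t ^ 3 + algebraMap F Ω A * t + algebraMap F Ω B = algebraMap F Ω d * l ^ 2)
    (m : ℕ) (hm : 1 ≤ m) (hsha : Sel.ShaKilledBy (twist A B d) ∅ m) :
    ∃ P : ((twist A B d)⁄F).Point, ¬ IsOfFinAddOrder P := by
  obtain ⟨P, hP⟩ := rank_one htr s hs hsec hgeo hΔ ht htF hd hl h m hm hsha
  refine ⟨P, fun h0 => ?_⟩
  obtain ⟨n, hn, hn'⟩ := isOfFinAddOrder_iff_nsmul_eq_zero.1 h0
  exact hP n hn.ne' hn'

omit [Algebra.IsAlgebraic k kb] [Algebra k K] [Algebra k Ω] [IsScalarTower k K Ω]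
  [IsScalarTower k kb Ω] [Algebra.IsAlgebraic K Ω] [IsAlgClosed Ω] in
/-- a cubic polynomial does not vanish at a non-constant element -/
theorem cubic_ne {F : Type*} [Field F] [Algebra F kb] [Algebra F Ω] [IsScalarTower F kb Ω]
    {t : Ω} (ht : ∀ c : kb, algebraMap kb Ω c ≠ t) (A B : F) :
    t ^ 3 + algebraMap F Ω A * t + algebraMap F Ω B ≠ 0 := by
  intro h0
  have h1 : (X ^ 3 + C (algebraMap F kb A) * X + C (algebraMap F kb B) : kb[X]) ≠ 0 := by
    intro h2
    have h3 := congrArg (fun p => coeff p 3) h2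
    simp [coeff_X, coeff_C] at h3
  obtain ⟨c, -, hc⟩ := root_mem (algebraMap kb Ω) h1 (x := t) (by
    simp only [eval₂_add, eval₂_mul, eval₂_pow, eval₂_X, eval₂_C]
    rw [← IsScalarTower.algebraMap_apply, ← IsScalarTower.algebraMap_apply]
    exact h0)
  exact ht c hc

theorem exists_twist (s : Gal(kb/k) →* Gal(Ω/K)) (hs : Continuous s)
    (hsec : ∀ σ a, s σ (algebraMap kb Ω a) = algebraMap kb Ω (σ a))
    {F : Type*} [Field F] [Algebra k F]
    [Algebra F kb] [IsScalarTower k F kb] [Algebra F Ω] [IsScalarTower F kb Ω]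
    {t : Ω} (ht : Fixed s F t) (htF : ∀ c : F, algebraMap F Ω c ≠ t) (A B : F) :
    ∃ d : F, d ≠ 0 ∧ ∃ l : Ω, Fixed s F l ∧
      t ^ 3 + algebraMap F Ω A * t + algebraMap F Ω B = algebraMap F Ω d * l ^ 2 := by
  have hchar : CharZero kb := charZero_of_injective_algebraMap (algebraMap k kb).injective
  have hac : IsAlgClosure k kb := ⟨inferInstance, inferInstance⟩
  have hnor : Normal k kb := IsAlgClosure.normal k kb
  have hgal : IsGalois k kb := ⟨⟩
  have htc : ∀ c : kb, algebraMap kb Ω c ≠ t := fun c hc => by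
    obtain ⟨w, hw⟩ := mem_F' s hsec ht hc
    exact htF w hw
  refine exists_square s hs hsec (fun σ hσ => ?_) (cubic_ne htc A B)
  have hdfix : ∀ a : F, s σ (algebraMap F Ω a) = algebraMap F Ω a := by
    intro a
    rw [IsScalarTower.algebraMap_apply F kb Ω, hsec, hσ]
  rw [map_add, map_add, map_mul, map_pow, hdfix, hdfix, ht σ hσ]

open scoped Classical in
universe u in
theorem rank_two' (htr : Algebra.trdeg k K = 1)
    (s : Gal(kb/k) →* Gal(Ω/K)) (hs : Continuous s)
    (hsec : ∀ σ a, s σ (algebraMap kb Ω a) = algebraMap kb Ω (σ a)) (hgeo : ¬ IsGeometric s)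
    {F : Type u} [Field F] [NumberField F] [Algebra k F]
    [Algebra F kb] [IsScalarTower k F kb] [Algebra F Ω] [IsScalarTower F kb Ω]
    {A B : F} (hΔ : 4 * A ^ 3 + 27 * B ^ 2 ≠ 0) (hA : A ≠ 0) (hB : B ≠ 0)
    {u : Ω} (hu : Fixed s F u) (huF : ∀ c : F, algebraMap F Ω c ≠ u) :
    ∃ x : Ω, algebraMap F Ω A * (u ^ 2 * (u ^ 2 + 1)) * x =
        -(algebraMap F Ω B * (u ^ 4 + u ^ 2 + 1)) ∧
      (∃ d : F, d ≠ 0 ∧ ∃ l : Ω, Fixed s F l ∧
        x ^ 3 + algebraMap F Ω A * x + algebraMap F Ω B = algebraMap F Ω d * l ^ 2) ∧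
      ∀ (d : F) (l : Ω) (m : ℕ), d ≠ 0 → Fixed s F l →
        x ^ 3 + algebraMap F Ω A * x + algebraMap F Ω B = algebraMap F Ω d * l ^ 2 →
        1 ≤ m → Sel.ShaKilledBy (twist A B d) ∅ m →
        ∀ P : ((twist A B d)⁄F).Point, ∃ Q : ((twist A B d)⁄F).Point,
          ∀ a : ℤ, ¬ IsOfFinAddOrder (Q - a • P) := by
  have hchar : CharZero kb := charZero_of_injective_algebraMap (algebraMap k kb).injective
  have hac : IsAlgClosure k kb := ⟨inferInstance, inferInstance⟩
  have hnor : Normal k kb := IsAlgClosure.normal k kb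
  have hgal : IsGalois k kb := ⟨⟩
  have hdfix : ∀ σ : Gal(kb/k), (∀ a : F, σ (algebraMap F kb a) = algebraMap F kb a) →
      ∀ a : F, s σ (algebraMap F Ω a) = algebraMap F Ω a := by
    intro σ hσ a
    rw [IsScalarTower.algebraMap_apply F kb Ω, hsec, hσ]
  have inj : ∀ {a : F}, a ≠ 0 → algebraMap F Ω a ≠ 0 := by
    intro a ha
    rw [Ne, map_eq_zero]; exact ha
  have hA' := inj hA
  have hB' := inj hB
  have huc : ∀ c : kb, algebraMap kb Ω c ≠ u := fun c hc => by
    obtain ⟨w, hw⟩ := mem_F' s hsec hu hc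
    exact huF w hw
  have hut : Transcendental kb u := transcendental_of huc
  have hpol : ∀ a b c : kb, algebraMap kb Ω a * u ^ 4 + algebraMap kb Ω b * u ^ 2 +
      algebraMap kb Ω c = 0 → c = 0 := by
    intro a b c h0
    have h1 : aeval u (C a * X ^ 4 + C b * X ^ 2 + C c : kb[X]) = 0 := by
      simpa using h0
    have h2 : (C a * X ^ 4 + C b * X ^ 2 + C c : kb[X]) = 0 := by
      by_contra h2
      exact hut ⟨_, h2, h1⟩
    have h4 := congrArg (fun p => coeff p 0) h2
    simpa [coeff_X, coeff_C] using h4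
  have hu0 : u ≠ 0 := fun h0 => huc 0 (by rw [_root_.map_zero, h0])
  have hu1 : u ^ 2 + 1 ≠ 0 := by
    intro h0
    exact one_ne_zero (hpol 0 1 1 (by simpa using h0))
  have hD : algebraMap F Ω A * (u ^ 2 * (u ^ 2 + 1)) ≠ 0 :=
    mul_ne_zero hA' (mul_ne_zero (pow_ne_zero _ hu0) hu1)
  let x : Ω := -(algebraMap F Ω B * (u ^ 4 + u ^ 2 + 1)) /
    (algebraMap F Ω A * (u ^ 2 * (u ^ 2 + 1)))
  have hx : algebraMap F Ω A * (u ^ 2 * (u ^ 2 + 1)) * x =
      -(algebraMap F Ω B * (u ^ 4 + u ^ 2 + 1)) := mul_div_cancel₀ _ hD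
  have hxfix : Fixed s F x := by
    intro σ hσ
    have h1 := congrArg (s σ) hx
    simp only [map_mul, map_neg, map_add, map_pow, map_one, hu σ hσ, hdfix σ hσ] at h1
    exact mul_left_cancel₀ hD (h1.trans hx.symm)
  have hxF : ∀ c : F, algebraMap F Ω c ≠ x := by
    intro c hc
    have eF : ∀ a : F, algebraMap F Ω a = algebraMap kb Ω (algebraMap F kb a) :=
      fun a => IsScalarTower.algebraMap_apply F kb Ω a
    have hBkb : algebraMap F kb B ≠ 0 := by
      rw [Ne, map_eq_zero]; exact hB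
    refine hBkb (hpol (algebraMap F kb A * algebraMap F kb c + algebraMap F kb B)
      (algebraMap F kb A * algebraMap F kb c + algebraMap F kb B) _ ?_)
    rw [map_add, map_mul, ← eF, ← eF, ← eF, hc]
    linear_combination hx
  exact ⟨x, hx, exists_twist s hs hsec hxfix hxF A B, fun d l m hd hl h hm hsha P =>
    rank_two htr s hs hsec hgeo hΔ hA hB hu huF hx hd hl h m hm hsha P⟩

end main

end Pool.Agent.Lib.MP_2f3286_ag.Koe
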