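import Pool.Agent.Lib.MP_2f3286_ag.Koe.Defs
import Pool.Agent.Lib.MP_2f3286_ag.Local

open IsDedekindDomain NumberField Polynomial Pointwise

namespace Pool.Agent.Lib.MP_2f3286_ag.Koe

section DecW

variable (C Lb : Type*) [NontriviallyNormedField C] [CompleteSpace C] [IsUltrametricDist C]
  [Field Lb] [Algebra C Lb] [Algebra.IsAlgebraic C Lb]

/-- the spectral norm as an absolute value -/
noncomputable def decW : AbsoluteValue Lb ℝ where
  toFun := spectralNorm C Lb
  map_mul' := spectralAlgNorm_mul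
  nonneg' := spectralNorm_nonneg
  eq_zero' _ := map_eq_zero_iff_eq_zero (spectralMulAlgNorm C Lb)
  add_le' _ _ := isNonarchimedean_spectralNorm.add_le spectralNorm_nonneg

theorem decW_apply (x : Lb) : decW C Lb x = spectralNorm C Lb x := rfl

theorem decW_nonarch (a b : Lb) : decW C Lb (a + b) ≤ max (decW C Lb a) (decW C Lb b) :=
  isNonarchimedean_spectralNorm a b

theorem decW_alg (c : C) : decW C Lb (algebraMap C Lb c) = ‖c‖ := spectralNorm_extends c

theorem decW_equiv (τ : Gal(Lb/C)) (z : Lb) : decW C Lb (τ z) = decW C Lb z :=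
  (spectralNorm_eq_of_equiv τ z).symm

theorem decW_pow (x : Lb) :
    decW C Lb x ^ (minpoly C x).natDegree = ‖(minpoly C x).coeff 0‖ := by
  have h := spectralNorm.spectralNorm_eq_norm_coeff_zero_rpow C Lb x
  have hd : (minpoly C x).natDegree ≠ 0 :=
    (minpoly.natDegree_pos (Algebra.IsIntegral.isIntegral x)).ne'
  rw [decW_apply, h, ← Real.rpow_natCast, ← Real.rpow_mul (norm_nonneg _), one_div,
    inv_mul_cancel₀ (by exact_mod_cast hd), Real.rpow_one]

theorem decW_coeff (x : Lb) (hx : decW C Lb x ≤ 1) (n : ℕ) : ‖(minpoly C x).coeff n‖ ≤ 1 := by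
  have hm : (minpoly C x).Monic := minpoly.monic (Algebra.IsIntegral.isIntegral x)
  exact (spectralValue_le_one_iff hm).1 hx n

theorem decW_seq (E : IntermediateField C Lb) [FiniteDimensional C E] (x : ℕ → Lb)
    (hx : ∀ n, x n ∈ E) {r : ℝ} (hr0 : 0 ≤ r) (hr : r < 1)
    (h : ∀ n, decW C Lb (x (n + 1) - x n) ≤ r ^ n) :
    ∃ z : Lb, ∀ n, decW C Lb (x n - z) ≤ r ^ n := by
  let := spectralNorm.normedField C E
  have : CompleteSpace E := spectralNorm.completeSpace C E
  have hnorm : ∀ y : E, ‖y‖ = decW C Lb (y : Lb) := fun y =>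
    spectralNorm.eq_of_tower (K := C) (L := Lb) y
  let y : ℕ → E := fun n => ⟨x n, hx n⟩
  have hy : ∀ n, ‖y (n + 1) - y n‖ ≤ r ^ n := fun n => by rw [hnorm]; exact h n
  have hc : CauchySeq y := by
    refine cauchySeq_of_le_geometric r 1 hr fun n => ?_
    rw [dist_comm, dist_eq_norm, one_mul]
    exact hy n
  obtain ⟨z, hz⟩ := cauchySeq_tendsto_of_complete hc
  refine ⟨z, fun n => ?_⟩
  have hmono : ∀ m, n ≤ m → ‖y n - y m‖ ≤ r ^ n := by
    intro m hm
    induction m, hm using Nat.le_induction with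
    | base => simp [pow_nonneg hr0]
    | succ m hm ih =>
      have e : y n - y (m + 1) = (y n - y m) + -(y (m + 1) - y m) := by ring
      rw [e, hnorm]
      push_cast
      refine (decW_nonarch C Lb _ _).trans (max_le ?_ ?_)
      · have := ih
        rw [hnorm] at this
        exact_mod_cast this
      · have := hy m
        rw [hnorm] at this
        rw [AbsoluteValue.map_neg]
        refine le_trans (by exact_mod_cast this) (pow_le_pow_of_le_one hr0 hr.le hm)
  have hlim : Filter.Tendsto (fun m => ‖y n - y m‖) Filter.atTop (nhds ‖y n - z‖) :=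
    (tendsto_const_nhds.sub hz).norm
  have := le_of_tendsto hlim (Filter.eventually_atTop.2 ⟨n, hmono⟩)
  rw [hnorm] at this
  exact_mod_cast this

end DecW


section DecD

variable {k kb : Type*} [Field k] [Field kb] [Algebra k kb]

/-- the group of isometries of `kb` -/
def isoGrp (v : AbsoluteValue kb ℝ) : Subgroup Gal(kb/k) where
  carrier := {σ | ∀ a, v (σ a) = v a}
  mul_mem' := fun {σ τ} hσ hτ a => by rw [AlgEquiv.mul_apply, hσ, hτ]
  one_mem' := fun _ => rfl
  inv_mem' := fun {σ} hσ a => by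
    have := hσ (σ⁻¹ a)
    rw [← this, ← AlgEquiv.mul_apply, mul_inv_cancel, AlgEquiv.one_apply]

theorem isoGrp_closed [Algebra.IsAlgebraic k kb] (v : AbsoluteValue kb ℝ) :
    IsClosed ((isoGrp v : Subgroup Gal(kb/k)) : Set Gal(kb/k)) := by
  rw [← isOpen_compl_iff, isOpen_iff_forall_mem_open]
  intro σ hσ
  have hσ' : ¬ ∀ a, v (σ a) = v a := hσ
  push Not at hσ'
  obtain ⟨a, ha⟩ := hσ'
  have : FiniteDimensional k (IntermediateField.adjoin k ({a} : Set kb)) :=
    IntermediateField.adjoin.finiteDimensional (Algebra.IsIntegral.isIntegral a)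
  refine ⟨σ • ((IntermediateField.adjoin k ({a} : Set kb)).fixingSubgroup : Set Gal(kb/k)), ?_, ?_, ?_⟩
  · rintro _ ⟨h, hh, rfl⟩ hmem
    have h1 : v ((σ * h) a) = v a := hmem a
    have h2 : h a = a := (IntermediateField.mem_fixingSubgroup_iff _ h).1 hh a
      (IntermediateField.mem_adjoin_simple_self k a)
    rw [AlgEquiv.mul_apply, h2] at h1
    exact ha h1
  · exact (IntermediateField.fixingSubgroup_isOpen _).leftCoset σ
  · exact ⟨1, one_mem _, by simp⟩

end DecD

section DecRho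

variable {k C kb Lb : Type*} [Field k] [Field C] [Algebra k C] [Field kb] [Algebra k kb]
  [Normal k kb] [Field Lb] [Algebra C Lb] [Algebra k Lb] [IsScalarTower k C Lb]

theorem exists_rho (ι : kb →ₐ[k] Lb) : ∃ ρ : Gal(Lb/C) →* Gal(kb/k),
    ∀ τ a, ι (ρ τ a) = τ (ι a) := by
  let : Algebra kb Lb := ι.toRingHom.toAlgebra
  have : IsScalarTower k kb Lb := IsScalarTower.of_algebraMap_eq fun x => (ι.commutes x).symm
  refine ⟨(AlgEquiv.restrictNormalHom kb).comp (AlgEquiv.restrictScalarsHom k), fun τ a => ?_⟩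
  have := AlgEquiv.restrictNormal_commutes (τ.restrictScalars k) kb a
  exact this

theorem finExt [IsGalois C Lb] (ι : kb →ₐ[k] Lb) {D U : Subgroup Gal(kb/k)}
    (hD : ∀ (σ : Gal(kb/k)) (τ : Gal(Lb/C)), (∀ a, ι (σ a) = τ (ι a)) → σ ∈ D)
    (hU : U.relIndex D ≠ 0) : ∃ E : IntermediateField C Lb, FiniteDimensional C E ∧
      ∀ a ∈ fixk U, ι a ∈ E := by
  obtain ⟨ρ, hρ⟩ := exists_rho (C := C) ι
  have hr : ρ.range ≤ D := by
    rintro _ ⟨τ, rfl⟩
    exact hD _ τ (hρ τ)
  have hidx : (U.comap ρ).index ≠ 0 := by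
    rw [Subgroup.index_comap]
    exact fun h0 => hU (Subgroup.relIndex_eq_zero_of_le_right hr h0)
  refine ⟨IntermediateField.fixedField (U.comap ρ), ?_, ?_⟩
  · rw [← InfiniteGalois.isOpen_iff_finite]
    have hle : U.comap ρ ≤ (IntermediateField.fixedField (U.comap ρ)).fixingSubgroup :=
      (IntermediateField.le_iff_le _ _).1 le_rfl
    have : (IntermediateField.fixedField (U.comap ρ)).fixingSubgroup.FiniteIndex := by
      have : (U.comap ρ).FiniteIndex := ⟨hidx⟩
      exact Subgroup.finiteIndex_of_le hle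
    exact Subgroup.isOpen_of_isClosed_of_finiteIndex _ (InfiniteGalois.fixingSubgroup_isClosed _)
  · intro a ha
    rw [IntermediateField.mem_fixedField_iff]
    intro τ hτ
    rw [← hρ, ha _ hτ]

end DecRho

section DecAbs

variable {k C kb Lb : Type*} [Field k] [NontriviallyNormedField C] [CompleteSpace C]
  [IsUltrametricDist C] [Algebra k C] [Field kb] [Algebra k kb] [Field Lb] [Algebra C Lb]
  [Algebra k Lb] [IsScalarTower k C Lb] [Algebra.IsAlgebraic C Lb]

/-- the restriction of the spectral norm -/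
noncomputable def decV (ι : kb →ₐ[k] Lb) : AbsoluteValue kb ℝ :=
  (decW C Lb).comp (f := (ι : kb →+* Lb)) ι.injective

omit [Algebra k C] [IsScalarTower k C Lb] in
theorem decV_apply (ι : kb →ₐ[k] Lb) (a : kb) : decV (C := C) ι a = decW C Lb (ι a) := rfl

omit [Algebra k C] [IsScalarTower k C Lb] in
theorem dec_disc (ι : kb →ₐ[k] Lb) {q : ℝ} (hq : 1 < q)
    (hval : ∀ x : C, x ≠ 0 → ∃ j : ℤ, ‖x‖ = q ^ j) {E : IntermediateField C Lb}
    [FiniteDimensional C E] {F : Subfield kb} (hF : ∀ a ∈ F, ι a ∈ E) {b : kb} (hb : b ∈ F)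
    (hb0 : b ≠ 0) (hb1 : decV (C := C) ι b < 1) :
    ∃ π ∈ F, 0 < decV (C := C) ι π ∧ decV (C := C) ι π < 1 ∧
      ∀ a ∈ F, decV (C := C) ι a < 1 → decV (C := C) ι a ≤ decV (C := C) ι π := by
  set m := Module.finrank C E with hm
  have hm0 : 0 < m := Module.finrank_pos
  set v := decV (C := C) ι with hv
  have key : ∀ a ∈ F, a ≠ 0 → ∃ j : ℤ, v a ^ m = q ^ j := by
    intro a ha ha0
    have hd : (minpoly C (ι a)).natDegree ∣ m := by
      have := minpoly.degree_dvd (K := C) (x := (⟨ι a, hF a ha⟩ : E))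
        (Algebra.IsIntegral.isIntegral _)
      rwa [IntermediateField.minpoly_eq] at this
    obtain ⟨e, he⟩ := hd
    have hx0 : ι a ≠ 0 := (map_ne_zero ι).2 ha0
    obtain ⟨j, hj⟩ := hval _ (minpoly.coeff_zero_ne_zero
      (Algebra.IsIntegral.isIntegral (R := C) (ι a)) hx0)
    refine ⟨j * e, ?_⟩
    rw [he, pow_mul, zpow_mul, ← hj]
    have := decW_pow C Lb (ι a)
    rw [← decV_apply (C := C) ι a] at this
    rw [hv, this, zpow_natCast]
  have hneg : ∀ a ∈ F, a ≠ 0 → v a < 1 → ∀ j : ℤ, v a ^ m = q ^ j → j ≤ -1 := by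
    intro a _ _ h1 j hj
    have h2 : v a ^ m < 1 := pow_lt_one₀ (v.nonneg a) h1 hm0.ne'
    rw [hj] at h2
    by_contra hcon
    push Not at hcon
    have : (1 : ℝ) ≤ q ^ j := one_le_zpow₀ hq.le (by omega)
    linarith
  obtain ⟨j, ⟨π, hπ, hπ0, hπ1, hπj⟩, hj⟩ := Int.exists_greatest_of_bdd
    (P := fun j : ℤ => ∃ a ∈ F, a ≠ 0 ∧ v a < 1 ∧ v a ^ m = q ^ j)
    ⟨-1, fun j ⟨a, ha, ha0, ha1, haj⟩ => hneg a ha ha0 ha1 j haj⟩
    (by obtain ⟨j, hj⟩ := key b hb hb0; exact ⟨j, b, hb, hb0, hb1, hj⟩)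
  refine ⟨π, hπ, v.pos hπ0, hπ1, fun a ha ha1 => ?_⟩
  by_cases ha0 : a = 0
  · subst ha0; rw [map_zero]; exact v.nonneg π
  obtain ⟨i, hi⟩ := key a ha ha0
  have h1 := hj i ⟨a, ha, ha0, ha1, hi⟩
  have h2 : v a ^ m ≤ v π ^ m := by
    rw [hi, hπj]; exact zpow_le_zpow_right₀ hq.le h1
  exact (pow_le_pow_iff_left₀ (v.nonneg a) (v.nonneg π) hm0.ne').1 h2

omit [Algebra k C] [IsScalarTower k C Lb] in
theorem decW_sum_lt {α : Type*} (s : Finset α) (f : α → Lb) (h : ∀ i ∈ s, decW C Lb (f i) < 1) :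
    decW C Lb (∑ i ∈ s, f i) < 1 := by
  classical
  refine Finset.sum_induction f (fun z => decW C Lb z < 1)
    (fun a b ha hb => (decW_nonarch C Lb a b).trans_lt (max_lt ha hb)) ?_ h
  simp

theorem exists_close (v : AbsoluteValue kb ℝ) (a : kb) (s : Multiset kb)
    (h : v (s.map fun r => a - r).prod < 1) : ∃ r ∈ s, v (a - r) < 1 := by
  induction s using Multiset.induction_on with
  | empty => simp at h
  | cons r s ih =>
    by_cases hr : v (a - r) < 1
    · exact ⟨r, Multiset.mem_cons_self r s, hr⟩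
    · rw [Multiset.map_cons, Multiset.prod_cons, map_mul] at h
      have h1 : v (s.map fun r => a - r).prod < 1 := by
        push Not at hr
        have h0 := v.nonneg (s.map fun r => a - r).prod
        nlinarith
      obtain ⟨r', hr', h'⟩ := ih h1
      exact ⟨r', Multiset.mem_cons_of_mem hr', h'⟩

theorem dec_res [IsAlgClosed kb] (ι : kb →ₐ[k] Lb) {S : Finset k}
    (hS : ∀ x : C, ‖x‖ ≤ 1 → ∃ s ∈ S, ‖x - algebraMap k C s‖ < 1) {E : IntermediateField C Lb}
    [FiniteDimensional C E] {F : Subfield kb} (hF : ∀ a ∈ F, ι a ∈ E) :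
    ∃ R : Finset kb, ∀ a ∈ F, decV (C := C) ι a ≤ 1 → ∃ r ∈ R, decV (C := C) ι (a - r) < 1 := by
  classical
  set m := Module.finrank C E with hm
  have hm0 : 0 < m := Module.finrank_pos
  set v := decV (C := C) ι with hv
  let Q : (d : ℕ) → (Fin d → k) → k[X] := fun d f => X ^ d + ∑ i : Fin d, Polynomial.C (f i) * X ^ (i : ℕ)
  have hQm : ∀ d f, (Q d f).Monic := by
    intro d f
    refine monic_X_pow_add ?_
    refine (Polynomial.degree_sum_fin_lt (fun i => f i))
  refine ⟨(Finset.range (m + 1)).biUnion fun d =>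
    (Fintype.piFinset (fun _ : Fin d => S)).biUnion fun f =>
      ((Q d f).map (algebraMap k kb)).roots.toFinset, fun a ha ha1 => ?_⟩
  set x := ι a with hx
  set P := minpoly C x with hP
  have hPm : P.Monic := minpoly.monic (Algebra.IsIntegral.isIntegral x)
  have hd : P.natDegree ∣ m := by
    have := minpoly.degree_dvd (K := C) (x := (⟨ι a, hF a ha⟩ : E))
      (Algebra.IsIntegral.isIntegral _)
    rwa [IntermediateField.minpoly_eq] at this
  have hdm : P.natDegree ≤ m := Nat.le_of_dvd hm0 hd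
  have hc : ∀ i : ℕ, ∃ s ∈ S, ‖P.coeff i - algebraMap k C s‖ < 1 := fun i =>
    hS _ (decW_coeff C Lb x ha1 i)
  choose s hsS hs using hc
  let f : Fin P.natDegree → k := fun i => s i
  have heval : ι (((Q P.natDegree f).map (algebraMap k kb)).eval a) =
      ∑ i : Fin P.natDegree, algebraMap C Lb (algebraMap k C (s i) - P.coeff i) * x ^ (i : ℕ) := by
    have h0 : Polynomial.aeval x P = 0 := minpoly.aeval C x
    rw [hPm.as_sum, Finset.sum_range] at h0
    simp only [map_add, map_pow, aeval_X, map_sum, map_mul, aeval_C] at h0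
    have h1 : ι (((Q P.natDegree f).map (algebraMap k kb)).eval a) =
        x ^ P.natDegree + ∑ i : Fin P.natDegree, algebraMap C Lb (algebraMap k C (s i)) * x ^ (i : ℕ) := by
      simp only [Q, f, Polynomial.map_add, Polynomial.map_pow, map_X, Polynomial.map_sum,
        Polynomial.map_mul, map_C, eval_add, eval_pow, eval_X, eval_finsetSum, eval_mul, eval_C,
        map_add, map_pow, map_sum, map_mul, AlgHom.commutes]
      rw [← hx]
      congr 1
      refine Finset.sum_congr rfl fun i _ => ?_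
      rw [← IsScalarTower.algebraMap_apply]
    rw [h1]
    have h2 : ∑ i : Fin P.natDegree, algebraMap C Lb (algebraMap k C (s i) - P.coeff i) * x ^ (i : ℕ)
      = ∑ i : Fin P.natDegree, algebraMap C Lb (algebraMap k C (s i)) * x ^ (i : ℕ) -
        ∑ i : Fin P.natDegree, algebraMap C Lb (P.coeff i) * x ^ (i : ℕ) := by
      rw [← Finset.sum_sub_distrib]
      refine Finset.sum_congr rfl fun i _ => ?_
      rw [map_sub]; ring
    rw [h2]
    linear_combination h0
  have hsplit := (IsAlgClosed.splits ((Q P.natDegree f).map (algebraMap k kb))).eq_prod_roots_of_monic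
    ((hQm _ f).map _)
  have hprod : ((Q P.natDegree f).map (algebraMap k kb)).eval a =
      ((((Q P.natDegree f).map (algebraMap k kb)).roots).map fun r => a - r).prod := by
    conv_lhs => rw [hsplit]
    rw [eval_multiset_prod, Multiset.map_map]
    simp
  have hlt : v (((((Q P.natDegree f).map (algebraMap k kb)).roots).map fun r => a - r).prod) < 1 := by
    rw [← hprod, hv, decV_apply, heval]
    refine decW_sum_lt _ _ fun i _ => ?_
    rw [map_mul, decW_alg, map_pow]
    have h3 : ‖algebraMap k C (s i) - P.coeff i‖ < 1 := by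
      rw [norm_sub_rev]; exact hs i
    have h4 : decW C Lb x ^ (i : ℕ) ≤ 1 := pow_le_one₀ ((decW C Lb).nonneg x) ha1
    exact lt_of_le_of_lt (mul_le_of_le_one_right (norm_nonneg _) h4) h3
  obtain ⟨r, hr, hvr⟩ := exists_close v a _ hlt
  refine ⟨r, ?_, hvr⟩
  simp only [Finset.mem_biUnion]
  refine ⟨P.natDegree, Finset.mem_range.2 (by omega), f, ?_, ?_⟩
  · rw [Fintype.mem_piFinset]; exact fun i => hsS i
  · exact Multiset.mem_toFinset.2 hr

end DecAbs


section DecMain

theorem dec_abs {k C kb Lb : Type*} [Field k] [NontriviallyNormedField C] [CompleteSpace C]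
    [IsUltrametricDist C] [Algebra k C] [Field kb] [Algebra k kb] [IsGalois k kb] [IsAlgClosed kb]
    [CharZero kb] [Field Lb] [Algebra C Lb] [Algebra k Lb] [IsScalarTower k C Lb] [IsGalois C Lb]
    (ι : kb →ₐ[k] Lb) {p : ℕ} (hp : p.Prime) (hp1 : ‖(p : C)‖ < 1) {q : ℝ} (hq : 1 < q)
    (hval : ∀ x : C, x ≠ 0 → ∃ j : ℤ, ‖x‖ = q ^ j) {S : Finset k}
    (hS : ∀ x : C, ‖x‖ ≤ 1 → ∃ s ∈ S, ‖x - algebraMap k C s‖ < 1) :
    ∃ (w : AbsoluteValue Lb ℝ) (v' : AbsoluteValue kb ℝ) (D : Subgroup Gal(kb/k)) (p : ℕ),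
      (∀ a b, w (a + b) ≤ max (w a) (w b)) ∧ (∀ a, w (ι a) = v' a) ∧ LocData v' D p ∧
      (∀ τ : Gal(Lb/C), ∀ z, w (τ z) = w z) ∧
      (∀ (σ : Gal(kb/k)) (τ : Gal(Lb/C)), (∀ a, ι (σ a) = τ (ι a)) → σ ∈ D) ∧
      (∀ U, FinIn D U → ∀ a : ℕ → kb, (∀ n, a n ∈ fixk U) →
        (∀ n, v' (a (n + 1) - a n) ≤ v' (p : kb) ^ n) →
        ∃ z, ∀ n, w (ι (a n) - z) ≤ v' (p : kb) ^ n) := by
  have hD : ∀ (σ : Gal(kb/k)) (τ : Gal(Lb/C)), (∀ a, ι (σ a) = τ (ι a)) →
      σ ∈ isoGrp (decV (C := C) ι) := by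
    intro σ τ h a
    rw [decV_apply, h, decW_equiv, decV_apply]
  have hvp : decV (C := C) ι (p : kb) < 1 := by
    rw [decV_apply, map_natCast, ← map_natCast (algebraMap C Lb), decW_alg]
    exact hp1
  have hp0 : (p : kb) ≠ 0 := by exact_mod_cast hp.ne_zero
  refine ⟨decW C Lb, decV (C := C) ι, isoGrp (decV (C := C) ι), p, decW_nonarch C Lb,
    fun a => rfl, ⟨hp, isoGrp_closed _, fun a b => ?_, fun σ hσ a => hσ a, hvp, ?_, ?_⟩,
    decW_equiv C Lb, hD, ?_⟩
  · rw [decV_apply, map_add]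
    exact decW_nonarch C Lb _ _
  · intro U hU
    obtain ⟨E, hE, hF⟩ := finExt (C := C) ι hD hU.2.2
    exact dec_disc ι hq hval hF (natCast_mem _ p) hp0 hvp
  · intro U hU
    obtain ⟨E, hE, hF⟩ := finExt (C := C) ι hD hU.2.2
    exact dec_res ι hS hF
  · intro U hU a ha h
    obtain ⟨E, hE, hF⟩ := finExt (C := C) ι hD hU.2.2
    refine decW_seq C Lb E (fun n => ι (a n)) (fun n => hF _ (ha n))
      ((decV (C := C) ι).nonneg _) hvp fun n => ?_
    have := h n
    rw [decV_apply, map_sub] at this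
    exact this

end DecMain


section DecNF

open NumberField.HeightOneSpectrum WithZero

variable {k : Type*} [Field k] [NumberField k] (v : HeightOneSpectrum (𝓞 k))

theorem adic_norm_zpow (x : v.adicCompletion k) (hx : x ≠ 0) :
    ∃ j : ℤ, ‖x‖ = ((Ideal.absNorm v.asIdeal : ℕ) : ℝ) ^ j := by
  have h := FinitePlace.norm_def (K := k) v x
  have hx' : Valued.v x ≠ 0 := (Valuation.ne_zero_iff _).2 hx
  rw [WithZeroMulInt.toNNReal_neg_apply _ hx'] at h
  refine ⟨Multiplicative.toAdd (WithZero.unzero hx'), ?_⟩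
  rw [h]
  push_cast
  rfl

theorem exists_prime_mem : ∃ p : ℕ, p.Prime ∧ (p : 𝓞 k) ∈ v.asIdeal := by
  have hN : ((Ideal.absNorm v.asIdeal : ℕ) : 𝓞 k) ∈ v.asIdeal := Ideal.absNorm_mem _
  have h0 : Ideal.absNorm v.asIdeal ≠ 0 := by
    have := one_lt_absNorm v; omega
  have h1 := Nat.prod_primeFactorsList h0
  rw [← h1] at hN
  rw [Nat.cast_list_prod] at hN
  have h2 : (((Ideal.absNorm v.asIdeal).primeFactorsList.map (Nat.cast : ℕ → 𝓞 k) :
      Multiset (𝓞 k))).prod ∈ v.asIdeal := by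
    simpa using hN
  obtain ⟨x, hx, hx'⟩ := (v.isPrime.multiset_prod_mem_iff_exists_mem _).1 h2
  simp only [Multiset.mem_coe, List.mem_map] at hx
  obtain ⟨p, hp, rfl⟩ := hx
  exact ⟨p, Nat.prime_of_mem_primeFactorsList hp, hx'⟩

theorem adic_norm_lt_one_iff (x : v.adicCompletion k) : ‖x‖ < 1 ↔ Valued.v x < 1 := by
  have h := FinitePlace.norm_def (K := k) v x
  rw [h, ← NNReal.coe_one, NNReal.coe_lt_coe]
  have hs := WithZeroMulInt.toNNReal_strictMono (one_lt_absNorm_nnreal v)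
  rw [← map_one (WithZeroMulInt.toNNReal (absNorm_ne_zero v))]
  exact hs.lt_iff_lt

theorem adic_norm_le_one_iff (x : v.adicCompletion k) : ‖x‖ ≤ 1 ↔ Valued.v x ≤ 1 := by
  have h := FinitePlace.norm_def (K := k) v x
  rw [h, ← NNReal.coe_one, NNReal.coe_le_coe]
  have hs := WithZeroMulInt.toNNReal_strictMono (one_lt_absNorm_nnreal v)
  rw [← map_one (WithZeroMulInt.toNNReal (absNorm_ne_zero v))]
  exact hs.le_iff_le

theorem adic_res : ∃ S : Finset k, ∀ x : v.adicCompletion k, ‖x‖ ≤ 1 →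
    ∃ s ∈ S, ‖x - algebraMap k (v.adicCompletion k) s‖ < 1 := by
  classical
  have hfin : Finite (𝓞 k ⧸ v.asIdeal) := v.asIdeal.finiteQuotientOfFreeOfNeBot v.ne_bot
  have : Fintype (𝓞 k ⧸ v.asIdeal) := Fintype.ofFinite _
  refine ⟨Finset.univ.image fun c : 𝓞 k ⧸ v.asIdeal => algebraMap (𝓞 k) k (Quotient.out c), ?_⟩
  intro x hx
  rw [adic_norm_le_one_iff] at hx
  obtain ⟨y, hy⟩ := exists_approx v x 1
  have hlt : exp (-((1 : ℕ) : ℤ)) < (1 : WithZero (Multiplicative ℤ)) := by
    rw [← exp_zero]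
    exact exp_lt_exp.mpr (by norm_num)
  have hy1 : v.valuation k y ≤ 1 := by
    rw [← val_alg]
    have e : algebraMap k (v.adicCompletion k) y = x - (x - algebraMap k (v.adicCompletion k) y) := by
      ring
    rw [e]
    exact (Valued.v.map_sub _ _).trans (max_le hx (hy.trans hlt.le))
  obtain ⟨a, ha⟩ := HeightOneSpectrum.exists_valuation_sub_lt_of_integer v hy1 1
  simp only [Units.val_one] at ha
  set c : 𝓞 k ⧸ v.asIdeal := Ideal.Quotient.mk _ a with hc
  refine ⟨algebraMap (𝓞 k) k (Quotient.out c), Finset.mem_image_of_mem _ (Finset.mem_univ _), ?_⟩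
  rw [adic_norm_lt_one_iff]
  have e : x - algebraMap k (v.adicCompletion k) (algebraMap (𝓞 k) k (Quotient.out c)) =
      (x - algebraMap k (v.adicCompletion k) y) -
      algebraMap k (v.adicCompletion k) (algebraMap (𝓞 k) k a - y) +
      algebraMap k (v.adicCompletion k) (algebraMap (𝓞 k) k (a - Quotient.out c)) := by
    rw [map_sub, map_sub, map_sub]; ring
  rw [e]
  refine lt_of_le_of_lt (Valued.v.map_add _ _) (max_lt (lt_of_le_of_lt (Valued.v.map_sub _ _)
    (max_lt (lt_of_le_of_lt hy hlt) ?_)) ?_)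
  · rw [val_alg]; exact ha
  · rw [val_alg, HeightOneSpectrum.valuation_lt_one_iff_mem, ← Ideal.Quotient.eq_zero_iff_mem,
      map_sub, sub_eq_zero, ← hc]
    exact (Ideal.Quotient.mk_out c).symm

/-- DEC -/
theorem dec {k : Type*} [Field k] [NumberField k] (v : HeightOneSpectrum (𝓞 k))
    (ι : AlgebraicClosure k →ₐ[k] AlgebraicClosure (v.adicCompletion k)) :
    ∃ (w : AbsoluteValue (AlgebraicClosure (v.adicCompletion k)) ℝ)
      (v' : AbsoluteValue (AlgebraicClosure k) ℝ) (D : Subgroup Gal(AlgebraicClosure k/k)) (p : ℕ),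
      (∀ a b, w (a + b) ≤ max (w a) (w b)) ∧ (∀ a, w (ι a) = v' a) ∧ LocData v' D p ∧
      (∀ τ : Gal(AlgebraicClosure (v.adicCompletion k)/v.adicCompletion k), ∀ z, w (τ z) = w z) ∧
      (∀ (σ : Gal(AlgebraicClosure k/k))
        (τ : Gal(AlgebraicClosure (v.adicCompletion k)/v.adicCompletion k)),
        (∀ a, ι (σ a) = τ (ι a)) → σ ∈ D) ∧
      (∀ U, FinIn D U → ∀ a : ℕ → AlgebraicClosure k, (∀ n, a n ∈ fixk U) →
        (∀ n, v' (a (n + 1) - a n) ≤ v' (p : AlgebraicClosure k) ^ n) →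
        ∃ z, ∀ n, w (ι (a n) - z) ≤ v' (p : AlgebraicClosure k) ^ n) := by
  have hc : CharZero (v.adicCompletion k) :=
    charZero_of_injective_algebraMap (algebraMap k (v.adicCompletion k)).injective
  have hc' : CharZero (AlgebraicClosure k) :=
    charZero_of_injective_algebraMap (algebraMap k (AlgebraicClosure k)).injective
  have hG : IsGalois (v.adicCompletion k) (AlgebraicClosure (v.adicCompletion k)) :=
    IsAlgClosure.isGalois _ _
  have hG' : IsGalois k (AlgebraicClosure k) := IsAlgClosure.isGalois _ _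
  obtain ⟨p, hp, hpm⟩ := exists_prime_mem v
  obtain ⟨S, hS⟩ := adic_res v
  have hq : (1 : ℝ) < ((Ideal.absNorm v.asIdeal : ℕ) : ℝ) := by exact_mod_cast one_lt_absNorm v
  let : NontriviallyNormedField (v.adicCompletion k) :=
    Valued.toNontriviallyNormedField (v.adicCompletion k) (WithZero (Multiplicative ℤ))
  have hp1 : ‖(p : v.adicCompletion k)‖ < 1 := by
    have := (FinitePlace.norm_lt_one_iff_mem k v (p : 𝓞 k)).2 hpm
    rw [map_natCast, map_natCast] at this
    exact this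
  exact dec_abs (C := v.adicCompletion k) ι hp hp1 hq (adic_norm_zpow v) hS

end DecNF

end Pool.Agent.Lib.MP_2f3286_ag.Koe
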