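import Pool.Agent.Lib.MP_2f3286_ag.Koe.Apx

/-!
# The local place attached to a good valuation ring
-/

namespace Pool.Agent.Lib.MP_2f3286_ag.Koe

variable {k kb : Type*} [Field k] [Field kb] [Algebra k kb]
  {K Ω : Type*} [Field K] [Field Ω] [Algebra K Ω] [Algebra kb Ω]
  {v : AbsoluteValue kb ℝ} {D : Subgroup Gal(kb/k)} {p : ℕ}
  {s : Gal(kb/k) →* Gal(Ω/K)} {A : ValuationSubring Ω}

/-- the elements of `Ω` which become integral after multiplication by a power of `p` -/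
def bigRing (A : ValuationSubring Ω) (p : ℕ) (hp : (p : Ω) ∈ A) : ValuationSubring Ω where
  carrier := {x | ∃ N : ℕ, (p : Ω) ^ N * x ∈ A}
  mul_mem' := by
    rintro x y ⟨N, hN⟩ ⟨M, hM⟩
    refine ⟨N + M, ?_⟩
    have := mul_mem hN hM
    rwa [show (p : Ω) ^ N * x * ((p : Ω) ^ M * y) = (p : Ω) ^ (N + M) * (x * y) by ring] at this
  one_mem' := ⟨0, by simp [one_mem]⟩
  add_mem' := by
    rintro x y ⟨N, hN⟩ ⟨M, hM⟩
    refine ⟨N + M, ?_⟩
    have h1 := mul_mem (pow_mem hp M) hN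
    have h2 := mul_mem (pow_mem hp N) hM
    have := add_mem h1 h2
    rwa [show (p : Ω) ^ M * ((p : Ω) ^ N * x) + (p : Ω) ^ N * ((p : Ω) ^ M * y) =
      (p : Ω) ^ (N + M) * (x + y) by ring] at this
  zero_mem' := ⟨0, by simp [zero_mem]⟩
  neg_mem' := by
    rintro x ⟨N, hN⟩
    refine ⟨N, ?_⟩
    have := neg_mem hN
    rwa [← mul_neg] at this
  mem_or_inv_mem' := by
    intro x
    rcases A.mem_or_inv_mem x with h | h
    · exact Or.inl ⟨0, by simpa using h⟩
    · exact Or.inr ⟨0, by simpa using h⟩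

theorem mem_bigRing {hp : (p : Ω) ∈ A} {x : Ω} :
    x ∈ bigRing A p hp ↔ ∃ N : ℕ, (p : Ω) ^ N * x ∈ A := Iff.rfl

variable {Fb : Type*} [Field Fb]

/-- `z` is the limit of the approximations of `x` -/
def Rel (A : ValuationSubring Ω) (v : AbsoluteValue kb ℝ) (w : AbsoluteValue Fb ℝ)
    (ι : kb →+* Fb) (p : ℕ) (x : Ω) (z : Fb) : Prop :=
  ∀ n : ℕ, ∃ a : kb, (x - algebraMap kb Ω a) / (p : Ω) ^ n ∈ A ∧ w (ι a - z) ≤ v (p : kb) ^ n

section rel

variable {w : AbsoluteValue Fb ℝ} {ι : kb →+* Fb}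

theorem rel_alg (a : kb) :
    Rel A v w ι p (algebraMap kb Ω a) (ι a) := by
  intro n
  refine ⟨a, by simp [zero_mem], ?_⟩
  rw [sub_self, map_zero]
  exact pow_nonneg (v.nonneg _) n

theorem rel_unique [CharZero kb] (hd : LocData v D p) (hA : Good s v D A)
    (hw : ∀ a b, w (a + b) ≤ max (w a) (w b)) (hι : ∀ a, w (ι a) = v a) {x : Ω} {z z' : Fb}
    (h : Rel A v w ι p x z) (h' : Rel A v w ι p x z') : z = z' := by
  by_contra hne
  have hpos : 0 < w (z - z') := w.pos (sub_ne_zero.2 hne)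
  have hp0 : (p : kb) ≠ 0 := Nat.cast_ne_zero.2 hd.prime.ne_zero
  have hvp : 0 < v (p : kb) := v.pos hp0
  obtain ⟨n, hn⟩ := exists_pow_lt_of_lt_one hpos hd.small
  obtain ⟨a, ha, ha'⟩ := h n
  obtain ⟨b, hb, hb'⟩ := h' n
  have h1 : algebraMap kb Ω ((b - a) / (p : kb) ^ n) ∈ A := by
    have h2 := sub_mem ha hb
    rw [← sub_div] at h2
    rw [map_div₀, map_sub, map_pow, map_natCast]
    rwa [show x - algebraMap kb Ω a - (x - algebraMap kb Ω b) =
      algebraMap kb Ω b - algebraMap kb Ω a by ring] at h2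
  have h2 := (hA.2 _).1 h1
  rw [map_div₀, map_pow, div_le_one (pow_pos hvp n), ← hι, map_sub] at h2
  have h3 : z - z' = -(ι a - z) + ((ι b - z') + -(ι b - ι a)) := by ring
  have h4 : w (z - z') ≤ v (p : kb) ^ n := by
    rw [h3]
    refine (hw _ _).trans (max_le (by rwa [w.map_neg]) ((hw _ _).trans (max_le hb' ?_)))
    rwa [w.map_neg]
  exact absurd hn (not_lt.2 h4)

theorem rel_add (hw : ∀ a b, w (a + b) ≤ max (w a) (w b)) {x x' : Ω} {z z' : Fb}
    (h : Rel A v w ι p x z) (h' : Rel A v w ι p x' z') : Rel A v w ι p (x + x') (z + z') := by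
  intro n
  obtain ⟨a, ha, ha'⟩ := h n
  obtain ⟨b, hb, hb'⟩ := h' n
  refine ⟨a + b, ?_, ?_⟩
  · have := add_mem ha hb
    rwa [← add_div, show x - algebraMap kb Ω a + (x' - algebraMap kb Ω b) =
      x + x' - algebraMap kb Ω (a + b) by rw [map_add]; ring] at this
  · rw [map_add, show ι a + ι b - (z + z') = (ι a - z) + (ι b - z') by ring]
    exact (hw _ _).trans (max_le ha' hb')

/-- the approximations of an element of `p⁻ᴺ A` are bounded -/
theorem rel_bound (hp : (p : Ω) ∈ A) (hp0 : (p : Ω) ≠ 0) (hvp : 0 < v (p : kb))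
    (hA : Good s v D A) {x : Ω} {N n : ℕ} (hx : (p : Ω) ^ N * x ∈ A) {a : kb}
    (ha : (x - algebraMap kb Ω a) / (p : Ω) ^ n ∈ A) :
    (p : Ω) ^ N * algebraMap kb Ω a ∈ A ∧ v a ≤ (v (p : kb) ^ N)⁻¹ := by
  have h1 : (p : Ω) ^ N * algebraMap kb Ω a ∈ A := by
    have h2 := mul_mem (pow_mem hp (N + n)) ha
    have h3 := sub_mem hx h2
    have hpn : (p : Ω) ^ n ≠ 0 := pow_ne_zero _ hp0
    rwa [show (p : Ω) ^ N * x - (p : Ω) ^ (N + n) * ((x - algebraMap kb Ω a) / (p : Ω) ^ n) =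
      (p : Ω) ^ N * algebraMap kb Ω a by rw [pow_add]; field_simp; ring] at h3
  refine ⟨h1, ?_⟩
  have h2 : algebraMap kb Ω ((p : kb) ^ N * a) ∈ A := by
    rwa [map_mul, map_pow, map_natCast]
  have h3 := (hA.2 _).1 h2
  rw [map_mul, map_pow] at h3
  rw [← one_div, le_div_iff₀ (pow_pos hvp N), mul_comm]
  exact h3

theorem rel_mul (hd : LocData v D p) (hp : (p : Ω) ∈ A) (hp0 : (p : Ω) ≠ 0)
    (hvp : 0 < v (p : kb)) (hA : Good s v D A)
    (hw : ∀ a b, w (a + b) ≤ max (w a) (w b)) (hι : ∀ a, w (ι a) = v a) {x x' : Ω} {z z' : Fb}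
    (hx : x ∈ bigRing A p hp) (hx' : x' ∈ bigRing A p hp)
    (h : Rel A v w ι p x z) (h' : Rel A v w ι p x' z') : Rel A v w ι p (x * x') (z * z') := by
  obtain ⟨N, hN⟩ := hx
  obtain ⟨M, hM⟩ := hx'
  intro n
  have hp1 : v (p : kb) ≤ 1 := hd.small.le
  have hpN : (p : Ω) ^ N ≠ 0 := pow_ne_zero _ hp0
  have hpM : (p : Ω) ^ M ≠ 0 := pow_ne_zero _ hp0
  have hpn : (p : Ω) ^ n ≠ 0 := pow_ne_zero _ hp0
  obtain ⟨a, ha, ha'⟩ := h (n + N + M)
  obtain ⟨b, hb, hb'⟩ := h' (n + N + M)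
  obtain ⟨ha1, ha2⟩ := rel_bound hp hp0 hvp hA hN ha
  obtain ⟨hb1, hb2⟩ := rel_bound hp hp0 hvp hA hM hb
  refine ⟨a * b, ?_, ?_⟩
  · -- `x x' - a b = x (x' - b) + b (x - a)`
    have h1 := mul_mem hN (mul_mem (pow_mem hp M) hb)
    have h2 := mul_mem hb1 (mul_mem (pow_mem hp N) ha)
    have h3 := add_mem h1 h2
    rwa [show (p : Ω) ^ N * x * ((p : Ω) ^ M * ((x' - algebraMap kb Ω b) / (p : Ω) ^ (n + N + M))) +
      (p : Ω) ^ M * algebraMap kb Ω b * ((p : Ω) ^ N * ((x - algebraMap kb Ω a) /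
        (p : Ω) ^ (n + N + M))) = (x * x' - algebraMap kb Ω (a * b)) / (p : Ω) ^ n by
        rw [map_mul, pow_add, pow_add]; field_simp; ring] at h3
  · have hvN : 0 < v (p : kb) ^ N := pow_pos hvp N
    have hvM : 0 < v (p : kb) ^ M := pow_pos hvp M
    have hvn : 0 < v (p : kb) ^ n := pow_pos hvp n
    have hvN1 : v (p : kb) ^ N ≤ 1 := pow_le_one₀ hvp.le hp1
    have hvM1 : v (p : kb) ^ M ≤ 1 := pow_le_one₀ hvp.le hp1
    have hz' : w z' ≤ (v (p : kb) ^ M)⁻¹ := by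
      rw [show z' = ι b + -(ι b - z') by ring]
      refine (hw _ _).trans (max_le (by rw [hι]; exact hb2) ?_)
      rw [w.map_neg]
      refine hb'.trans ?_
      exact (pow_le_one₀ hvp.le hp1).trans ((one_le_inv₀ hvM).2 hvM1)
    rw [map_mul, show ι a * ι b - z * z' = ι a * (ι b - z') + z' * (ι a - z) by ring]
    refine (hw _ _).trans (max_le ?_ ?_)
    · rw [map_mul, hι]
      calc v a * w (ι b - z') ≤ (v (p : kb) ^ N)⁻¹ * v (p : kb) ^ (n + N + M) :=
            mul_le_mul ha2 hb' (w.nonneg _) (inv_nonneg.2 hvN.le)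
        _ = v (p : kb) ^ n * v (p : kb) ^ M := by
            rw [pow_add, pow_add]; field_simp
        _ ≤ v (p : kb) ^ n * 1 := by gcongr
        _ = _ := mul_one _
    · rw [map_mul]
      calc w z' * w (ι a - z) ≤ (v (p : kb) ^ M)⁻¹ * v (p : kb) ^ (n + N + M) :=
            mul_le_mul hz' ha' (w.nonneg _) (inv_nonneg.2 hvM.le)
        _ = v (p : kb) ^ n * v (p : kb) ^ N := by
            rw [pow_add, pow_add]; field_simp
        _ ≤ v (p : kb) ^ n * 1 := by gcongr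
        _ = _ := mul_one _

end rel

section exist

variable [IsGalois k kb] [IsAlgClosed kb] [CharZero kb] [Algebra.IsAlgebraic K Ω] [IsAlgClosed Ω]

omit [IsAlgClosed kb] [CharZero kb] [Algebra kb Ω] [IsAlgClosed Ω] in
/-- every element of `Ω` lies in some `L_U` -/
theorem exists_finIn (hD : IsClosed (D : Set Gal(kb/k))) (s : Gal(kb/k) →* Gal(Ω/K))
    (hs : Continuous s) (x : Ω) : ∃ U, FinIn D U ∧ x ∈ fixO s U := by
  -- the stabiliser of `x` is open
  set W : Subgroup Gal(Ω/K) := (IntermediateField.adjoin K {x}).fixingSubgroup with hW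
  have hfd : FiniteDimensional K (IntermediateField.adjoin K {x}) :=
    IntermediateField.adjoin.finiteDimensional (Algebra.IsAlgebraic.isAlgebraic x).isIntegral
  have hWo : IsOpen (W : Set Gal(Ω/K)) := IntermediateField.fixingSubgroup_isOpen _
  set V : Subgroup Gal(kb/k) := W.comap s with hV
  have hVo : IsOpen (V : Set Gal(kb/k)) := hWo.preimage hs
  have hVfi : V.index ≠ 0 := by
    have : V.FiniteIndex := by
      have : Finite (Gal(kb/k) ⧸ V) := Subgroup.quotient_finite_of_isOpen V hVo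
      exact Subgroup.finiteIndex_of_finite_quotient
    exact this.index_ne_zero
  refine ⟨D ⊓ V, ⟨inf_le_left, ?_, ?_⟩, ?_⟩
  · rw [Subgroup.coe_inf]
    exact hD.inter (Subgroup.isClosed_of_isOpen V hVo)
  · rw [inf_comm, Subgroup.inf_relIndex_right]
    exact fun h => hVfi (Subgroup.index_eq_zero_of_relIndex_eq_zero h)
  · intro σ hσ
    have h1 : s σ ∈ W := hσ.2
    rw [hW, IntermediateField.mem_fixingSubgroup_iff] at h1
    exact h1 x (IntermediateField.mem_adjoin_simple_self K x)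

variable {w : AbsoluteValue Fb ℝ} {ι : kb →+* Fb}

theorem rel_exists (hd : LocData v D p) (s : Gal(kb/k) →* Gal(Ω/K)) (hs : Continuous s)
    (hsec : ∀ σ a, s σ (algebraMap kb Ω a) = algebraMap kb Ω (σ a))
    (hA : Good s v D A) (hp : (p : Ω) ∈ A) (hp0 : (p : Ω) ≠ 0) (hvp : 0 < v (p : kb))
    (hι : ∀ a, w (ι a) = v a)
    (hlim : ∀ U, FinIn D U → ∀ a : ℕ → kb, (∀ n, a n ∈ fixk U) →
      (∀ n, v (a (n + 1) - a n) ≤ v (p : kb) ^ n) →
      ∃ z : Fb, ∀ n, w (ι (a n) - z) ≤ v (p : kb) ^ n) {x : Ω} (hx : x ∈ bigRing A p hp) :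
    ∃ z : Fb, Rel A v w ι p x z := by
  obtain ⟨N, hN⟩ := hx
  obtain ⟨U, hU, hyU⟩ := exists_finIn hd.closed s hs ((p : Ω) ^ N * x)
  have hpk : (p : kb) ≠ 0 := by
    intro h; rw [h, map_zero] at hvp; exact lt_irrefl _ hvp
  choose a haU ha1 ha using fun n : ℕ =>
    apx hd s hs hsec hA hU hyU hN (c := (p : kb) ^ n) (pow_ne_zero n hpk)
  have ha' : ∀ n, ((p : Ω) ^ N * x - algebraMap kb Ω (a n)) / (p : Ω) ^ n ∈ A := by
    intro n
    have := ha n
    rwa [map_pow, map_natCast] at this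
  obtain ⟨z, hz⟩ := hlim U hU a haU (by
    intro n
    have h1 := ha' n
    have h2 := mul_mem hp (ha' (n + 1))
    have h3 := sub_mem h1 h2
    have hpn : (p : Ω) ^ n ≠ 0 := pow_ne_zero _ hp0
    have h4 : algebraMap kb Ω ((a (n + 1) - a n) / (p : kb) ^ n) ∈ A := by
      rwa [show ((p : Ω) ^ N * x - algebraMap kb Ω (a n)) / (p : Ω) ^ n - (p : Ω) *
        (((p : Ω) ^ N * x - algebraMap kb Ω (a (n + 1))) / (p : Ω) ^ (n + 1)) =
        algebraMap kb Ω ((a (n + 1) - a n) / (p : kb) ^ n) by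
          rw [map_div₀, map_sub, map_pow, map_natCast, pow_succ]; field_simp; ring] at h3
    have h5 := (hA.2 _).1 h4
    rwa [map_div₀, map_pow, div_le_one (pow_pos hvp n)] at h5)
  refine ⟨z / ι ((p : kb) ^ N), fun n => ⟨a (n + N) / (p : kb) ^ N, ?_, ?_⟩⟩
  · have h := ha' (n + N)
    have hpN : (p : Ω) ^ N ≠ 0 := pow_ne_zero _ hp0
    have hpn : (p : Ω) ^ n ≠ 0 := pow_ne_zero _ hp0
    rwa [show ((p : Ω) ^ N * x - algebraMap kb Ω (a (n + N))) / (p : Ω) ^ (n + N) =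
      (x - algebraMap kb Ω (a (n + N) / (p : kb) ^ N)) / (p : Ω) ^ n by
        rw [map_div₀, map_pow, map_natCast, pow_add]; field_simp] at h
  · have h := hz (n + N)
    rw [map_div₀, ← sub_div, map_div₀, hι, map_pow, div_le_iff₀ (pow_pos hvp N), ← pow_add]
    exact h

/-- PLACE -/
theorem place (hd : LocData v D p) (s : Gal(kb/k) →* Gal(Ω/K)) (hs : Continuous s)
    (hsec : ∀ σ a, s σ (algebraMap kb Ω a) = algebraMap kb Ω (σ a))
    {A : ValuationSubring Ω} (hA : Good s v D A)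
    {Fb : Type*} [Field Fb] (w : AbsoluteValue Fb ℝ) (hw : ∀ a b, w (a + b) ≤ max (w a) (w b))
    (ι : kb →+* Fb) (hι : ∀ a, w (ι a) = v a)
    (hlim : ∀ U, FinIn D U → ∀ a : ℕ → kb, (∀ n, a n ∈ fixk U) →
      (∀ n, v (a (n + 1) - a n) ≤ v (p : kb) ^ n) →
      ∃ z : Fb, ∀ n, w (ι (a n) - z) ≤ v (p : kb) ^ n) :
    ∃ (A₁ : ValuationSubring Ω) (φ : A₁ →+* Fb),
      (∀ a : kb, ∃ h : algebraMap kb Ω a ∈ A₁, φ ⟨algebraMap kb Ω a, h⟩ = ι a) ∧
      (∀ x : A₁, φ x ≠ 0 → (x : Ω)⁻¹ ∈ A₁) ∧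
      ∀ σ ∈ D, ∀ τ : Fb →+* Fb, (∀ z, w (τ z) = w z) → (∀ a, ι (σ a) = τ (ι a)) →
        ∀ x : A₁, ∃ h : s σ x ∈ A₁, φ ⟨s σ x, h⟩ = τ (φ x) := by
  have hpk : (p : kb) ≠ 0 := Nat.cast_ne_zero.2 hd.prime.ne_zero
  have hvp : 0 < v (p : kb) := v.pos hpk
  have hp : (p : Ω) ∈ A := by
    have := (hA.2 (p : kb)).2 hd.small.le
    rwa [map_natCast] at this
  have hp0 : (p : Ω) ≠ 0 := by
    rw [← map_natCast (algebraMap kb Ω), Ne, map_eq_zero]; exact hpk
  -- the place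
  have hex : ∀ x : bigRing A p hp, ∃ z : Fb, Rel A v w ι p (x : Ω) z :=
    fun x => rel_exists hd s hs hsec hA hp hp0 hvp hι hlim x.2
  choose f hf using hex
  have huniq : ∀ (x : bigRing A p hp) (z : Fb), Rel A v w ι p (x : Ω) z → f x = z :=
    fun x z hz => rel_unique hd hA hw hι (hf x) hz
  have halg : ∀ a : kb, algebraMap kb Ω a ∈ bigRing A p hp := by
    intro a
    have h1 : ∃ N : ℕ, v (p : kb) ^ N * v a ≤ 1 := by
      rcases eq_or_ne a 0 with rfl | ha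
      · exact ⟨0, by simp⟩
      · have hva : 0 < v a := v.pos ha
        obtain ⟨N, hN⟩ := exists_pow_lt_of_lt_one (inv_pos.2 hva) hd.small
        refine ⟨N, ?_⟩
        have := (lt_inv_comm₀ (pow_pos hvp N) hva).1 hN
        rw [← le_div_iff₀' (pow_pos hvp N), one_div]
        exact this.le
    obtain ⟨N, hN⟩ := h1
    refine ⟨N, ?_⟩
    have h2 : algebraMap kb Ω ((p : kb) ^ N * a) ∈ A := by
      refine (hA.2 _).2 ?_
      rwa [map_mul, map_pow]
    rwa [map_mul, map_pow, map_natCast] at h2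
  let φ : bigRing A p hp →+* Fb :=
    { toFun := f
      map_one' := huniq 1 1 (by
        have h := rel_alg (A := A) (v := v) (w := w) (ι := ι) (p := p) (1 : kb)
        rwa [map_one, map_one] at h)
      map_zero' := huniq 0 0 (by
        have h := rel_alg (A := A) (v := v) (w := w) (ι := ι) (p := p) (0 : kb)
        rwa [map_zero, map_zero] at h)
      map_mul' := fun x y => huniq (x * y) _
        (rel_mul hd hp hp0 hvp hA hw hι x.2 y.2 (hf x) (hf y))
      map_add' := fun x y => huniq (x + y) _ (rel_add hw (hf x) (hf y)) }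
  have hφ : ∀ (x : bigRing A p hp), Rel A v w ι p (x : Ω) (φ x) := hf
  have hφu : ∀ (x : bigRing A p hp) (z : Fb), Rel A v w ι p (x : Ω) z → φ x = z := huniq
  refine ⟨bigRing A p hp, φ, ?_, ?_, ?_⟩
  · intro a
    exact ⟨halg a, hφu _ _ (rel_alg a)⟩
  · intro x hx
    have hpos : 0 < w (φ x) := w.pos hx
    obtain ⟨n, hn⟩ := exists_pow_lt_of_lt_one hpos hd.small
    obtain ⟨a, ha, ha'⟩ := hφ x n
    have h1 : v (p : kb) ^ n < v a := by
      by_contra h2
      push Not at h2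
      have h3 : w (φ x) ≤ v (p : kb) ^ n := by
        rw [show φ x = ι a + -(ι a - φ x) by ring]
        refine (hw _ _).trans (max_le (by rwa [hι]) (by rwa [w.map_neg]))
      exact absurd hn (not_lt.2 h3)
    have ha0 : a ≠ 0 := by
      rintro rfl
      rw [map_zero] at h1
      exact absurd h1 (not_lt.2 (pow_nonneg (v.nonneg _) n))
    have hva : 0 < v a := v.pos ha0
    have haΩ : algebraMap kb Ω a ≠ 0 := by rwa [Ne, map_eq_zero]
    have hpn : (p : Ω) ^ n ≠ 0 := pow_ne_zero _ hp0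
    -- `x / a` is a unit of `A`
    have h2 : A.valuation (algebraMap kb Ω ((p : kb) ^ n / a)) < 1 := by
      rw [hA.lt_iff, map_div₀, map_pow, div_lt_one hva]; exact h1
    have h3 : A.valuation ((x : Ω) / algebraMap kb Ω a) = 1 := by
      have h4 : (x : Ω) / algebraMap kb Ω a = 1 + algebraMap kb Ω ((p : kb) ^ n / a) *
          (((x : Ω) - algebraMap kb Ω a) / (p : Ω) ^ n) := by
        rw [map_div₀, map_pow, map_natCast]; field_simp; ring
      have h5 : A.valuation (algebraMap kb Ω ((p : kb) ^ n / a) *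
          (((x : Ω) - algebraMap kb Ω a) / (p : Ω) ^ n)) < 1 := by
        rw [map_mul]
        refine lt_of_le_of_lt (mul_le_mul' le_rfl ((A.valuation_le_one_iff _).2 ha)) ?_
        rwa [mul_one]
      rw [h4, Valuation.map_add_eq_of_lt_left (h := by rwa [map_one]), map_one]
    have h4 : algebraMap kb Ω a / (x : Ω) ∈ A := by
      rw [← A.valuation_le_one_iff, ← inv_div, map_inv₀, h3, inv_one]
    have h5 : (x : Ω)⁻¹ = algebraMap kb Ω a⁻¹ * (algebraMap kb Ω a / (x : Ω)) := by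
      rw [map_inv₀]; field_simp
    rw [h5]
    refine mul_mem (halg _) ⟨0, ?_⟩
    rwa [pow_zero, one_mul]
  · intro σ hσ τ hτ hστ x
    obtain ⟨N, hN⟩ := x.2
    have h1 : s σ (x : Ω) ∈ bigRing A p hp := by
      refine ⟨N, ?_⟩
      have := hA.1 σ hσ _ hN
      rwa [map_mul, map_pow, map_natCast] at this
    refine ⟨h1, hφu _ _ ?_⟩
    intro n
    obtain ⟨a, ha, ha'⟩ := hφ x n
    refine ⟨σ a, ?_, ?_⟩
    · have := hA.1 σ hσ _ ha
      rwa [map_div₀, map_sub, map_pow, map_natCast, hsec] at this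
    · rwa [hστ, ← map_sub, hτ]

end exist

end Pool.Agent.Lib.MP_2f3286_ag.Koe
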