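import Pool.Agent.Lib.MP_2f3286_ag.Koe.Ult
import Pool.Agent.Lib.MP_2f3286_ag.Koe.Place
import Pool.Agent.Lib.MP_2f3286_ag.Koe.Dec
import Pool.Agent.Lib.MP_2f3286_bir.Place

/-!
# Koenigsmann's theorem: a section over a number field comes, at every finite place, from a place
-/

open IsDedekindDomain NumberField

namespace Pool.Agent.Lib.MP_2f3286_ag.Koe

/-- **Koenigsmann's theorem**: a section of the absolute Galois group of a function field over a
number field is, at every finite place, the section of a local place. -/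
theorem local_place {k : Type*} [Field k] [NumberField k] {K Ω : Type*} [Field K] [Field Ω]
    [Algebra K Ω] [Algebra.IsAlgebraic K Ω] [IsAlgClosed Ω] [Algebra (AlgebraicClosure k) Ω]
    (s : Gal(AlgebraicClosure k/k) →* Gal(Ω/K)) (hs : Continuous s)
    (hsec : ∀ σ a, s σ (algebraMap (AlgebraicClosure k) Ω a) =
      algebraMap (AlgebraicClosure k) Ω (σ a))
    (v : HeightOneSpectrum (𝓞 k))
    (ι : AlgebraicClosure k →ₐ[k] AlgebraicClosure (v.adicCompletion k)) :
    ∃ (A : ValuationSubring Ω) (φ : A →+* AlgebraicClosure (v.adicCompletion k)),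
      MP_2f3286_bir.IsPlaceOf s (v.adicCompletion k)
        (ι : _ →+* AlgebraicClosure (v.adicCompletion k)) A φ := by
  obtain ⟨w, v', D, p, h1, h2, h3, h4, h5, h6⟩ := dec v ι
  obtain ⟨A, hA⟩ := ult h3 s hs hsec
  obtain ⟨A₁, φ, h7, h8, h9⟩ := place h3 s hs hsec hA w h1 (ι : _ →+* _) h2 h6
  refine ⟨A₁, φ, h7, h8, fun σ τ hστ x => ?_⟩
  exact h9 σ (h5 σ τ hστ) (τ : _ →+* _) (h4 τ) hστ x

end Pool.Agent.Lib.MP_2f3286_ag.Koe
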