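import Pool.Agent.Lib.MP_2f3286_ag.Koe.Restrict
import Pool.Agent.Lib.MP_2f3286_bir.Uniq

/-!
# Descent of the place of a section from a finite extension of the base field
-/

open NumberField
open Pool.Agent.Lib.MP_2f3286_ag

namespace Pool.Agent.Lib.MP_2f3286_ag.Koe

section

variable {k kb K Ω : Type*} [Field k] [Field kb] [Algebra k kb] [Field K] [Field Ω] [Algebra K Ω]
  [Algebra kb Ω] (s : Gal(kb/k) →* Gal(Ω/K)) (F : Type*) [Field F] [Algebra k F] [Algebra F kb]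
  [IsScalarTower k F kb]

/-- `F` is contained in the fixed field -/
def toFixF (hsec : ∀ σ a, s σ (algebraMap kb Ω a) = algebraMap kb Ω (σ a)) :
    F →+* fixF s F where
  toFun a := ⟨algebraMap kb Ω (algebraMap F kb a), fun σ hσ => by rw [hsec, hσ]⟩
  map_zero' := by ext; simp
  map_one' := by ext; simp
  map_add' a b := by ext; simp
  map_mul' a b := by ext; simp

theorem placeOn_unique [NumberField F] [IsAlgClosed Ω] [Algebra.IsAlgebraic K Ω]
    [Algebra.IsAlgebraic F kb] [IsAlgClosed kb] (hs : Continuous s)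
    (hsec : ∀ σ a, s σ (algebraMap kb Ω a) = algebraMap kb Ω (σ a))
    {A₀ A₁ : ValuationSubring Ω} {ψ₀ : A₀ →+* kb} {ψ₁ : A₁ →+* kb}
    (h₀ : PlaceOn s F A₀ ψ₀) (h₁ : PlaceOn s F A₁ ψ₁) :
    A₁ = A₀ ∧ ∀ (x : A₁) (y : A₀), (x : Ω) = y → ψ₁ x = ψ₀ y := by
  have : IsAlgClosure F kb := ⟨inferInstance, inferInstance⟩
  let e : AlgebraicClosure F ≃ₐ[F] kb := IsAlgClosure.equiv F (AlgebraicClosure F) kb
  letI : Algebra (AlgebraicClosure F) Ω := ((algebraMap kb Ω).comp (e : _ →+* kb)).toAlgebra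
  letI : Algebra F (fixF s F) := (toFixF s F hsec).toAlgebra
  have he : ∀ a : AlgebraicClosure F, algebraMap (AlgebraicClosure F) Ω a =
      algebraMap kb Ω (e a) := fun _ => rfl
  have hL : ∀ σ : Gal(kb/k), (∀ a : F, σ (algebraMap F kb a) = algebraMap F kb a) →
      ∀ x : fixF s F, s σ (algebraMap (fixF s F) Ω x) = algebraMap (fixF s F) Ω x :=
    fun σ hσ x => x.2 σ hσ
  obtain ⟨h1, h2⟩ := MP_2f3286_bir.place_unique (K := fixF s F) (resS s e hL)
    (resS_continuous s e hL hs) (of_placeOn s e hL he h₀) (of_placeOn s e hL he h₁)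
  exact ⟨h1, fun x y hxy => e.symm.injective (h2 x y hxy)⟩

/-- a conjugate of a place -/
theorem placeOn_conj {A : ValuationSubring Ω} {ψ : A →+* kb} (h : PlaceOn s F A ψ)
    (hsec : ∀ σ a, s σ (algebraMap kb Ω a) = algebraMap kb Ω (σ a)) (g : Gal(kb/k))
    (hg : ∀ σ : Gal(kb/k), (∀ a : F, σ (algebraMap F kb a) = algebraMap F kb a) →
      ∀ a : F, (g * σ * g⁻¹) (algebraMap F kb a) = algebraMap F kb a) :
    PlaceOn s F (A.comap (s g : Ω →+* Ω))
      (((g⁻¹ : Gal(kb/k)) : kb →+* kb).comp (ψ.comp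
        (((s g : Ω →+* Ω).comp (A.comap (s g : Ω →+* Ω)).subtype).codRestrict A.toSubring
          (fun x => x.2)))) := by
  obtain ⟨h1, h2, h3⟩ := h
  refine ⟨fun a => ?_, fun x hx => ?_, fun σ hσ x => ?_⟩
  · obtain ⟨h4, h5⟩ := h1 (g a)
    have h6 : s g (algebraMap kb Ω a) = algebraMap kb Ω (g a) := hsec g a
    have h7 : algebraMap kb Ω a ∈ A.comap (s g : Ω →+* Ω) := by
      rw [ValuationSubring.mem_comap]
      exact h6 ▸ h4
    refine ⟨h7, ?_⟩
    change g⁻¹ (ψ ⟨s g (algebraMap kb Ω a), _⟩) = a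
    have h8 : (⟨s g (algebraMap kb Ω a), h7⟩ : A) = ⟨_, h4⟩ := Subtype.ext h6
    rw [h8, h5]
    exact g.symm_apply_apply a
  · rw [ValuationSubring.mem_comap]
    have h4 := h2 ⟨s g x, x.2⟩ (by
      intro h0
      apply hx
      change g⁻¹ (ψ ⟨s g x, _⟩) = 0
      rw [h0, map_zero])
    change s g (x : Ω)⁻¹ ∈ A
    rw [map_inv₀]
    exact h4
  · obtain ⟨h4, h5⟩ := h3 (g * σ * g⁻¹) (hg σ hσ) ⟨s g x, x.2⟩
    have h6 : s (g * σ * g⁻¹) (s g x) = s g (s σ x) := by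
      rw [← AlgEquiv.mul_apply, ← map_mul, ← AlgEquiv.mul_apply, ← map_mul]
      congr 2
      group
    have h7 : s σ x ∈ A.comap (s g : Ω →+* Ω) := by
      rw [ValuationSubring.mem_comap]
      exact h6 ▸ h4
    refine ⟨h7, ?_⟩
    change g⁻¹ (ψ ⟨s g (s σ x), h7⟩) = σ (g⁻¹ (ψ ⟨s g x, _⟩))
    have h8 : (⟨s g (s σ x), h7⟩ : A) = ⟨_, h4⟩ := Subtype.ext h6.symm
    rw [h8, h5, ← AlgEquiv.mul_apply, ← AlgEquiv.mul_apply]
    congr 1
    group

end

theorem descend {k kb K Ω : Type*} [Field k] [NumberField k] [Field kb] [Algebra k kb]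
    [IsAlgClosed kb] [Algebra.IsAlgebraic k kb] [Field K] [Field Ω] [IsAlgClosed Ω] [Algebra K Ω]
    [Algebra.IsAlgebraic K Ω] [Algebra kb Ω] (s : Gal(kb/k) →* Gal(Ω/K)) (hs : Continuous s)
    (hsec : ∀ σ a, s σ (algebraMap kb Ω a) = algebraMap kb Ω (σ a))
    (F : Type*) [Field F] [NumberField F] [Algebra k F] [Algebra F kb] [IsScalarTower k F kb]
    {A : ValuationSubring Ω} {ψ : A →+* kb} (h : PlaceOn s F A ψ) :
    MP_2f3286_bir.IsPlaceOf s k (RingHom.id kb) A ψ := by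
  have hchar : CharZero k := inferInstance
  have hfin : FiniteDimensional k F := FiniteDimensional.right ℚ k F
  let F' : IntermediateField k kb := IntermediateField.normalClosure k F kb
  have hF' : FiniteDimensional k F' := inferInstance
  have : NumberField F' := NumberField.of_module_finite k F'
  have hle : ∀ σ : Gal(kb/k), (∀ a : F', σ (algebraMap F' kb a) = algebraMap F' kb a) →
      ∀ a : F, σ (algebraMap F kb a) = algebraMap F kb a := by
    intro σ hσ a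
    have h1 : algebraMap F kb a ∈ F' := by
      have h2 := AlgHom.fieldRange_le_normalClosure (IsScalarTower.toAlgHom k F kb)
      exact h2 ⟨a, rfl⟩
    exact hσ ⟨_, h1⟩
  have h' : PlaceOn s F' A ψ := ⟨h.1, h.2.1, fun σ hσ => h.2.2 σ (hle σ hσ)⟩
  have hnorm : ∀ g σ : Gal(kb/k), (∀ a : F', σ (algebraMap F' kb a) = algebraMap F' kb a) →
      ∀ a : F', (g * σ * g⁻¹) (algebraMap F' kb a) = algebraMap F' kb a := by
    intro g σ hσ a
    have : IsAlgClosure k kb := ⟨inferInstance, inferInstance⟩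
    have : Normal k kb := IsAlgClosure.normal k kb
    have hn : Normal k F' := inferInstance
    have h1 : (g⁻¹ : Gal(kb/k)) a ∈ F' :=
      (IntermediateField.normal_iff_forall_map_le.1 hn) ((g⁻¹ : Gal(kb/k)) : kb →ₐ[k] kb)
        ⟨a, a.2, rfl⟩
    have h2 := hσ ⟨_, h1⟩
    change g (σ ((g⁻¹ : Gal(kb/k)) a)) = a
    change σ ((g⁻¹ : Gal(kb/k)) a) = (g⁻¹ : Gal(kb/k)) a at h2
    rw [h2]
    exact g.apply_symm_apply a
  refine ⟨h.1, h.2.1, fun σ τ hστ x => ?_⟩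
  have hτ : τ = σ := by ext a; exact (hστ a).symm
  subst hτ
  obtain ⟨h1, h2⟩ := placeOn_unique s F' hs hsec h' (placeOn_conj s F' h' hsec τ (hnorm τ))
  have h3 : (x : Ω) ∈ A.comap (s τ : Ω →+* Ω) := by rw [h1]; exact x.2
  refine ⟨h3, ?_⟩
  have h4 := h2 ⟨x, h3⟩ x rfl
  change τ⁻¹ (ψ ⟨s τ x, _⟩) = ψ x at h4
  rw [← h4]
  exact (τ.apply_symm_apply _).symm

end Pool.Agent.Lib.MP_2f3286_ag.Koe
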