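import Pool.Agent.Lib.MP_2f3286_ag.Koe.LocalPlace
import Pool.Agent.Lib.MP_2f3286_ag.Koe.FDefs
import Pool.Agent.Lib.MP_2f3286_ag.Koe.Descend
import Pool.Agent.Lib.MP_2f3286_ag.Top.Assembly
import Pool.Agent.Lib.MP_2f3286_ag.Pt.Division

/-!
# Sections of function fields over which an elliptic curve acquires two independent points
-/

open WeierstrassCurve WeierstrassCurve.Affine WeierstrassCurve.Affine.Point
open IsDedekindDomain NumberField
open Pool.Agent.Lib.MP_2f3286_ag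

namespace Pool.Agent.Lib.MP_2f3286_ag.Koe

/-- transcendence degrees -/
theorem trdeg_fix {k F K L Ω : Type*} [Field k] [Field F] [Field K] [Field L] [Field Ω]
    [Algebra k F] [Algebra k K] [Algebra F L] [Algebra L Ω] [Algebra K Ω] [Algebra k Ω]
    [Algebra F Ω] [IsScalarTower k K Ω] [IsScalarTower k F Ω] [IsScalarTower F L Ω]
    [Algebra.IsAlgebraic k F] [Algebra.IsAlgebraic K Ω] [Algebra.IsAlgebraic L Ω]
    (h : Algebra.trdeg k K = 1) : Algebra.trdeg F L = 1 := by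
  have h1 := lift_trdeg_add_eq k K Ω
  have h2 := lift_trdeg_add_eq k F Ω
  have h3 := lift_trdeg_add_eq F L Ω
  have a1 : Algebra.trdeg K Ω = 0 := trdeg_eq_zero
  have a2 : Algebra.trdeg k F = 0 := trdeg_eq_zero
  have a3 : Algebra.trdeg L Ω = 0 := trdeg_eq_zero
  rw [a1, h] at h1
  rw [a2] at h2
  rw [a3] at h3
  simp only [Cardinal.lift_zero, Cardinal.lift_one, add_zero, zero_add] at h1 h2 h3
  have h4 : Algebra.trdeg k Ω = 1 := Cardinal.lift_eq_one.1 h1.symm
  rw [h4, Cardinal.lift_one] at h2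
  have h5 : Algebra.trdeg F Ω = 1 := Cardinal.lift_eq_one.1 h2
  rw [h5, Cardinal.lift_one] at h3
  exact Cardinal.lift_eq_one.1 h3

section

variable {k : Type*} [Field k] [NumberField k] {kb : Type*} [Field kb] [Algebra k kb]
  [IsAlgClosed kb] [Algebra.IsAlgebraic k kb] {K : Type*} [Field K] [Algebra k K]
  {Ω : Type*} [Field Ω] [Algebra K Ω] [Algebra.IsAlgebraic K Ω] [IsAlgClosed Ω]
  [Algebra kb Ω] [Algebra k Ω] [IsScalarTower k K Ω] [IsScalarTower k kb Ω]

open scoped Classical in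
universe u in
theorem exists_place_aux (htr : Algebra.trdeg k K = 1)
    (s : Gal(kb/k) →* Gal(Ω/K)) (hs : Continuous s)
    (hsec : ∀ σ a, s σ (algebraMap kb Ω a) = algebraMap kb Ω (σ a))
    {F : Type u} [Field F] [NumberField F] [Algebra k F]
    [Algebra F kb] [IsScalarTower k F kb] [Algebra F Ω] [IsScalarTower F kb Ω]
    (W : WeierstrassCurve F) [W.IsShortNF] [W.IsElliptic]
    (P : (W⁄F).Point) (hP : ∀ n : ℕ, n ≠ 0 → n • P ≠ 0)
    (hrk : ∀ Q : (W⁄F).Point, ∃ a : ℤ, IsOfFinAddOrder (Q - a • P))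
    (m : ℕ) (hm : 1 ≤ m) (hsha : Sel.ShaKilledBy W ∅ m)
    (η₁ η₂ : (W⁄Ω).Point) (h₁ : FixedPt s η₁) (h₂ : FixedPt s η₂)
    (hind : ∀ a b : ℤ, (∃ Q : (W⁄F).Point, a • η₁ + b • η₂ = Point.baseChange F Ω Q) →
      a = 0 ∧ b = 0)
    {L : Type*} [Field L] [Algebra F L] [Algebra L Ω] [IsScalarTower F L Ω]
    [Algebra.IsAlgebraic L Ω]
    (hL : ∀ σ : Gal(kb/k), (∀ a : F, σ (algebraMap F _ a) = algebraMap F _ a) →
      ∀ x : L, s σ (algebraMap L Ω x) = algebraMap L Ω x)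
    (hL2 : ∀ x : Ω, (∀ σ : Gal(kb/k),
      (∀ a : F, σ (algebraMap F _ a) = algebraMap F _ a) → s σ x = x) →
      ∃ y : L, algebraMap L Ω y = x) :
    ∃ (A₀ : ValuationSubring Ω) (ψ₀ : A₀ →+* kb),
      MP_2f3286_bir.IsPlaceOf s k (RingHom.id _) A₀ ψ₀ := by
  have hfin : FiniteDimensional k F := FiniteDimensional.right ℚ k F
  have hkF : Algebra.IsAlgebraic k F := inferInstance
  have hFk : Algebra.IsAlgebraic F kb := Algebra.IsAlgebraic.tower_top (K := k) F
  have : IsAlgClosure F kb := ⟨inferInstance, inferInstance⟩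
  let e : AlgebraicClosure F ≃ₐ[F] kb := IsAlgClosure.equiv F (AlgebraicClosure F) kb
  letI iFb : Algebra (AlgebraicClosure F) Ω := ((algebraMap kb Ω).comp (e : _ →+* kb)).toAlgebra
  have he : ∀ a : AlgebraicClosure F, algebraMap (AlgebraicClosure F) Ω a =
      algebraMap kb Ω (e a) := fun _ => rfl
  have t1 : IsScalarTower F (AlgebraicClosure F) Ω := IsScalarTower.of_algebraMap_eq fun a => by
    rw [he, AlgEquiv.commutes, ← IsScalarTower.algebraMap_apply]
  have t3 : IsScalarTower k F Ω := IsScalarTower.of_algebraMap_eq fun a => by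
    rw [IsScalarTower.algebraMap_apply F kb Ω, ← IsScalarTower.algebraMap_apply k F kb,
      ← IsScalarTower.algebraMap_apply k kb Ω]
  have htr' : Algebra.trdeg F L = 1 := trdeg_fix (k := k) (K := K) (Ω := Ω) htr
  -- the points over `L`
  have hpt : ∀ η : (W⁄Ω).Point, FixedPt s η → ∃ η' : (W⁄L).Point, Point.baseChange L Ω η' = η := by
    intro η hη
    rcases η with _ | ⟨x, y, hxy⟩
    · exact ⟨0, rfl⟩
    · obtain ⟨a, rfl⟩ := hL2 x fun σ hσ => (hη σ hσ).1
      obtain ⟨b, rfl⟩ := hL2 y fun σ hσ => (hη σ hσ).2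
      exact ⟨Point.some a b
        ((Affine.baseChange_nonsingular (W := W) (Algebra.ofId L Ω).injective _ _).mp hxy), rfl⟩
  obtain ⟨η₁', hη₁⟩ := hpt η₁ h₁
  obtain ⟨η₂', hη₂⟩ := hpt η₂ h₂
  have hind' : ∀ a b : ℤ, (∃ Q : (W⁄F).Point, a • η₁' + b • η₂' = Point.baseChange F L Q) →
      a = 0 ∧ b = 0 := by
    rintro a b ⟨Q, hQ⟩
    refine hind a b ⟨Q, ?_⟩
    rw [← hη₁, ← hη₂, ← map_zsmul, ← map_zsmul, ← map_add, hQ]
    exact Top.bc_bc Q
  -- the section over `F`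
  have hs' := resS_continuous s e hL hs
  have hsec' : ∀ (σ : Gal(AlgebraicClosure F/F)) (a : AlgebraicClosure F),
      resS s e hL σ (algebraMap (AlgebraicClosure F) Ω a) =
        algebraMap (AlgebraicClosure F) Ω (σ a) := by
    intro σ a
    rw [resS_apply, he, hsec, resG_apply, e.symm_apply_apply, he]
  -- local places
  have hloc : ∀ v : {v : HeightOneSpectrum (𝓞 F) // v ∉ (∅ : Finset (HeightOneSpectrum (𝓞 F)))},
      ∃ (ι : AlgebraicClosure F →ₐ[F] AlgebraicClosure (v.1.adicCompletion F))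
        (A : ValuationSubring Ω) (φ : A →+* AlgebraicClosure (v.1.adicCompletion F)),
        MP_2f3286_bir.IsPlaceOf (resS s e hL) (v.1.adicCompletion F)
          (ι : _ →+* AlgebraicClosure (v.1.adicCompletion F)) A φ := by
    intro v
    let ι : AlgebraicClosure F →ₐ[F] AlgebraicClosure (v.1.adicCompletion F) := IsAlgClosed.lift
    obtain ⟨A, φ, h⟩ := local_place (resS s e hL) hs' hsec' v.1 ι
    exact ⟨ι, A, φ, h⟩
  choose ι A φ hφ using hloc
  have hdiv : ∀ (η : (W⁄L).Point) (n : ℕ), 1 ≤ n →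
      ∃ T : (W⁄Ω).Point, n • T = Point.baseChange L Ω η := by
    intro η n hn
    have : CharZero Ω := charZero_of_injective_algebraMap (algebraMap F Ω).injective
    exact Pt.Div.divisible (k := F) (kb := Ω) hn _
  obtain ⟨-, -, -, -, -, h⟩ := Top.assembly (k := F) W (K := L) (M := Ω) htr' η₁' η₂' hind'
    (resS s e hL) hs' hsec' ∅ ι A φ hφ P hP hrk m hm hsha hdiv
  obtain ⟨A₀, ψ₀, h3, -⟩ := h inferInstance
  exact ⟨A₀, _, descend s hs hsec F (placeOn_of s e hL he h3)⟩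

open scoped Classical in
universe u in
theorem exists_place (htr : Algebra.trdeg k K = 1)
    (s : Gal(kb/k) →* Gal(Ω/K)) (hs : Continuous s)
    (hsec : ∀ σ a, s σ (algebraMap kb Ω a) = algebraMap kb Ω (σ a))
    {F : Type u} [Field F] [NumberField F] [Algebra k F]
    [Algebra F kb] [IsScalarTower k F kb] [Algebra F Ω] [IsScalarTower F kb Ω]
    (W : WeierstrassCurve F) [W.IsShortNF] [W.IsElliptic]
    (P : (W⁄F).Point) (hP : ∀ n : ℕ, n ≠ 0 → n • P ≠ 0)
    (hrk : ∀ Q : (W⁄F).Point, ∃ a : ℤ, IsOfFinAddOrder (Q - a • P))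
    (m : ℕ) (hm : 1 ≤ m) (hsha : Sel.ShaKilledBy W ∅ m)
    (η₁ η₂ : (W⁄Ω).Point) (h₁ : FixedPt s η₁) (h₂ : FixedPt s η₂)
    (hind : ∀ a b : ℤ, (∃ Q : (W⁄F).Point, a • η₁ + b • η₂ = Point.baseChange F Ω Q) →
      a = 0 ∧ b = 0) :
    ∃ (A₀ : ValuationSubring Ω) (ψ₀ : A₀ →+* kb),
      MP_2f3286_bir.IsPlaceOf s k (RingHom.id _) A₀ ψ₀ := by
  letI iFL : Algebra F (fixF s F) := (toFixF s F hsec).toAlgebra
  have t2 : IsScalarTower F (fixF s F) Ω := IsScalarTower.of_algebraMap_eq fun a => by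
    change algebraMap F Ω a = algebraMap kb Ω (algebraMap F _ a)
    rw [← IsScalarTower.algebraMap_apply]
  have hLΩ : Algebra.IsAlgebraic (fixF s F) Ω := Algebra.IsAlgebraic.tower_top (K := K) (fixF s F)
  exact exists_place_aux htr s hs hsec W P hP hrk m hm hsha η₁ η₂ h₁ h₂ hind (L := fixF s F)
    (fun σ hσ x => x.2 σ hσ) (fun x hx => ⟨⟨x, hx⟩, rfl⟩)

end

end Pool.Agent.Lib.MP_2f3286_ag.Koe
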