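import Pool.Agent.Lib.MP_2f3286_ag.Koe.Defs
import Pool.Agent.Lib.MP_2f3286_bir.Place

/-!
# Restriction of a section to a finite extension of the ground field
-/

open Pool.Agent.Lib.MP_2f3286_ag

namespace Pool.Agent.Lib.MP_2f3286_ag.Koe

theorem continuous_of_fix {G : Type*} [Group G] [TopologicalSpace G] [IsTopologicalGroup G]
    {K Ω : Type*} [Field K] [Field Ω] [Algebra K Ω] (f : G →* Gal(Ω/K))
    (h : ∀ x : Ω, {g | f g x = x} ∈ nhds (1 : G)) : Continuous f := by
  refine continuous_of_continuousAt_one f ?_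
  intro A hA
  rw [map_one, krullTopology_mem_nhds_one_iff] at hA
  obtain ⟨E, hE, hEA⟩ := hA
  obtain ⟨S, hS⟩ : E.FG := IntermediateField.fg_of_fg_toSubalgebra E
    (Subalgebra.fg_of_fg_toSubmodule ((Submodule.fg_iff_finiteDimensional _).2 hE))
  have h1 : {g : G | ∀ x ∈ S, f g x = x} ∈ nhds (1 : G) := by
    have h2 : {g : G | ∀ x ∈ S, f g x = x} = ⋂ x ∈ S, {g : G | f g x = x} := by
      ext g; simp
    rw [h2, Filter.biInter_finset_mem]
    exact fun x _ => h x
  rw [Filter.mem_map]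
  refine Filter.mem_of_superset h1 fun g hg => hEA ?_
  have h3 : E ≤ IntermediateField.fixedField (Subgroup.zpowers (f g)) := by
    rw [← hS, IntermediateField.adjoin_le_iff]
    intro x hx
    rw [SetLike.mem_coe, IntermediateField.mem_fixedField_iff]
    rintro _ ⟨n, rfl⟩
    have h4 : f g ∈ MulAction.stabilizer Gal(Ω/K) x := hg x hx
    exact (MulAction.stabilizer Gal(Ω/K) x).zpow_mem h4 n
  rw [SetLike.mem_coe, IntermediateField.mem_fixingSubgroup_iff]
  intro x hx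
  have h5 := h3 hx
  rw [IntermediateField.mem_fixedField_iff] at h5
  exact h5 _ (Subgroup.mem_zpowers _)

theorem fix_mem_nhds {G : Type*} [Group G] [TopologicalSpace G]
    {K Ω : Type*} [Field K] [Field Ω] [Algebra K Ω] [Algebra.IsAlgebraic K Ω] (f : G →* Gal(Ω/K))
    (hf : Continuous f) (x : Ω) : {g | f g x = x} ∈ nhds (1 : G) := by
  have hfin : FiniteDimensional K (IntermediateField.adjoin K ({x} : Set Ω)) :=
    IntermediateField.finiteDimensional_adjoin fun z _ =>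
      (Algebra.IsAlgebraic.isAlgebraic z).isIntegral
  have ho := IntermediateField.fixingSubgroup_isOpen (IntermediateField.adjoin K ({x} : Set Ω))
  have hmem : ((IntermediateField.adjoin K ({x} : Set Ω)).fixingSubgroup : Set Gal(Ω/K)) ∈
      nhds (f 1) := by
    rw [map_one]
    exact ho.mem_nhds (one_mem _)
  refine Filter.mem_of_superset (hf.continuousAt hmem) ?_
  intro σ hσ
  have h4 : f σ ∈ (IntermediateField.adjoin K ({x} : Set Ω)).fixingSubgroup := hσ
  rw [IntermediateField.mem_fixingSubgroup_iff] at h4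
  exact h4 x (IntermediateField.subset_adjoin K _ (by simp))

section

variable {k kb K Ω : Type*} [Field k] [Field kb] [Algebra k kb] [Field K] [Field Ω] [Algebra K Ω]
  [Algebra kb Ω] (s : Gal(kb/k) →* Gal(Ω/K)) (F : Type*) [Field F] [Algebra k F] [Algebra F kb]
  [IsScalarTower k F kb]

/-- the elements fixed by `s σ` for all `σ` which are the identity on `F` -/
def fixF : IntermediateField K Ω where
  carrier := {x | ∀ σ : Gal(kb/k), (∀ a : F, σ (algebraMap F kb a) = algebraMap F kb a) →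
    s σ x = x}
  mul_mem' := fun ha hb σ hσ => by rw [map_mul, ha σ hσ, hb σ hσ]
  add_mem' := fun ha hb σ hσ => by rw [map_add, ha σ hσ, hb σ hσ]
  algebraMap_mem' := fun a σ _ => (s σ).commutes a
  inv_mem' := fun a ha σ hσ => by rw [map_inv₀, ha σ hσ]

theorem mem_fixF {x : Ω} : x ∈ fixF s F ↔ ∀ σ : Gal(kb/k),
    (∀ a : F, σ (algebraMap F kb a) = algebraMap F kb a) → s σ x = x := Iff.rfl

variable {F} {Fb : Type*} [Field Fb] [Algebra F Fb] (e : Fb ≃ₐ[F] kb)

/-- the embedding of the Galois group of `F` in that of `k` -/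
def resG : Gal(Fb/F) →* Gal(kb/k) where
  toFun τ := ((e.symm.trans τ).trans e).restrictScalars k
  map_one' := by ext x; simp
  map_mul' σ τ := by ext x; simp

omit [Field Ω] [Algebra K Ω] [Algebra kb Ω] [Field K] in
theorem resG_apply (τ : Gal(Fb/F)) (x : kb) : resG (k := k) e τ x = e (τ (e.symm x)) := rfl

theorem resG_fix (τ : Gal(Fb/F)) (a : F) :
    resG (k := k) e τ (algebraMap F kb a) = algebraMap F kb a := by
  rw [resG_apply, AlgEquiv.commutes, AlgEquiv.commutes, AlgEquiv.commutes]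

theorem resG_surj (σ : Gal(kb/k)) (hσ : ∀ a : F, σ (algebraMap F kb a) = algebraMap F kb a) :
    ∃ τ : Gal(Fb/F), resG e τ = σ ∧ ∀ x, τ x = e.symm (σ (e x)) := by
  let σ' : kb ≃ₐ[F] kb := AlgEquiv.ofRingEquiv (f := (σ : kb ≃+* kb)) hσ
  refine ⟨(e.trans σ').trans e.symm, ?_, fun x => rfl⟩
  ext x
  rw [resG_apply]
  change e (e.symm (σ' (e (e.symm x)))) = σ x
  rw [e.apply_symm_apply, e.apply_symm_apply]
  rfl

theorem resG_continuous [Algebra.IsAlgebraic F Fb] :
    Continuous (resG (k := k) (F := F) (Fb := Fb) e) := by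
  apply continuous_of_fix
  intro x
  refine Filter.mem_of_superset (fix_mem_nhds (MonoidHom.id Gal(Fb/F)) continuous_id (e.symm x)) ?_
  intro τ hτ
  have h : τ (e.symm x) = e.symm x := hτ
  rw [Set.mem_setOf_eq, resG_apply, h, e.apply_symm_apply]

variable {L : Type*} [Field L] [Algebra L Ω]
  (hL : ∀ σ : Gal(kb/k), (∀ a : F, σ (algebraMap F kb a) = algebraMap F kb a) →
    ∀ x : L, s σ (algebraMap L Ω x) = algebraMap L Ω x)

/-- the restriction of a section to a finite extension of the base field -/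
def resS : Gal(Fb/F) →* Gal(Ω/L) where
  toFun τ := AlgEquiv.ofRingEquiv (f := (s (resG e τ) : Ω ≃+* Ω))
    (fun x => hL _ (resG_fix e τ) x)
  map_one' := by ext x; simp
  map_mul' σ τ := by ext x; simp

theorem resS_apply (τ : Gal(Fb/F)) (x : Ω) : resS s e hL τ x = s (resG e τ) x := rfl

theorem resS_continuous [Algebra.IsAlgebraic F Fb] [Algebra.IsAlgebraic K Ω] (hs : Continuous s) :
    Continuous (resS s e hL) := by
  apply continuous_of_fix
  intro x
  exact fix_mem_nhds (s.comp (resG e)) (hs.comp (resG_continuous e)) x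

/-- `(A, ψ)` is a place of which `s`, restricted to the elements fixing `F`, is the section -/
def PlaceOn (F : Type*) [Field F] [Algebra F kb] (A : ValuationSubring Ω) (ψ : A →+* kb) : Prop :=
  (∀ a : kb, ∃ h : algebraMap kb Ω a ∈ A, ψ ⟨algebraMap kb Ω a, h⟩ = a) ∧
  (∀ x : A, ψ x ≠ 0 → (x : Ω)⁻¹ ∈ A) ∧
  ∀ σ : Gal(kb/k), (∀ a : F, σ (algebraMap F kb a) = algebraMap F kb a) →
    ∀ x : A, ∃ h : s σ x ∈ A, ψ ⟨s σ x, h⟩ = σ (ψ x)

theorem placeOn_of [Algebra Fb Ω] (he : ∀ a : Fb, algebraMap Fb Ω a = algebraMap kb Ω (e a))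
    {A : ValuationSubring Ω} {ψ : A →+* Fb}
    (h : MP_2f3286_bir.IsPlaceOf (resS s e hL) F (RingHom.id Fb) A ψ) :
    PlaceOn s F A ((e : Fb →+* kb).comp ψ) := by
  obtain ⟨h1, h2, h3⟩ := h
  refine ⟨fun a => ?_, fun x hx => ?_, fun σ hσ x => ?_⟩
  · obtain ⟨h4, h5⟩ := h1 (e.symm a)
    have h6 : algebraMap kb Ω a = algebraMap Fb Ω (e.symm a) := by rw [he, e.apply_symm_apply]
    refine ⟨h6 ▸ h4, ?_⟩
    have h7 : (⟨algebraMap kb Ω a, h6 ▸ h4⟩ : A) = ⟨_, h4⟩ := Subtype.ext h6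
    rw [h7, RingHom.comp_apply, h5]
    exact e.apply_symm_apply a
  · refine h2 x fun h0 => hx ?_
    rw [RingHom.comp_apply, h0, map_zero]
  · obtain ⟨τ, hτ, hτ'⟩ := resG_surj e σ hσ
    obtain ⟨h4, h5⟩ := h3 τ τ (fun _ => rfl) x
    have h6 : resS s e hL τ x = s σ x := by rw [resS_apply, hτ]
    refine ⟨h6 ▸ h4, ?_⟩
    have h7 : (⟨s σ x, h6 ▸ h4⟩ : A) = ⟨_, h4⟩ := Subtype.ext h6.symm
    rw [h7, RingHom.comp_apply, h5, hτ']
    exact e.apply_symm_apply _

theorem of_placeOn [Algebra Fb Ω] (he : ∀ a : Fb, algebraMap Fb Ω a = algebraMap kb Ω (e a))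
    {A : ValuationSubring Ω} {ψ : A →+* kb} (h : PlaceOn s F A ψ) :
    MP_2f3286_bir.IsPlaceOf (resS s e hL) F (RingHom.id Fb) A ((e.symm : kb →+* Fb).comp ψ) := by
  obtain ⟨h1, h2, h3⟩ := h
  refine ⟨fun a => ?_, fun x hx => ?_, fun σ τ hσ x => ?_⟩
  · obtain ⟨h4, h5⟩ := h1 (e a)
    refine ⟨he a ▸ h4, ?_⟩
    have h7 : (⟨algebraMap Fb Ω a, he a ▸ h4⟩ : A) = ⟨_, h4⟩ := Subtype.ext (he a)
    rw [h7, RingHom.comp_apply, h5]
    exact e.symm_apply_apply a
  · refine h2 x fun h0 => hx ?_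
    rw [RingHom.comp_apply, h0, map_zero]
  · obtain ⟨h4, h5⟩ := h3 (resG e σ) (resG_fix e σ) x
    refine ⟨h4, ?_⟩
    change e.symm (ψ ⟨s (resG e σ) x, h4⟩) = τ (e.symm (ψ x))
    rw [h5, resG_apply, e.symm_apply_apply]
    exact hσ _

end

end Pool.Agent.Lib.MP_2f3286_ag.Koe
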