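import Mathlib
import Pool.Agent.Lib.MP_2f3286_ag.Koe.Defs

/-!
# Stabilisers of elements
-/

namespace Pool.Agent.Lib.MP_2f3286_ag.Koe.St

variable {k kb : Type*} [Field k] [Field kb] [Algebra k kb]


/-- a product over a period does not change under a shift -/
theorem prod_range_shift {M : Type*} [Field M] {n : ℕ} (f : ℕ → M) (h0 : ∀ i, f i ≠ 0)
    (hf : ∀ i, f (i + n) = f i) (e : ℕ) :
    ∏ i ∈ Finset.range n, f (i + e) = ∏ i ∈ Finset.range n, f i := by
  induction e with
  | zero => rfl
  | succ e ih =>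
    rw [← ih]
    have h1 := Finset.prod_range_succ' (fun i => f (i + e)) n
    have h2 := Finset.prod_range_succ (fun i => f (i + e)) n
    rw [h1] at h2
    have h3 : f (n + e) = f (0 + e) := by
      rw [zero_add, Nat.add_comm n e]
      exact hf e
    rw [h3] at h2
    have h4 := mul_right_cancel₀ (h0 _) h2
    rw [← h4]
    refine Finset.prod_congr rfl fun i _ => ?_
    congr 1
    ring

/-- the stabiliser of `α` in `U` -/
def stab (U : Subgroup Gal(kb/k)) (α : kb) : Subgroup Gal(kb/k) where
  carrier := {σ | σ ∈ U ∧ σ α = α}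
  mul_mem' := fun {a b} ha hb => ⟨mul_mem ha.1 hb.1, by
    rw [AlgEquiv.mul_apply, hb.2, ha.2]⟩
  one_mem' := ⟨one_mem _, rfl⟩
  inv_mem' := fun {a} ha => ⟨inv_mem ha.1, by
    have h : a⁻¹ (a α) = α := by
      rw [← AlgEquiv.mul_apply, inv_mul_cancel, AlgEquiv.one_apply]
    rw [ha.2] at h
    exact h⟩

theorem mem_stab {U : Subgroup Gal(kb/k)} {α : kb} {σ : Gal(kb/k)} :
    σ ∈ stab U α ↔ σ ∈ U ∧ σ α = α := Iff.rfl

theorem stab_le {U : Subgroup Gal(kb/k)} {α : kb} : stab U α ≤ U := fun _ h => h.1

theorem stab_closed [IsGalois k kb] {U : Subgroup Gal(kb/k)} (hU : IsClosed (U : Set Gal(kb/k)))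
    (α : kb) : IsClosed (stab U α : Set Gal(kb/k)) := by
  have h1 : (stab U α : Set Gal(kb/k)) = (U : Set Gal(kb/k)) ∩
      ((IntermediateField.adjoin k {α} : IntermediateField k kb).fixingSubgroup :
        Set Gal(kb/k)) := by
    ext σ
    simp only [Set.mem_inter_iff, SetLike.mem_coe]
    rw [mem_stab, IntermediateField.mem_fixingSubgroup_iff]
    refine and_congr_right fun _ => ⟨fun h x hx => ?_, fun h => ?_⟩
    · induction hx using IntermediateField.adjoin_induction with
      | mem x hx => rw [Set.mem_singleton_iff.mp hx]; exact h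
      | algebraMap x => exact σ.commutes x
      | add x y _ _ hx hy => rw [map_add, hx, hy]
      | inv x _ hx => rw [map_inv₀, hx]
      | mul x y _ _ hx hy => rw [map_mul, hx, hy]
    · exact h α (IntermediateField.mem_adjoin_simple_self _ _)
  rw [h1]
  have hfin : FiniteDimensional k (IntermediateField.adjoin k {α} : IntermediateField k kb) :=
    IntermediateField.adjoin.finiteDimensional (Algebra.IsIntegral.isIntegral α)
  exact hU.inter (IntermediateField.fixingSubgroup_isClosed _)


end Pool.Agent.Lib.MP_2f3286_ag.Koe.St
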