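import Mathlib
import Pool.Agent.Lib.MP_2f3286_ag.Koe.Defs
import Pool.Agent.Lib.MP_2f3286_ag.Koe.St
import Pool.Agent.Lib.MP_2f3286_ag.Koe.Resid
import Pool.Agent.Lib.MP_2f3286_ag.Koe.Root
import Pool.Agent.Lib.MP_2f3286_ag.Koe.Teich

/-!
# UNR: unramified extensions of degree divisible by `r`
-/

open Polynomial

namespace Pool.Agent.Lib.MP_2f3286_ag.Koe

namespace UnrAux

open RootAux

/-- the coefficients of a product of linear factors with integral roots are integral -/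
theorem coeff_prod_le {F : Type*} [Field F] {w : AbsoluteValue F ℝ}
    (h : ∀ a b, w (a + b) ≤ max (w a) (w b)) (S : Finset F) (hS : ∀ z ∈ S, w z ≤ 1) (i : ℕ) :
    w ((∏ z ∈ S, (X - C z)).coeff i) ≤ 1 := by
  classical
  induction S using Finset.induction_on generalizing i with
  | empty =>
    rw [Finset.prod_empty, coeff_one]
    split_ifs
    · rw [map_one]
    · rw [map_zero]; exact zero_le_one
  | insert a S ha ih =>
    have ih' := ih fun z hz => hS z (Finset.mem_insert_of_mem hz)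
    have ha1 : w a ≤ 1 := hS a (Finset.mem_insert_self _ _)
    have key : ∀ c : F, w c ≤ 1 → w (c * a) ≤ 1 := fun c hc => by
      rw [map_mul]
      exact mul_le_one₀ hc (w.nonneg _) ha1
    rw [Finset.prod_insert ha, mul_comm]
    rcases i with _ | i
    · rw [mul_coeff_zero, coeff_sub, coeff_X_zero, coeff_C_zero, zero_sub, mul_neg,
        AbsoluteValue.map_neg]
      exact key _ (ih' 0)
    · rw [coeff_mul_X_sub_C]
      exact (na_sub h _ _).trans (max_le (ih' i) (key _ (ih' (i + 1))))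

/-- a Vandermonde argument: one of the first power sums has maximal absolute value -/
theorem vander {F : Type*} [Field F] {w : AbsoluteValue F ℝ}
    (h : ∀ a b, w (a + b) ≤ max (w a) (w b)) (S : Finset F) (hS : ∀ z ∈ S, w z = 1)
    (hS2 : ∀ z ∈ S, ∀ z' ∈ S, z ≠ z' → w (z - z') = 1) (hne : S.Nonempty) (a : F → F) {A : ℝ}
    (hA : 0 < A) (ha : ∀ z ∈ S, w (a z) = A) :
    ∃ i : ℕ, w (∑ z ∈ S, a z * z ^ i) = A := by
  classical
  by_contra hcon
  push Not at hcon
  have hle : ∀ i : ℕ, w (∑ z ∈ S, a z * z ^ i) < A := by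
    intro i
    refine lt_of_le_of_ne ?_ (hcon i)
    refine na_sum_le h _ _ hA.le fun z hz => ?_
    rw [map_mul, map_pow, hS z hz, one_pow, mul_one, ha z hz]
  obtain ⟨z₀, hz₀⟩ := hne
  set g : F[X] := ∏ z ∈ S.erase z₀, (X - C z) with hg
  have h1 : ∑ z ∈ S, a z * g.eval z = a z₀ * g.eval z₀ := by
    refine Finset.sum_eq_single_of_mem z₀ hz₀ fun z hz hne => ?_
    have : g.eval z = 0 := by
      rw [hg, eval_prod]
      apply Finset.prod_eq_zero (Finset.mem_erase.mpr ⟨hne, hz⟩)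
      simp
    rw [this, mul_zero]
  have h2 : w (a z₀ * g.eval z₀) = A := by
    rw [map_mul, ha z₀ hz₀, hg, eval_prod, map_prod, Finset.prod_eq_one, mul_one]
    intro z hz
    rw [eval_sub, eval_X, eval_C]
    exact hS2 _ hz₀ _ (Finset.mem_of_mem_erase hz) (Finset.ne_of_mem_erase hz).symm
  have h3 : w (∑ z ∈ S, a z * g.eval z) < A := by
    have h4 : ∑ z ∈ S, a z * g.eval z =
        ∑ i ∈ Finset.range (g.natDegree + 1), g.coeff i * ∑ z ∈ S, a z * z ^ i := by
      simp_rw [Finset.mul_sum]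
      rw [Finset.sum_comm]
      refine Finset.sum_congr rfl fun z _ => ?_
      rw [eval_eq_sum_range, Finset.mul_sum]
      refine Finset.sum_congr rfl fun i _ => ?_
      ring
    rw [h4]
    refine na_sum_lt h _ _ hA fun i _ => ?_
    rw [map_mul]
    have h5 : w (g.coeff i) ≤ 1 := coeff_prod_le h _ (fun z hz =>
      (hS z (Finset.mem_of_mem_erase hz)).le) i
    calc w (g.coeff i) * w (∑ z ∈ S, a z * z ^ i) ≤ 1 * w (∑ z ∈ S, a z * z ^ i) :=
          mul_le_mul_of_nonneg_right h5 (w.nonneg _)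
      _ < A := by rw [one_mul]; exact hle i
  rw [h1, h2] at h3
  exact lt_irrefl _ h3

end UnrAux

open St UnrAux RootAux

variable {k kb : Type*} [Field k] [Field kb] [Algebra k kb] [IsGalois k kb] [IsAlgClosed kb]
  [CharZero kb]

variable {v : AbsoluteValue kb ℝ} {D : Subgroup Gal(kb/k)} {p : ℕ}

omit [IsAlgClosed kb] [CharZero kb] in
/-- the stabiliser has finite index -/
theorem UnrAux.stab_finIn {U : Subgroup Gal(kb/k)} (hU : FinIn D U) (α : kb) :
    FinIn D (stab U α) := by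
  refine ⟨stab_le.trans hU.1, stab_closed hU.2.1 α, ?_⟩
  have h1 : stab U α = U ⊓ MulAction.stabilizer Gal(kb/k) α := by
    ext σ
    rw [Subgroup.mem_inf, mem_stab, MulAction.mem_stabilizer_iff]
    rfl
  have hopen : IsOpen ((MulAction.stabilizer Gal(kb/k) α : Subgroup Gal(kb/k)) :
        Set Gal(kb/k)) := stabilizer_isOpen_of_isIntegral α
  have hfin : Finite (Gal(kb/k) ⧸ MulAction.stabilizer Gal(kb/k) α) :=
    Subgroup.quotient_finite_of_isOpen _ hopen
  have hindex : (MulAction.stabilizer Gal(kb/k) α).FiniteIndex :=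
    ⟨Subgroup.index_ne_zero_of_finite⟩
  have h2 : (stab U α).relIndex U ≠ 0 := by
    rw [h1, Subgroup.inf_relIndex_left]
    have h3 : ((MulAction.stabilizer Gal(kb/k) α).subgroupOf U).FiniteIndex := inferInstance
    exact h3.index_ne_zero
  rw [← Subgroup.relIndex_mul_relIndex _ _ _ stab_le hU.1]
  exact mul_ne_zero h2 hU.2.2

omit [IsGalois k kb] [IsAlgClosed kb] in
/-- a finite set of roots of unity stable under `U` is stable under the Frobenius of the residue
field of `F_U` -/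
theorem UnrAux.frob_mem (hd : LocData v D p) {U : Subgroup Gal(kb/k)} {f : ℕ}
    (hf : ∀ a ∈ fixk U, v a ≤ 1 → ∃ x : kb, x ^ (p ^ f) = x ∧ v (a - x) < 1)
    {M : ℕ} (hM : ¬ p ∣ M) (S : Finset kb) (hS : ∀ z ∈ S, z ^ M = 1)
    (hSU : ∀ σ ∈ U, ∀ z ∈ S, σ z ∈ S) {z : kb} (hz : z ∈ S) : z ^ (p ^ f) ∈ S := by
  classical
  have hpr : Fact p.Prime := ⟨hd.prime⟩
  have hM0 : M ≠ 0 := fun h => hM (h ▸ dvd_zero p)
  have hv1 : ∀ z : kb, z ^ M = 1 → v z = 1 := fun z hz => by
    have h1 : v z ^ M = 1 := by rw [← map_pow, hz, map_one]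
    exact (pow_eq_one_iff_of_nonneg (v.nonneg _) hM0).mp h1
  obtain ⟨κ, _, red, -, hred⟩ := exists_residue v hd.nonarch ⊤
  have hmem : ∀ x : kb, v x ≤ 1 → x ∈ ringOf v hd.nonarch ⊤ := fun x hx =>
    ⟨Subfield.mem_top x, hx⟩
  have hchar : CharP κ p := by
    have h0 : red ((p : ℕ) : ringOf v hd.nonarch ⊤) = 0 := by
      rw [hred]
      have : (((p : ℕ) : ringOf v hd.nonarch ⊤) : kb) = (p : kb) := by push_cast; rfl
      rw [this]
      exact hd.small
    rw [map_natCast] at h0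
    exact ringChar.of_eq (CharP.ringChar_of_prime_eq_zero hd.prime h0)
  -- the polynomial with roots `S`
  let c : kb → ringOf v hd.nonarch ⊤ := fun z => if h : v z ≤ 1 then ⟨z, hmem z h⟩ else 0
  have hc : ∀ z, v z ≤ 1 → (c z : kb) = z := fun z h => by
    simp only [c, dif_pos h]
  set P : (ringOf v hd.nonarch ⊤)[X] := ∏ z ∈ S, (X - C (c z)) with hP
  have hPkb : P.map (ringOf v hd.nonarch ⊤).subtype = ∏ z ∈ S, (X - C z) := by
    rw [hP, Polynomial.map_prod]
    refine Finset.prod_congr rfl fun z hz => ?_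
    rw [Polynomial.map_sub, map_X, map_C]
    congr 2
    exact hc z (hv1 z (hS z hz)).le
  have hfix : ∀ i, ((P.coeff i : ringOf v hd.nonarch ⊤) : kb) ∈ fixk U := by
    intro i σ hσ
    have h1 : ((P.coeff i : ringOf v hd.nonarch ⊤) : kb) =
        (P.map (ringOf v hd.nonarch ⊤).subtype).coeff i := by
      rw [coeff_map]; rfl
    rw [h1, hPkb]
    have h2 : (∏ z ∈ S, (X - C z) : kb[X]).map (σ : kb →+* kb) = ∏ z ∈ S, (X - C z) := by
      rw [Polynomial.map_prod]
      have h3 : ∀ z ∈ S, (X - C z : kb[X]).map (σ : kb →+* kb) = X - C (σ z) := fun z _ => by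
        rw [Polynomial.map_sub, map_X, map_C]
        rfl
      rw [Finset.prod_congr rfl h3]
      refine Finset.prod_nbij σ (fun z hz => hSU σ hσ z hz) (fun a _ b _ h => σ.injective h) ?_
        (fun z _ => rfl)
      have hinj : Set.InjOn σ (S : Set kb) := fun a _ b _ h => σ.injective h
      exact Finset.surjOn_of_injOn_of_card_le σ (fun z hz => hSU σ hσ z hz) hinj le_rfl
    calc σ ((∏ z ∈ S, (X - C z) : kb[X]).coeff i) =
        ((∏ z ∈ S, (X - C z) : kb[X]).map (σ : kb →+* kb)).coeff i := by rw [coeff_map]; rfl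
      _ = _ := by rw [h2]
  have hfrob : (P.map red).map (iterateFrobenius κ p f) = P.map red := by
    ext i
    rw [coeff_map, coeff_map, iterateFrobenius_def]
    obtain ⟨x, hx, hxc⟩ := hf _ (hfix i) (P.coeff i).2.2
    have hvx : v x ≤ 1 := by
      have h1 : x = ((P.coeff i : ringOf v hd.nonarch ⊤) : kb) -
          (((P.coeff i : ringOf v hd.nonarch ⊤) : kb) - x) := by ring
      rw [h1]
      exact (na_sub hd.nonarch _ _).trans (max_le (P.coeff i).2.2 hxc.le)
    have h2 : red (P.coeff i) = red (c x) := by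
      rw [red_eq_iff hred, hc x hvx]
      exact hxc
    rw [h2, ← map_pow]
    congr 1
    apply Subtype.ext
    rw [SubmonoidClass.coe_pow, hc x hvx, hx]
  have hvz := (hv1 z (hS z hz)).le
  have hroot : (P.map red).eval (red (c z)) = 0 := by
    rw [hP, Polynomial.map_prod, eval_prod]
    apply Finset.prod_eq_zero hz
    rw [Polynomial.map_sub, map_X, map_C, eval_sub, eval_X, eval_C, sub_self]
  have hroot2 : (P.map red).eval (red (c z) ^ (p ^ f)) = 0 := by
    have h1 := Polynomial.eval_map_apply (iterateFrobenius κ p f) (p := P.map red) (red (c z))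
    rw [hfrob, hroot, map_zero, iterateFrobenius_def] at h1
    exact h1
  rw [hP, Polynomial.map_prod, eval_prod, Finset.prod_eq_zero_iff] at hroot2
  obtain ⟨z', hz', h4⟩ := hroot2
  rw [Polynomial.map_sub, map_X, map_C, eval_sub, eval_X, eval_C, sub_eq_zero, ← map_pow,
    red_eq_iff hred, SubmonoidClass.coe_pow, hc z hvz, hc z' (hv1 z' (hS z' hz')).le] at h4
  -- `z ^ q` and `z'` are congruent roots of unity
  have hz'0 : z' ≠ 0 := by
    rintro rfl
    have := hS 0 hz'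
    rw [zero_pow hM0] at this
    exact zero_ne_one this
  have h5 : z ^ (p ^ f) / z' = 1 := by
    refine unity_eq hd hM ?_ ?_
    · rw [div_pow, hS z' hz', ← pow_mul, mul_comm, pow_mul, hS z hz, one_pow, div_one]
    · have h6 : z ^ (p ^ f) / z' - 1 = (z ^ (p ^ f) - z') / z' := by
        rw [sub_div, div_self hz'0]
      rw [h6, map_div₀, hv1 z' (hS z' hz'), div_one]
      exact h4
  rw [(div_eq_one_iff_eq hz'0).mp h5]
  exact hz'

/-- UNR -/
theorem unr (hd : LocData v D p) {U : Subgroup Gal(kb/k)} (hU : FinIn D U) {r : ℕ}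
    (hr : r.Prime) :
    ∃ (U' : Subgroup Gal(kb/k)) (I : Finset Gal(kb/k)), FinIn D U' ∧ U' ≤ U ∧ (∀ g ∈ I, g ∈ U) ∧
      r ∣ I.card ∧
      (∀ σ ∈ U, ∃ e : Equiv.Perm I, ∀ g : I, ((e g : I) : Gal(kb/k))⁻¹ * σ * g ∈ U') ∧
      (∀ c ∈ fixk U', ∃ b ∈ fixk U, v b = v c) ∧
      ∃ θ ∈ fixk U', v θ ≤ 1 ∧ v (∑ g ∈ I, g θ) = 1 := by
  classical
  have hpr : Fact p.Prime := ⟨hd.prime⟩
  have hrr : Fact r.Prime := ⟨hr⟩
  obtain ⟨f, hf1, hf2, hf3⟩ := teich hd hU
  set q := p ^ f with hq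
  have hq2 : 2 ≤ q := hd.prime.two_le.trans (Nat.le_self_pow (by omega) p)
  set M := q ^ r - 1 with hM
  have hqr : q + 1 < q ^ r := by
    have h1 : q ^ 2 ≤ q ^ r := Nat.pow_le_pow_right (by omega) hr.two_le
    nlinarith
  have hpM : ¬ p ∣ M := by
    intro h
    have h1 : p ∣ q ^ r := by
      rw [hq, ← pow_mul]
      exact dvd_pow_self p (Nat.mul_ne_zero (by omega) hr.ne_zero)
    have h2 : p ∣ q ^ r - M := (Nat.dvd_sub h1 h)
    have h3 : q ^ r - M = 1 := by omega
    rw [h3] at h2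
    exact hd.prime.one_lt.ne' (Nat.dvd_one.mp h2)
  have hM0 : M ≠ 0 := by omega
  have hne : NeZero (M : kb) := ⟨by exact_mod_cast hM0⟩
  obtain ⟨ζ, hζ⟩ := HasEnoughRootsOfUnity.exists_primitiveRoot kb M
  -- the orbit
  set O : Finset kb := (nthRootsFinset M (1 : kb)).filter (fun z => ∃ g ∈ U, g ζ = z) with hO
  have hOm : ∀ z, z ∈ O ↔ ∃ g ∈ U, g ζ = z := by
    intro z
    rw [hO, Finset.mem_filter]
    refine ⟨fun h => h.2, fun h => ⟨?_, h⟩⟩
    obtain ⟨g, -, rfl⟩ := h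
    rw [mem_nthRootsFinset (Nat.pos_of_ne_zero hM0), ← map_pow, hζ.pow_eq_one, map_one]
  have hζO : ζ ∈ O := (hOm ζ).mpr ⟨1, one_mem _, rfl⟩
  have hOpow : ∀ z ∈ O, z ^ M = 1 := fun z hz => by
    obtain ⟨g, -, rfl⟩ := (hOm z).mp hz
    rw [← map_pow, hζ.pow_eq_one, map_one]
  have hOU : ∀ σ ∈ U, ∀ z ∈ O, σ z ∈ O := fun σ hσ z hz => by
    obtain ⟨g, hg, rfl⟩ := (hOm z).mp hz
    exact (hOm _).mpr ⟨σ * g, mul_mem hσ hg, rfl⟩
  have hv1 : ∀ z ∈ O, v z = 1 := fun z hz => by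
    have h1 : v z ^ M = 1 := by rw [← map_pow, hOpow z hz, map_one]
    exact (pow_eq_one_iff_of_nonneg (v.nonneg _) hM0).mp h1
  have hO0 : ∀ z ∈ O, z ≠ 0 := fun z hz h => by
    have := hv1 z hz
    rw [h, map_zero] at this
    exact zero_ne_one this
  have hv2 : ∀ z ∈ O, ∀ z' ∈ O, z ≠ z' → v (z - z') = 1 := by
    intro z hz z' hz' hne
    have h1 : z - z' = (z / z' - 1) * z' := by
      rw [sub_mul, div_mul_cancel₀ _ (hO0 z' hz'), one_mul]
    rw [h1, map_mul, hv1 z' hz', mul_one]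
    by_contra hcon
    apply hne
    have hlt : v (z / z' - 1) < 1 := by
      refine lt_of_le_of_ne ?_ hcon
      refine (na_sub hd.nonarch _ _).trans (max_le ?_ (map_one v).le)
      rw [map_div₀, hv1 z hz, hv1 z' hz', div_one]
    have h2 := unity_eq hd hpM (by rw [div_pow, hOpow z hz, hOpow z' hz', div_one]) hlt
    exact (div_eq_one_iff_eq (hO0 z' hz')).mp h2
  -- representatives
  have hG : ∀ z : kb, ∃ g : Gal(kb/k), z ∈ O → g ∈ U ∧ g ζ = z := by
    intro z
    by_cases h : z ∈ O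
    · obtain ⟨g, hg, hgz⟩ := (hOm z).mp h
      exact ⟨g, fun _ => ⟨hg, hgz⟩⟩
    · exact ⟨1, fun h' => absurd h' h⟩
  choose G hG using hG
  have hGinj : Set.InjOn G (O : Set kb) := by
    intro z hz z' hz' h
    rw [← (hG z hz).2, ← (hG z' hz').2, h]
  set I : Finset Gal(kb/k) := O.image G with hI
  have hcard : I.card = O.card := Finset.card_image_of_injOn hGinj
  have hIU : ∀ g ∈ I, g ∈ U := by
    intro g hg
    obtain ⟨z, hz, rfl⟩ := Finset.mem_image.mp hg
    exact (hG z hz).1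
  have hIG : ∀ g ∈ I, g ζ ∈ O ∧ G (g ζ) = g := by
    intro g hg
    obtain ⟨z, hz, rfl⟩ := Finset.mem_image.mp hg
    rw [(hG z hz).2]
    exact ⟨hz, rfl⟩
  have hsum : ∀ c : kb, ∑ g ∈ I, g c = ∑ z ∈ O, (G z) c := fun c => Finset.sum_image hGinj
  have hU' : FinIn D (stab U ζ) := UnrAux.stab_finIn hU ζ
  -- the value of `g c`
  have hvg : ∀ z ∈ O, ∀ c, v ((G z) c) = v c := fun z hz c => hd.isom _ (hU.1 (hG z hz).1) c
  have hζU' : ζ ∈ fixk (stab U ζ) := fun σ hσ => hσ.2
  have hperm : ∀ σ ∈ U, ∃ e : Equiv.Perm I, ∀ g : I,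
      ((e g : I) : Gal(kb/k))⁻¹ * σ * g ∈ stab U ζ := by
    intro σ hσ
    have hE : ∀ g : I, G (σ ((g : Gal(kb/k)) ζ)) ∈ I := fun g =>
      Finset.mem_image_of_mem _ (hOU σ hσ _ (hIG g g.2).1)
    let E : I → I := fun g => ⟨G (σ ((g : Gal(kb/k)) ζ)), hE g⟩
    have hEinj : Function.Injective E := by
      intro g g' h
      have h1 : G (σ ((g : Gal(kb/k)) ζ)) = G (σ ((g' : Gal(kb/k)) ζ)) := congrArg Subtype.val h
      have h2 := hGinj (hOU σ hσ _ (hIG g g.2).1) (hOU σ hσ _ (hIG g' g'.2).1) h1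
      have h3 := σ.injective h2
      apply Subtype.ext
      rw [← (hIG g g.2).2, ← (hIG g' g'.2).2, h3]
    refine ⟨Equiv.ofBijective E (Finite.injective_iff_bijective.mp hEinj), fun g => ?_⟩
    have h4 : ((Equiv.ofBijective E (Finite.injective_iff_bijective.mp hEinj)) g : I) = E g := rfl
    rw [h4]
    have h5 : ((E g : I) : Gal(kb/k)) ζ = σ ((g : Gal(kb/k)) ζ) :=
      (hG _ (hOU σ hσ _ (hIG g g.2).1)).2
    refine ⟨mul_mem (mul_mem (inv_mem (hIU _ (E g).2)) hσ) (hIU _ g.2), ?_⟩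
    rw [AlgEquiv.mul_apply, AlgEquiv.mul_apply, ← h5, ← AlgEquiv.mul_apply, inv_mul_cancel,
      AlgEquiv.one_apply]
  -- sums over `I` are fixed by `U`
  have hfixsum : ∀ c ∈ fixk (stab U ζ), ∑ g ∈ I, g c ∈ fixk U := by
    intro c hc σ hσ
    obtain ⟨e, he⟩ := hperm σ hσ
    rw [map_sum, ← Finset.sum_coe_sort I, ← Finset.sum_coe_sort I]
    refine Fintype.sum_equiv e _ _ fun g => ?_
    have h1 := hc _ (he g)
    have h2 : ((e g : I) : Gal(kb/k)) ((((e g : I) : Gal(kb/k))⁻¹ * σ * g) c) =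
        σ ((g : Gal(kb/k)) c) := by
      rw [← AlgEquiv.mul_apply, ← AlgEquiv.mul_apply]
      congr 1
      group
    rw [← h2, h1]
  have hpow : ∀ c, ∀ i : ℕ, ∑ g ∈ I, g (c * ζ ^ i) = ∑ z ∈ O, (G z) c * z ^ i := by
    intro c i
    rw [hsum]
    refine Finset.sum_congr rfl fun z hz => ?_
    rw [map_mul, map_pow, (hG z hz).2]
  refine ⟨stab U ζ, I, hU', stab_le, hIU, ?_, hperm, ?_, ?_⟩
  · -- divisibility
    rw [hcard]
    have hfr : ∀ z ∈ O, z ^ q ∈ O := fun z hz =>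
      UnrAux.frob_mem hd hf3 hpM O hOpow hOU hz
    let F : Function.End O := fun z => ⟨(z : kb) ^ q, hfr z z.2⟩
    have hFiter : ∀ (j : ℕ) (z : O), (((F ^ j) z : O) : kb) = (z : kb) ^ (q ^ j) := by
      intro j
      induction j with
      | zero => intro z; rw [pow_zero, pow_zero, pow_one]; rfl
      | succ j ih =>
        intro z
        rw [pow_succ']
        change (((F ^ j) z : O) : kb) ^ q = _
        rw [ih, ← pow_mul, pow_succ]
    have hF : F ^ r ^ 1 = 1 := by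
      rw [pow_one]
      funext z
      apply Subtype.ext
      rw [hFiter]
      have h1 : q ^ r = M + 1 := by omega
      rw [h1, pow_succ, hOpow z z.2, one_mul]
      rfl
    have h2 := Equiv.Perm.card_fixedPoints_modEq (p := r) hF
    have h3 : Fintype.card (Function.fixedPoints F) = 0 := by
      rw [Fintype.card_eq_zero_iff]
      refine ⟨fun z => ?_⟩
      have h4 : ((z : O) : kb) ^ q = ((z : O) : kb) := congrArg Subtype.val z.2
      obtain ⟨g, hg, hgz⟩ := (hOm _).mp z.1.2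
      have h5 : ζ ^ (q - 1) = 1 := by
        apply g.injective
        rw [map_pow, hgz, map_one]
        have h6 : ((z : O) : kb) ≠ 0 := hO0 _ z.1.2
        apply mul_right_cancel₀ h6
        rw [← pow_succ, one_mul]
        have h7 : q - 1 + 1 = q := by omega
        rw [h7]
        exact h4
      have h6 := (hζ.pow_eq_one_iff_dvd _).mp h5
      have h7 := Nat.le_of_dvd (by omega) h6
      omega
    rw [h3] at h2
    have h4 := (Nat.modEq_zero_iff_dvd).mp h2
    rwa [Fintype.card_coe] at h4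
  · -- unramified
    intro c hc
    by_cases hc0 : c = 0
    · exact ⟨0, zero_mem _, by rw [hc0]⟩
    obtain ⟨i, hi⟩ := vander hd.nonarch O hv1 hv2 ⟨ζ, hζO⟩ (fun z => (G z) c) (A := v c)
      (v.pos hc0) (fun z hz => hvg z hz c)
    refine ⟨∑ g ∈ I, g (c * ζ ^ i), hfixsum _ (mul_mem hc (pow_mem hζU' i)), ?_⟩
    rw [hpow]
    exact hi
  · obtain ⟨i, hi⟩ := vander hd.nonarch O hv1 hv2 ⟨ζ, hζO⟩ (fun z => (G z) 1) (A := 1)
      one_pos (fun z hz => by rw [map_one, map_one])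
    refine ⟨ζ ^ i, pow_mem hζU' i, ?_, ?_⟩
    · rw [map_pow, hv1 ζ hζO, one_pow]
    · have h1 := hpow 1 i
      rw [one_mul] at h1
      rw [h1]
      exact hi

end Pool.Agent.Lib.MP_2f3286_ag.Koe
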