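import Pool.Agent.Lib.MP_2f3286_ag.Koe.Kum
import Pool.Agent.Lib.MP_2f3286_ag.Koe.Unr

/-!
# Galois sections over local fields: a uniformiser is not a root up to units
-/

namespace Pool.Agent.Lib.MP_2f3286_ag.Koe

open Polynomial in
theorem NoRoot_multiset {Ω : Type*} [Field Ω] (A : ValuationSubring Ω) (R : Multiset Ω)
    (hR : ∀ y ∈ R, 1 ≤ A.valuation y) :
    A.valuation ((derivative (R.map fun y => X - C y).prod).eval 0) ≤
      A.valuation (((R.map fun y => X - C y).prod).eval 0) := by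
  induction R using Multiset.induction with
  | empty => simp
  | cons y R ih =>
    have ih' := ih (fun z hz => hR z (Multiset.mem_cons_of_mem hz))
    have hy := hR y (Multiset.mem_cons_self _ _)
    set H := (R.map fun y => X - C y).prod with hH
    have e1 : ((Multiset.map (fun y => X - C y) (y ::ₘ R)).prod : Polynomial Ω) = (X - C y) * H := by
      rw [Multiset.map_cons, Multiset.prod_cons]
    rw [e1, derivative_mul, eval_add, eval_mul, eval_mul, eval_mul]
    simp only [derivative_sub, derivative_X, derivative_C, sub_zero, eval_one, one_mul, eval_sub,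
      eval_X, eval_C, zero_sub]
    refine (A.valuation.map_add _ _).trans (max_le ?_ ?_)
    · rw [map_mul, Valuation.map_neg]
      exact le_mul_of_one_le_left' hy
    · rw [map_mul, map_mul]
      exact mul_le_mul_right ih' _

open Polynomial in
theorem NoRoot_exists {Ω : Type*} [Field Ω] [IsAlgClosed Ω] (A : ValuationSubring Ω) {ι : Type*}
    (I : Finset ι) (c : ι → Ω) (hs : A.valuation (∑ i ∈ I, c i) = 1) {u : Ω}
    (hu : A.valuation (u - 1) < 1) :
    ∃ b, A.valuation b < 1 ∧ ∏ i ∈ I, (1 + b * c i) = u := by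
  classical
  set P : Polynomial Ω := ∏ i ∈ I, (1 + X * C (c i)) with hP
  set F : Polynomial Ω := P - C u with hF
  have hFe : ∀ b, F.eval b = ∏ i ∈ I, (1 + b * c i) - u := by
    intro b
    rw [hF, eval_sub, hP, eval_prod, eval_C]
    congr 1
    refine Finset.prod_congr rfl fun i _ => ?_
    rw [eval_add, eval_one, eval_mul, eval_X, eval_C]
  have hd : F.derivative.eval 0 = ∑ i ∈ I, c i := by
    rw [hF, derivative_sub, derivative_C, sub_zero, hP]
    have : ∀ J : Finset ι, (derivative (∏ i ∈ J, ((1 : Polynomial Ω) + X * C (c i)))).eval 0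
        = ∑ i ∈ J, c i := by
      intro J
      induction J using Finset.induction with
      | empty => simp
      | insert j J hj ih =>
        rw [Finset.prod_insert hj, Finset.sum_insert hj, derivative_mul, eval_add, eval_mul,
          eval_mul, ih, eval_prod]
        simp
    exact this I
  have h0 : F.eval 0 = 1 - u := by
    rw [hFe]
    simp
  have hF0 : F ≠ 0 := by
    intro h
    rw [h] at hd
    simp only [derivative_zero, eval_zero] at hd
    rw [← hd, map_zero] at hs
    exact zero_ne_one hs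
  by_contra hno
  push Not at hno
  have hroots : ∀ y ∈ F.roots, 1 ≤ A.valuation y := by
    intro y hy
    by_contra h
    push Not at h
    refine hno y h ?_
    have := (mem_roots hF0).1 hy
    rw [IsRoot.def, hFe, sub_eq_zero] at this
    exact this
  have hsplit := (IsAlgClosed.splits F).eq_prod_roots
  have hm := NoRoot_multiset A F.roots hroots
  have h1 : A.valuation (F.derivative.eval 0) ≤ A.valuation (F.eval 0) := by
    have e1 : F.derivative.eval 0
        = F.leadingCoeff * (derivative (F.roots.map fun y => X - C y).prod).eval 0 := by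
      conv_lhs => rw [hsplit]
      rw [derivative_C_mul, eval_mul, eval_C]
    have e2 : F.eval 0 = F.leadingCoeff * ((F.roots.map fun y => X - C y).prod).eval 0 := by
      conv_lhs => rw [hsplit]
      rw [eval_mul, eval_C]
    rw [e1, e2, map_mul, map_mul]
    exact mul_le_mul_right hm _
  rw [hd, h0, hs, Valuation.map_sub_swap] at h1
  exact absurd hu (not_lt.2 h1)

theorem NoRoot_prod {Ω : Type*} [Field Ω] (A : ValuationSubring Ω) {ι : Type*}
    (I : Finset ι) (c : ι → Ω) (hc : ∀ i ∈ I, A.valuation (c i) ≤ 1) {b : Ω}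
    (hb : A.valuation b < 1) : A.valuation (∏ i ∈ I, (1 + b * c i) - 1) < 1 := by
  classical
  induction I using Finset.induction with
  | empty => simp
  | insert j J hj ih =>
    have ih' := ih (fun i hi => hc i (Finset.mem_insert_of_mem hi))
    have hj1 := hc j (Finset.mem_insert_self _ _)
    rw [Finset.prod_insert hj]
    set P := ∏ i ∈ J, (1 + b * c i) with hP
    have e : (1 + b * c j) * P - 1 = (P - 1) + b * c j * ((P - 1) + 1) := by ring
    rw [e]
    refine lt_of_le_of_lt (A.valuation.map_add _ _) (max_lt ih' ?_)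
    rw [map_mul, map_mul]
    have h1 : A.valuation (P - 1 + 1) ≤ 1 := by
      refine (A.valuation.map_add _ _).trans (max_le ih'.le ?_)
      rw [map_one]
    calc A.valuation b * A.valuation (c j) * A.valuation (P - 1 + 1)
        ≤ A.valuation b * 1 * 1 := by gcongr
      _ < 1 := by simpa using hb

theorem NoRoot_diff {Ω : Type*} [Field Ω] (A : ValuationSubring Ω) {ι : Type*}
    (I : Finset ι) (c : ι → Ω) (hc : ∀ i ∈ I, A.valuation (c i) ≤ 1) {b b' : Ω}
    (hb : A.valuation b < 1) (hb' : A.valuation b' < 1) :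
    ∃ E, ∏ i ∈ I, (1 + b * c i) - ∏ i ∈ I, (1 + b' * c i) = (b - b') * E ∧
      A.valuation (E - ∑ i ∈ I, c i) < 1 ∧ A.valuation E ≤ 1 := by
  classical
  induction I using Finset.induction with
  | empty => exact ⟨0, by simp⟩
  | insert j J hj ih =>
    obtain ⟨E, h1, h2, h3⟩ := ih (fun i hi => hc i (Finset.mem_insert_of_mem hi))
    have hj1 := hc j (Finset.mem_insert_self _ _)
    have hP' := NoRoot_prod A J c (fun i hi => hc i (Finset.mem_insert_of_mem hi)) hb'
    rw [Finset.prod_insert hj, Finset.prod_insert hj, Finset.sum_insert hj]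
    set P := ∏ i ∈ J, (1 + b * c i) with hP
    set P' := ∏ i ∈ J, (1 + b' * c i) with hP'd
    set S := ∑ i ∈ J, c i with hS
    have h4 : A.valuation (b * c j * E) < 1 := by
      rw [map_mul, map_mul]
      calc A.valuation b * A.valuation (c j) * A.valuation E
          ≤ A.valuation b * 1 * 1 := by gcongr
        _ < 1 := by simpa using hb
    have h5 : A.valuation (c j * (P' - 1)) < 1 := by
      rw [map_mul]
      calc A.valuation (c j) * A.valuation (P' - 1)
          ≤ 1 * A.valuation (P' - 1) := by gcongr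
        _ < 1 := by simpa using hP'
    refine ⟨(1 + b * c j) * E + c j * P', ?_, ?_, ?_⟩
    · linear_combination (1 + b * c j) * h1
    · have e : (1 + b * c j) * E + c j * P' - (c j + S)
          = (E - S) + (b * c j * E + c j * (P' - 1)) := by ring
      rw [e]
      refine lt_of_le_of_lt (A.valuation.map_add _ _) (max_lt h2 ?_)
      exact lt_of_le_of_lt (A.valuation.map_add _ _) (max_lt h4 h5)
    · have e : (1 + b * c j) * E + c j * P' = E + (b * c j * E + (c j * (P' - 1) + c j)) := by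
        ring
      rw [e]
      refine (A.valuation.map_add _ _).trans (max_le h3 ?_)
      refine (A.valuation.map_add _ _).trans (max_le h4.le ?_)
      exact (A.valuation.map_add _ _).trans (max_le h5.le hj1)

theorem NoRoot_unique {Ω : Type*} [Field Ω] (A : ValuationSubring Ω) {ι : Type*}
    (I : Finset ι) (c : ι → Ω) (hc : ∀ i ∈ I, A.valuation (c i) ≤ 1)
    (hs : A.valuation (∑ i ∈ I, c i) = 1) {b b' : Ω}
    (hb : A.valuation b < 1) (hb' : A.valuation b' < 1)
    (h : ∏ i ∈ I, (1 + b * c i) = ∏ i ∈ I, (1 + b' * c i)) : b = b' := by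
  obtain ⟨E, h1, h2, -⟩ := NoRoot_diff A I c hc hb hb'
  rw [h, sub_self] at h1
  rcases mul_eq_zero.1 h1.symm with h3 | h3
  · exact sub_eq_zero.1 h3
  · rw [h3, zero_sub, Valuation.map_neg, hs] at h2
    exact absurd h2 (lt_irrefl _)

variable {k kb : Type*} [Field k] [Field kb] [Algebra k kb] [IsGalois k kb] [IsAlgClosed kb]
  [CharZero kb] {K Ω : Type*} [Field K] [Field Ω] [Algebra K Ω] [Algebra kb Ω]
  [Algebra.IsAlgebraic K Ω] [IsAlgClosed Ω]

variable {v : AbsoluteValue kb ℝ} {D : Subgroup Gal(kb/k)} {p : ℕ}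

theorem NoRoot_reindex {Gr M : Type*} [Group Gr] [CommMonoid M] {U' : Subgroup Gr} (I : Finset Gr)
    {σ : Gr} (hperm : ∃ e : Equiv.Perm I, ∀ g : I, ((e g : I) : Gr)⁻¹ * σ * g ∈ U') (f : Gr → M)
    (hf : ∀ g h : Gr, h⁻¹ * g ∈ U' → f g = f h) :
    ∏ g ∈ I, f (σ * g) = ∏ g ∈ I, f g := by
  obtain ⟨e, he⟩ := hperm
  rw [← Finset.prod_coe_sort I (fun g => f (σ * g)), ← Finset.prod_coe_sort I f,
    ← Equiv.prod_comp e (fun g : I => f g)]
  refine Finset.prod_congr rfl fun g _ => ?_
  exact hf _ _ (by simpa [mul_assoc] using he g)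

omit [IsGalois k kb] [IsAlgClosed kb] [CharZero kb] [Algebra.IsAlgebraic K Ω] [IsAlgClosed Ω] in
theorem NoRoot_inv {s : Gal(kb/k) →* Gal(Ω/K)} {A : ValuationSubring Ω} (hA : Good s v D A)
    {σ : Gal(kb/k)} (hσ : σ ∈ D) {b : Ω} (hb : A.valuation b < 1) :
    A.valuation (s σ b) < 1 := by
  have h1 : s σ b ∈ A := hA.1 σ hσ b ((A.valuation_le_one_iff _).1 hb.le)
  have h2 := (A.valuation_le_one_iff _).2 h1
  refine lt_of_le_of_ne h2 fun h3 => ?_
  have h4 : A.valuation (s σ b)⁻¹ ≤ 1 := by rw [map_inv₀, h3, inv_one]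
  have h5 : s σ⁻¹ (s σ b)⁻¹ ∈ A :=
    hA.1 _ (inv_mem hσ) _ ((A.valuation_le_one_iff _).1 h4)
  have h6 : s σ⁻¹ (s σ b)⁻¹ = b⁻¹ := by
    rw [map_inv₀, map_inv, ← AlgEquiv.mul_apply, inv_mul_cancel, AlgEquiv.one_apply]
  rw [h6] at h5
  have h7 := (A.valuation_le_one_iff _).2 h5
  rw [map_inv₀] at h7
  have hb0 : b ≠ 0 := by
    rintro rfl
    rw [map_zero, map_zero] at h3
    exact zero_ne_one h3
  have hb1 : A.valuation b ≠ 0 := (Valuation.ne_zero_iff _).2 hb0
  have h8 : 1 ≤ A.valuation b := (inv_le_one₀ (zero_lt_iff.2 hb1)).1 h7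
  exact absurd hb (not_lt.2 h8)

/-- NOROOT -/
theorem noroot (hd : LocData v D p) (s : Gal(kb/k) →* Gal(Ω/K)) (hs : Continuous s)
    (hsec : ∀ σ a, s σ (algebraMap kb Ω a) = algebraMap kb Ω (σ a))
    {A : ValuationSubring Ω} (hA : Good s v D A) {U : Subgroup Gal(kb/k)} (hU : FinIn D U)
    {π : kb} (hπ : π ∈ fixk U) (hπ0 : 0 < v π) (hπ1 : v π < 1)
    (hmax : ∀ a ∈ fixk U, v a < 1 → v a ≤ v π) {r : ℕ} (hr : r.Prime)
    {z : kb} (hz : z ∈ fixk U) (hz1 : v z = 1) {u : Ω} (hu : u ∈ fixO s U)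
    (hu1 : A.valuation (u - 1) < 1) {y : Ω} (hy : y ∈ fixO s U) :
    algebraMap kb Ω π ≠ algebraMap kb Ω z * u * y ^ r := by
  intro hcon
  obtain ⟨U', I, hU', hU'U, hIU, hrI, hperm, hval, θ, hθ, hθ1, hθs⟩ := unr hd hU hr
  have hIso : ∀ g ∈ U, ∀ a, v (g a) = v a := fun g hg a => hd.isom g (hU.1 hg) a
  set c : Gal(kb/k) → Ω := fun g => algebraMap kb Ω (g θ) with hc
  have hc1 : ∀ g ∈ I, A.valuation (c g) ≤ 1 := by
    intro g hg
    rw [A.valuation_le_one_iff, hc, hA.2, hIso g (hIU g hg)]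
    exact hθ1
  have hcs : A.valuation (∑ g ∈ I, c g) = 1 := by
    have e : ∑ g ∈ I, c g = algebraMap kb Ω (∑ g ∈ I, g θ) := by rw [map_sum]
    rw [e]
    have hne : (∑ g ∈ I, g θ) ≠ 0 := by
      intro h
      rw [h, map_zero] at hθs
      exact zero_ne_one hθs
    have h1 : algebraMap kb Ω (∑ g ∈ I, g θ) ∈ A := (hA.2 _).2 hθs.le
    have h2 : (algebraMap kb Ω (∑ g ∈ I, g θ))⁻¹ ∈ A := by
      rw [← map_inv₀]
      refine (hA.2 _).2 ?_
      rw [map_inv₀, hθs, inv_one]
    have h3 := (A.valuation_le_one_iff _).2 h1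
    have h4 := (A.valuation_le_one_iff _).2 h2
    rw [map_inv₀] at h4
    have h5 : A.valuation (algebraMap kb Ω (∑ g ∈ I, g θ)) ≠ 0 :=
      (Valuation.ne_zero_iff _).2 ((map_ne_zero _).2 hne)
    exact le_antisymm h3 ((inv_le_one₀ (zero_lt_iff.2 h5)).1 h4)
  obtain ⟨b, hb1, hbu⟩ := NoRoot_exists A I c hcs hu1
  have hbL : b ∈ fixO s U := by
    intro σ hσ
    refine NoRoot_unique A I c hc1 hcs (NoRoot_inv hA (hU.1 hσ) hb1) hb1 ?_
    rw [hbu, ← hu σ hσ, ← hbu, map_prod]
    have h1 : ∀ g : Gal(kb/k), s σ (1 + b * c g) = 1 + s σ b * c (σ * g) := by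
      intro g
      rw [map_add, map_one, map_mul, hc]
      simp only [hsec, AlgEquiv.mul_apply]
    simp only [h1]
    refine (NoRoot_reindex I (hperm σ hσ) (fun g => 1 + s σ b * c g) ?_).symm
    intro g h hgh
    have h2 : g θ = h θ := by
      have := hθ _ hgh
      rw [AlgEquiv.mul_apply] at this
      calc g θ = h (h⁻¹ (g θ)) := by
            rw [← AlgEquiv.mul_apply, mul_inv_cancel, AlgEquiv.one_apply]
        _ = h θ := by rw [this]
    simp only [hc, h2]
  have hθL : algebraMap kb Ω θ ∈ fixO s U' := by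
    intro σ hσ
    rw [hsec, hθ σ hσ]
  have hbL' : b ∈ fixO s U' := fun σ hσ => hbL σ (hU'U hσ)
  have hθA : A.valuation (algebraMap kb Ω θ) ≤ 1 :=
    (A.valuation_le_one_iff _).2 ((hA.2 _).2 hθ1)
  have hbθ : A.valuation (b * algebraMap kb Ω θ) < 1 := by
    rw [map_mul]
    calc A.valuation b * A.valuation (algebraMap kb Ω θ) ≤ A.valuation b * 1 := by gcongr
      _ < 1 := by simpa using hb1
  have hne : 1 + b * algebraMap kb Ω θ ≠ 0 := by
    intro h
    have := Valuation.map_one_add_of_lt _ hbθ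
    rw [h, map_zero] at this
    exact zero_ne_one this
  obtain ⟨cc, hcc, hcc0, m, hm, hm0, hcm⟩ := kum s hs hsec hU'.2.1
    (add_mem (one_mem _) (mul_mem hbL' hθL) : 1 + b * algebraMap kb Ω θ ∈ fixO s U') hne
    hr.one_le
  set Nc : kb := ∏ g ∈ I, g cc with hNc
  set Nm : Ω := ∏ g ∈ I, s g m with hNm
  have huN : u = algebraMap kb Ω Nc * Nm ^ r := by
    rw [← hbu, hNc, hNm, map_prod, ← Finset.prod_pow, ← Finset.prod_mul_distrib]
    refine Finset.prod_congr rfl fun g hg => ?_
    have h1 : s g (1 + b * algebraMap kb Ω θ) = 1 + b * c g := by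
      rw [map_add, map_one, map_mul, hbL g (hIU g hg), hsec]
    rw [← h1, hcm, map_mul, map_pow, hsec]
  have hNcU : Nc ∈ fixk U := by
    intro σ hσ
    rw [hNc, map_prod]
    have : ∀ g : Gal(kb/k), σ (g cc) = (σ * g) cc := fun g => rfl
    simp only [this]
    refine NoRoot_reindex I (hperm σ hσ) (fun g => g cc) ?_
    intro g h hgh
    have := hcc _ hgh
    rw [AlgEquiv.mul_apply] at this
    calc g cc = h (h⁻¹ (g cc)) := by
          rw [← AlgEquiv.mul_apply, mul_inv_cancel, AlgEquiv.one_apply]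
      _ = h cc := by rw [this]
  have hNmU : Nm ∈ fixO s U := by
    intro σ hσ
    rw [hNm, map_prod]
    have : ∀ g : Gal(kb/k), s σ (s g m) = s (σ * g) m := fun g => by
      rw [map_mul, AlgEquiv.mul_apply]
    simp only [this]
    refine NoRoot_reindex I (hperm σ hσ) (fun g => s g m) ?_
    intro g h hgh
    have := hm _ hgh
    rw [map_mul, AlgEquiv.mul_apply] at this
    calc s g m = s h (s h⁻¹ (s g m)) := by
          rw [← AlgEquiv.mul_apply, ← map_mul, mul_inv_cancel, map_one, AlgEquiv.one_apply]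
      _ = s h m := by rw [this]
  have hNc0 : Nc ≠ 0 := by
    rw [hNc]
    exact Finset.prod_ne_zero_iff.2 fun g _ => (map_ne_zero_iff _ g.injective).2 hcc0
  have hz0 : z ≠ 0 := by
    rintro rfl
    rw [map_zero] at hz1
    exact zero_ne_one hz1
  have hzN : algebraMap kb Ω (z * Nc) ≠ 0 := (map_ne_zero _).2 (mul_ne_zero hz0 hNc0)
  have heq : algebraMap kb Ω (π / (z * Nc)) = (Nm * y) ^ r := by
    rw [map_div₀, div_eq_iff hzN, hcon, huN, map_mul, mul_pow]
    ring
  obtain ⟨t, ht, htr, -⟩ := kum_inj s hsec (mul_mem hNmU hy) hr.one_le heq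
  obtain ⟨b', hb', hvb'⟩ := hval cc hcc
  obtain ⟨n', hn'⟩ := hrI
  have hvN : v Nc = (v b' ^ n') ^ r := by
    rw [hNc, map_prod, Finset.prod_congr rfl (fun g hg => hIso g (hIU g hg) cc),
      Finset.prod_const, ← hvb', hn', ← pow_mul, mul_comm]
  have hπe : π = t ^ r * (z * Nc) := by
    rw [htr, div_mul_cancel₀ _ (mul_ne_zero hz0 hNc0)]
  have hvπ : v π = v (t * b' ^ n') ^ r := by
    rw [hπe, map_mul, map_mul, map_pow, hz1, hvN, map_mul, map_pow]
    ring
  set q := v (t * b' ^ n') with hq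
  have hq0 : 0 ≤ q := v.nonneg _
  have hq1 : q < 1 := by
    by_contra h
    push Not at h
    have : 1 ≤ q ^ r := one_le_pow₀ h
    linarith
  have hqπ : q ≤ v π := hmax _ (mul_mem ht (pow_mem hb' _)) hq1
  have h2 : q ^ r ≤ q ^ 2 := pow_le_pow_of_le_one hq0 hq1.le hr.two_le
  have hqpos : 0 < q := by
    rcases hq0.eq_or_lt with h | h
    · rw [← h, zero_pow hr.ne_zero] at hvπ
      linarith
    · exact h
  nlinarith

end Pool.Agent.Lib.MP_2f3286_ag.Koe
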