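import Pool.Agent.Lib.MP_2f3286_ag.Koe.Perf
import Pool.Agent.Lib.MP_2f3286_ag.Koe.NoRoot

/-!
# A uniformizer is not, up to units, a `p`-th power
-/

namespace Pool.Agent.Lib.MP_2f3286_ag.Koe

variable {k kb : Type*} [Field k] [Field kb] [Algebra k kb] [IsGalois k kb] [IsAlgClosed kb]
  [CharZero kb] {K Ω : Type*} [Field K] [Field Ω] [Algebra K Ω] [Algebra kb Ω]
  [Algebra.IsAlgebraic K Ω] [IsAlgClosed Ω]
variable {v : AbsoluteValue kb ℝ} {D : Subgroup Gal(kb/k)} {p : ℕ}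

/-- NOP -/
theorem nop (hd : LocData v D p) (s : Gal(kb/k) →* Gal(Ω/K)) (hs : Continuous s)
    (hsec : ∀ σ a, s σ (algebraMap kb Ω a) = algebraMap kb Ω (σ a))
    {A : ValuationSubring Ω} (hA : Good s v D A) {U : Subgroup Gal(kb/k)} (hU : FinIn D U)
    {π : kb} (hπ : π ∈ fixk U) (hπ0 : 0 < v π) (hπ1 : v π < 1)
    (hmax : ∀ a ∈ fixk U, v a < 1 → v a ≤ v π) {y : Ω} (hy : y ∈ fixO s U) :
    A.valuation y ^ p ≠ A.valuation (algebraMap kb Ω π) := by
  intro h
  have hπ00 : π ≠ 0 := by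
    rintro rfl
    rw [map_zero] at hπ0
    exact lt_irrefl _ hπ0
  have hπΩ : algebraMap kb Ω π ≠ 0 := (_root_.map_ne_zero _).mpr hπ00
  have hπL : algebraMap kb Ω π ∈ fixO s U := fun σ hσ => by rw [hsec, hπ σ hσ]
  have hp := hd.prime
  have hy0 : y ≠ 0 := by
    rintro rfl
    rw [map_zero, zero_pow hp.ne_zero] at h
    exact hπΩ ((map_eq_zero _).mp h.symm)
  have he : A.valuation (algebraMap kb Ω π / y ^ p) = 1 := by
    rw [map_div₀, map_pow, h, div_self]
    exact (_root_.map_ne_zero _).mpr hπΩ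
  obtain ⟨z, hz, hz1⟩ := perf hd s hs hsec hA hU
    (div_mem hπL (pow_mem hy p)) he
  have hz2 : A.valuation (z ^ p) = 1 := by
    have h1 : z ^ p = algebraMap kb Ω π / y ^ p - (algebraMap kb Ω π / y ^ p - z ^ p) := by ring
    rw [h1, Valuation.map_sub_eq_of_lt_left, he]
    rwa [he]
  have hz0 : z ≠ 0 := by
    rintro rfl
    rw [zero_pow hp.ne_zero, map_zero] at hz2
    exact zero_ne_one hz2
  refine noroot hd s hs hsec hA hU hπ hπ0 hπ1 hmax hp (z := 1) (one_mem _) (map_one _)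
    (u := algebraMap kb Ω π / y ^ p / z ^ p) (div_mem (div_mem hπL (pow_mem hy p)) (pow_mem hz p))
    ?_ (y := z * y) (mul_mem hz hy) ?_
  · have h2 : algebraMap kb Ω π / y ^ p / z ^ p - 1 =
        (algebraMap kb Ω π / y ^ p - z ^ p) / z ^ p := by
      rw [sub_div, div_self (pow_ne_zero p hz0)]
    rw [h2, map_div₀, hz2, div_one]
    exact hz1
  · rw [map_one, one_mul, mul_pow]
    field_simp

end Pool.Agent.Lib.MP_2f3286_ag.Koe
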