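import Pool.Agent.Lib.MP_2f3286_ag.Koe.GoodLem
import Pool.Agent.Lib.MP_2f3286_ag.Koe.Kum
import Pool.Agent.Lib.MP_2f3286_ag.Koe.Cls
import Pool.Agent.Lib.MP_2f3286_ag.Koe.Nop

/-!
# The residue field of `L_U` is the residue field of `F_U`
-/

namespace Pool.Agent.Lib.MP_2f3286_ag.Koe

open Polynomial

variable {k kb : Type*} [Field k] [Field kb] [Algebra k kb] [IsGalois k kb] [IsAlgClosed kb]
  [CharZero kb] {K Ω : Type*} [Field K] [Field Ω] [Algebra K Ω] [Algebra kb Ω]
  [Algebra.IsAlgebraic K Ω] [IsAlgClosed Ω]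
variable {v : AbsoluteValue kb ℝ} {D : Subgroup Gal(kb/k)} {p : ℕ}

/-- Two elements of `L_U ∩ A` with different residues give different classes modulo `p`-th powers. -/
theorem reso_classes (hd : LocData v D p) (s : Gal(kb/k) →* Gal(Ω/K)) (hs : Continuous s)
    (hsec : ∀ σ a, s σ (algebraMap kb Ω a) = algebraMap kb Ω (σ a))
    {A : ValuationSubring Ω} (hA : Good s v D A) {U : Subgroup Gal(kb/k)} (hU : FinIn D U)
    {π : kb} (hπ : π ∈ fixk U) (hπ0 : 0 < v π) (hπ1 : v π < 1)
    (hmax : ∀ a ∈ fixk U, v a < 1 → v a ≤ v π)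
    {y y' : Ω} (hyA : A.valuation y ≤ 1)
    (hyA' : A.valuation y' ≤ 1) (hne : A.valuation (y - y') = 1) {g : Ω} (hg : g ∈ fixO s U)
    (h : 1 + algebraMap kb Ω π * y = (1 + algebraMap kb Ω π * y') * g ^ p) : False := by
  set w := A.valuation with hw
  set P : Ω := algebraMap kb Ω π with hP
  have hP1 : w P < 1 := (hA.lt_iff π).2 hπ1
  have hP0 : P ≠ 0 := by
    rw [hP, Ne, map_eq_zero]; rintro rfl; simp at hπ0
  have hwP0 : 0 < w P := by rw [zero_lt_iff, Ne, map_eq_zero]; exact hP0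
  have hone : ∀ z : Ω, w z ≤ 1 → w (1 + P * z) = 1 := by
    intro z hz
    have h1 : w (P * z) < 1 := by
      rw [map_mul]
      calc w P * w z ≤ w P * 1 := mul_le_mul_right hz _
        _ < 1 := by rwa [mul_one]
    rw [Valuation.map_add_eq_of_lt_left (h := by rwa [map_one])]
    exact map_one w
  have h1 := hone y hyA
  have h2 := hone y' hyA'
  have hgp : w g ^ p = 1 := by
    have := congrArg w h
    rw [map_mul, h1, h2, one_mul, map_pow] at this
    exact this.symm
  have hp0 : p ≠ 0 := hd.prime.ne_zero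
  have hg1 : w g = 1 := by
    exact (pow_eq_one_iff.1 hgp).resolve_right hp0
  -- `w (g ^ p - 1) = w P`
  have hgp1 : w (g ^ p - 1) = w P := by
    have h3 : (1 + P * y') * (g ^ p - 1) = P * (y - y') := by
      rw [mul_sub, ← h]; ring
    have h4 := congrArg w h3
    rw [map_mul, map_mul, h2, hne, one_mul, mul_one] at h4
    exact h4
  -- the binomial formula in `A`
  have hgA : g ∈ A := by rw [← A.valuation_le_one_iff, ← hw, hg1]
  set gA : A := ⟨g, hgA⟩ with hgAd
  obtain ⟨r, hr⟩ := exists_add_pow_prime_eq hd.prime (1 : A) (gA - 1)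
  have hr' : g ^ p = 1 + (g - 1) ^ p + p * (g - 1) * (r : Ω) := by
    have h5 := congrArg (fun z : A => (z : Ω)) hr
    simp only [hgAd] at h5
    push_cast at h5
    rw [add_sub_cancel] at h5
    rw [h5]; ring
  have hwp : w (p : Ω) ≤ w P := by
    have h6 : v (p : kb) ≤ v π := by
      refine hmax _ ?_ hd.small
      intro σ _
      exact map_natCast σ p
    have h7 : v ((p : kb) / π) ≤ 1 := by
      rw [map_div₀]; exact div_le_one_of_le₀ h6 hπ0.le
    have h8 := (hA.le_iff _).2 h7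
    rw [map_div₀, map_div₀, map_natCast] at h8
    rwa [div_le_one₀ hwP0] at h8
  have hwp0 : 0 < w (p : Ω) := by
    rw [zero_lt_iff, Ne, map_eq_zero]
    have : ((p : kb)) ≠ 0 := Nat.cast_ne_zero.2 hp0
    intro h9
    apply this
    have h10 : algebraMap kb Ω (p : kb) = 0 := by rw [map_natCast, h9]
    exact (map_eq_zero _).1 h10
  have hr1 : w (r : Ω) ≤ 1 := A.valuation_le_one r
  have hg2 : w (g - 1) ≤ 1 := A.valuation_le_one (gA - 1)
  have hterm : w (p * (g - 1) * (r : Ω)) ≤ w (p : Ω) * w (g - 1) := by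
    rw [map_mul, map_mul]
    calc w (p : Ω) * w (g - 1) * w (r : Ω) ≤ w (p : Ω) * w (g - 1) * 1 :=
          mul_le_mul_right hr1 _
      _ = _ := mul_one _
  -- `w (g - 1) < 1`
  have hg3 : w (g - 1) < 1 := by
    by_contra h9
    have h10 : w (g - 1) = 1 := le_antisymm hg2 (not_lt.1 h9)
    have h11 : (g - 1) ^ p = (g ^ p - 1) - p * (g - 1) * (r : Ω) := by rw [hr']; ring
    have h12 := congrArg w h11
    rw [map_pow, h10, one_pow] at h12
    have h13 : w ((g ^ p - 1) - p * (g - 1) * (r : Ω)) ≤ max (w (g ^ p - 1)) (w (p * (g - 1) * (r : Ω))) :=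
      Valuation.map_sub _ _ _
    rw [← h12, hgp1] at h13
    have h14 : w (p * (g - 1) * (r : Ω)) ≤ w P := by
      refine hterm.trans ?_
      rw [h10, mul_one]; exact hwp
    exact absurd (h13.trans (max_le le_rfl h14)) (not_le.2 hP1)
  have hfin : w ((g - 1) ^ p) = w P := by
    have h11 : (g - 1) ^ p = (g ^ p - 1) - p * (g - 1) * (r : Ω) := by rw [hr']; ring
    have h14 : w (p * (g - 1) * (r : Ω)) < w (g ^ p - 1) := by
      rw [hgp1]
      refine hterm.trans_lt ?_
      calc w (p : Ω) * w (g - 1) < w (p : Ω) * 1 := by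
            exact mul_lt_mul_of_pos_left hg3 hwp0
        _ ≤ w P := by rw [mul_one]; exact hwp
    rw [h11, Valuation.map_sub_eq_of_lt_left _ h14, hgp1]
  rw [map_pow] at hfin
  exact nop hd s hs hsec hA hU hπ hπ0 hπ1 hmax (sub_mem hg (one_mem _)) hfin

omit [IsGalois k kb] [IsAlgClosed kb] [CharZero kb] [Algebra.IsAlgebraic K Ω] [IsAlgClosed Ω] in
/-- The `p`-th root trick in the residue field. -/
theorem val_sub_one_of_pow (hd : LocData v D p) {s : Gal(kb/k) →* Gal(Ω/K)}
    {A : ValuationSubring Ω} (hA : Good s v D A) {g : Ω} (hg : A.valuation g ≤ 1)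
    (h : A.valuation (g ^ p - 1) < 1) : A.valuation (g - 1) < 1 := by
  have hgA : g ∈ A := by rwa [← A.valuation_le_one_iff]
  set gA : A := ⟨g, hgA⟩ with hgAd
  obtain ⟨r, hr⟩ := exists_add_pow_prime_eq hd.prime (1 : A) (gA - 1)
  have hr' : g ^ p = 1 + (g - 1) ^ p + p * (g - 1) * (r : Ω) := by
    have h5 := congrArg (fun z : A => (z : Ω)) hr
    simp only [hgAd] at h5
    push_cast at h5
    rw [add_sub_cancel] at h5
    rw [h5]; ring
  have hwp : A.valuation (p : Ω) < 1 := by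
    have := (hA.lt_iff (p : kb)).2 hd.small
    rwa [map_natCast] at this
  have h11 : (g - 1) ^ p = (g ^ p - 1) - p * (g - 1) * (r : Ω) := by rw [hr']; ring
  have hr1 : A.valuation (r : Ω) ≤ 1 := A.valuation_le_one r
  have hg2 : A.valuation (g - 1) ≤ 1 := A.valuation_le_one (gA - 1)
  have h12 : A.valuation (p * (g - 1) * (r : Ω)) < 1 := by
    rw [map_mul, map_mul]
    refine lt_of_le_of_lt (mul_le_mul' (mul_le_mul' le_rfl hg2) hr1) ?_
    rwa [mul_one, mul_one]
  have h13 : A.valuation ((g - 1) ^ p) < 1 := by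
    rw [h11]
    exact (Valuation.map_sub _ _ _).trans_lt (max_lt h h12)
  rw [map_pow] at h13
  by_contra h9
  push Not at h9
  exact absurd (one_le_pow₀ h9) (not_le.2 h13)

/-- RESO -/
theorem reso (hd : LocData v D p) (s : Gal(kb/k) →* Gal(Ω/K)) (hs : Continuous s)
    (hsec : ∀ σ a, s σ (algebraMap kb Ω a) = algebraMap kb Ω (σ a))
    {A : ValuationSubring Ω} (hA : Good s v D A) {U : Subgroup Gal(kb/k)} (hU : FinIn D U)
    {x : Ω} (hx : x ∈ fixO s U) (hx1 : A.valuation x = 1) :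
    ∃ a ∈ fixk U, v a = 1 ∧ A.valuation (x - algebraMap kb Ω a) < 1 := by
  obtain ⟨π, hπ, hπ0, hπ1, hmax⟩ := hd.disc U hU
  obtain ⟨R, hR, hRc⟩ := fin_classes hd hU
  have hP1 : A.valuation (algebraMap kb Ω π) < 1 := (hA.lt_iff π).2 hπ1
  have hPU : algebraMap kb Ω π ∈ fixO s U := algebraMap_mem_fixO hsec hπ
  -- the classes of `1 + π y`
  have hcls : ∀ y ∈ fixO s U, A.valuation y ≤ 1 → ∃ r : R, ∃ t ∈ fixO s U, t ≠ 0 ∧
      1 + algebraMap kb Ω π * y = algebraMap kb Ω (r : kb) * t ^ p := by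
    intro y hy hy1
    have h0 : 1 + algebraMap kb Ω π * y ≠ 0 := by
      intro h0
      have h1 : algebraMap kb Ω π * y = -1 := by linear_combination h0
      have h2 := congrArg A.valuation h1
      rw [Valuation.map_neg, map_one, map_mul] at h2
      have h3 : A.valuation (algebraMap kb Ω π) * A.valuation y < 1 :=
        lt_of_le_of_lt (mul_le_mul' le_rfl hy1) (by rwa [mul_one])
      exact absurd h2 h3.ne
    obtain ⟨a, ha, ha0, z, hz, hz0, haz⟩ := kum s hs hsec hU.2.1
      (add_mem (one_mem _) (mul_mem hPU hy)) h0 hd.prime.one_lt.le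
    obtain ⟨r, hr, b, hb, hb0, hab⟩ := hRc a ha ha0
    refine ⟨⟨r, hr⟩, algebraMap kb Ω b * z, mul_mem (algebraMap_mem_fixO hsec hb) hz,
      mul_ne_zero (by rwa [Ne, map_eq_zero]) hz0, ?_⟩
    rw [haz, hab, map_mul, map_pow, mul_pow, mul_assoc]
  have hxn : ∀ n : ℕ, x ^ n ∈ fixO s U := fun n => pow_mem hx n
  have hxn1 : ∀ n : ℕ, A.valuation (x ^ n) = 1 := fun n => by rw [map_pow, hx1, one_pow]
  choose r t ht ht0 hrt using fun n : ℕ => hcls (x ^ n) (hxn n) (hxn1 n).le
  obtain ⟨m, n, hmn, hr⟩ := Finite.exists_ne_map_eq_of_infinite r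
  -- a power of `x` is close to one
  have hex : ∃ N : ℕ, 1 ≤ N ∧ A.valuation (x ^ N - 1) < 1 := by
    have key : ∀ m n : ℕ, m < n → r m = r n → ∃ N : ℕ, 1 ≤ N ∧ A.valuation (x ^ N - 1) < 1 := by
      intro m n hmn hr
      refine ⟨n - m, by omega, ?_⟩
      by_contra h9
      have h10 : x ^ n - x ^ m = x ^ m * (x ^ (n - m) - 1) := by
        rw [mul_sub, ← pow_add, Nat.add_sub_cancel' hmn.le, mul_one]
      have h11 : A.valuation (x ^ n - x ^ m) = 1 := by
        refine le_antisymm ?_ ?_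
        · exact (Valuation.map_sub _ _ _).trans (max_le (hxn1 n).le (hxn1 m).le)
        · rw [h10, map_mul, hxn1, one_mul]
          exact not_lt.1 h9
      refine reso_classes hd s hs hsec hA hU hπ hπ0 hπ1 hmax (hxn1 n).le
        (hxn1 m).le h11 (div_mem (ht n) (ht m)) ?_
      rw [hrt n, hrt m, hr, div_pow, mul_assoc, mul_div_cancel₀]
      exact pow_ne_zero _ (ht0 m)
    rcases lt_or_gt_of_ne hmn with h | h
    · exact key m n h hr
    · exact key n m h hr.symm
  classical
  set N := Nat.find hex with hN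
  obtain ⟨hN1, hN2⟩ := Nat.find_spec hex
  rw [← hN] at hN1 hN2
  have hpN : ¬ p ∣ N := by
    rintro ⟨m, hm⟩
    have hm1 : 1 ≤ m := by
      rcases Nat.eq_zero_or_pos m with h | h
      · rw [h, mul_zero] at hm; omega
      · exact h
    have hm2 : m < N := by
      rw [hm]; exact (Nat.lt_mul_iff_one_lt_left hm1).2 hd.prime.one_lt
    refine Nat.find_min hex (hN ▸ hm2) ⟨hm1, ?_⟩
    refine val_sub_one_of_pow hd hA (hxn1 m).le ?_
    rw [← pow_mul, mul_comm m p, ← hm]
    exact hN2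
  -- factor `x ^ N - 1`
  have hq : (X ^ N - 1 : kb[X]).Monic := by
    have := monic_X_pow_sub_C (1 : kb) (by omega : N ≠ 0)
    rwa [C_1] at this
  have hsp : (X ^ N - 1 : kb[X]) = ((X ^ N - 1 : kb[X]).roots.map fun z => X - C z).prod := by
    exact (IsAlgClosed.splits (X ^ N - 1 : kb[X])).eq_prod_roots_of_monic hq
  have hev : x ^ N - 1 = ((X ^ N - 1 : kb[X]).roots.map fun z => x - algebraMap kb Ω z).prod := by
    have h := congrArg (fun q : kb[X] => aeval x q) hsp
    simp only [map_sub, map_pow, aeval_X, map_one, map_multiset_prod, Multiset.map_map] at h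
    rw [h]
    congr 1
    apply Multiset.map_congr rfl
    intro z _
    simp
  have hroot : ∃ z ∈ (X ^ N - 1 : kb[X]).roots, A.valuation (x - algebraMap kb Ω z) < 1 := by
    by_contra hno
    push Not at hno
    rw [hev, map_multiset_prod, Multiset.map_map] at hN2
    refine absurd hN2 (not_lt.2 ?_)
    refine Multiset.one_le_prod_of_one_le ?_
    intro c hc
    obtain ⟨z, hz, rfl⟩ := Multiset.mem_map.1 hc
    exact hno z hz
  obtain ⟨z, hz, hxz⟩ := hroot
  have hzN : z ^ N = 1 := by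
    have h := (mem_roots hq.ne_zero).1 hz
    rw [IsRoot.def, eval_sub, eval_pow, eval_X, eval_one] at h
    exact sub_eq_zero.1 h
  have hvz : v z = 1 := by
    have h : v z ^ N = 1 := by rw [← map_pow, hzN, map_one]
    exact (pow_eq_one_iff_of_nonneg (v.nonneg _) (by omega)).1 h
  refine ⟨z, ?_, hvz, hxz⟩
  intro σ hσ
  have hσD : σ ∈ D := hU.1 hσ
  have h1 : A.valuation (x - algebraMap kb Ω (σ z)) < 1 := by
    have h := (hA.val_lt_one hσD _).2 hxz
    rwa [map_sub, hx σ hσ, hsec] at h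
  have h2 : A.valuation (algebraMap kb Ω (σ z - z)) < 1 := by
    have h3 : algebraMap kb Ω (σ z - z) = (x - algebraMap kb Ω z) - (x - algebraMap kb Ω (σ z)) := by
      rw [map_sub]; ring
    rw [h3]
    exact (Valuation.map_sub _ _ _).trans_lt (max_lt hxz h1)
  have h3 : v (σ z - z) < 1 := (hA.lt_iff _).1 h2
  have hz0 : z ≠ 0 := by
    rintro rfl; rw [map_zero] at hvz; exact zero_ne_one hvz
  have h4 : σ z / z = 1 := by
    refine unity_eq hd (n := N) hpN ?_ ?_
    · rw [div_pow, ← map_pow, hzN, map_one, div_one]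
    · have : σ z / z - 1 = (σ z - z) / z := by field_simp
      rw [this, map_div₀, hvz, div_one]; exact h3
  exact (div_eq_one_iff_eq hz0).1 h4

end Pool.Agent.Lib.MP_2f3286_ag.Koe
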