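import Pool.Agent.Lib.MP_2f3286_ag.Koe.Kum
import Pool.Agent.Lib.MP_2f3286_ag.Koe.Cls
import Pool.Agent.Lib.MP_2f3286_ag.Koe.NoRoot
import Pool.Agent.Lib.MP_2f3286_ag.Koe.Nop
import Pool.Agent.Lib.MP_2f3286_ag.Koe.Reso

/-!
# Galois sections over local fields: the largest value below one
-/

namespace Pool.Agent.Lib.MP_2f3286_ag.Koe

variable {k kb : Type*} [Field k] [Field kb] [Algebra k kb] [IsGalois k kb] [IsAlgClosed kb]
  [CharZero kb] {K Ω : Type*} [Field K] [Field Ω] [Algebra K Ω] [Algebra kb Ω]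
  [Algebra.IsAlgebraic K Ω] [IsAlgClosed Ω]

variable {v : AbsoluteValue kb ℝ} {D : Subgroup Gal(kb/k)} {p : ℕ}

omit [IsGalois k kb] [IsAlgClosed kb] [CharZero kb] [Algebra.IsAlgebraic K Ω] [IsAlgClosed Ω] in
theorem Mini_alg_mem (s : Gal(kb/k) →* Gal(Ω/K))
    (hsec : ∀ σ a, s σ (algebraMap kb Ω a) = algebraMap kb Ω (σ a))
    {U : Subgroup Gal(kb/k)} {a : kb} (ha : a ∈ fixk U) : algebraMap kb Ω a ∈ fixO s U := by
  intro σ hσ
  rw [hsec, ha σ hσ]

omit [IsGalois k kb] [IsAlgClosed kb] [CharZero kb] [Algebra.IsAlgebraic K Ω] [IsAlgClosed Ω] in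
theorem Mini_le {s : Gal(kb/k) →* Gal(Ω/K)} {A : ValuationSubring Ω} (hA : Good s v D A)
    {a b : kb} (hb : b ≠ 0) (h : v a ≤ v b) :
    A.valuation (algebraMap kb Ω a) ≤ A.valuation (algebraMap kb Ω b) := by
  have hb' : 0 < v b := v.pos hb
  have h1 : algebraMap kb Ω (a / b) ∈ A := by
    rw [hA.2, map_div₀]
    exact (div_le_one hb').2 h
  have h2 := (A.valuation_le_one_iff _).2 h1
  rw [map_div₀, map_div₀] at h2
  have h3 : A.valuation (algebraMap kb Ω b) ≠ 0 := by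
    rw [Valuation.ne_zero_iff]
    exact (map_ne_zero _).2 hb
  rwa [div_le_one₀ (zero_lt_iff.2 h3)] at h2

omit [IsGalois k kb] [IsAlgClosed kb] [CharZero kb] [Algebra.IsAlgebraic K Ω] [IsAlgClosed Ω] in
theorem Mini_eq_one {s : Gal(kb/k) →* Gal(Ω/K)} {A : ValuationSubring Ω} (hA : Good s v D A)
    {a : kb} (h : v a = 1) : A.valuation (algebraMap kb Ω a) = 1 := by
  have ha : a ≠ 0 := by
    rintro rfl
    simp at h
  have h1 := Mini_le hA one_ne_zero (le_of_eq (h.trans v.map_one.symm))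
  have h2 := Mini_le hA ha (le_of_eq (v.map_one.trans h.symm))
  rw [map_one, map_one] at h1 h2
  exact le_antisymm h1 h2

/-- `w(γ^p - 1)` is the `p`-th power of `w(γ - 1)` when it is larger than `w(p)`. -/
theorem Mini_pow {Ω : Type*} [Field Ω] (A : ValuationSubring Ω) {p : ℕ} (hp : p.Prime) {γ : Ω}
    (h1 : A.valuation γ = 1) (h2 : A.valuation (p : Ω) < A.valuation (γ ^ p - 1)) :
    A.valuation (γ - 1) ^ p = A.valuation (γ ^ p - 1) := by
  set δ := γ - 1 with hδ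
  have hδ1 : A.valuation δ ≤ 1 := by
    refine (A.valuation.map_sub _ _).trans ?_
    rw [h1, map_one, max_self]
  have hδA : δ ∈ A := (A.valuation_le_one_iff _).1 hδ1
  have e : γ = δ + 1 := by rw [hδ]; ring
  have h3 := add_pow_prime_eq (R := Ω) hp δ 1
  set S := ∑ k ∈ Finset.Ioo 0 p, δ ^ (k - 1) * 1 ^ (p - k - 1) * (p.choose k / p : ℕ) with hS
  have hSA : δ * 1 * S ∈ A := by
    refine mul_mem (mul_mem hδA A.one_mem) (sum_mem fun i _ => ?_)
    refine mul_mem (mul_mem (pow_mem hδA _) (pow_mem A.one_mem _)) ?_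
    exact natCast_mem A _
  have hpS : A.valuation (p * (δ * 1 * S) : Ω) ≤ A.valuation (p : Ω) := by
    rw [map_mul]
    exact mul_le_of_le_one_right' ((A.valuation_le_one_iff _).2 hSA)
  have h4 : δ ^ p = (γ ^ p - 1) - p * (δ * 1 * S) := by
    rw [e, h3, one_pow]
    ring
  rw [← map_pow, h4]
  exact Valuation.map_sub_eq_of_lt_left _ (lt_of_le_of_lt hpS h2)

omit [CharZero kb] [Algebra.IsAlgebraic K Ω] [IsAlgClosed Ω] [IsGalois k kb] [IsAlgClosed kb] in
theorem Mini_step (hd : LocData v D p) {s : Gal(kb/k) →* Gal(Ω/K)}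
    {A : ValuationSubring Ω} {U : Subgroup Gal(kb/k)}
    {c : A.ValueGroup} (hpc : A.valuation (algebraMap kb Ω (p : kb)) ≤ c)
    {t t' R y y' : Ω} (ht : c < A.valuation t) (ht1 : A.valuation t < 1)
    (htt' : A.valuation t' < A.valuation t)
    (hR : R ≠ 0) (hy : y ∈ fixO s U) (hy' : y' ∈ fixO s U)
    (h1 : 1 + t = R * y ^ p) (h2 : 1 + t' = R * y' ^ p) :
    ∃ g ∈ fixO s U, A.valuation g ^ p = A.valuation t := by
  have e1 : A.valuation (1 + t) = 1 := Valuation.map_one_add_of_lt _ ht1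
  have e2 : A.valuation (1 + t') = 1 := Valuation.map_one_add_of_lt _ (htt'.trans ht1)
  have n2 : 1 + t' ≠ 0 := by
    intro h
    rw [h, map_zero] at e2
    exact zero_ne_one e2
  have hp0 : p ≠ 0 := hd.prime.ne_zero
  have hγ : (y / y') ^ p = (1 + t) / (1 + t') := by
    rw [h1, h2, div_pow, mul_div_mul_left _ _ hR]
  have hγ1 : A.valuation (y / y') = 1 := by
    have : A.valuation (y / y') ^ p = 1 := by
      rw [← map_pow, hγ, map_div₀, e1, e2, div_one]
    exact (pow_eq_one_iff_of_nonneg zero_le hp0).1 this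
  have hdiff : A.valuation ((y / y') ^ p - 1) = A.valuation t := by
    rw [hγ, div_sub_one n2, map_div₀, e2, div_one]
    have : 1 + t - (1 + t') = t - t' := by ring
    rw [this]
    exact Valuation.map_sub_eq_of_lt_left _ htt'
  refine ⟨y / y' - 1, sub_mem (div_mem hy hy') (one_mem _), ?_⟩
  rw [Mini_pow A hd.prime hγ1 ?_, hdiff]
  rw [hdiff]
  rw [map_natCast] at hpc
  exact lt_of_le_of_lt hpc ht

/-- MINI -/
theorem mini (hd : LocData v D p) (s : Gal(kb/k) →* Gal(Ω/K)) (hs : Continuous s)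
    (hsec : ∀ σ a, s σ (algebraMap kb Ω a) = algebraMap kb Ω (σ a))
    {A : ValuationSubring Ω} (hA : Good s v D A) {U : Subgroup Gal(kb/k)} (hU : FinIn D U)
    {π : kb} (hπ : π ∈ fixk U) (hπ0 : 0 < v π) (hπ1 : v π < 1)
    (hmax : ∀ a ∈ fixk U, v a < 1 → v a ≤ v π)
    {x : Ω} (hx : x ∈ fixO s U) (hx1 : A.valuation x < 1) :
    A.valuation x ≤ A.valuation (algebraMap kb Ω π) := by
  by_contra hcon
  push Not at hcon
  set w := A.valuation with hw
  set c0 := w (algebraMap kb Ω π) with hc0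
  have hp := hd.prime
  have hπne : π ≠ 0 := v.pos_iff.1 hπ0
  have hc00 : c0 ≠ 0 := by
    rw [hc0, Valuation.ne_zero_iff]
    exact (map_ne_zero _).2 hπne
  have hπL : algebraMap kb Ω π ∈ fixO s U := Mini_alg_mem s hsec hπ
  have hpU : (p : kb) ∈ fixk U := natCast_mem _ _
  have hpc : w (algebraMap kb Ω (p : kb)) ≤ c0 := Mini_le hA hπne (hmax _ hpU hd.small)
  have hc01 : c0 < 1 := hcon.trans hx1
  -- classes
  obtain ⟨R, hR, hRc⟩ := fin_classes hd hU
  have hclass : ∀ t ∈ fixO s U, w t < 1 → ∃ r ∈ R, ∃ y ∈ fixO s U, y ≠ 0 ∧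
      1 + t = algebraMap kb Ω r * y ^ p := by
    intro t ht ht1
    have e1 : w (1 + t) = 1 := Valuation.map_one_add_of_lt _ ht1
    have n1 : 1 + t ≠ 0 := by
      intro h
      rw [h, map_zero] at e1
      exact zero_ne_one e1
    obtain ⟨a, ha, ha0, y, hy, hy0, hay⟩ :=
      kum s hs hsec hU.2.1 (add_mem (one_mem _) ht : 1 + t ∈ fixO s U) n1 hp.one_le
    obtain ⟨r, hr, b, hb, hb0, hab⟩ := hRc a ha ha0
    refine ⟨r, hr, algebraMap kb Ω b * y, mul_mem (Mini_alg_mem s hsec hb) hy,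
      mul_ne_zero ((map_ne_zero _).2 hb0) hy0, ?_⟩
    rw [hay, hab, map_mul, map_pow]
    ring
  set I : Set A.ValueGroup := {c | (∃ t ∈ fixO s U, w t = c) ∧ c0 < c ∧ c < 1} with hI
  set I1 : Set A.ValueGroup := {c ∈ I | ¬ ∃ g ∈ fixO s U, w g ^ p = c} with hI1
  have hfin1 : I1.Finite := by
    have hch : ∀ c : I1, ∃ r : R, ∃ t ∈ fixO s U, ∃ y ∈ fixO s U, w t = c ∧ y ≠ 0 ∧
        1 + t = algebraMap kb Ω r * y ^ p := by
      rintro ⟨c, ⟨⟨⟨t, ht, htc⟩, _, hc1⟩, _⟩⟩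
      obtain ⟨r, hr, y, hy, hy0, h⟩ := hclass t ht (htc ▸ hc1)
      exact ⟨⟨r, hr⟩, t, ht, y, hy, htc, hy0, h⟩
    choose f tt htt yy hyy hwt hy0 heq using hch
    have key : ∀ c c' : I1, f c = f c' → ¬ (c' : A.ValueGroup) < c := by
      intro c c' hf hlt
      refine c.2.2 ?_
      have h1 := heq c
      have h2 := heq c'
      rw [← hf] at h2
      have hR0 : algebraMap kb Ω ((f c : kb)) ≠ 0 := (map_ne_zero _).2 (hR _ (f c).2).2
      obtain ⟨g, hg, hge⟩ := Mini_step (s := s) (A := A) (U := U) hd hpc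
        (by rw [hwt c]; exact c.2.1.2.1) (by rw [hwt c]; exact c.2.1.2.2)
        (by rw [hwt c, hwt c']; exact hlt) hR0 (hyy c) (hyy c') h1 h2
      exact ⟨g, hg, hge.trans (hwt c)⟩
    have hinj : Function.Injective f := by
      intro c c' hf
      rcases lt_trichotomy (c : A.ValueGroup) c' with h | h | h
      · exact absurd h (key c' c hf.symm)
      · exact Subtype.ext h
      · exact absurd h (key c c' hf)
    have : Finite I1 := Finite.of_injective f hinj
    exact Set.toFinite I1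
  have hfin : I.Finite := by
    have hfin2 : {c ∈ I | ∃ g ∈ fixO s U, w g ^ p = c}.Finite := by
      refine Set.Finite.of_injOn (f := fun c => c0 / c) (t := I1) ?_ ?_ hfin1
      · rintro c ⟨⟨⟨t, ht, rfl⟩, h1, h2⟩, g, hg, hgc⟩
        have ht0 : w t ≠ 0 := (zero_le.trans_lt h1).ne'
        refine ⟨⟨⟨algebraMap kb Ω π / t, div_mem hπL ht, by rw [map_div₀]⟩, ?_, ?_⟩, ?_⟩
        · show c0 < c0 / w t
          rw [lt_div_iff₀ (zero_lt_iff.2 ht0)]
          exact mul_lt_of_lt_one_right (zero_lt_iff.2 hc00) h2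
        · show c0 / w t < 1
          rwa [div_lt_one₀ (zero_lt_iff.2 ht0)]
        · rintro ⟨g', hg', hgc'⟩
          have hgc'' : w g' ^ p = c0 / w t := hgc'
          refine nop hd s hs hsec hA hU hπ hπ0 hπ1 hmax (mul_mem hg hg') ?_
          rw [map_mul, mul_pow]
          change w g ^ p * w g' ^ p = c0
          rw [hgc, hgc'', mul_div_cancel₀ _ ht0]
      · rintro c ⟨⟨_, h1, _⟩, _⟩ c' ⟨⟨_, h1', _⟩, _⟩ h
        have hc : c ≠ 0 := (zero_le.trans_lt h1).ne'
        have hc' : c' ≠ 0 := (zero_le.trans_lt h1').ne'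
        have h' : c0 / c = c0 / c' := h
        rw [div_eq_div_iff hc hc'] at h'
        exact (mul_left_cancel₀ hc00 h').symm
    refine (hfin1.union hfin2).subset ?_
    intro c hc
    by_cases h : ∃ g ∈ fixO s U, w g ^ p = c
    · exact Or.inr ⟨hc, h⟩
    · exact Or.inl ⟨hc, h⟩
  have hne : I.Nonempty := ⟨w x, ⟨x, hx, rfl⟩, hcon, hx1⟩
  obtain ⟨g0, ⟨⟨t0, ht0, hg0⟩, hg1, hg2⟩, hgmax⟩ :
      ∃ g0 ∈ I, ∀ c ∈ I, c ≤ g0 := by
    obtain ⟨g0, hg, h⟩ := Set.exists_max_image I id hfin hne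
    exact ⟨g0, hg, h⟩
  have hg00 : 0 < g0 := zero_le.trans_lt hg1
  have hlow : ∀ t ∈ fixO s U, w t < 1 → w t ≤ g0 := by
    intro t ht h
    by_cases h' : c0 < w t
    · exact hgmax _ ⟨⟨t, ht, rfl⟩, h', h⟩
    · exact (not_lt.1 h').trans hg1.le
  obtain ⟨m0, hm0⟩ : ∃ m : ℕ, g0 ^ m ≤ c0 := by
    by_contra hno
    push Not at hno
    have hinj : Function.Injective (fun j : ℕ => g0 ^ (j + 1)) := by
      intro i j hij
      have := (pow_right_strictAnti₀ hg00 hg2).injective hij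
      omega
    refine (Set.infinite_of_injective_forall_mem hinj (s := I) ?_) hfin
    intro j
    refine ⟨⟨t0 ^ (j + 1), pow_mem ht0 _, by rw [map_pow, hg0]⟩, hno _, ?_⟩
    exact pow_lt_one₀ zero_le hg2 (Nat.succ_ne_zero _)
  classical
  have hex : ∃ m : ℕ, g0 ^ m ≤ c0 := ⟨m0, hm0⟩
  set m := Nat.find hex with hm
  have hm1 : g0 ^ m ≤ c0 := Nat.find_spec hex
  have hmlt : ∀ j < m, c0 < g0 ^ j := fun j hj => not_le.1 (Nat.find_min hex hj)
  have hmne0 : m ≠ 0 := by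
    intro h
    rw [h, pow_zero] at hm1
    exact absurd hc01 (not_lt.2 hm1)
  have hmne1 : m ≠ 1 := by
    intro h
    rw [h, pow_one] at hm1
    exact absurd hg1 (not_lt.2 hm1)
  have hmeq : c0 = g0 ^ m := by
    refine le_antisymm ?_ hm1
    have h1 := hmlt (m - 1) (by omega)
    have hpos : 0 < g0 ^ (m - 1) := pow_pos hg00 _
    have h2 : w (algebraMap kb Ω π / t0 ^ (m - 1)) = c0 / g0 ^ (m - 1) := by
      rw [map_div₀, map_pow, hg0]
    have h3 := hlow (algebraMap kb Ω π / t0 ^ (m - 1)) (div_mem hπL (pow_mem ht0 _)) (by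
      rw [h2, div_lt_one₀ hpos]
      exact h1)
    rw [h2, div_le_iff₀ hpos] at h3
    calc c0 ≤ g0 * g0 ^ (m - 1) := h3
      _ = g0 ^ m := by
        rw [← pow_succ']
        congr 1
        omega
  have hr : m.minFac.Prime := Nat.minFac_prime hmne1
  obtain ⟨q, hq⟩ := m.minFac_dvd
  set r := m.minFac with hrdef
  set y := t0 ^ q with hy
  have hyL : y ∈ fixO s U := pow_mem ht0 _
  have hy0 : y ≠ 0 := by
    have : w y ≠ 0 := by
      rw [hy, map_pow, hg0]
      exact (pow_pos hg00 _).ne'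
    exact (Valuation.ne_zero_iff _).1 this
  have hwy : w (y ^ r) = c0 := by
    rw [hy, ← pow_mul, map_pow, hg0, hmeq, mul_comm q r, ← hq]
  set e := algebraMap kb Ω π / y ^ r with he
  have heL : e ∈ fixO s U := div_mem hπL (pow_mem hyL _)
  have hwe : w e = 1 := by
    rw [he, map_div₀, hwy]
    exact div_self hc00
  obtain ⟨a, ha, hva, hea⟩ := reso hd s hs hsec hA hU heL hwe
  have hwa : w (algebraMap kb Ω a) = 1 := Mini_eq_one hA hva
  have ha0 : algebraMap kb Ω a ≠ 0 := by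
    intro h
    rw [h, map_zero] at hwa
    exact zero_ne_one hwa
  refine noroot hd s hs hsec hA hU hπ hπ0 hπ1 hmax hr ha hva
    (u := e / algebraMap kb Ω a) (div_mem heL (Mini_alg_mem s hsec ha)) ?_ hyL ?_
  · rw [div_sub_one ha0, map_div₀]
    change w _ / w _ < 1
    rw [hwa, div_one]
    exact hea
  · rw [mul_div_cancel₀ _ ha0, he, div_mul_cancel₀ _ (pow_ne_zero _ hy0)]

end Pool.Agent.Lib.MP_2f3286_ag.Koe
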