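import Pool.Agent.Lib.MP_2f3286_ag.Koe.Reso
import Pool.Agent.Lib.MP_2f3286_ag.Koe.Mini

/-!
# Approximation of integral elements of `L_U` by elements of `F_U`
-/

namespace Pool.Agent.Lib.MP_2f3286_ag.Koe

variable {k kb : Type*} [Field k] [Field kb] [Algebra k kb] [IsGalois k kb] [IsAlgClosed kb]
  [CharZero kb] {K Ω : Type*} [Field K] [Field Ω] [Algebra K Ω] [Algebra kb Ω]
  [Algebra.IsAlgebraic K Ω] [IsAlgClosed Ω]
variable {v : AbsoluteValue kb ℝ} {D : Subgroup Gal(kb/k)} {p : ℕ}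

/-- APX -/
theorem apx (hd : LocData v D p) (s : Gal(kb/k) →* Gal(Ω/K)) (hs : Continuous s)
    (hsec : ∀ σ a, s σ (algebraMap kb Ω a) = algebraMap kb Ω (σ a))
    {A : ValuationSubring Ω} (hA : Good s v D A) {U : Subgroup Gal(kb/k)} (hU : FinIn D U)
    {x : Ω} (hx : x ∈ fixO s U) (hxA : x ∈ A) {c : kb} (hc : c ≠ 0) :
    ∃ a ∈ fixk U, v a ≤ 1 ∧ (x - algebraMap kb Ω a) / algebraMap kb Ω c ∈ A := by
  obtain ⟨π, hπ, hπ0, hπ1, hmax⟩ := hd.disc U hU
  have hPU : algebraMap kb Ω π ∈ fixO s U := algebraMap_mem_fixO hsec hπ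
  have hπne : π ≠ 0 := by rintro rfl; simp at hπ0
  have hPne : algebraMap kb Ω π ≠ 0 := by rwa [Ne, map_eq_zero]
  -- one step
  have hstep : ∀ y ∈ fixO s U, y ∈ A → ∃ b ∈ fixk U, v b ≤ 1 ∧
      (y - algebraMap kb Ω b) / algebraMap kb Ω π ∈ A := by
    intro y hy hyA
    have hdiv : ∀ z ∈ fixO s U, A.valuation z < 1 → z / algebraMap kb Ω π ∈ A := by
      intro z hz hz1
      have h := mini hd s hs hsec hA hU hπ hπ0 hπ1 hmax hz hz1
      rw [← A.valuation_le_one_iff, map_div₀]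
      exact div_le_one_of_le₀ h zero_le
    rcases lt_or_eq_of_le ((A.valuation_le_one_iff y).2 hyA) with h | h
    · exact ⟨0, zero_mem _, by simp, by rw [map_zero, sub_zero]; exact hdiv y hy h⟩
    · obtain ⟨b, hb, hb1, hyb⟩ := reso hd s hs hsec hA hU hy h
      exact ⟨b, hb, hb1.le, hdiv _ (sub_mem hy (algebraMap_mem_fixO hsec hb)) hyb⟩
  have hiter : ∀ j : ℕ, ∃ a ∈ fixk U, v a ≤ 1 ∧ ∃ y ∈ fixO s U, y ∈ A ∧
      x = algebraMap kb Ω a + algebraMap kb Ω π ^ j * y := by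
    intro j
    induction j with
    | zero => exact ⟨0, zero_mem _, by simp, x, hx, hxA, by simp⟩
    | succ j ih =>
      obtain ⟨a, ha, ha1, y, hy, hyA, hxy⟩ := ih
      obtain ⟨b, hb, hb1, hyb⟩ := hstep y hy hyA
      refine ⟨a + π ^ j * b, add_mem ha (mul_mem (pow_mem hπ j) hb), ?_,
        (y - algebraMap kb Ω b) / algebraMap kb Ω π,
        div_mem (sub_mem hy (algebraMap_mem_fixO hsec hb)) hPU, hyb, ?_⟩
      · refine (hd.nonarch _ _).trans (max_le ha1 ?_)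
        rw [map_mul, map_pow]
        exact mul_le_one₀ (pow_le_one₀ hπ0.le hπ1.le) (v.nonneg _) hb1
      · rw [hxy, map_add, map_mul, map_pow]
        field_simp
        ring
  have hvc : 0 < v c := v.pos hc
  obtain ⟨j, hj⟩ := exists_pow_lt_of_lt_one hvc hπ1
  obtain ⟨a, ha, ha1, y, hy, hyA, hxy⟩ := hiter j
  refine ⟨a, ha, ha1, ?_⟩
  have h1 : algebraMap kb Ω (π ^ j / c) ∈ A := by
    refine (hA.2 _).2 ?_
    rw [map_div₀, map_pow]
    exact div_le_one_of_le₀ hj.le hvc.le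
  have h2 : (x - algebraMap kb Ω a) / algebraMap kb Ω c = algebraMap kb Ω (π ^ j / c) * y := by
    rw [hxy, map_div₀, map_pow]
    ring
  rw [h2]
  exact mul_mem h1 hyA

end Pool.Agent.Lib.MP_2f3286_ag.Koe
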