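import Pool.Agent.Lib.MP_2f3286_ag.Koe.Defs

/-!
# Rigidity from the Steinberg relations and a root of unity `ε` with `1 + ε` an `ℓ`-th power
-/

namespace Pool.Agent.Lib.MP_2f3286_ag.Koe

/-- RIG -/
theorem rigid {L : Type*} [Field L] {ℓ : ℕ} (hℓ : ℓ.Prime) (hodd : ℓ ≠ 2) (T H : Subgroup Lˣ)
    (hT : ∀ x : Lˣ, x ^ ℓ ∈ T) (ε : Lˣ) (hε : ε ∉ T) {N : ℕ} (hN : 1 ≤ N) (hεN : ε ^ N = 1)
    (hε1 : ∃ u ∈ T, (u : L) = 1 + ε) (hH : ∀ x, x ∈ H ↔ ∃ j : ℕ, x / ε ^ j ∈ T)
    (hSt : ∀ x : Lˣ, x ∉ T → ∀ u : Lˣ, (u : L) = 1 + x → ∃ i : ℕ, u / x ^ i ∈ T) :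
    T ≤ H ∧ (-1 : Lˣ) ∈ T ∧ (∀ x, x ∉ H → x ^ 2 ∉ H) ∧
    ∀ x : Lˣ, x ∉ H → ∃ u : Lˣ, (u : L) = 1 + x ∧ (u ∈ T ∨ u / x ∈ T) := by
  have hTH : T ≤ H := fun x hx => (hH x).2 ⟨0, by simpa using hx⟩
  have hoddℓ : Odd ℓ := hℓ.odd_of_ne_two hodd
  have hneg : (-1 : Lˣ) ∈ T := by
    have := hT (-1)
    rwa [hoddℓ.neg_one_pow] at this
  have hεH : ε ∈ H := (hH ε).2 ⟨1, by simp⟩
  -- powers in a subgroup containing the `ℓ`-th powers
  have hpow : ∀ (S : Subgroup Lˣ), T ≤ S → ∀ x : Lˣ, x ∉ S → ∀ i : ℤ, x ^ i ∈ S → (ℓ : ℤ) ∣ i := by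
    intro S hS x hx i hi
    by_contra hcon
    apply hx
    have hcop : IsCoprime (ℓ : ℤ) i :=
      (Nat.prime_iff_prime_int.1 hℓ).coprime_iff_not_dvd.2 hcon
    obtain ⟨a, b, hab⟩ := hcop
    have : x = (x ^ ℓ) ^ a * (x ^ i) ^ b := by
      rw [← zpow_natCast, ← zpow_mul, ← zpow_mul, ← zpow_add]
      rw [mul_comm (ℓ : ℤ) a, mul_comm i b, hab, zpow_one]
    rw [this]
    exact S.mul_mem (S.zpow_mem (hS (hT x)) _) (S.zpow_mem hi _)
  -- the quotient, written additively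
  obtain ⟨V, iV, r, r0, rmul, rdiv, rzpow⟩ : ∃ (V : Type _) (_ : AddCommGroup V) (r : Lˣ → V),
      (∀ x, r x = 0 ↔ x ∈ T) ∧ (∀ x y, r (x * y) = r x + r y) ∧
      (∀ x y, r (x / y) = r x - r y) ∧ ∀ x (i : ℤ), r (x ^ i) = i • r x := by
    refine ⟨Additive (Lˣ ⧸ T), inferInstance, fun x => Additive.ofMul (QuotientGroup.mk' T x),
      fun x => ?_, fun x y => ?_, fun x y => ?_, fun x i => ?_⟩
    · change Additive.ofMul (QuotientGroup.mk' T x) = Additive.ofMul 1 ↔ _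
      rw [Additive.ofMul.injective.eq_iff, ← MonoidHom.mem_ker, QuotientGroup.ker_mk']
    · beta_reduce; rw [map_mul, ofMul_mul]
    · beta_reduce; rw [map_div, ofMul_div]
    · beta_reduce; rw [map_zpow, ofMul_zpow]
  have hB : ∀ x, x ∉ H → ∀ i j : ℤ, i • r x + j • r ε = 0 → (ℓ : ℤ) ∣ i ∧ (ℓ : ℤ) ∣ j := by
    intro x hx i j hij
    have h1 : x ^ i * ε ^ j ∈ T := by
      rw [← r0, rmul, rzpow, rzpow]; exact hij
    have h2 : x ^ i ∈ H := (H.mul_mem_cancel_right (H.zpow_mem hεH j)).1 (hTH h1)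
    have h3 := hpow H hTH x hx i h2
    refine ⟨h3, ?_⟩
    obtain ⟨c, hc⟩ := h3
    have h4 : x ^ i ∈ T := by
      rw [hc, zpow_mul, zpow_natCast]; exact T.zpow_mem (hT x) c
    exact hpow T le_rfl ε hε j ((T.mul_mem_cancel_left h4).1 h1)
  -- the Steinberg relation
  have hne : ∀ x : Lˣ, x ∉ T → (1 : L) + x ≠ 0 := by
    intro x hx h
    apply hx
    have : x = -1 := by
      ext; push_cast
      exact (neg_eq_of_add_eq_zero_right h).symm
    rwa [this]
  have hS : ∀ x : Lˣ, x ∉ T → ∃ (u : Lˣ) (i : ℤ), (u : L) = 1 + x ∧ r u = i • r x := by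
    intro x hx
    obtain ⟨i, hi⟩ := hSt x hx (Units.mk0 _ (hne x hx)) rfl
    refine ⟨Units.mk0 _ (hne x hx), i, rfl, ?_⟩
    rw [← r0, rdiv, sub_eq_zero, ← zpow_natCast, rzpow] at hi
    exact hi
  have rℓ : ∀ x, ∀ i : ℤ, (ℓ : ℤ) ∣ i → i • r x = 0 := by
    rintro x i ⟨c, rfl⟩
    rw [← rzpow, r0, zpow_mul, zpow_natCast]
    exact T.zpow_mem (hT x) c
  obtain ⟨b, hbT, hb⟩ := hε1
  have rb : r b = 0 := (r0 b).2 hbT
  -- Claim A
  have hA : ∀ (x u : Lˣ) (i : ℤ), x ∉ H → (u : L) = 1 + x → r u = i • r x → ¬ (ℓ : ℤ) ∣ i →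
      ∃ u' : Lˣ, (u' : L) = 1 + (x / ε : Lˣ) ∧ r u' = r (x / ε) := by
    intro x u i hx hux hi hℓi
    -- (b)
    have hy : ε / u ∉ T := by
      rw [← r0, rdiv, hi]
      intro h
      apply hℓi
      have h1 : (-i) • r x + (1 : ℤ) • r ε = 0 := by rw [← h]; module
      exact (dvd_neg.1 (hB x hx _ _ h1).1)
    obtain ⟨w, j, hw, hj⟩ := hS _ hy
    rw [rdiv, hi] at hj
    -- (a)
    have hxb : x / b ∉ T := by
      intro h
      exact hx (hTH ((T.div_mem_comm_iff.1 h) |> fun h' => by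
        have := T.mul_mem h hbT
        rwa [div_mul_cancel] at this))
    obtain ⟨w', j', hw', hj'⟩ := hS _ hxb
    rw [rdiv, rb, sub_zero] at hj'
    -- (c)
    have hxε : x / ε ∉ H := fun h => hx (by
      have := H.mul_mem h hεH
      rwa [div_mul_cancel] at this)
    obtain ⟨w'', k, hw'', hk⟩ := hS _ (fun h => hxε (hTH h))
    have hc : ε * w'' ∉ T := by
      rw [← r0, rmul, hk, rdiv]
      intro h
      have h1 : k • r x + (1 - k) • r ε = 0 := by rw [← h]; module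
      obtain ⟨h2, h3⟩ := hB x hx _ _ h1
      have h4 : (ℓ : ℤ) ∣ 1 := by
        have := dvd_add h2 h3
        rwa [add_sub_cancel] at this
      exact hℓ.one_lt.ne' (by exact_mod_cast Int.natAbs_dvd_natAbs.2 h4 |> Nat.dvd_one.1)
    obtain ⟨w3, m, hw3, hm⟩ := hS _ hc
    have e1 : u * w = b * w' := by
      ext
      rw [Units.val_mul, Units.val_mul, hw, hw']
      push_cast [Units.val_div_eq_div_val]
      have := u.ne_zero; have := b.ne_zero
      field_simp
      rw [hux, hb]; ring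
    have e2 : w3 = b * w' := by
      ext
      rw [Units.val_mul, hw3, hw', Units.val_mul, hw'']
      push_cast [Units.val_div_eq_div_val]
      have := b.ne_zero; have := ε.ne_zero
      field_simp
      rw [hb]; ring
    have e3 : i • r x + j • (r ε - i • r x) = j' • r x := by
      have := congrArg r e1
      rw [rmul, rmul, rb, zero_add, hi, hj, hj'] at this
      exact this
    have e4 : m • (r ε + k • (r x - r ε)) = j' • r x := by
      have := congrArg r e2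
      rw [rmul, rb, zero_add, hm, hj', rmul, hk, rdiv] at this
      exact this
    have e5 := hB x hx (i - j * i - j') j (by
      have : (i - j * i - j') • r x + j • r ε
        = (i • r x + j • (r ε - i • r x)) - j' • r x := by module
      rw [this, e3, sub_self])
    have e6 := hB x hx (m * k - j') (m * (1 - k)) (by
      have : (m * k - j') • r x + (m * (1 - k)) • r ε
        = m • (r ε + k • (r x - r ε)) - j' • r x := by module
      rw [this, e4, sub_self])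
    have hp := Nat.prime_iff_prime_int.1 hℓ
    have e7 : ¬ (ℓ : ℤ) ∣ j' := by
      intro h
      apply hℓi
      have h1 := dvd_add (dvd_add e5.1 h) (Dvd.dvd.mul_right e5.2 i)
      have : i - j * i - j' + j' + j * i = i := by ring
      rwa [this] at h1
    have e8 : ¬ (ℓ : ℤ) ∣ m := by
      intro h
      apply e7
      have h1 := dvd_sub (Dvd.dvd.mul_right h k) e6.1
      have : m * k - (m * k - j') = j' := by ring
      rwa [this] at h1
    have e9 : (ℓ : ℤ) ∣ 1 - k := (hp.dvd_or_dvd e6.2).resolve_left e8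
    refine ⟨w'', hw'', ?_⟩
    rw [hk]
    have := rℓ (x / ε) _ e9
    rw [sub_smul, one_smul, sub_eq_zero] at this
    exact this.symm
  refine ⟨hTH, hneg, ?_, ?_⟩
  · intro x hx h
    have h1 := hpow H hTH x hx 2 (by exact_mod_cast h)
    have h2 : ℓ ∣ 2 := by exact_mod_cast h1
    exact hodd ((Nat.prime_dvd_prime_iff_eq hℓ Nat.prime_two).1 h2)
  · intro x hx
    obtain ⟨u, i, hu, hi⟩ := hS x (fun h => hx (hTH h))
    by_cases hℓi : (ℓ : ℤ) ∣ i
    · refine ⟨u, hu, Or.inl ?_⟩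
      rw [← r0, hi, rℓ x i hℓi]
    · -- iterate
      have hit : ∀ n : ℕ, x / ε ^ (n + 1) ∉ H ∧ ∃ u' : Lˣ, (u' : L) = 1 + (x / ε ^ (n + 1) : Lˣ) ∧
          r u' = r (x / ε ^ (n + 1)) := by
        intro n
        have hnH : ∀ n : ℕ, x / ε ^ n ∉ H := fun n h => hx (by
          have := H.mul_mem h (H.pow_mem hεH n)
          rwa [div_mul_cancel] at this)
        induction n with
        | zero =>
          refine ⟨hnH _, ?_⟩
          rw [zero_add, pow_one]
          exact hA x u i hx hu hi hℓi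
        | succ n ih =>
          refine ⟨hnH _, ?_⟩
          obtain ⟨u', h1, h2⟩ := ih.2
          have h3 := hA _ u' 1 ih.1 h1 (by rw [one_smul]; exact h2) (by
            intro h4
            exact hℓ.one_lt.ne' (Nat.dvd_one.1 (by exact_mod_cast h4)))
          rw [div_div, ← pow_succ] at h3
          exact h3
      obtain ⟨M, rfl⟩ : ∃ M, N = M + 1 := ⟨N - 1, by omega⟩
      obtain ⟨_, u', h1, h2⟩ := hit M
      rw [hεN, div_one] at h1 h2
      refine ⟨u', h1, Or.inr ?_⟩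
      rw [← r0, rdiv, h2, sub_self]

end Pool.Agent.Lib.MP_2f3286_ag.Koe
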