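import Pool.Agent.Lib.MP_2f3286_ag.Koe.Eps

/-!
# Norms of elements of a tame cyclic extension of prime degree
-/

namespace Pool.Agent.Lib.MP_2f3286_ag.Koe

open RootAux

variable {k kb : Type*} [Field k] [Field kb] [Algebra k kb] [IsGalois k kb] [IsAlgClosed kb]
  [CharZero kb]
variable {v : AbsoluteValue kb ℝ} {D : Subgroup Gal(kb/k)} {p : ℕ}

namespace KNormAux

theorem prod_range_periodic {M : Type*} [CommMonoid M] {f : ℕ → M} {n : ℕ}
    (hf : ∀ m, f (m + n) = f m) (a : ℕ) :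
    ∏ i ∈ Finset.range n, f (i + a) = ∏ i ∈ Finset.range n, f i := by
  induction a with
  | zero => rfl
  | succ a ih =>
    rw [← ih]
    cases n with
    | zero => rfl
    | succ n =>
      rw [Finset.prod_range_succ, Finset.prod_range_succ' (fun i => f (i + a))]
      have h1 : f (n + (a + 1)) = f (0 + a) := by
        have : n + (a + 1) = (0 + a) + (n + 1) := by ring
        rw [this, hf]
      rw [h1]
      congr 1
      refine Finset.prod_congr rfl (fun i _ => ?_)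
      congr 1
      ring

theorem sum_range_periodic {M : Type*} [AddCommMonoid M] {f : ℕ → M} {n : ℕ}
    (hf : ∀ m, f (m + n) = f m) (a : ℕ) :
    ∑ i ∈ Finset.range n, f (i + a) = ∑ i ∈ Finset.range n, f i := by
  induction a with
  | zero => rfl
  | succ a ih =>
    rw [← ih]
    cases n with
    | zero => rfl
    | succ n =>
      rw [Finset.sum_range_succ, Finset.sum_range_succ' (fun i => f (i + a))]
      have h1 : f (n + (a + 1)) = f (0 + a) := by
        have : n + (a + 1) = (0 + a) + (n + 1) := by ring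
        rw [this, hf]
      rw [h1]
      congr 1
      refine Finset.sum_congr rfl (fun i _ => ?_)
      congr 1
      ring

end KNormAux

/-- the units of `fixk U` modulo `ℓ`-th powers are generated by any unit which is not an `ℓ`-th
power -/
theorem unit_classes (hd : LocData v D p) {ℓ : ℕ} (hℓ : ℓ.Prime) (hp : ℓ ≠ p)
    {U : Subgroup Gal(kb/k)} (hU : FinIn D U) {ε : kb} (hεU : ε ∈ fixk U) (hεv : v ε = 1)
    (hε : ¬ ∃ b ∈ fixk U, b ^ ℓ = ε) {a' : kb} (ha' : a' ∈ fixk U) (ha'v : v a' = 1) :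
    ∃ j : ℕ, ∃ b ∈ fixk U, b ≠ 0 ∧ a' = ε ^ j * b ^ ℓ := by
  have hpp := hd.prime
  have hUD : U ≤ D := hU.1
  obtain ⟨κ, hκ, red, hsurj, hred⟩ := exists_residue v hd.nonarch (fixk U)
  have hfin : Finite κ := resid_finite hd hU hsurj hred
  have hft := Fintype.ofFinite κ
  have hℓp : ¬ p ∣ ℓ := fun h => hp ((Nat.prime_dvd_prime_iff_eq hpp hℓ).1 h).symm
  -- lifting an equality in the residue field
  have hlift : ∀ (a c : kb), a ∈ fixk U → c ∈ fixk U → v c = 1 → v (a - c) < 1 →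
      ∃ b ∈ fixk U, v (b - 1) < 1 ∧ a = c * b ^ ℓ := by
    intro a c ha hc hc1 hac
    have hc0 : c ≠ 0 := fun h => by rw [h, map_zero] at hc1; exact zero_ne_one hc1
    have h1 : v (a / c - 1) < 1 := by
      have : a / c - 1 = (a - c) / c := by field_simp
      rw [this, map_div₀, hc1, div_one]
      exact hac
    obtain ⟨b, hb, hbn, hb1⟩ := root_one hd hUD ((fixk U).div_mem ha hc) h1 hℓp
    exact ⟨b, hb, hb1, by rw [hbn]; field_simp⟩
  have hred1 : ∀ (a : ringOf v hd.nonarch (fixk U)), red a ≠ 0 → v (a : kb) = 1 := by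
    intro a ha
    rw [Ne, hred, not_lt] at ha
    exact le_antisymm a.2.2 ha
  let ε' : ringOf v hd.nonarch (fixk U) := ⟨ε, hεU, hεv.le⟩
  have he0 : red ε' ≠ 0 := by
    intro h
    rw [hred] at h
    exact lt_irrefl _ (hεv ▸ h)
  let a'' : ringOf v hd.nonarch (fixk U) := ⟨a', ha', ha'v.le⟩
  have ha''0 : red a'' ≠ 0 := by
    intro h
    rw [hred] at h
    exact lt_irrefl _ (ha'v ▸ h)
  obtain ⟨g, hg⟩ := IsCyclic.exists_generator (α := κˣ)
  obtain ⟨i, hi⟩ := Subgroup.mem_zpowers_iff.1 (hg (Units.mk0 (red ε') he0))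
  obtain ⟨m, hm⟩ := Subgroup.mem_zpowers_iff.1 (hg (Units.mk0 (red a'') ha''0))
  have hℓi : ¬ (ℓ : ℤ) ∣ i := by
    rintro ⟨c, hc⟩
    apply hε
    have h1 : (g ^ c) ^ ℓ = Units.mk0 (red ε') he0 := by
      rw [← hi, hc, mul_comm, zpow_mul, zpow_natCast]
    obtain ⟨d, hdd⟩ := hsurj ((g ^ c : κˣ) : κ)
    have hdv : v (d : kb) = 1 := hred1 d (by rw [hdd]; exact Units.ne_zero _)
    have h2 : red ε' = red (d ^ ℓ) := by
      rw [map_pow, hdd]
      have := congrArg Units.val h1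
      simpa using this.symm
    have h3 : v (ε - (d : kb) ^ ℓ) < 1 := by
      have h5 := (red_eq_iff hred).1 h2
      simpa using h5
    obtain ⟨b', hb', hb'1, h4⟩ := hlift ε ((d : kb) ^ ℓ) hεU ((fixk U).pow_mem d.2.1 ℓ)
      (by rw [map_pow, hdv, one_pow]) h3
    exact ⟨(d : kb) * b', (fixk U).mul_mem d.2.1 hb', by rw [mul_pow, h4]⟩
  -- solve `i * j ≡ m (mod ℓ)`
  obtain ⟨j, c, hjc⟩ : ∃ (j : ℕ) (c : ℤ), m = i * j + ℓ * c := by
    have : Fact ℓ.Prime := ⟨hℓ⟩
    have hi0 : ((i : ℤ) : ZMod ℓ) ≠ 0 := by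
      rwa [Ne, ZMod.intCast_zmod_eq_zero_iff_dvd]
    set j : ZMod ℓ := (m : ZMod ℓ) / (i : ZMod ℓ) with hj
    have h1 : ((m - i * (j.val : ℤ) : ℤ) : ZMod ℓ) = 0 := by
      push_cast
      rw [ZMod.natCast_zmod_val, hj]
      field_simp
      ring
    obtain ⟨c, hc⟩ := (ZMod.intCast_zmod_eq_zero_iff_dvd _ _).1 h1
    exact ⟨j.val, c, by linarith⟩
  have hprod : Units.mk0 (red a'') ha''0 = (Units.mk0 (red ε') he0) ^ j * (g ^ c) ^ ℓ := by
    rw [← hm, ← hi, hjc, zpow_add, zpow_mul, zpow_natCast, ← zpow_natCast (g ^ c), ← zpow_mul,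
      mul_comm (ℓ : ℤ) c]
  obtain ⟨d, hdd⟩ := hsurj ((g ^ c : κˣ) : κ)
  have hdv : v (d : kb) = 1 := hred1 d (by rw [hdd]; exact Units.ne_zero _)
  have h1 : v (a' - ε ^ j * (d : kb) ^ ℓ) < 1 := by
    have h4 : red a'' = red (ε' ^ j * d ^ ℓ) := by
      rw [map_mul, map_pow, map_pow, hdd]
      have := congrArg Units.val hprod
      simpa using this
    have h5 := (red_eq_iff hred).1 h4
    simpa using h5
  obtain ⟨b', hb', hb'1, h3⟩ := hlift a' (ε ^ j * (d : kb) ^ ℓ) ha'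
    ((fixk U).mul_mem ((fixk U).pow_mem hεU j) ((fixk U).pow_mem d.2.1 ℓ))
    (by rw [map_mul, map_pow, map_pow, hεv, hdv, one_pow, one_pow, one_mul]) h1
  refine ⟨j, (d : kb) * b', (fixk U).mul_mem d.2.1 hb', ?_, by rw [mul_pow, h3]; ring⟩
  apply mul_ne_zero
  · intro h
    rw [h, map_zero] at hdv
    exact zero_ne_one hdv
  · intro h
    rw [h, zero_sub, v.map_neg, map_one] at hb'1
    exact lt_irrefl _ hb'1

/-- KNORM -/
theorem knorm (hd : LocData v D p) {ℓ : ℕ} (hℓ : ℓ.Prime) (h2 : ℓ ≠ 2) (hp : ℓ ≠ p)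
    {U : Subgroup Gal(kb/k)} (hU : FinIn D U) (hμ : ∀ z : kb, z ^ ℓ = 1 → z ∈ fixk U)
    {α : kb} (hα0 : α ≠ 0) (hα : α ^ ℓ ∈ fixk U) (hα1 : α ∉ fixk U) :
    ∃ τ ∈ U, ∃ ζ : kb, IsPrimitiveRoot ζ ℓ ∧ τ α = ζ * α ∧
      ∀ c : kb, (∀ σ ∈ U, σ α = α → σ c = c) → c ≠ 0 →
        ∃ j : ℕ, ∃ b ∈ fixk U, b ≠ 0 ∧
          ∏ i ∈ Finset.range ℓ, (τ ^ i) c = (α ^ ℓ) ^ j * b ^ ℓ := by
  have hUD : U ≤ D := hU.1
  have hpp := hd.prime
  have hℓp : ¬ p ∣ ℓ := fun h => hp ((Nat.prime_dvd_prime_iff_eq hpp hℓ).1 h).symm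
  have hℓv : v (ℓ : kb) = 1 := na_nat_eq hd.nonarch hpp hd.small hℓp
  have hℓ0 : (ℓ : kb) ≠ 0 := Nat.cast_ne_zero.2 hℓ.ne_zero
  have hℓpos := hℓ.pos
  rw [mem_fixk] at hα1
  push Not at hα1
  obtain ⟨τ, hτU, hτ⟩ := hα1
  obtain ⟨ζ, hζdef⟩ : ∃ ζ, ζ = τ α / α := ⟨_, rfl⟩
  have hτα : τ α = ζ * α := by rw [hζdef]; field_simp
  have hζℓ : ζ ^ ℓ = 1 := by
    rw [hζdef, div_pow, ← map_pow, mem_fixk.1 hα τ hτU, div_self (pow_ne_zero _ hα0)]
  have hζ1 : ζ ≠ 1 := by
    intro h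
    rw [h, one_mul] at hτα
    exact hτ hτα
  have hζ : IsPrimitiveRoot ζ ℓ := by
    have : Fact ℓ.Prime := ⟨hℓ⟩
    have h1 : orderOf ζ = ℓ := orderOf_eq_prime hζℓ hζ1
    rw [← h1]
    exact IsPrimitiveRoot.orderOf ζ
  have hζU : ζ ∈ fixk U := hμ ζ hζℓ
  have hζ0 : ζ ≠ 0 := hζ.ne_zero hℓ.ne_zero
  have hζv : v ζ = 1 := by
    have h1 : v ζ ^ ℓ = 1 := by rw [← map_pow, hζℓ, map_one]
    exact (pow_eq_one_iff_of_nonneg (v.nonneg ζ) hℓ.ne_zero).1 h1
  have hτm : ∀ m : ℕ, (τ ^ m) α = ζ ^ m * α := by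
    intro m
    induction m with
    | zero => simp
    | succ m ih =>
      rw [pow_succ', AlgEquiv.mul_apply, ih, map_mul, map_pow, hτα, mem_fixk.1 hζU τ hτU]
      ring
  have hτζ : ∀ m : ℕ, (τ ^ m) ζ = ζ := fun m => mem_fixk.1 hζU _ (U.pow_mem hτU m)
  have hσα : ∀ σ ∈ U, ∃ a : ℕ, σ α = ζ ^ a * α := by
    intro σ hσ
    have h1 : (σ α / α) ^ ℓ = 1 := by
      rw [div_pow, ← map_pow, mem_fixk.1 hα σ hσ, div_self (pow_ne_zero _ hα0)]
    have : NeZero ℓ := ⟨hℓ.ne_zero⟩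
    obtain ⟨a, -, ha⟩ := hζ.eq_pow_of_pow_eq_one h1
    exact ⟨a, by rw [ha]; field_simp⟩
  refine ⟨τ, hτU, ζ, hζ, hτα, ?_⟩
  -- elements fixed by the stabiliser
  set St : kb → Prop := fun c => ∀ σ ∈ U, σ α = α → σ c = c with hSt
  have hStF : ∀ c ∈ fixk U, St c := fun c hc σ hσ _ => mem_fixk.1 hc σ hσ
  have hStα : St α := fun σ _ h => h
  have hStmul : ∀ c d, St c → St d → St (c * d) := fun c d hc hd' σ hσ h => by
    rw [map_mul, hc σ hσ h, hd' σ hσ h]
  have hStdiv : ∀ c d, St c → St d → St (c / d) := fun c d hc hd' σ hσ h => by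
    rw [map_div₀, hc σ hσ h, hd' σ hσ h]
  have hStpow : ∀ c, St c → ∀ n : ℕ, St (c ^ n) := fun c hc n σ hσ h => by
    rw [map_pow, hc σ hσ h]
  -- the action
  have hper : ∀ c, St c → ∀ m : ℕ, (τ ^ (m + ℓ)) c = (τ ^ m) c := by
    intro c hc m
    rw [pow_add, AlgEquiv.mul_apply, hc (τ ^ ℓ) (U.pow_mem hτU ℓ) (by rw [hτm, hζℓ, one_mul])]
  have hact : ∀ c, St c → ∀ σ ∈ U, ∀ a : ℕ, σ α = ζ ^ a * α → ∀ m : ℕ,
      σ ((τ ^ m) c) = (τ ^ (m + a)) c := by
    intro c hc σ hσ a ha m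
    have h1 : ((τ ^ (m + a))⁻¹ * σ * τ ^ m) α = α := by
      rw [AlgEquiv.mul_apply, AlgEquiv.mul_apply, hτm, map_mul, map_pow, mem_fixk.1 hζU σ hσ, ha,
        ← mul_assoc, ← pow_add, ← hτm, ← AlgEquiv.mul_apply, inv_mul_cancel, AlgEquiv.one_apply]
    have h3 := hc _ (U.mul_mem (U.mul_mem (U.inv_mem (U.pow_mem hτU (m + a))) hσ)
      (U.pow_mem hτU m)) h1
    rw [AlgEquiv.mul_apply, AlgEquiv.mul_apply] at h3
    have h4 := congrArg (τ ^ (m + a)) h3
    rwa [← AlgEquiv.mul_apply, mul_inv_cancel, AlgEquiv.one_apply] at h4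
  -- the norm
  set Nm : kb → kb := fun c => ∏ i ∈ Finset.range ℓ, (τ ^ i) c with hNm
  have hNmul : ∀ c d, Nm (c * d) = Nm c * Nm d := by
    intro c d
    simp only [hNm, map_mul, Finset.prod_mul_distrib]
  have hNF : ∀ c, St c → Nm c ∈ fixk U := by
    intro c hc
    rw [mem_fixk]
    intro σ hσ
    obtain ⟨a, ha⟩ := hσα σ hσ
    simp only [hNm, map_prod]
    rw [← KNormAux.prod_range_periodic (f := fun i => (τ ^ i) c) (hper c hc) a]
    exact Finset.prod_congr rfl (fun m _ => hact c hc σ hσ a ha m)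
  have hNfix : ∀ c ∈ fixk U, Nm c = c ^ ℓ := by
    intro c hc
    simp only [hNm]
    rw [Finset.prod_congr rfl (fun i _ => mem_fixk.1 hc (τ ^ i) (U.pow_mem hτU i)),
      Finset.prod_const, Finset.card_range]
  have hNα : Nm α = α ^ ℓ := by
    simp only [hNm, hτm]
    rw [Finset.prod_mul_distrib, Finset.prod_const, Finset.card_range,
      Finset.prod_pow_eq_pow_sum]
    have h1 : ℓ ∣ ∑ i ∈ Finset.range ℓ, i := by
      have h3 : ℓ ∣ (∑ i ∈ Finset.range ℓ, i) * 2 := by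
        rw [Finset.sum_range_id_mul_two]
        exact dvd_mul_right _ _
      rcases (Nat.Prime.dvd_mul hℓ).1 h3 with h | h
      · exact h
      · exact absurd ((Nat.prime_dvd_prime_iff_eq hℓ Nat.prime_two).1 h) h2
    obtain ⟨t, ht⟩ := h1
    rw [ht, pow_mul, hζℓ, one_pow, one_mul]
  have hNpow : ∀ c (n : ℕ), Nm (c ^ n) = Nm c ^ n := by
    intro c n
    simp only [hNm, map_pow, Finset.prod_pow]
  have hN1 : ∀ c, v (c - 1) < 1 → v (Nm c - 1) < 1 := by
    intro c hc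
    have key : ∀ n : ℕ, v (∏ i ∈ Finset.range n, (τ ^ i) c - 1) < 1 := by
      intro n
      induction n with
      | zero => simp
      | succ n ih =>
        rw [Finset.prod_range_succ]
        have h1 : v ((τ ^ n) c - 1) < 1 := by
          have : (τ ^ n) c - 1 = (τ ^ n) (c - 1) := by rw [map_sub, map_one]
          rw [this, hd.isom _ (hUD (U.pow_mem hτU n))]
          exact hc
        have h3 : v ((τ ^ n) c) = 1 := by
          have := na_eq_of_sub_lt hd.nonarch (a := (τ ^ n) c) (b := 1) (by rwa [map_one])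
          rwa [map_one] at this
        have h4 : (∏ i ∈ Finset.range n, (τ ^ i) c) * (τ ^ n) c - 1 =
            (∏ i ∈ Finset.range n, (τ ^ i) c - 1) * (τ ^ n) c + ((τ ^ n) c - 1) := by ring
        rw [h4]
        refine (hd.nonarch _ _).trans_lt (max_lt ?_ h1)
        rw [map_mul, h3, mul_one]
        exact ih
    exact key ℓ
  have hNv : ∀ c, v (Nm c) = v c ^ ℓ := by
    intro c
    simp only [hNm]
    rw [map_prod, Finset.prod_congr rfl (fun i _ => hd.isom (τ ^ i) (hUD (U.pow_mem hτU i)) c),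
      Finset.prod_const, Finset.card_range]
  -- the decomposition
  set w : kb → ℕ → kb := fun c i => ∑ m ∈ Finset.range ℓ, (ζ⁻¹) ^ (i * m) * (τ ^ m) c with hw
  have hζi : IsPrimitiveRoot ζ⁻¹ ℓ := hζ.inv
  have hwsum : ∀ c, ∑ i ∈ Finset.range ℓ, w c i = ℓ * c := by
    intro c
    simp only [hw]
    rw [Finset.sum_comm]
    have h1 : ∀ m ∈ Finset.range ℓ, ∑ i ∈ Finset.range ℓ, (ζ⁻¹) ^ (i * m) * (τ ^ m) c =
        if m = 0 then (ℓ : kb) * c else 0 := by
      intro m hm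
      rw [Finset.mem_range] at hm
      rw [← Finset.sum_mul]
      split_ifs with h
      · subst h
        simp
      · have h3 : IsPrimitiveRoot ((ζ⁻¹) ^ m) ℓ := by
          apply hζi.pow_of_coprime
          rw [Nat.coprime_comm, hℓ.coprime_iff_not_dvd]
          intro hdvd
          exact absurd (Nat.le_of_dvd (Nat.pos_of_ne_zero h) hdvd) (by omega)
        have h4 := h3.geom_sum_eq_zero hℓ.one_lt
        have h5 : ∑ i ∈ Finset.range ℓ, (ζ⁻¹) ^ (i * m) = 0 := by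
          rw [← h4]
          refine Finset.sum_congr rfl (fun i _ => ?_)
          rw [← pow_mul, mul_comm]
        rw [h5, zero_mul]
    rw [Finset.sum_congr rfl h1, Finset.sum_ite_eq' (Finset.range ℓ) 0,
      if_pos (Finset.mem_range.2 hℓpos)]
  have hwF : ∀ c, St c → ∀ i, w c i / α ^ i ∈ fixk U := by
    intro c hc i
    rw [mem_fixk]
    intro σ hσ
    obtain ⟨a, ha⟩ := hσα σ hσ
    have h1 : ζ⁻¹ ^ (i * a) * σ (w c i) = w c i := by
      simp only [hw]
      rw [map_sum, Finset.mul_sum, ← KNormAux.sum_range_periodic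
        (f := fun m => (ζ⁻¹) ^ (i * m) * (τ ^ m) c) (fun m => ?_) a]
      · refine Finset.sum_congr rfl (fun m _ => ?_)
        rw [map_mul, map_pow, map_inv₀, mem_fixk.1 hζU σ hσ, hact c hc σ hσ a ha m, ← mul_assoc,
          ← pow_add]
        congr 2
        ring
      · rw [hper c hc m, mul_add, pow_add, mul_comm i ℓ, pow_mul _ ℓ i, hζi.pow_eq_one, one_pow,
          mul_one]
    have h3 : σ (w c i) = ζ ^ (i * a) * w c i := by
      calc σ (w c i) = ζ ^ (i * a) * (ζ⁻¹ ^ (i * a) * σ (w c i)) := by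
            rw [← mul_assoc, ← mul_pow, mul_inv_cancel₀ hζ0, one_pow, one_mul]
        _ = ζ ^ (i * a) * w c i := by rw [h1]
    rw [map_div₀, map_pow, ha, h3, mul_pow, ← pow_mul, mul_comm a i]
    field_simp
  have hwv : ∀ c i, v (w c i) ≤ v c := by
    intro c i
    simp only [hw]
    refine na_sum_le hd.nonarch _ _ (v.nonneg c) (fun m _ => ?_)
    rw [map_mul, map_pow, map_inv₀, hζv, inv_one, one_pow, one_mul,
      hd.isom _ (hUD (U.pow_mem hτU m))]
  have hwex : ∀ c, c ≠ 0 → ∃ i < ℓ, v (w c i) = v c := by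
    intro c hc0
    by_contra hcon
    push Not at hcon
    have h1 : v (∑ i ∈ Finset.range ℓ, w c i) < v c := by
      refine na_sum_lt hd.nonarch _ _ (v.pos hc0) (fun i hi => ?_)
      exact lt_of_le_of_ne (hwv c i) (hcon i (Finset.mem_range.1 hi))
    rw [hwsum, map_mul, hℓv, one_mul] at h1
    exact lt_irrefl _ h1
  -- units
  have hunit : ∀ c, St c → v c = 1 →
      ∃ j : ℕ, ∃ b ∈ fixk U, b ≠ 0 ∧ Nm c = (α ^ ℓ) ^ j * b ^ ℓ := by
    intro c hc hcv
    by_cases hA : ∃ b0 ∈ fixk U, v b0 = v α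
    · obtain ⟨b0, hb0, hb0v⟩ := hA
      have hb00 : b0 ≠ 0 := by
        intro h
        rw [h, map_zero] at hb0v
        exact hα0 (v.eq_zero.1 hb0v.symm)
      have ha0U : α ^ ℓ / b0 ^ ℓ ∈ fixk U := (fixk U).div_mem hα ((fixk U).pow_mem hb0 ℓ)
      have ha0v : v (α ^ ℓ / b0 ^ ℓ) = 1 := by
        rw [map_div₀, map_pow, map_pow, hb0v, div_self (pow_ne_zero _ (v.pos hα0).ne')]
      have ha0n : ¬ ∃ b ∈ fixk U, b ^ ℓ = α ^ ℓ / b0 ^ ℓ := by
        rintro ⟨b, hb, hbe⟩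
        have hbn : b ≠ 0 := by
          intro h
          rw [h, zero_pow hℓ.ne_zero] at hbe
          exact div_ne_zero (pow_ne_zero _ hα0) (pow_ne_zero _ hb00) hbe.symm
        have h1 : (α / (b * b0)) ^ ℓ = 1 := by
          rw [div_pow, mul_pow, hbe, div_mul_cancel₀ _ (pow_ne_zero _ hb00),
            div_self (pow_ne_zero _ hα0)]
        have h3 := hμ _ h1
        have h4 : α ∈ fixk U := by
          have := (fixk U).mul_mem h3 ((fixk U).mul_mem hb hb0)
          rwa [div_mul_cancel₀ _ (mul_ne_zero hbn hb00)] at this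
        exact hτ (mem_fixk.1 h4 τ hτU)
      obtain ⟨j, b, hb, hbne, hj⟩ := unit_classes hd hℓ hp hU ha0U ha0v ha0n (hNF c hc)
        (by rw [hNv, hcv, one_pow])
      refine ⟨j, b / b0 ^ j, (fixk U).div_mem hb ((fixk U).pow_mem hb0 j),
        div_ne_zero hbne (pow_ne_zero _ hb00), ?_⟩
      rw [hj, div_pow, div_pow, ← pow_mul b0 ℓ j, ← pow_mul b0 j ℓ, mul_comm j ℓ]
      field_simp
    · have hB : ∀ i, 0 < i → i < ℓ → v (w c i) < 1 := by
        intro i hi0 hi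
        refine lt_of_le_of_ne ((hwv c i).trans hcv.le) (fun h1 => hA ?_)
        have hu := hwF c hc i
        have hcop : IsCoprime (i : ℤ) (ℓ : ℤ) := by
          rw [Nat.isCoprime_iff_coprime, Nat.coprime_comm, hℓ.coprime_iff_not_dvd]
          intro hdvd
          exact absurd (Nat.le_of_dvd hi0 hdvd) (by omega)
        obtain ⟨s, t, hst⟩ := hcop
        refine ⟨((w c i / α ^ i)⁻¹) ^ s * (α ^ ℓ) ^ t, (fixk U).mul_mem
          ((fixk U).zpow_mem ((fixk U).inv_mem hu) s) ((fixk U).zpow_mem hα t), ?_⟩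
        have hvα := (v.pos hα0).ne'
        rw [map_mul, map_zpow₀, map_zpow₀, map_inv₀, map_div₀, h1, map_pow, map_pow, one_div,
          inv_inv, ← zpow_natCast, ← zpow_natCast, ← zpow_mul, ← zpow_mul, ← zpow_add₀ hvα,
          mul_comm _ s, mul_comm _ t, hst, zpow_one]
      have h3 : v (ℓ * c - w c 0) < 1 := by
        rw [← hwsum c]
        have : ∑ i ∈ Finset.range ℓ, w c i - w c 0 =
            ∑ i ∈ (Finset.range ℓ).erase 0, w c i := by
          rw [← Finset.add_sum_erase _ _ (Finset.mem_range.2 hℓpos)]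
          ring
        rw [this]
        refine na_sum_lt hd.nonarch _ _ one_pos (fun i hi => ?_)
        rw [Finset.mem_erase, Finset.mem_range] at hi
        exact hB i (Nat.pos_of_ne_zero hi.1) hi.2
      have hℓc : v (ℓ * c) = 1 := by rw [map_mul, hℓv, hcv, one_mul]
      have h4 : v (w c 0) = 1 := by
        have := na_eq_of_sub_lt hd.nonarch (a := w c 0) (b := ℓ * c)
          (by rw [hℓc, v.map_sub]; exact h3)
        rw [this, hℓc]
      have hw0 : w c 0 ≠ 0 := fun h => by rw [h, map_zero] at h4; exact zero_ne_one h4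
      have hwU : w c 0 ∈ fixk U := by
        have := hwF c hc 0
        rwa [pow_zero, div_one] at this
      have hℓU : (ℓ : kb) ∈ fixk U := by
        rw [mem_fixk]
        intro σ _
        exact map_natCast σ ℓ
      set c'' := ℓ * c / w c 0 with hc''
      have hc''St : St c'' := hStdiv _ _ (hStmul _ _ (hStF _ hℓU) hc) (hStF _ hwU)
      have hc''1 : v (c'' - 1) < 1 := by
        have : c'' - 1 = (ℓ * c - w c 0) / w c 0 := by rw [hc'']; field_simp
        rw [this, map_div₀, h4, div_one]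
        exact h3
      obtain ⟨b, hb, hbℓ, hb1⟩ := root_one hd hUD (hNF c'' hc''St) (hN1 c'' hc''1) hℓp
      have hbne : b ≠ 0 := by
        intro h
        rw [h, zero_sub, v.map_neg, map_one] at hb1
        exact lt_irrefl _ hb1
      refine ⟨0, b * (w c 0 / ℓ), (fixk U).mul_mem hb ((fixk U).div_mem hwU hℓU),
        mul_ne_zero hbne (div_ne_zero hw0 hℓ0), ?_⟩
      have hcc : c = c'' * (w c 0 / ℓ) := by rw [hc'']; field_simp
      rw [pow_zero, one_mul, mul_pow, hbℓ, ← hNfix _ ((fixk U).div_mem hwU hℓU), ← hNmul, ← hcc]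
  -- the general case
  intro c hc hc0
  obtain ⟨i, hi, hvi⟩ := hwex c hc0
  have hw0 : w c i ≠ 0 := by
    intro h
    rw [h, map_zero] at hvi
    exact hc0 (v.eq_zero.1 hvi.symm)
  have hu := hwF c hc i
  have hune : w c i / α ^ i ≠ 0 := div_ne_zero hw0 (pow_ne_zero _ hα0)
  have hwi : w c i = (w c i / α ^ i) * α ^ i := by
    rw [div_mul_cancel₀ _ (pow_ne_zero _ hα0)]
  have hStw : St (w c i) := by
    rw [hwi]
    exact hStmul _ _ (hStF _ hu) (hStpow _ hStα i)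
  obtain ⟨j, b, hb, hbne, hj⟩ := hunit (c / w c i) (hStdiv _ _ hc hStw)
    (by rw [map_div₀, hvi, div_self (v.pos hc0).ne'])
  refine ⟨j + i, b * (w c i / α ^ i), (fixk U).mul_mem hb hu, mul_ne_zero hbne hune, ?_⟩
  have hcc : c = (c / w c i) * ((w c i / α ^ i) * α ^ i) := by
    rw [← hwi, div_mul_cancel₀ _ hw0]
  have h5 : Nm c = Nm (c / w c i) * (Nm (w c i / α ^ i) * Nm (α ^ i)) := by
    rw [← hNmul, ← hNmul, ← hcc]
  change Nm c = _
  rw [h5, hj, hNfix _ hu, hNpow, hNα, mul_pow, pow_add]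
  ring

end Pool.Agent.Lib.MP_2f3286_ag.Koe
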