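import Mathlib
import Pool.Agent.Lib.MP_2f3286_ag.Koe.Defs
import Pool.Agent.Lib.MP_2f3286_ag.Koe.St
import Pool.Agent.Lib.MP_2f3286_ag.Koe.Kum
import Pool.Agent.Lib.MP_2f3286_ag.Koe.KNorm

/-!
# STEIN: `1 + x` is a power of `x` times an `ℓ`-th power
-/

namespace Pool.Agent.Lib.MP_2f3286_ag.Koe

open St

variable {k kb : Type*} [Field k] [Field kb] [Algebra k kb] [IsGalois k kb] [IsAlgClosed kb]
  [CharZero kb] {K Ω : Type*} [Field K] [Field Ω] [Algebra K Ω] [Algebra kb Ω]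
  [Algebra.IsAlgebraic K Ω] [IsAlgClosed Ω]

variable {v : AbsoluteValue kb ℝ} {D : Subgroup Gal(kb/k)} {p : ℕ}

/-- STEIN -/
theorem stein (hd : LocData v D p) (s : Gal(kb/k) →* Gal(Ω/K)) (hs : Continuous s)
    (hsec : ∀ σ a, s σ (algebraMap kb Ω a) = algebraMap kb Ω (σ a))
    {ℓ : ℕ} (hℓ : ℓ.Prime) (h2 : ℓ ≠ 2) (hp : ℓ ≠ p)
    {U : Subgroup Gal(kb/k)} (hU : FinIn D U) (hμ : ∀ z : kb, z ^ ℓ = 1 → z ∈ fixk U)
    {x : Ω} (hx : x ∈ fixO s U) (hx0 : x ≠ 0) (hx1 : 1 + x ≠ 0)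
    (hnp : ¬ ∃ y ∈ fixO s U, y ^ ℓ = x) :
    ∃ i : ℕ, ∃ y ∈ fixO s U, y ≠ 0 ∧ 1 + x = x ^ i * y ^ ℓ := by
  have hodd : Odd ℓ := hℓ.odd_of_ne_two h2
  have hℓ1 : 1 ≤ ℓ := hℓ.one_le
  -- `-x = a y^ℓ`
  obtain ⟨a, haU, ha0, y, hy, hy0, hxy⟩ := kum s hs hsec hU.2.1 (neg_mem hx) (neg_ne_zero.mpr hx0)
    hℓ1
  obtain ⟨α, hαa⟩ := IsAlgClosed.exists_pow_nat_eq a hℓ.pos
  have hα0 : α ≠ 0 := by
    rintro rfl
    rw [zero_pow hℓ.ne_zero] at hαa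
    exact ha0 hαa.symm
  have hα : α ^ ℓ ∈ fixk U := by rw [hαa]; exact haU
  have hα1 : α ∉ fixk U := by
    intro h
    apply hnp
    refine ⟨-(algebraMap kb Ω α * y), neg_mem (mul_mem ?_ hy), ?_⟩
    · intro σ hσ
      rw [hsec, mem_fixk.mp h σ hσ]
    · rw [hodd.neg_pow, mul_pow, ← map_pow, hαa, ← hxy, neg_neg]
  obtain ⟨τ, hτ, ζ, hζ, hτα, hN⟩ := knorm hd hℓ h2 hp hU hμ hα0 hα hα1
  have hζU : ζ ∈ fixk U := hμ ζ hζ.pow_eq_one
  have hζfix : ∀ σ ∈ U, ∀ i : ℕ, σ (ζ ^ i) = ζ ^ i := fun σ hσ i => by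
    rw [map_pow, mem_fixk.mp hζU σ hσ]
  have hτi : ∀ i : ℕ, (τ ^ i) α = ζ ^ i * α := by
    intro i
    induction i with
    | zero => simp
    | succ i ih =>
      rw [pow_succ', AlgEquiv.mul_apply, ih, map_mul, hζfix τ hτ, hτα]
      ring
  set B : Ω := algebraMap kb Ω α * y with hB
  have hBℓ : B ^ ℓ = -x := by rw [hB, mul_pow, ← map_pow, hαa, ← hxy]
  -- the product formula
  have hζΩ : IsPrimitiveRoot (algebraMap kb Ω ζ) ℓ :=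
    hζ.map_of_injective (algebraMap kb Ω).injective
  have hprod : 1 + x = ∏ i ∈ Finset.range ℓ, (s (τ ^ i)) (1 - B) := by
    have h3 := congrArg (Polynomial.eval 1) (X_pow_sub_C_eq_prod hζΩ hℓ.pos hBℓ)
    rw [Polynomial.eval_prod] at h3
    simp only [Polynomial.eval_sub, Polynomial.eval_pow, Polynomial.eval_X,
      Polynomial.eval_C, one_pow, sub_neg_eq_add] at h3
    rw [h3]
    refine Finset.prod_congr rfl fun i _ => ?_
    rw [map_sub, map_one, hB, map_mul, hsec, hτi, map_mul, map_pow,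
      mem_fixO.mp hy _ (pow_mem hτ i)]
    ring
  have h1B : 1 - B ≠ 0 := by
    intro h
    apply hx1
    rw [hprod]
    apply Finset.prod_eq_zero (Finset.mem_range.mpr hℓ.pos)
    rw [h, map_zero]
  -- descend `1 - B` to the stabiliser
  have hBfix : 1 - B ∈ fixO s (stab U α) := by
    intro σ hσ
    rw [map_sub, map_one, hB, map_mul, hsec, hσ.2, mem_fixO.mp hy _ hσ.1]
  obtain ⟨c, hc, hc0, m, hm, hm0, hcm⟩ := kum s hs hsec (stab_closed hU.2.1 α) hBfix h1B hℓ1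
  obtain ⟨j, b, hb, hb0, hprodc⟩ := hN c (fun σ hσ hσα => hc σ ⟨hσ, hσα⟩) hc0
  set M : Ω := ∏ i ∈ Finset.range ℓ, (s (τ ^ i)) m with hM
  have hf0 : ∀ i, (s (τ ^ i)) m ≠ 0 := fun i => by
    rw [Ne, map_eq_zero_iff _ (s (τ ^ i)).injective]
    exact hm0
  have hstab : ∀ σ σ' : Gal(kb/k), σ ∈ U → σ' ∈ U → σ α = σ' α → s σ m = s σ' m := by
    intro σ σ' hσ hσ' h
    have h3 : σ'⁻¹ * σ ∈ stab U α := by
      refine ⟨mul_mem (inv_mem hσ') hσ, ?_⟩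
      rw [AlgEquiv.mul_apply, h, ← AlgEquiv.mul_apply, inv_mul_cancel, AlgEquiv.one_apply]
    have h4 := mem_fixO.mp hm _ h3
    have h5 : s σ m = s σ' (s (σ'⁻¹ * σ) m) := by
      rw [← AlgEquiv.mul_apply, ← map_mul, mul_inv_cancel_left]
    rw [h5, h4]
  have hfper : ∀ i, (s (τ ^ (i + ℓ))) m = (s (τ ^ i)) m := by
    intro i
    apply hstab _ _ (pow_mem hτ _) (pow_mem hτ _)
    rw [hτi, hτi, pow_add, hζ.pow_eq_one, mul_one]
  have hMU : M ∈ fixO s U := by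
    intro σ hσ
    -- `σ α = ζ ^ e α`
    have h3 : (σ α / α) ^ ℓ = 1 := by
      rw [div_pow, ← map_pow, mem_fixk.mp hα σ hσ, div_self (pow_ne_zero _ hα0)]
    have hne : NeZero ℓ := ⟨hℓ.ne_zero⟩
    obtain ⟨e, _, he⟩ := hζ.eq_pow_of_pow_eq_one h3
    have h4 : σ α = ζ ^ e * α := by rw [he, div_mul_cancel₀ _ hα0]
    rw [hM, map_prod]
    rw [← prod_range_shift (fun i => (s (τ ^ i)) m) hf0 hfper e]
    refine Finset.prod_congr rfl fun i _ => ?_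
    rw [← AlgEquiv.mul_apply, ← map_mul]
    apply hstab _ _ (mul_mem hσ (pow_mem hτ _)) (pow_mem hτ _)
    rw [AlgEquiv.mul_apply, hτi, hτi, map_mul, hζfix σ hσ, h4, pow_add]
    ring
  have hM0 : M ≠ 0 := Finset.prod_ne_zero_iff.mpr fun i _ => hf0 i
  have hpc : ∏ i ∈ Finset.range ℓ, (s (τ ^ i)) (algebraMap kb Ω c) =
      algebraMap kb Ω (∏ i ∈ Finset.range ℓ, (τ ^ i) c) := by
    rw [map_prod]
    exact Finset.prod_congr rfl fun i _ => hsec _ _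
  have h5 : 1 + x = algebraMap kb Ω ((α ^ ℓ) ^ j * b ^ ℓ) * M ^ ℓ := by
    rw [hprod, ← hprodc, ← hpc, hM, ← Finset.prod_pow, ← Finset.prod_mul_distrib]
    refine Finset.prod_congr rfl fun i _ => ?_
    rw [hcm, map_mul (s (τ ^ i)), map_pow (s (τ ^ i)) m ℓ]
  have hyℓ : y ^ ℓ ≠ 0 := pow_ne_zero _ hy0
  have haΩ : algebraMap kb Ω a = -x / y ^ ℓ := by
    rw [hxy, mul_div_cancel_right₀ _ hyℓ]
  refine ⟨j, (-1) ^ j * (y⁻¹) ^ j * algebraMap kb Ω b * M, ?_, ?_, ?_⟩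
  · refine mul_mem (mul_mem (mul_mem (pow_mem (neg_mem (one_mem _)) _)
      (pow_mem (inv_mem hy) _)) ?_) hMU
    intro σ hσ
    rw [hsec, mem_fixk.mp hb σ hσ]
  · have h6 : algebraMap kb Ω b ≠ 0 := by
      rw [Ne, map_eq_zero_iff _ (algebraMap kb Ω).injective]
      exact hb0
    exact mul_ne_zero (mul_ne_zero (mul_ne_zero (pow_ne_zero _ (neg_ne_zero.mpr one_ne_zero))
      (pow_ne_zero _ (inv_ne_zero hy0))) h6) hM0
  · rw [h5, hαa, map_mul, map_pow, map_pow, haΩ]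
    have h7 : ((-1 : Ω) ^ j) ^ ℓ = (-1) ^ j := by
      rw [← pow_mul, mul_comm, pow_mul, hodd.neg_one_pow]
    rw [mul_pow, mul_pow, mul_pow, h7, div_pow, neg_pow x]
    rw [← pow_mul, ← pow_mul, mul_comm j ℓ, inv_pow]
    field_simp

end Pool.Agent.Lib.MP_2f3286_ag.Koe
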