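import Pool.Agent.Lib.MP_2f3286_ag.Koe.Val
import Pool.Agent.Lib.MP_2f3286_ag.Koe.Rig
import Pool.Agent.Lib.MP_2f3286_ag.Koe.Kum
import Pool.Agent.Lib.MP_2f3286_ag.Koe.Root
import Pool.Agent.Lib.MP_2f3286_ag.Koe.Eps
import Pool.Agent.Lib.MP_2f3286_ag.Koe.Stein

/-!
# CAN: the canonical valuation ring of the field fixed by `s(U)`

`ℓ` is `3` or `5` and different from `p`. The elements of the fixed field outside the group `PH`
(units of the base times `ℓ`-th powers) are rigid for the group `PT` of `ℓ`-th powers, so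
`val_of_rigid` gives a valuation ring; its trace on the base is the unit ball of `v`, and it is
preserved by the normaliser of `U` in `D`.
-/

namespace Pool.Agent.Lib.MP_2f3286_ag.Koe

namespace Can

section can

variable {k kb : Type*} [Field k] [Field kb] [Algebra k kb]
  {K Ω : Type*} [Field K] [Field Ω] [Algebra K Ω] [Algebra kb Ω]

/-- nonzero `ℓ`-th powers of the field fixed by `s(U)` -/
def PT (s : Gal(kb/k) →* Gal(Ω/K)) (U : Subgroup Gal(kb/k)) (ℓ : ℕ) (x : Ω) : Prop :=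
  ∃ y ∈ fixO s U, y ≠ 0 ∧ x = y ^ ℓ

/-- units of the base times nonzero `ℓ`-th powers -/
def PH (s : Gal(kb/k) →* Gal(Ω/K)) (U : Subgroup Gal(kb/k)) (v : AbsoluteValue kb ℝ) (ℓ : ℕ)
    (x : Ω) : Prop :=
  ∃ a ∈ fixk U, v a = 1 ∧ ∃ y ∈ fixO s U, y ≠ 0 ∧ x = algebraMap kb Ω a * y ^ ℓ

/-- small elements -/
def PS (s : Gal(kb/k) →* Gal(Ω/K)) (U : Subgroup Gal(kb/k)) (v : AbsoluteValue kb ℝ) (ℓ : ℕ)
    (x : Ω) : Prop :=
  ¬ PH s U v ℓ x ∧ PT s U ℓ (1 + x)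

/-- nonzero `ℓ`-th powers as a group of units -/
def subT (s : Gal(kb/k) →* Gal(Ω/K)) (U : Subgroup Gal(kb/k)) (ℓ : ℕ) :
    Subgroup (fixO s U)ˣ where
  carrier := {x | PT s U ℓ ((x : fixO s U) : Ω)}
  mul_mem' := by
    rintro x y ⟨a, ha, ha0, hax⟩ ⟨b, hb, hb0, hby⟩
    refine ⟨a * b, (fixO s U).mul_mem ha hb, mul_ne_zero ha0 hb0, ?_⟩
    push_cast
    rw [hax, hby, mul_pow]
  one_mem' := ⟨1, (fixO s U).one_mem, one_ne_zero, by push_cast; simp⟩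
  inv_mem' := by
    rintro x ⟨a, ha, ha0, hax⟩
    refine ⟨a⁻¹, (fixO s U).inv_mem ha, inv_ne_zero ha0, ?_⟩
    rw [Units.val_inv_eq_inv_val]
    push_cast
    rw [hax, inv_pow]

/-- `PH` as a group of units -/
def subH (s : Gal(kb/k) →* Gal(Ω/K)) (U : Subgroup Gal(kb/k)) (v : AbsoluteValue kb ℝ) (ℓ : ℕ) :
    Subgroup (fixO s U)ˣ where
  carrier := {x | PH s U v ℓ ((x : fixO s U) : Ω)}
  mul_mem' := by
    rintro x y ⟨c, hc, hc1, a, ha, ha0, hax⟩ ⟨d, hd, hd1, b, hb, hb0, hby⟩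
    refine ⟨c * d, (fixk U).mul_mem hc hd, by rw [map_mul, hc1, hd1, one_mul], a * b,
      (fixO s U).mul_mem ha hb, mul_ne_zero ha0 hb0, ?_⟩
    change ((x : fixO s U) : Ω) * ((y : fixO s U) : Ω) = _
    rw [hax, hby, mul_pow, map_mul]
    ring
  one_mem' := ⟨1, (fixk U).one_mem, map_one v, 1, (fixO s U).one_mem, one_ne_zero, by
    change (1 : Ω) = _
    rw [map_one, one_pow, one_mul]⟩
  inv_mem' := by
    rintro x ⟨c, hc, hc1, a, ha, ha0, hax⟩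
    refine ⟨c⁻¹, (fixk U).inv_mem hc, by rw [map_inv₀, hc1, inv_one], a⁻¹,
      (fixO s U).inv_mem ha, inv_ne_zero ha0, ?_⟩
    rw [Units.val_inv_eq_inv_val]
    change ((x : fixO s U) : Ω)⁻¹ = _
    rw [hax, inv_pow, map_inv₀, mul_inv]

omit [Algebra kb Ω] in
theorem mem_subT {s : Gal(kb/k) →* Gal(Ω/K)} {U : Subgroup Gal(kb/k)} {ℓ : ℕ}
    {x : (fixO s U)ˣ} : x ∈ subT s U ℓ ↔ PT s U ℓ ((x : fixO s U) : Ω) := Iff.rfl

theorem mem_subH {s : Gal(kb/k) →* Gal(Ω/K)} {U : Subgroup Gal(kb/k)} {v : AbsoluteValue kb ℝ}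
    {ℓ : ℕ} {x : (fixO s U)ˣ} : x ∈ subH s U v ℓ ↔ PH s U v ℓ ((x : fixO s U) : Ω) := Iff.rfl

theorem Sm_iff {s : Gal(kb/k) →* Gal(Ω/K)} {U : Subgroup Gal(kb/k)} {v : AbsoluteValue kb ℝ}
    {ℓ : ℕ} {x : (fixO s U)ˣ} :
    Sm (subT s U ℓ) (subH s U v ℓ) x ↔ PS s U v ℓ ((x : fixO s U) : Ω) := by
  unfold Sm PS
  rw [mem_subH]
  refine and_congr_right fun _ => ⟨?_, ?_⟩
  · rintro ⟨u, hu, hux⟩
    have h := mem_subT.1 hu
    rw [hux] at h
    push_cast at h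
    exact h
  · rintro ⟨y, hy, hy0, hxy⟩
    have h0 : (1 : fixO s U) + x ≠ 0 := by
      intro h
      have := congrArg (fun z : fixO s U => (z : Ω)) h
      push_cast at this
      rw [hxy] at this
      exact pow_ne_zero _ hy0 this
    refine ⟨Units.mk0 _ h0, ?_, rfl⟩
    rw [mem_subT]
    refine ⟨y, hy, hy0, ?_⟩
    rw [Units.val_mk0]
    push_cast
    exact hxy

omit [Algebra kb Ω] in
/-- `s τ` acts on the field fixed by `s(U)` if `τ` normalises `U` -/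
theorem smap_mem {s : Gal(kb/k) →* Gal(Ω/K)} {U : Subgroup Gal(kb/k)} {τ : Gal(kb/k)}
    (h : ∀ σ, σ ∈ U ↔ τ * σ * τ⁻¹ ∈ U) {x : Ω} (hx : x ∈ fixO s U) : s τ x ∈ fixO s U := by
  intro σ hσ
  have h1 : τ⁻¹ * σ * τ ∈ U := by
    rw [h]
    convert hσ using 1
    group
  have h2 : σ * τ = τ * (τ⁻¹ * σ * τ) := by group
  have h3 : s σ (s τ x) = s (σ * τ) x := by rw [map_mul]; rfl
  rw [h3, h2, map_mul]
  change s τ (s (τ⁻¹ * σ * τ) x) = _
  rw [hx _ h1]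

theorem map_mem {U : Subgroup Gal(kb/k)} {τ : Gal(kb/k)}
    (h : ∀ σ, σ ∈ U ↔ τ * σ * τ⁻¹ ∈ U) {x : kb} (hx : x ∈ fixk U) : τ x ∈ fixk U := by
  intro σ hσ
  have h1 : τ⁻¹ * σ * τ ∈ U := by
    rw [h]
    convert hσ using 1
    group
  have h2 : σ * τ = τ * (τ⁻¹ * σ * τ) := by group
  have h3 : σ (τ x) = (σ * τ) x := rfl
  rw [h3, h2]
  change τ ((τ⁻¹ * σ * τ) x) = _
  rw [hx _ h1]

theorem norm_inv {U : Subgroup Gal(kb/k)} {τ : Gal(kb/k)}
    (h : ∀ σ, σ ∈ U ↔ τ * σ * τ⁻¹ ∈ U) (σ : Gal(kb/k)) : σ ∈ U ↔ τ⁻¹ * σ * τ⁻¹⁻¹ ∈ U := by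
  rw [h (τ⁻¹ * σ * τ⁻¹⁻¹)]
  have : τ * (τ⁻¹ * σ * τ⁻¹⁻¹) * τ⁻¹ = σ := by group
  rw [this]

omit [Algebra kb Ω] in
theorem PT_map {s : Gal(kb/k) →* Gal(Ω/K)} {U : Subgroup Gal(kb/k)} {τ : Gal(kb/k)} {ℓ : ℕ}
    (h : ∀ σ, σ ∈ U ↔ τ * σ * τ⁻¹ ∈ U) {x : Ω} (hx : PT s U ℓ x) : PT s U ℓ (s τ x) := by
  obtain ⟨y, hy, hy0, rfl⟩ := hx
  exact ⟨s τ y, smap_mem h hy, by simpa using hy0, map_pow _ _ _⟩

theorem PH_map {s : Gal(kb/k) →* Gal(Ω/K)} {U : Subgroup Gal(kb/k)} {v : AbsoluteValue kb ℝ}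
    (hsec : ∀ σ a, s σ (algebraMap kb Ω a) = algebraMap kb Ω (σ a))
    {τ : Gal(kb/k)} (hv : ∀ a, v (τ a) = v a) {ℓ : ℕ}
    (h : ∀ σ, σ ∈ U ↔ τ * σ * τ⁻¹ ∈ U) {x : Ω} (hx : PH s U v ℓ x) : PH s U v ℓ (s τ x) := by
  obtain ⟨a, ha, ha1, y, hy, hy0, rfl⟩ := hx
  refine ⟨τ a, map_mem h ha, by rw [hv, ha1], s τ y, smap_mem h hy, by simpa using hy0, ?_⟩
  rw [map_mul, map_pow, hsec]

omit [Algebra kb Ω] in
theorem sinv {s : Gal(kb/k) →* Gal(Ω/K)} (τ : Gal(kb/k)) (x : Ω) : s τ (s τ⁻¹ x) = x := by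
  have : s τ (s τ⁻¹ x) = (s τ * s τ⁻¹) x := rfl
  rw [this, ← map_mul, mul_inv_cancel, map_one]
  rfl

omit [Algebra kb Ω] in
theorem sinv' {s : Gal(kb/k) →* Gal(Ω/K)} (τ : Gal(kb/k)) (x : Ω) : s τ⁻¹ (s τ x) = x := by
  have : s τ⁻¹ (s τ x) = (s τ⁻¹ * s τ) x := rfl
  rw [this, ← map_mul, inv_mul_cancel, map_one]
  rfl

theorem PS_map {s : Gal(kb/k) →* Gal(Ω/K)} {U : Subgroup Gal(kb/k)} {v : AbsoluteValue kb ℝ}
    (hsec : ∀ σ a, s σ (algebraMap kb Ω a) = algebraMap kb Ω (σ a))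
    {τ : Gal(kb/k)} (hv : ∀ a, v (τ a) = v a) {ℓ : ℕ}
    (h : ∀ σ, σ ∈ U ↔ τ * σ * τ⁻¹ ∈ U) {x : Ω} (hx : PS s U v ℓ x) : PS s U v ℓ (s τ x) := by
  refine ⟨fun h1 => hx.1 ?_, ?_⟩
  · have hv' : ∀ a, v (τ⁻¹ a) = v a := by
      intro a
      rw [← hv (τ⁻¹ a)]
      congr 1
      have : τ (τ⁻¹ a) = (τ * τ⁻¹) a := rfl
      rw [this, mul_inv_cancel]
      rfl
    have := PH_map hsec hv' (norm_inv h) h1
    rwa [sinv'] at this
  · have := PT_map h hx.2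
    rwa [map_add, map_one] at this

end can

section core

variable {k kb : Type*} [Field k] [Field kb] [Algebra k kb] [IsGalois k kb] [IsAlgClosed kb]
  [CharZero kb] {K Ω : Type*} [Field K] [Field Ω] [Algebra K Ω] [Algebra kb Ω]
  [Algebra.IsAlgebraic K Ω] [IsAlgClosed Ω] {v : AbsoluteValue kb ℝ} {D : Subgroup Gal(kb/k)}
  {p : ℕ}

omit [IsGalois k kb] [IsAlgClosed kb] [CharZero kb] [Algebra.IsAlgebraic K Ω] [IsAlgClosed Ω] in
theorem base_mem {s : Gal(kb/k) →* Gal(Ω/K)}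
    (hsec : ∀ σ a, s σ (algebraMap kb Ω a) = algebraMap kb Ω (σ a))
    {U : Subgroup Gal(kb/k)} {a : kb} (ha : a ∈ fixk U) : algebraMap kb Ω a ∈ fixO s U :=
  fun σ hσ => by rw [hsec, ha σ hσ]

theorem can_core (hd : LocData v D p) (s : Gal(kb/k) →* Gal(Ω/K)) (hs : Continuous s)
    (hsec : ∀ σ a, s σ (algebraMap kb Ω a) = algebraMap kb Ω (σ a))
    {ℓ : ℕ} (hℓ : ℓ.Prime) (h2 : ℓ ≠ 2) (hp : ℓ ≠ p)
    {U : Subgroup Gal(kb/k)} (hU : FinIn D U) (hμ : ∀ z : kb, z ^ ℓ = 1 → z ∈ fixk U)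
    (heps : ∃ ε ∈ fixk U, ∃ N : ℕ, 1 ≤ N ∧ ε ^ N = 1 ∧ (¬ ∃ b ∈ fixk U, b ^ ℓ = ε) ∧
        (∃ b ∈ fixk U, b ≠ 0 ∧ b ^ ℓ = 1 + ε) ∧
        ∀ a ∈ fixk U, v a = 1 → ∃ j : ℕ, ∃ b ∈ fixk U, b ≠ 0 ∧ a = ε ^ j * b ^ ℓ) :
    ∃ A : ValuationSubring (fixO s U), ∀ (x : Ω) (hx : x ∈ fixO s U), x ≠ 0 →
      ((⟨x, hx⟩ : fixO s U) ∈ A ↔ PS s U v ℓ x ∨
        (PH s U v ℓ x ∧ ∀ y ∈ fixO s U, y ≠ 0 → PS s U v ℓ y → PS s U v ℓ (x * y))) := by
  obtain ⟨ε, hε, N, hN, hεN, hεnp, ⟨b1, hb1, hb10, hb1ε⟩, hunits⟩ := heps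
  have hε0 : ε ≠ 0 := by
    rintro rfl
    rw [zero_pow (by omega)] at hεN
    exact zero_ne_one hεN
  have hvε : v ε = 1 := by
    have h : v ε ^ N = 1 := by rw [← map_pow, hεN, map_one]
    exact (pow_eq_one_iff_of_nonneg (v.nonneg _) (by omega)).1 h
  have hεO := base_mem hsec hε
  have hinj : Function.Injective (algebraMap kb Ω) := (algebraMap kb Ω).injective
  have hεO0 : algebraMap kb Ω ε ≠ 0 := fun h => hε0 (hinj (by rw [h, map_zero]))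
  set e : (fixO s U)ˣ := Units.mk0 ⟨algebraMap kb Ω ε, hεO⟩ (fun h => hεO0 (congrArg Subtype.val h))
    with he
  have heval : ((e : fixO s U) : Ω) = algebraMap kb Ω ε := rfl
  have hb1O0 : algebraMap kb Ω b1 ≠ 0 := fun h => hb10 (hinj (by rw [h, map_zero]))
  obtain ⟨hTH, hneg, hsq, hrig⟩ := rigid hℓ h2 (subT s U ℓ) (subH s U v ℓ)
    (fun x => ⟨((x : fixO s U) : Ω), (x : fixO s U).2,
      fun h => x.ne_zero (Subtype.ext h), by push_cast; rfl⟩) e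
    (by
      rintro ⟨y, hy, hy0, h⟩
      rw [heval] at h
      obtain ⟨b, hb, hbε, -⟩ := kum_inj s hsec hy hℓ.one_le h
      exact hεnp ⟨b, hb, hbε⟩)
    hN
    (by
      ext
      push_cast
      rw [heval, ← map_pow, hεN, map_one])
    (by
      have h0 : (1 : fixO s U) + e ≠ 0 := by
        intro h
        have h' := congrArg (fun z : fixO s U => (z : Ω)) h
        change (1 : Ω) + algebraMap kb Ω ε = 0 at h'
        rw [← map_one (algebraMap kb Ω), ← map_add, ← hb1ε, map_pow] at h'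
        exact pow_ne_zero _ hb1O0 h'
      refine ⟨Units.mk0 _ h0, ⟨algebraMap kb Ω b1, base_mem hsec hb1, hb1O0, ?_⟩, rfl⟩
      change (1 : Ω) + algebraMap kb Ω ε = _
      rw [← map_one (algebraMap kb Ω), ← map_add, ← hb1ε, map_pow])
    (by
      intro x
      constructor
      · rintro ⟨a, ha, ha1, y, hy, hy0, hxy⟩
        obtain ⟨j, b, hb, hb0, hab⟩ := hunits a ha ha1
        have hbO0 : algebraMap kb Ω b ≠ 0 := fun h => hb0 (hinj (by rw [h, map_zero]))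
        refine ⟨j, algebraMap kb Ω b * y, (fixO s U).mul_mem (base_mem hsec hb) hy,
          mul_ne_zero hbO0 hy0, ?_⟩
        rw [Units.val_div_eq_div_val]
        change ((x : fixO s U) : Ω) / (((e ^ j : (fixO s U)ˣ) : fixO s U) : Ω) = _
        rw [Units.val_pow_eq_pow_val]
        change ((x : fixO s U) : Ω) / (algebraMap kb Ω ε) ^ j = _
        rw [hxy, hab, map_mul, map_pow, map_pow, mul_pow]
        field_simp
      · rintro ⟨j, y, hy, hy0, hxy⟩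
        refine ⟨ε ^ j, (fixk U).pow_mem hε j, by rw [map_pow, hvε, one_pow], y, hy, hy0, ?_⟩
        rw [Units.val_div_eq_div_val] at hxy
        change ((x : fixO s U) : Ω) / (((e ^ j : (fixO s U)ˣ) : fixO s U) : Ω) = _ at hxy
        rw [Units.val_pow_eq_pow_val] at hxy
        change ((x : fixO s U) : Ω) / (algebraMap kb Ω ε) ^ j = _ at hxy
        rw [div_eq_iff (pow_ne_zero _ hεO0)] at hxy
        rw [hxy, map_pow, mul_comm])
    (by
      intro x hx u hu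
      have hx0 : ((x : fixO s U) : Ω) ≠ 0 := fun h => x.ne_zero (Subtype.ext h)
      have hux : ((u : fixO s U) : Ω) = 1 + ((x : fixO s U) : Ω) := by rw [hu]; rfl
      have hu0 : ((u : fixO s U) : Ω) ≠ 0 := fun h => u.ne_zero (Subtype.ext h)
      obtain ⟨i, y, hy, hy0, hxy⟩ := stein hd s hs hsec hℓ h2 hp hU hμ (x : fixO s U).2 hx0
        (by rw [← hux]; exact hu0)
        (by
          rintro ⟨y, hy, hyx⟩
          refine hx ⟨y, hy, ?_, hyx.symm⟩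
          rintro rfl
          rw [zero_pow hℓ.ne_zero] at hyx
          exact hx0 hyx.symm)
      refine ⟨i, y, hy, hy0, ?_⟩
      rw [Units.val_div_eq_div_val]
      change ((u : fixO s U) : Ω) / (((x ^ i : (fixO s U)ˣ) : fixO s U) : Ω) = _
      rw [Units.val_pow_eq_pow_val]
      change ((u : fixO s U) : Ω) / ((x : fixO s U) : Ω) ^ i = _
      rw [hux, hxy]
      field_simp)
  obtain ⟨A, hA⟩ := val_of_rigid (subT s U ℓ) (subH s U v ℓ) hTH hneg hsq hrig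
  refine ⟨A, fun x hx hx0 => ?_⟩
  have h := hA (Units.mk0 (⟨x, hx⟩ : fixO s U) (fun h => hx0 (congrArg Subtype.val h)))
  rw [Units.val_mk0, Sm_iff, mem_subH, Units.val_mk0] at h
  rw [h]
  refine or_congr Iff.rfl (and_congr_right fun _ => ⟨?_, ?_⟩)
  · intro h' y hy hy0 hPS
    have := h' (Units.mk0 (⟨y, hy⟩ : fixO s U) (fun h => hy0 (congrArg Subtype.val h)))
      (Sm_iff.2 hPS)
    exact Sm_iff.1 this
  · intro h' y hy
    exact Sm_iff.2 (h' _ (y : fixO s U).2 (fun h => y.ne_zero (Subtype.ext h)) (Sm_iff.1 hy))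

/-- membership in `PH` of elements of the base -/
theorem PH_base {s : Gal(kb/k) →* Gal(Ω/K)}
    (hsec : ∀ σ a, s σ (algebraMap kb Ω a) = algebraMap kb Ω (σ a))
    {ℓ : ℕ} (hℓ : 1 ≤ ℓ) {U : Subgroup Gal(kb/k)} {a : kb} (ha : a ∈ fixk U) (ha0 : a ≠ 0) :
    PH s U v ℓ (algebraMap kb Ω a) ↔ ∃ c ∈ fixk U, c ≠ 0 ∧ v a = v c ^ ℓ := by
  have hinj : Function.Injective (algebraMap kb Ω) := (algebraMap kb Ω).injective
  constructor
  · rintro ⟨b, hb, hb1, y, hy, hy0, h⟩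
    have hb0 : b ≠ 0 := by
      rintro rfl
      rw [map_zero] at hb1
      exact zero_ne_one hb1
    have hbO0 : algebraMap kb Ω b ≠ 0 := fun h => hb0 (hinj (by rw [h, map_zero]))
    have h1 : algebraMap kb Ω (a / b) = y ^ ℓ := by
      rw [map_div₀, h, mul_div_cancel_left₀ _ hbO0]
    obtain ⟨c, hc, hca, hcy⟩ := kum_inj s hsec hy hℓ h1
    refine ⟨c, hc, ?_, ?_⟩
    · rintro rfl
      rw [map_zero] at hcy
      exact hy0 hcy.symm
    · have h2 : a = b * c ^ ℓ := by rw [hca]; field_simp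
      rw [h2, map_mul, map_pow, hb1, one_mul]
  · rintro ⟨c, hc, hc0, h⟩
    have hcO0 : algebraMap kb Ω c ≠ 0 := fun h => hc0 (hinj (by rw [h, map_zero]))
    refine ⟨a / c ^ ℓ, (fixk U).div_mem ha ((fixk U).pow_mem hc ℓ), ?_, algebraMap kb Ω c,
      base_mem hsec hc, hcO0, ?_⟩
    · rw [map_div₀, map_pow, h]
      exact div_self (pow_ne_zero _ ((v.ne_zero_iff).2 hc0))
    · rw [map_div₀, map_pow]
      field_simp

end core

end Can

open Can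

variable {k kb : Type*} [Field k] [Field kb] [Algebra k kb] [IsGalois k kb] [IsAlgClosed kb]
  [CharZero kb] {K Ω : Type*} [Field K] [Field Ω] [Algebra K Ω] [Algebra kb Ω]
  [Algebra.IsAlgebraic K Ω] [IsAlgClosed Ω] {v : AbsoluteValue kb ℝ} {D : Subgroup Gal(kb/k)}
  {p : ℕ}

/-- CAN -/
theorem can (hd : LocData v D p) (s : Gal(kb/k) →* Gal(Ω/K)) (hs : Continuous s)
    (hsec : ∀ σ a, s σ (algebraMap kb Ω a) = algebraMap kb Ω (σ a)) :
    ∃ U₀, FinIn D U₀ ∧ ∀ U, FinIn D U → U ≤ U₀ → ∃ O : Subring Ω,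
      (∀ x ∈ O, x ∈ fixO s U) ∧ (∀ x ∈ fixO s U, x ∈ O ∨ x⁻¹ ∈ O) ∧
      (∀ a ∈ fixk U, algebraMap kb Ω a ∈ O ↔ v a ≤ 1) ∧
      ∀ τ ∈ D, (∀ σ, σ ∈ U ↔ τ * σ * τ⁻¹ ∈ U) → ∀ x ∈ O, s τ x ∈ O := by
  obtain ⟨ℓ, hℓ, h2, hp⟩ : ∃ ℓ : ℕ, ℓ.Prime ∧ ℓ ≠ 2 ∧ ℓ ≠ p := by
    by_cases h : p = 3
    · exact ⟨5, by norm_num, by norm_num, by omega⟩
    · exact ⟨3, by norm_num, by norm_num, by omega⟩
  have hnd : ¬ p ∣ ℓ := fun h => hp ((Nat.prime_dvd_prime_iff_eq hd.prime hℓ).1 h).symm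
  obtain ⟨U₀, hU₀, hmain⟩ := eps hd hℓ h2 hp
  refine ⟨U₀, hU₀, fun U hU hUU => ?_⟩
  obtain ⟨hμ, heps⟩ := hmain U hU hUU
  obtain ⟨A, hA⟩ := can_core hd s hs hsec hℓ h2 hp hU hμ heps
  have hinj : Function.Injective (algebraMap kb Ω) := (algebraMap kb Ω).injective
  have hO0 : ∀ {a : kb}, a ≠ 0 → algebraMap kb Ω a ≠ 0 :=
    fun {a} ha h => ha (hinj (by rw [h, map_zero]))
  obtain ⟨π, hπ, hπ0, hπ1, hmax⟩ := hd.disc U hU
  have hπne : π ≠ 0 := fun h => by rw [h, map_zero] at hπ0; exact lt_irrefl _ hπ0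
  have hℓ2 : 2 ≤ ℓ := hℓ.two_le
  -- values of `ℓ`-th powers
  have hpow : ∀ a ∈ fixk U, a ≠ 0 → v a < 1 → PH s U v ℓ (algebraMap kb Ω a) →
      v a < v π := by
    intro a ha ha0 ha1 hH
    obtain ⟨c, hc, hc0, hac⟩ := (PH_base hsec hℓ.one_le ha ha0).1 hH
    have hc1 : v c < 1 := by
      by_contra hcon
      push Not at hcon
      have := one_le_pow₀ hcon (n := ℓ)
      linarith
    have hc2 := hmax c hc hc1
    calc v a = v c ^ ℓ := hac
      _ ≤ v π ^ ℓ := pow_le_pow_left₀ (v.nonneg _) hc2 _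
      _ < v π ^ 1 := pow_lt_pow_right_of_lt_one₀ hπ0 hπ1 (by omega)
      _ = v π := pow_one _
  have hπH : ¬ PH s U v ℓ (algebraMap kb Ω π) := fun h =>
    lt_irrefl _ (hpow π hπ hπne hπ1 h)
  -- (a) elements of `F` outside `H`
  have hunitH : ∀ a ∈ fixk U, a ≠ 0 → v a = 1 → PH s U v ℓ (algebraMap kb Ω a) := by
    intro a ha ha0 ha1
    exact (PH_base hsec hℓ.one_le ha ha0).2 ⟨1, (fixk U).one_mem, one_ne_zero, by simp [ha1]⟩
  have hT_H : ∀ x : Ω, PT s U ℓ x → PH s U v ℓ x := by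
    rintro x ⟨y, hy, hy0, hxy⟩
    exact ⟨1, (fixk U).one_mem, map_one v, y, hy, hy0, by rw [map_one, one_mul, hxy]⟩
  have hsmall : ∀ a ∈ fixk U, v a < 1 → PT s U ℓ (1 + algebraMap kb Ω a) := by
    intro a ha ha1
    obtain ⟨b, hb, hbn, hb1⟩ := root_one hd hU.1 (a := 1 + a)
      ((fixk U).add_mem (fixk U).one_mem ha) (by simpa using ha1) hnd
    refine ⟨algebraMap kb Ω b, base_mem hsec hb, hO0 ?_, ?_⟩
    · rintro rfl
      rw [zero_sub, AbsoluteValue.map_neg, map_one] at hb1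
      exact lt_irrefl _ hb1
    · rw [← map_pow, hbn, map_add, map_one]
  have hPTmul : ∀ x y : Ω, PT s U ℓ x → PT s U ℓ y → PT s U ℓ (x * y) := by
    rintro x y ⟨a, ha, ha0, hxa⟩ ⟨b, hb, hb0, hyb⟩
    exact ⟨a * b, (fixO s U).mul_mem ha hb, mul_ne_zero ha0 hb0, by rw [hxa, hyb, mul_pow]⟩
  have hPTinv : ∀ x : Ω, PT s U ℓ x → PT s U ℓ x⁻¹ := by
    rintro x ⟨a, ha, ha0, hxa⟩
    exact ⟨a⁻¹, (fixO s U).inv_mem ha, inv_ne_zero ha0, by rw [hxa, inv_pow]⟩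
  have hPS : ∀ a ∈ fixk U, a ≠ 0 → ¬ PH s U v ℓ (algebraMap kb Ω a) →
      (PS s U v ℓ (algebraMap kb Ω a) ↔ v a < 1) := by
    intro a ha ha0 hH
    constructor
    · rintro ⟨-, hT⟩
      by_contra hcon
      push Not at hcon
      have h1 : v a ≠ 1 := fun h => hH (hunitH a ha ha0 h)
      have h2 : 1 < v a := lt_of_le_of_ne hcon (Ne.symm h1)
      have h3 : v a⁻¹ < 1 := by rw [map_inv₀]; exact inv_lt_one_of_one_lt₀ h2
      have h4 := hsmall a⁻¹ ((fixk U).inv_mem ha) h3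
      have h5 := hPTmul _ _ hT (hPTinv _ h4)
      have h6 : (1 + algebraMap kb Ω a) * (1 + algebraMap kb Ω a⁻¹)⁻¹ = algebraMap kb Ω a := by
        have h7 : (1 : Ω) + algebraMap kb Ω a⁻¹ ≠ 0 := by
          obtain ⟨y, hy, hy0, h⟩ := h4
          rw [h]; exact pow_ne_zero _ hy0
        rw [mul_inv_eq_iff_eq_mul₀ h7, map_inv₀]
        have := hO0 ha0
        field_simp
        ring
      rw [h6] at h5
      exact hH (hT_H _ h5)
    · intro h
      exact ⟨hH, hsmall a ha h⟩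
  -- multiplicativity of `PH`
  have hPHmul : ∀ x y : Ω, PH s U v ℓ x → PH s U v ℓ y → PH s U v ℓ (x * y) := by
    rintro x y ⟨c, hc, hc1, a, ha, ha0, hax⟩ ⟨d, hd, hd1, b, hb, hb0, hby⟩
    refine ⟨c * d, (fixk U).mul_mem hc hd, by rw [map_mul, hc1, hd1, one_mul], a * b,
      (fixO s U).mul_mem ha hb, mul_ne_zero ha0 hb0, ?_⟩
    rw [hax, hby, mul_pow, map_mul]
    ring
  have hPHinv : ∀ x : Ω, PH s U v ℓ x → PH s U v ℓ x⁻¹ := by
    rintro x ⟨c, hc, hc1, a, ha, ha0, hax⟩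
    refine ⟨c⁻¹, (fixk U).inv_mem hc, by rw [map_inv₀, hc1, inv_one], a⁻¹,
      (fixO s U).inv_mem ha, inv_ne_zero ha0, ?_⟩
    rw [hax, inv_pow, map_inv₀, mul_inv]
  have hPHcancel : ∀ x y : Ω, y ≠ 0 → PH s U v ℓ y → PH s U v ℓ (x * y) → PH s U v ℓ x := by
    intro x y hy0 hy hxy
    have := hPHmul _ _ hxy (hPHinv _ hy)
    rwa [mul_assoc, mul_inv_cancel₀ hy0, mul_one] at this
  -- membership
  have hPSπ : PS s U v ℓ (algebraMap kb Ω π) := (hPS π hπ hπne hπH).2 hπ1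
  have hsmA : ∀ a (ha : a ∈ fixk U), v a < 1 →
      (⟨algebraMap kb Ω a, base_mem hsec ha⟩ : fixO s U) ∈ A := by
    intro a ha ha1
    by_cases ha0 : a = 0
    · have h0 : (⟨algebraMap kb Ω a, base_mem hsec ha⟩ : fixO s U) = 0 :=
        Subtype.ext (by change algebraMap kb Ω a = 0; rw [ha0, map_zero])
      rw [h0]
      exact A.zero_mem
    by_cases hH : PH s U v ℓ (algebraMap kb Ω a)
    · rcases A.mem_or_inv_mem ⟨algebraMap kb Ω a, base_mem hsec ha⟩ with h | h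
      · exact h
      · exfalso
        have h1 : (⟨algebraMap kb Ω a, base_mem hsec ha⟩ : fixO s U)⁻¹ =
            ⟨algebraMap kb Ω a⁻¹, base_mem hsec ((fixk U).inv_mem ha)⟩ :=
          Subtype.ext (by
            change (algebraMap kb Ω a)⁻¹ = algebraMap kb Ω a⁻¹
            rw [map_inv₀])
        rw [h1] at h
        have hia0 : a⁻¹ ≠ 0 := inv_ne_zero ha0
        have hiH : PH s U v ℓ (algebraMap kb Ω a⁻¹) := by rw [map_inv₀]; exact hPHinv _ hH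
        rcases (hA _ _ (hO0 hia0)).1 h with h' | ⟨-, h'⟩
        · exact h'.1 hiH
        · have h3 := h' _ (base_mem hsec hπ) (hO0 hπne) hPSπ
          rw [← map_mul] at h3
          have h4 := (hPS _ ((fixk U).mul_mem ((fixk U).inv_mem ha) hπ)
            (mul_ne_zero hia0 hπne) h3.1).1 h3
          rw [map_mul, map_inv₀, inv_mul_lt_iff₀ ((v.pos_iff).2 ha0), mul_one] at h4
          exact absurd (hpow a ha ha0 ha1 hH) (not_lt.2 h4.le)
    · exact (hA _ _ (hO0 ha0)).2 (Or.inl ((hPS a ha ha0 hH).2 ha1))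
  have hlarge : ∀ a (ha : a ∈ fixk U), 1 < v a →
      (⟨algebraMap kb Ω a, base_mem hsec ha⟩ : fixO s U) ∉ A := by
    intro a ha ha1 hmem
    have ha0 : a ≠ 0 := by
      rintro rfl
      rw [map_zero] at ha1
      linarith
    by_cases hH : PH s U v ℓ (algebraMap kb Ω a)
    · rcases (hA _ _ (hO0 ha0)).1 hmem with h' | ⟨-, h'⟩
      · exact h'.1 hH
      · have h3 := h' _ (base_mem hsec hπ) (hO0 hπne) hPSπ
        rw [← map_mul] at h3
        have h4 := (hPS _ ((fixk U).mul_mem ha hπ) (mul_ne_zero ha0 hπne) h3.1).1 h3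
        have hi1 : v a⁻¹ < 1 := by rw [map_inv₀]; exact inv_lt_one_of_one_lt₀ ha1
        have hiH : PH s U v ℓ (algebraMap kb Ω a⁻¹) := by rw [map_inv₀]; exact hPHinv _ hH
        have h5 := hpow a⁻¹ ((fixk U).inv_mem ha) (inv_ne_zero ha0) hi1 hiH
        rw [map_mul] at h4
        rw [map_inv₀, inv_lt_iff_one_lt_mul₀ ((v.pos_iff).2 ha0)] at h5
        rw [mul_comm] at h4
        linarith
    · rcases (hA _ _ (hO0 ha0)).1 hmem with h' | ⟨h', -⟩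
      · have := (hPS a ha ha0 hH).1 h'
        linarith
      · exact hH h'
  have hunit : ∀ a (ha : a ∈ fixk U), v a = 1 →
      (⟨algebraMap kb Ω a, base_mem hsec ha⟩ : fixO s U) ∈ A := by
    intro a ha ha1
    obtain ⟨R, hR⟩ := hd.res U hU
    have h1 : ∀ i : ℕ, ∃ r : R, v (a ^ i - r) < 1 := by
      intro i
      obtain ⟨r, hr, h⟩ := hR (a ^ i) ((fixk U).pow_mem ha i) (by rw [map_pow, ha1, one_pow])
      exact ⟨⟨r, hr⟩, h⟩
    choose f hf using h1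
    obtain ⟨i, j, hij, hfij⟩ := Finite.exists_ne_map_eq_of_infinite f
    wlog hlt : i < j generalizing i j
    · exact this j i hij.symm hfij.symm (by omega)
    have h2 : v (a ^ (j - i) - 1) < 1 := by
      have h3 : v (a ^ j - a ^ i) < 1 := by
        have h4 : a ^ j - a ^ i = (a ^ j - f j) + (-(a ^ i - f i)) := by rw [hfij]; ring
        rw [h4]
        refine lt_of_le_of_lt (hd.nonarch _ _) (max_lt (hf j) ?_)
        rw [AbsoluteValue.map_neg]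
        exact hf i
      have h4 : a ^ j - a ^ i = a ^ i * (a ^ (j - i) - 1) := by
        rw [mul_sub, ← pow_add, mul_one]
        congr 2
        omega
      rw [h4, map_mul, map_pow, ha1, one_pow, one_mul] at h3
      exact h3
    have h3 := hsmA (a ^ (j - i) - 1) ((fixk U).sub_mem ((fixk U).pow_mem ha _)
      (fixk U).one_mem) h2
    have h4 : (⟨algebraMap kb Ω a, base_mem hsec ha⟩ : fixO s U) ^ (j - i) ∈ A := by
      have h5 := A.add_mem _ _ h3 A.one_mem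
      convert h5 using 1
      refine Subtype.ext ?_
      change algebraMap kb Ω a ^ (j - i) = algebraMap kb Ω (a ^ (j - i) - 1) + 1
      rw [map_sub, map_pow, map_one]
      ring
    rw [← A.valuation_le_one_iff] at h4 ⊢
    rw [map_pow] at h4
    exact (pow_le_one_iff (by omega)).1 h4
  refine ⟨A.toSubring.map (fixO s U).subtype, ?_, ?_, ?_, ?_⟩
  · rintro x ⟨y, -, rfl⟩
    exact y.2
  · intro x hx
    rcases A.mem_or_inv_mem ⟨x, hx⟩ with h | h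
    · exact Or.inl ⟨_, h, rfl⟩
    · exact Or.inr ⟨_, h, rfl⟩
  · intro a ha
    constructor
    · rintro ⟨y, hy, hya⟩
      by_contra hcon
      push Not at hcon
      refine hlarge a ha hcon ?_
      have : (⟨algebraMap kb Ω a, base_mem hsec ha⟩ : fixO s U) = y := Subtype.ext hya.symm
      rw [this]
      exact hy
    · intro h
      rcases h.lt_or_eq with h | h
      · exact ⟨_, hsmA a ha h, rfl⟩
      · exact ⟨_, hunit a ha h, rfl⟩
  · rintro τ hτ hnorm x ⟨y, hy, rfl⟩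
    by_cases hy0 : (y : Ω) = 0
    · refine ⟨0, A.zero_mem, ?_⟩
      change (0 : Ω) = s τ (y : Ω)
      rw [hy0, map_zero]
    have hsy0 : s τ (y : Ω) ≠ 0 := by simpa using hy0
    refine ⟨⟨s τ (y : Ω), smap_mem hnorm y.2⟩, ?_, rfl⟩
    have hv : ∀ a, v (τ a) = v a := hd.isom τ hτ
    have hv' : ∀ a, v (τ⁻¹ a) = v a := hd.isom τ⁻¹ (D.inv_mem hτ)
    change _ ∈ A
    rw [hA _ _ hsy0]
    have hy' : (⟨(y : Ω), y.2⟩ : fixO s U) ∈ A := hy
    rcases (hA _ _ hy0).1 hy' with h | ⟨h, h'⟩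
    · exact Or.inl (PS_map hsec hv hnorm h)
    · refine Or.inr ⟨PH_map hsec hv hnorm h, fun z hz hz0 hPSz => ?_⟩
      have h1 := h' (s τ⁻¹ z) (smap_mem (norm_inv hnorm) hz) (by simpa using hz0)
        (PS_map hsec hv' (norm_inv hnorm) hPSz)
      have h2 := PS_map hsec hv hnorm h1
      rwa [map_mul, sinv] at h2


end Pool.Agent.Lib.MP_2f3286_ag.Koe
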