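import Pool.Agent.Lib.MP_2f3286_ag.Koe.Defs

namespace Pool.Agent.Lib.MP_2f3286_ag.Koe

/-- a field of characteristic `p` with finitely many classes modulo `p`-th powers is perfect -/
theorem frob_surj {κ : Type*} [Field κ] {p : ℕ} (hp : p.Prime) [CharP κ p] {ι : Type*} [Finite ι]
    (f : κ → ι) (hf : ∀ x y : κ, x ≠ 0 → y ≠ 0 → f x = f y → ∃ g : κ, x = y * g ^ p) :
    ∀ x : κ, ∃ y : κ, y ^ p = x := by
  have : Fact p.Prime := ⟨hp⟩
  have : ExpChar κ p := ExpChar.prime hp
  by_contra hcon
  push Not at hcon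
  obtain ⟨t, ht⟩ := hcon
  have hinf : Infinite κ := by
    by_contra hfin
    rw [not_infinite_iff_finite] at hfin
    have h1 : Function.Surjective (frobenius κ p) :=
      Finite.injective_iff_surjective.mp (frobenius_inj κ p)
    obtain ⟨y, hy⟩ := h1 t
    exact ht y hy
  have hne : ∀ c : κ, c ^ p + t ≠ 0 := by
    intro c hc
    apply ht (-c)
    have h1 : (-c) ^ p = - c ^ p := by
      have := map_neg (frobenius κ p) c
      simpa [frobenius_def] using this
    rw [h1]; exact (eq_neg_of_add_eq_zero_right hc).symm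
  obtain ⟨c, c', hcc, hff⟩ := Finite.exists_ne_map_eq_of_infinite (fun c : κ => f (c ^ p + t))
  obtain ⟨g, hg⟩ := hf _ _ (hne c) (hne c') hff
  have hsub : ∀ a b : κ, (a - b) ^ p = a ^ p - b ^ p := fun a b => by
    have := map_sub (frobenius κ p) a b
    simpa [frobenius_def] using this
  by_cases hg1 : g = 1
  · subst hg1
    rw [one_pow, mul_one] at hg
    have h2 : c ^ p = c' ^ p := by linear_combination hg
    exact hcc (frobenius_inj κ p h2)
  · have h1g : (1 - g) ≠ 0 := sub_ne_zero.mpr (Ne.symm hg1)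
    apply ht ((c' * g - c) / (1 - g))
    rw [div_pow, hsub, hsub, one_pow, mul_pow, div_eq_iff]
    · linear_combination -hg
    · have := pow_ne_zero p h1g
      rwa [hsub, one_pow] at this

end Pool.Agent.Lib.MP_2f3286_ag.Koe
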