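import Pool.Agent.Lib.MP_2f3286_ag.Koe.Defs

/-!
# First properties of good valuation rings
-/

namespace Pool.Agent.Lib.MP_2f3286_ag.Koe

variable {k kb : Type*} [Field k] [Field kb] [Algebra k kb]
  {K Ω : Type*} [Field K] [Field Ω] [Algebra K Ω] [Algebra kb Ω]
  {v : AbsoluteValue kb ℝ} {D : Subgroup Gal(kb/k)} {s : Gal(kb/k) →* Gal(Ω/K)}
  {A : ValuationSubring Ω}

theorem Good.le_iff (hA : Good s v D A) (a : kb) :
    A.valuation (algebraMap kb Ω a) ≤ 1 ↔ v a ≤ 1 := by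
  rw [ValuationSubring.valuation_le_one_iff]; exact hA.2 a

theorem Good.lt_iff (hA : Good s v D A) (a : kb) :
    A.valuation (algebraMap kb Ω a) < 1 ↔ v a < 1 := by
  rcases eq_or_ne a 0 with rfl | ha
  · simp
  have h1 := hA.le_iff a⁻¹
  rw [map_inv₀, map_inv₀, map_inv₀] at h1
  have h2 : 0 < v a := v.pos ha
  have h3 : A.valuation (algebraMap kb Ω a) ≠ 0 := by
    rw [Ne, map_eq_zero]; exact fun h => ha ((map_eq_zero _).1 h)
  constructor
  · intro h
    by_contra h4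
    push Not at h4
    have h5 : (v a)⁻¹ ≤ 1 := inv_le_one_of_one_le₀ h4
    have h6 := h1.2 h5
    rw [inv_le_one₀ (zero_lt_iff.2 h3)] at h6
    exact absurd h (not_lt.2 h6)
  · intro h
    by_contra h4
    push Not at h4
    have h5 : (A.valuation (algebraMap kb Ω a))⁻¹ ≤ 1 := inv_le_one_of_one_le₀ h4
    have h6 := h1.1 h5
    rw [inv_le_one₀ h2] at h6
    exact absurd h (not_lt.2 h6)

theorem Good.eq_iff (hA : Good s v D A) (a : kb) :
    A.valuation (algebraMap kb Ω a) = 1 ↔ v a = 1 := by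
  have h1 := hA.le_iff a
  have h2 := hA.lt_iff a
  constructor
  · intro h
    exact le_antisymm (h1.1 h.le) (not_lt.1 fun h3 => (h2.2 h3).ne h)
  · intro h
    exact le_antisymm (h1.2 h.le) (not_lt.1 fun h3 => (h2.1 h3).ne h)

theorem Good.mem_iff (hA : Good s v D A) {σ : Gal(kb/k)} (hσ : σ ∈ D) (x : Ω) :
    s σ x ∈ A ↔ x ∈ A := by
  constructor
  · intro h
    have h1 := hA.1 σ⁻¹ (inv_mem hσ) _ h
    rwa [← AlgEquiv.mul_apply, ← map_mul, inv_mul_cancel, map_one, AlgEquiv.one_apply] at h1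
  · exact hA.1 σ hσ x

theorem Good.val_le_one (hA : Good s v D A) {σ : Gal(kb/k)} (hσ : σ ∈ D) (x : Ω) :
    A.valuation (s σ x) ≤ 1 ↔ A.valuation x ≤ 1 := by
  rw [ValuationSubring.valuation_le_one_iff, ValuationSubring.valuation_le_one_iff]
  exact hA.mem_iff hσ x

theorem Good.val_lt_one (hA : Good s v D A) {σ : Gal(kb/k)} (hσ : σ ∈ D) (x : Ω) :
    A.valuation (s σ x) < 1 ↔ A.valuation x < 1 := by
  rcases eq_or_ne x 0 with rfl | hx
  · simp
  have h1 := hA.val_le_one hσ x⁻¹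
  rw [map_inv₀, map_inv₀, map_inv₀] at h1
  have h2 : 0 < A.valuation x := by rw [zero_lt_iff, Ne, map_eq_zero]; exact hx
  have h3 : 0 < A.valuation (s σ x) := by
    rw [zero_lt_iff, Ne, map_eq_zero, EmbeddingLike.map_eq_zero_iff]; exact hx
  rw [inv_le_one₀ h3, inv_le_one₀ h2] at h1
  rw [← not_le, ← not_le, h1]

theorem algebraMap_mem_fixO (hsec : ∀ σ a, s σ (algebraMap kb Ω a) = algebraMap kb Ω (σ a))
    {U : Subgroup Gal(kb/k)} {a : kb} (ha : a ∈ fixk U) : algebraMap kb Ω a ∈ fixO s U := by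
  intro σ hσ
  rw [hsec, ha σ hσ]

end Pool.Agent.Lib.MP_2f3286_ag.Koe
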