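import Pool.Agent.Lib.MP_2f3286_ag.Koe.Zero
import Pool.Agent.Lib.MP_2f3286_ag.Koe.Kum

/-!
# Quadratic twists acquiring two independent points
-/

open WeierstrassCurve WeierstrassCurve.Affine WeierstrassCurve.Affine.Point
open IntermediateField

namespace Pool.Agent.Lib.MP_2f3286_ag.Koe

theorem exists_extend {E Ω Ω' : Type*} [Field E] [Field Ω] [Field Ω'] [Algebra E Ω]
    [Algebra.IsAlgebraic E Ω] [IsAlgClosed Ω'] (g : E →+* Ω') :
    ∃ h : Ω →+* Ω', ∀ a : E, h (algebraMap E Ω a) = g a := by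
  letI := g.toAlgebra
  exact ⟨((IsAlgClosed.lift : Ω →ₐ[E] Ω') : Ω →+* Ω'), fun a =>
    AlgHom.commutes (IsAlgClosed.lift : Ω →ₐ[E] Ω') a⟩

universe w in
/-- an endomorphism with `u ↦ -u` -/
theorem exists_neg {kb : Type*} {Ω : Type w} [Field kb] [Field Ω] [Algebra kb Ω] [IsAlgClosed Ω]
    (htr : Algebra.trdeg kb Ω ≤ 1) (u : Ω) (hu : Transcendental kb u) :
    ∃ ι : Ω →ₐ[kb] Ω, ι u = -u := by
  have hu' : Transcendental kb (-u) := fun h => hu (by simpa using h.neg)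
  have hi : AlgebraicIndependent kb (fun _ : PUnit.{w+1} => u) :=
    (algebraicIndependent_unique_type_iff).2 hu
  have hb := hi.isTranscendenceBasis_of_trdeg_le_of_finite (by simpa using htr)
  have halg : Algebra.IsAlgebraic kb⟮u⟯ Ω := by
    have h := hb.isAlgebraic_field
    have e : Set.range (fun _ : PUnit.{w+1} => u) = {u} := Set.range_const
    rwa [e] at h
  let g : kb⟮u⟯ →ₐ[kb] Ω := (kb⟮-u⟯.val).comp
    ((RatFunc.algEquivOfTranscendental (-u) hu' : RatFunc kb →ₐ[kb] kb⟮-u⟯).comp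
      ((RatFunc.algEquivOfTranscendental u hu).symm : kb⟮u⟯ →ₐ[kb] RatFunc kb))
  obtain ⟨h, hh⟩ := exists_extend (Ω := Ω) (g : kb⟮u⟯ →+* Ω)
  refine ⟨{ h with commutes' := fun a => ?_ }, ?_⟩
  · change h (algebraMap kb Ω a) = _
    rw [IsScalarTower.algebraMap_apply kb kb⟮u⟯ Ω, hh]
    exact g.commutes a
  · change h u = -u
    have h1 := hh (AdjoinSimple.gen kb u)
    rw [show algebraMap kb⟮u⟯ Ω (AdjoinSimple.gen kb u) = u from rfl] at h1
    rw [h1]
    change (((RatFunc.algEquivOfTranscendental (-u) hu')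
      ((RatFunc.algEquivOfTranscendental u hu).symm (AdjoinSimple.gen kb u)) : kb⟮-u⟯) : Ω) = -u
    rw [RatFunc.algEquivOfTranscendental_symm_gen, RatFunc.algEquivOfTranscendental_X]

section points

variable {F : Type*} [Field F] {kb : Type*} [Field kb] [CharZero kb] [Algebra F kb]
  [IsAlgClosed kb]
  {Ω : Type*} [Field Ω] [Algebra kb Ω] [Algebra F Ω] [IsScalarTower F kb Ω]

open scoped Classical in
/-- a point with a non-zero multiple which is constant is constant -/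
theorem const_of_zsmul {W : WeierstrassCurve F} [W.IsElliptic] {x y : Ω}
    (h : (W⁄Ω).Nonsingular x y) {a : ℤ} (ha : a ≠ 0) (Q : (W⁄F).Point)
    (hQ : a • (Point.some x y h : (W⁄Ω).Point) = Point.baseChange F Ω Q) :
    ∃ c : kb, algebraMap kb Ω c = x := by
  have key : ∀ (n : ℕ) (Q : (W⁄F).Point), 1 ≤ n →
      n • (Point.some x y h : (W⁄Ω).Point) = Point.baseChange F Ω Q →
      ∃ c : kb, algebraMap kb Ω c = x := by
    intro n Q hn hQ
    obtain ⟨ξ, hξ⟩ := Pt.Div.descend (k := F) (kb := kb) (M := Ω) (W := W) hn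
      (Point.some x y h) (Point.baseChange F kb Q) (by
        rw [hQ]; exact (Top.bc_bc Q).symm)
    rcases ξ with _ | ⟨c, d, hcd⟩
    · exact absurd hξ.symm (some_ne_zero _)
    · exact ⟨c, (Top.some_inj' hξ).1⟩
  rcases Int.natAbs_eq a with h1 | h1
  · refine key a.natAbs Q (Nat.one_le_iff_ne_zero.2 (Int.natAbs_ne_zero.2 ha)) ?_
    rw [← natCast_zsmul, ← h1]
    exact hQ
  · refine key a.natAbs (-Q) (Nat.one_le_iff_ne_zero.2 (Int.natAbs_ne_zero.2 ha)) ?_
    have h2 : ((a.natAbs : ℤ)) = -a := by omega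
    rw [← natCast_zsmul, h2, neg_smul, hQ, _root_.map_neg]

open scoped Classical in
/-- two points separated by an endomorphism of the field are independent modulo constants -/
theorem indep (W : WeierstrassCurve F) [W.IsShortNF] [W.IsElliptic] (ι : Ω →ₐ[kb] Ω)
    {x₁ y₁ x₂ y₂ : Ω} (h₁ : (W⁄Ω).Nonsingular x₁ y₁) (h₂ : (W⁄Ω).Nonsingular x₂ y₂)
    (hc₁ : ∀ c : kb, algebraMap kb Ω c ≠ x₁) (hc₂ : ∀ c : kb, algebraMap kb Ω c ≠ x₂)
    (e₁ : ι x₁ = x₁) (e₂ : ι x₂ = x₂)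
    (hι : (ι y₁ = y₁ ∧ ι y₂ = -y₂) ∨ (ι y₁ = -y₁ ∧ ι y₂ = y₂)) (a b : ℤ)
    (hQ : ∃ Q : (W⁄F).Point, a • (Point.some x₁ y₁ h₁ : (W⁄Ω).Point) +
      b • (Point.some x₂ y₂ h₂ : (W⁄Ω).Point) = Point.baseChange F Ω Q) : a = 0 ∧ b = 0 := by
  obtain ⟨Q, hQ⟩ := hQ
  let ι' : Ω →ₐ[F] Ω := ι.restrictScalars F
  set η₁ : (W⁄Ω).Point := Point.some x₁ y₁ h₁ with hη₁
  set η₂ : (W⁄Ω).Point := Point.some x₂ y₂ h₂ with hη₂
  have hmap : ∀ {x y : Ω} (h : (W⁄Ω).Nonsingular x y), ι x = x → ι y = y →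
      Point.map ι' (Point.some x y h : (W⁄Ω).Point) = Point.some x y h :=
    fun h h1 h2 => Top.some_ext _ _ h1 h2
  have hmap' : ∀ {x y : Ω} (h : (W⁄Ω).Nonsingular x y), ι x = x → ι y = -y →
      Point.map ι' (Point.some x y h : (W⁄Ω).Point) = -Point.some x y h := by
    intro x y h h1 h2
    refine Top.some_ext _ _ h1 ?_
    show ι y = (W⁄Ω).negY x y
    rw [h2, Affine.negY]
    have e1 : (W⁄Ω).a₁ = 0 := WeierstrassCurve.a₁_of_isShortNF _
    have e3 : (W⁄Ω).a₃ = 0 := WeierstrassCurve.a₃_of_isShortNF _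
    rw [e1, e3]
    ring
  have hconst : Point.map ι' (Point.baseChange F Ω Q) = Point.baseChange F Ω Q := by
    rcases Q with _ | ⟨x, y, h⟩
    · rfl
    · exact Top.some_ext _ _ (ι'.commutes x) (ι'.commutes y)
  have h2Q : Point.baseChange F Ω Q + Point.baseChange F Ω Q = Point.baseChange F Ω (Q + Q) :=
    (map_add _ _ _).symm
  have h0 : (0 : (W⁄Ω).Point) = Point.baseChange F Ω (0 : (W⁄F).Point) := (_root_.map_zero _).symm
  have happ := congrArg (Point.map ι') hQ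
  rw [map_add, map_zsmul, map_zsmul, hconst] at happ
  have hfin₁ : ∀ (c : ℤ) (R : (W⁄F).Point), c • η₁ = Point.baseChange F Ω R → c = 0 := by
    intro c R hR
    by_contra hc
    obtain ⟨z, hz⟩ := const_of_zsmul (kb := kb) h₁ hc R hR
    exact hc₁ z hz
  have hfin₂ : ∀ (c : ℤ) (R : (W⁄F).Point), c • η₂ = Point.baseChange F Ω R → c = 0 := by
    intro c R hR
    by_contra hc
    obtain ⟨z, hz⟩ := const_of_zsmul (kb := kb) h₂ hc R hR
    exact hc₂ z hz
  rcases hι with ⟨f₁, f₂⟩ | ⟨f₁, f₂⟩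
  · rw [hη₁, hη₂, hmap h₁ e₁ f₁, hmap' h₂ e₂ f₂, ← hη₁, ← hη₂, smul_neg] at happ
    have g1 : (a + a) • η₁ = Point.baseChange F Ω (Q + Q) := by
      rw [← h2Q, add_smul]
      nth_rewrite 1 [← hQ]
      rw [← happ]
      abel
    have g2 : (b + b) • η₂ = Point.baseChange F Ω (0 : (W⁄F).Point) := by
      rw [← h0, add_smul]
      have g3 := hQ.trans happ.symm
      rw [add_right_inj] at g3
      nth_rewrite 1 [g3]
      exact neg_add_cancel _
    exact ⟨by have := hfin₁ _ _ g1; omega, by have := hfin₂ _ _ g2; omega⟩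
  · rw [hη₁, hη₂, hmap' h₁ e₁ f₁, hmap h₂ e₂ f₂, ← hη₁, ← hη₂, smul_neg] at happ
    have g1 : (b + b) • η₂ = Point.baseChange F Ω (Q + Q) := by
      rw [← h2Q, add_smul]
      nth_rewrite 1 [← hQ]
      rw [← happ]
      abel
    have g2 : (a + a) • η₁ = Point.baseChange F Ω (0 : (W⁄F).Point) := by
      rw [← h0, add_smul]
      have g3 := hQ.trans happ.symm
      rw [add_left_inj] at g3
      nth_rewrite 1 [g3]
      exact neg_add_cancel _
    exact ⟨by have := hfin₁ _ _ g2; omega, by have := hfin₂ _ _ g1; omega⟩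

end points

end Pool.Agent.Lib.MP_2f3286_ag.Koe
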