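import Pool.Agent.Lib.MP_2f3286_ag.Koe.Defs
import Pool.Agent.Lib.MP_2f3286_ag.Koe.Kum
import Pool.Agent.Lib.MP_2f3286_ag.Koe.Frob
import Pool.Agent.Lib.MP_2f3286_ag.Koe.Cls

namespace Pool.Agent.Lib.MP_2f3286_ag.Koe

variable {k kb : Type*} [Field k] [Field kb] [Algebra k kb] [IsGalois k kb] [IsAlgClosed kb]
  [CharZero kb] {K Ω : Type*} [Field K] [Field Ω] [Algebra K Ω] [Algebra kb Ω]
  [Algebra.IsAlgebraic K Ω] [IsAlgClosed Ω]

variable {v : AbsoluteValue kb ℝ} {D : Subgroup Gal(kb/k)} {p : ℕ}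

section comap

variable {L Ω : Type*} [Field L] [Field Ω] (A : ValuationSubring Ω) (i : L →+* Ω)

theorem comap_unit (a : A.comap i) : IsUnit a ↔ A.valuation (i (a : L)) = 1 := by
  have hmem : i (a : L) ∈ A := a.2
  constructor
  · intro h
    obtain ⟨b, hb⟩ := h.exists_right_inv
    have hb2 : i (b : L) ∈ A := b.2
    have h1 : i (a : L) * i (b : L) = 1 := by
      have := congrArg (fun x : A.comap i => i (x : L)) hb
      simpa using this
    have h2 : A.valuation (i (a : L)) * A.valuation (i (b : L)) = 1 := by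
      rw [← map_mul, h1, map_one]
    have h3 := (A.valuation_le_one_iff _).mpr hmem
    have h4 := (A.valuation_le_one_iff _).mpr hb2
    refine le_antisymm h3 ?_
    rw [← h2]
    exact mul_le_of_le_one_right' h4
  · intro h
    have h0 : (a : L) ≠ 0 := by
      intro h0
      rw [h0] at h
      simp at h
    have h1 : (a : L)⁻¹ ∈ A.comap i := by
      change i ((a : L)⁻¹) ∈ A
      rw [← A.valuation_le_one_iff, map_inv₀, map_inv₀, h, inv_one]
    refine IsUnit.of_mul_eq_one ⟨(a : L)⁻¹, h1⟩ ?_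
    apply Subtype.ext
    change (a : L) * (a : L)⁻¹ = 1
    exact mul_inv_cancel₀ h0

theorem comap_res (a : A.comap i) :
    IsLocalRing.residue (A.comap i) a = 0 ↔ A.valuation (i (a : L)) < 1 := by
  rw [IsLocalRing.residue_eq_zero_iff, IsLocalRing.mem_maximalIdeal, mem_nonunits_iff, comap_unit]
  have h : A.valuation (i (a : L)) ≤ 1 := (A.valuation_le_one_iff _).mpr a.2
  exact ⟨fun h1 => lt_of_le_of_ne h h1, fun h1 => h1.ne⟩

end comap

omit [IsGalois k kb] [IsAlgClosed kb] [CharZero kb] [Algebra.IsAlgebraic K Ω] [IsAlgClosed Ω] in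
theorem good_lt {s : Gal(kb/k) →* Gal(Ω/K)} {A : ValuationSubring Ω} (hA : Good s v D A)
    {a : kb} : A.valuation (algebraMap kb Ω a) < 1 ↔ v a < 1 := by
  by_cases h0 : a = 0
  · subst h0; simp
  have hv : 0 < v a := v.pos h0
  have h0' : algebraMap kb Ω a ≠ 0 := by rwa [Ne, map_eq_zero]
  have h1 := hA.2 a⁻¹
  rw [← A.valuation_le_one_iff, map_inv₀, map_inv₀, map_inv₀] at h1
  have hV : 0 < A.valuation (algebraMap kb Ω a) := by
    rw [zero_lt_iff]; exact (A.valuation.ne_zero_iff).mpr h0'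
  rw [inv_le_one₀ hv, inv_le_one₀ hV] at h1
  rw [← not_iff_not, not_lt, not_lt]
  exact h1

/-- PERF -/
theorem perf (hd : LocData v D p) (s : Gal(kb/k) →* Gal(Ω/K)) (hs : Continuous s)
    (hsec : ∀ σ a, s σ (algebraMap kb Ω a) = algebraMap kb Ω (σ a))
    {A : ValuationSubring Ω} (hA : Good s v D A) {U : Subgroup Gal(kb/k)} (hU : FinIn D U)
    {x : Ω} (hx : x ∈ fixO s U) (hx1 : A.valuation x = 1) :
    ∃ z ∈ fixO s U, A.valuation (x - z ^ p) < 1 := by
  have hp : Fact p.Prime := ⟨hd.prime⟩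
  set i : fixO s U →+* Ω := (fixO s U).subtype with hi
  set B := A.comap i with hB
  let κ := IsLocalRing.ResidueField B
  have hsur : ∀ c : κ, ∃ a : B, IsLocalRing.residue B a = c := IsLocalRing.residue_surjective
  choose lift hlift using hsur
  have hchar : CharP κ p := by
    refine (CharP.charP_iff_prime_eq_zero hd.prime).mpr ?_
    have h1 : IsLocalRing.residue B ((p : ℕ) : B) = 0 := by
      rw [comap_res]
      have h2 : i (((p : ℕ) : B) : fixO s U) = algebraMap kb Ω (p : kb) := by simp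
      rw [h2, good_lt hA]
      exact hd.small
    simpa using h1
  obtain ⟨R, hR, hR'⟩ := fin_classes hd hU
  have hkb : ∀ b ∈ fixk U, algebraMap kb Ω b ∈ fixO s U := fun b hb σ hσ => by
    rw [hsec, hb σ hσ]
  have hcl : ∀ y ∈ fixO s U, y ≠ 0 → ∃ r : R, ∃ w ∈ fixO s U, w ≠ 0 ∧
      y = algebraMap kb Ω r * w ^ p := by
    intro y hy hy0
    obtain ⟨a, ha, ha0, w, hw, hw0, hyw⟩ := kum s hs hsec hU.2.1 hy hy0 hd.prime.one_le
    obtain ⟨r, hr, b, hb, hb0, hab⟩ := hR' a ha ha0
    refine ⟨⟨r, hr⟩, algebraMap kb Ω b * w, mul_mem (hkb b hb) hw, mul_ne_zero ?_ hw0, ?_⟩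
    · rwa [Ne, map_eq_zero]
    · rw [hyw, hab, map_mul, map_pow]; ring
  have hf0 : ∀ c : κ, ∃ r : R, c ≠ 0 → ∃ w ∈ fixO s U, w ≠ 0 ∧
      i (lift c : fixO s U) = algebraMap kb Ω r * w ^ p := by
    intro c
    by_cases hc : c = 0
    · obtain ⟨r, -⟩ := hcl 1 (one_mem _) one_ne_zero
      exact ⟨r, fun h => absurd hc h⟩
    · have h1 : i (lift c : fixO s U) ≠ 0 := by
        intro h
        apply hc
        rw [← hlift c, comap_res, h, map_zero]
        exact zero_lt_one
      obtain ⟨r, hr⟩ := hcl _ (lift c : fixO s U).2 h1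
      exact ⟨r, fun _ => hr⟩
  choose f hf using hf0
  have hval1 : ∀ c : κ, c ≠ 0 → A.valuation (i (lift c : fixO s U)) = 1 := by
    intro c hc
    rw [← comap_unit, ← mem_nonunits_iff.not_left, ← IsLocalRing.mem_maximalIdeal,
      ← IsLocalRing.residue_eq_zero_iff, hlift]
    exact hc
  have key := frob_surj hd.prime f (by
    intro c d hc hd' hcd
    obtain ⟨w, hw, hw0, hw1⟩ := hf c hc
    obtain ⟨w', hw', hw0', hw1'⟩ := hf d hd'
    rw [← hcd] at hw1'
    have h1 : i (lift c : fixO s U) = i (lift d : fixO s U) * (w / w') ^ p := by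
      rw [hw1, hw1', div_pow]
      have := pow_ne_zero p hw0'
      field_simp
    have h2 : A.valuation (w / w') ^ p = 1 := by
      have h3 := congrArg A.valuation h1
      rw [map_mul, hval1 c hc, hval1 d hd', one_mul, map_pow] at h3
      exact h3.symm
    have h3 : A.valuation (w / w') = 1 := by
      exact (pow_eq_one_iff_of_nonneg zero_le hd.prime.ne_zero).mp h2
    have h4 : (⟨w / w', div_mem hw hw'⟩ : fixO s U) ∈ B := by
      change w / w' ∈ A
      rw [← A.valuation_le_one_iff, h3]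
    refine ⟨IsLocalRing.residue B ⟨_, h4⟩, ?_⟩
    rw [← map_pow, ← hlift c, ← hlift d, ← map_mul]
    congr 1
    apply Subtype.ext
    apply Subtype.ext
    exact h1)
  have hxB : (⟨x, hx⟩ : fixO s U) ∈ B := by
    change x ∈ A
    rw [← A.valuation_le_one_iff, hx1]
  obtain ⟨y, hy⟩ := key (IsLocalRing.residue B ⟨_, hxB⟩)
  refine ⟨i (lift y : fixO s U), (lift y : fixO s U).2, ?_⟩
  rw [← hlift y, ← map_pow, ← sub_eq_zero, ← map_sub, comap_res] at hy
  rw [← A.valuation.map_neg, neg_sub]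
  exact hy

end Pool.Agent.Lib.MP_2f3286_ag.Koe
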