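import Pool.Agent.Lib.MP_2f3286_ag.Koe.Defs

/-!
# A valuation ring from rigid elements (Ware, Arason–Elman–Jacob)
-/

namespace Pool.Agent.Lib.MP_2f3286_ag.Koe

/-- VAL -/
theorem val_of_rigid {L : Type*} [Field L] (T H : Subgroup Lˣ) (hTH : T ≤ H)
    (hneg : (-1 : Lˣ) ∈ T) (hsq : ∀ x, x ∉ H → x ^ 2 ∉ H)
    (hrig : ∀ x : Lˣ, x ∉ H → ∃ u : Lˣ, (u : L) = 1 + x ∧ (u ∈ T ∨ u / x ∈ T)) :
    ∃ A : ValuationSubring L, ∀ x : Lˣ,
      (x : L) ∈ A ↔ Sm T H x ∨ (x ∈ H ∧ ∀ y, Sm T H y → Sm T H (x * y)) := by
  -- elementary facts on cosets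
  have hT1 : (1 : Lˣ) ∈ T := T.one_mem
  have hmulH : ∀ {t x : Lˣ}, t ∈ T → x ∉ H → t * x ∉ H := fun {t x} ht hx h =>
    hx ((H.mul_mem_cancel_left (hTH ht)).1 h)
  have hnegH : ∀ {x : Lˣ}, x ∉ H → -x ∉ H := fun {x} hx => by
    have := hmulH hneg hx
    rwa [neg_one_mul] at this
  have hnT : ∀ {x : Lˣ}, x ∉ H → x ∉ T := fun {x} hx h => hx (hTH h)
  -- (0)
  have h0 : ∀ x : Lˣ, x ∉ H → Sm T H x ∨ Sm T H x⁻¹ := by
    intro x hx
    obtain ⟨u, hu, hu' | hu'⟩ := hrig x hx
    · exact Or.inl ⟨hx, u, hu', hu⟩
    · refine Or.inr ⟨fun h => hx (by simpa using H.inv_mem h), u / x, hu', ?_⟩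
      rw [Units.val_div_eq_div_val, hu, Units.val_inv_eq_inv_val]
      field_simp
      ring
  have h0' : ∀ x : Lˣ, Sm T H x → ¬ Sm T H x⁻¹ := by
    rintro x ⟨hx, u, hu, hux⟩ ⟨_, u', hu', hux'⟩
    have : x = u / u' := by
      ext
      rw [Units.val_div_eq_div_val, hux, hux', Units.val_inv_eq_inv_val]
      have h1 : (1 : L) + (x : L)⁻¹ ≠ 0 := by
        rw [← Units.val_inv_eq_inv_val, ← hux']; exact u'.ne_zero
      rw [eq_div_iff h1]
      field_simp
      ring
    exact hnT hx (this ▸ T.div_mem hu hu')
  -- (1)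
  have h1 : ∀ x : Lˣ, Sm T H x → Sm T H (-x) := by
    rintro x ⟨hx, u, hu, hux⟩
    obtain ⟨w, hw, hw' | hw'⟩ := hrig (-x) (hnegH hx)
    · exact ⟨hnegH hx, w, hw', hw⟩
    · exfalso
      have h2 : -(x ^ 2) ∉ H := hnegH (hsq x hx)
      obtain ⟨w2, hw2, hw2'⟩ := hrig _ h2
      have h3 : w2 = u * w := by
        ext
        rw [Units.val_mul, hw2, hw, hux]; push_cast; ring
      have hwx : w / x ∈ T := by
        have := T.mul_mem hneg hw'
        have h5 : (-1 : Lˣ) * (w / -x) = w / x := by
          ext; push_cast [Units.val_div_eq_div_val]; field_simp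
        rwa [h5] at this
      have hx' : w2 / x ∈ T := by
        rw [h3, mul_div_assoc]; exact T.mul_mem hu hwx
      rcases hw2' with h4 | h4
      · apply hnT hx
        have : x = w2 / (w2 / x) := by rw [div_div_cancel]
        rw [this]; exact T.div_mem h4 hx'
      · apply hnT hx
        have : x = (-1) * ((w2 / x) / (w2 / -(x ^ 2))) := by
          ext; push_cast [Units.val_div_eq_div_val]
          have := w2.ne_zero
          field_simp
        rw [this]; exact T.mul_mem hneg (T.div_mem hx' h4)
  -- (2)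
  have h2 : ∀ x y : Lˣ, Sm T H x → Sm T H y → ∃ u ∈ T, (u : L) = 1 - x * y := by
    -- `1 - x y` lies in `T ∪ y T`
    have key : ∀ x y : Lˣ, Sm T H x → Sm T H y → ∃ u : Lˣ, (u : L) = 1 - x * y ∧
        (u ∈ T ∨ u / y ∈ T) := by
      rintro x y ⟨hx, a, ha, hax⟩ ⟨hy, b, hb, hby⟩
      have h3 : -((a / b) * y) ∉ H := hnegH (hmulH (T.div_mem ha hb) hy)
      obtain ⟨u, hu, hu'⟩ := hrig _ h3
      refine ⟨b * u, ?_, ?_⟩
      · have hb0 := b.ne_zero
        push_cast [Units.val_div_eq_div_val] at hu
        rw [Units.val_mul, hu]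
        field_simp
        rw [hax, hby]; ring
      · rcases hu' with h4 | h4
        · exact Or.inl (T.mul_mem hb h4)
        · right
          have : b * u / y = (-1) * (a * (u / -((a / b) * y))) := by
            ext; push_cast [Units.val_div_eq_div_val]
            have hb0 := b.ne_zero; have ha0 := a.ne_zero
            field_simp
          rw [this]; exact T.mul_mem hneg (T.mul_mem ha h4)
    intro x y hx hy
    obtain ⟨u, hu, hu'⟩ := key x y hx hy
    obtain ⟨w, hw, hw'⟩ := key y x hy hx
    have hwu : w = u := by ext; rw [hu, hw, mul_comm]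
    subst hwu
    rcases hu' with h3 | h3
    · exact ⟨w, h3, hu⟩
    rcases hw' with h4 | h4
    · exact ⟨w, h4, hu⟩
    -- `x T = y T`
    have hxy : x / y ∈ T := by
      have : x / y = (w / y) / (w / x) := by
        ext; push_cast [Units.val_div_eq_div_val]
        have := w.ne_zero
        field_simp
      rw [this]; exact T.div_mem h3 h4
    have hxyH : -(x * y) ∉ H := by
      apply hnegH
      intro h
      apply hsq x hx.1
      have : x ^ 2 = (x / y) * (x * y) := by
        ext; push_cast [Units.val_div_eq_div_val]; field_simp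
      rw [this]; exact H.mul_mem (hTH hxy) h
    obtain ⟨w2, hw2, hw2'⟩ := hrig _ hxyH
    have : w2 = w := by ext; rw [hw2, hu]; push_cast; ring
    subst this
    rcases hw2' with h5 | h5
    · exact ⟨w2, h5, hu⟩
    · exfalso
      apply hnT hy.1
      have : y = (-1) * ((w2 / x) / (w2 / -(x * y))) := by
        ext; push_cast [Units.val_div_eq_div_val]
        have := w2.ne_zero
        field_simp
      rw [this]; exact T.mul_mem hneg (T.div_mem h4 h5)
  have h2' : ∀ x y : Lˣ, Sm T H x → Sm T H y → ∃ u ∈ T, (u : L) = 1 + x * y := by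
    intro x y hx hy
    obtain ⟨u, hu, hu'⟩ := h2 x (-y) hx (h1 y hy)
    exact ⟨u, hu, by rw [hu']; push_cast; ring⟩
  set P : Lˣ → Prop := fun x => x ∈ H ∧ ∀ y, Sm T H y → Sm T H (x * y) with hP
  -- (3)
  have h3 : ∀ x y : Lˣ, Sm T H x → Sm T H y → x * y ∉ H → Sm T H (x * y) := by
    intro x y hx hy h
    obtain ⟨u, hu, hu'⟩ := h2' x y hx hy
    exact ⟨h, u, hu, by rw [hu']; push_cast; ring⟩
  have h3' : ∀ x y : Lˣ, Sm T H x → Sm T H y → x * y ∈ H → P (x * y) := by
    intro x y hx hy h
    refine ⟨h, fun z hz => ?_⟩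
    have hxyz : x * y * z ∉ H := fun h' => hz.1 ((H.mul_mem_cancel_left h).1 h')
    by_cases hxz : x * z ∈ H
    · have hyz : y * z ∉ H := by
        intro h'
        apply hsq x hx.1
        have : x ^ 2 = (x * y) * (x * z) / (y * z) := by
          ext; push_cast [Units.val_div_eq_div_val]; field_simp
        rw [this]; exact H.div_mem (H.mul_mem h hxz) h'
      rw [mul_assoc]
      exact h3 x (y * z) hx (h3 y z hy hz hyz) (by rwa [← mul_assoc])
    · have : x * y * z = (x * z) * y := mul_right_comm x y z
      rw [this]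
      exact h3 (x * z) y (h3 x z hx hz hxz) hy (by rwa [← this])
  -- (4)
  have h4' : ∀ h : Lˣ, h ∈ H → ¬ P h → ∃ y z, Sm T H y ∧ Sm T H z ∧ h⁻¹ = y * z := by
    intro h hh hnP
    have : ∃ y, Sm T H y ∧ ¬ Sm T H (h * y) := by
      by_contra hcon
      push Not at hcon
      exact hnP ⟨hh, hcon⟩
    obtain ⟨y, hy, hy'⟩ := this
    have h5 : h * y ∉ H := fun h' => hy.1 ((H.mul_mem_cancel_left hh).1 h')
    rcases h0 _ h5 with h6 | h6
    · exact absurd h6 hy'
    · refine ⟨y, (h * y)⁻¹, hy, h6, ?_⟩
      rw [mul_inv_rev, ← mul_assoc, mul_inv_cancel, one_mul]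
  have h4 : ∀ x : Lˣ, (Sm T H x ∨ P x) ∨ (Sm T H x⁻¹ ∨ P x⁻¹) := by
    intro x
    by_cases hx : x ∈ H
    · by_cases hPx : P x
      · exact Or.inl (Or.inr hPx)
      · obtain ⟨y, z, hy, hz, hyz⟩ := h4' x hx hPx
        refine Or.inr (Or.inr ?_)
        rw [hyz]
        exact h3' y z hy hz (hyz ▸ H.inv_mem hx)
    · rcases h0 x hx with h | h
      · exact Or.inl (Or.inl h)
      · exact Or.inr (Or.inl h)
  -- (5)
  have h5 : ∀ x u : Lˣ, Sm T H x → (u : L) = 1 + x → P u ∧ P u⁻¹ := by
    have key : ∀ x u : Lˣ, Sm T H x → (u : L) = 1 + x → P u := by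
      intro x u hx hux
      have huT : u ∈ T := by
        obtain ⟨u', hu', hu''⟩ := hx.2
        have : u = u' := by ext; rw [hux, hu'']
        rwa [this]
      refine ⟨hTH huT, fun y hy => ⟨hmulH huT hy.1, ?_⟩⟩
      obtain ⟨b, hb, hby⟩ := hy.2
      by_cases hxy : x / y ∈ T
      · -- `x T = y T`
        have hxyH : (x * y) / b ∉ H := by
          intro h
          apply hsq x hx.1
          have : x ^ 2 = (x / y) * (b * ((x * y) / b)) := by
            ext; push_cast [Units.val_div_eq_div_val]
            have := b.ne_zero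
            field_simp
          rw [this]; exact H.mul_mem (hTH hxy) (H.mul_mem (hTH hb) h)
        obtain ⟨w, hw, hw'⟩ := hrig _ hxyH
        obtain ⟨w2, hw2, hw2'⟩ := hrig _ (hmulH huT hy.1)
        have hww : w2 = b * w := by
          ext
          rw [hw2, Units.val_mul, Units.val_mul, hw]; push_cast [Units.val_div_eq_div_val]
          have := b.ne_zero
          field_simp
          rw [hby, hux]; ring
        rcases hw2' with h6 | h6
        · exact ⟨w2, h6, hw2⟩
        rcases hw' with h7 | h7
        · exact ⟨w2, hww ▸ T.mul_mem hb h7, hw2⟩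
        · exfalso
          apply hnT hx.1
          have : x = u * ((w2 / (u * y)) / (w / (x * y / b))) := by
            ext; push_cast [Units.val_div_eq_div_val]
            rw [hww]
            push_cast
            have := b.ne_zero; have := w.ne_zero; have := u.ne_zero
            field_simp
          rw [this]; exact T.mul_mem huT (T.div_mem h6 h7)
      · -- `x T ≠ y T`
        obtain ⟨a, ha, hax⟩ := hx.2
        have e1 : x / b ∉ H := by
          have := hmulH (T.inv_mem hb) hx.1
          rwa [mul_comm, ← div_eq_mul_inv] at this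
        have e2 : y / a ∉ H := by
          have := hmulH (T.inv_mem ha) hy.1
          rwa [mul_comm, ← div_eq_mul_inv] at this
        obtain ⟨w, hw, hw'⟩ := hrig _ e1
        obtain ⟨w2, hw2, hw2'⟩ := hrig _ e2
        have hww : a * w2 = b * w := by
          ext
          rw [Units.val_mul, Units.val_mul, hw, hw2]; push_cast [Units.val_div_eq_div_val]
          have := b.ne_zero; have := a.ne_zero
          field_simp
          rw [hby, hax]; ring
        have hbw : b * w ∈ T := by
          rcases hw' with h6 | h6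
          · exact T.mul_mem hb h6
          rcases hw2' with h7 | h7
          · rw [← hww]; exact T.mul_mem ha h7
          · exfalso
            apply hxy
            have : x / y = (w2 / (y / a)) / (w / (x / b)) := by
              have h8 : w2 = b * w / a := by rw [← hww]; rw [mul_comm, mul_div_assoc, div_self', mul_one]
              rw [h8]
              ext; push_cast [Units.val_div_eq_div_val]
              have := b.ne_zero; have := w.ne_zero; have := a.ne_zero
              field_simp
            rw [this]; exact T.div_mem h7 h6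
        have hSm : Sm T H (x / b) := by
          refine ⟨e1, w, ?_, hw⟩
          exact (T.mul_mem_cancel_left hb).1 hbw
        obtain ⟨t, ht, ht'⟩ := h2' y (x / b) hy hSm
        refine ⟨b * t, T.mul_mem hb ht, ?_⟩
        rw [Units.val_mul, ht']; push_cast [Units.val_div_eq_div_val]
        have := b.ne_zero
        field_simp
        rw [hby, hux]; ring
    intro x u hx hux
    refine ⟨key x u hx hux, ?_⟩
    have huT : u ∈ T := by
      obtain ⟨u', hu', hu''⟩ := hx.2
      have : u = u' := by ext; rw [hux, hu'']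
      rwa [this]
    refine key (-(u⁻¹ * x)) u⁻¹ ⟨hnegH (hmulH (T.inv_mem huT) hx.1), u⁻¹, T.inv_mem huT, ?_⟩ ?_
    all_goals
      push_cast
      have := u.ne_zero
      field_simp
      rw [hux]; ring
  -- (6)
  have h6 : ∀ y u t : Lˣ, Sm T H y → Sm T H u → y * u ∈ H → (t : L) = 1 - y * u → P t⁻¹ := by
    intro y u t hy hu hyu ht
    have htT : t ∈ T := by
      obtain ⟨t', ht', ht''⟩ := h2 y u hy hu
      have : t = t' := by ext; rw [ht, ht'']
      rwa [this]
    refine ⟨H.inv_mem (hTH htT), fun z hz => ⟨hmulH (T.inv_mem htT) hz.1, ?_⟩⟩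
    obtain ⟨c, hc, hcz⟩ := hz.2
    have h7 : Sm T H (c⁻¹ * u) := (h5 z c hz hcz).2.2 u hu
    obtain ⟨w, hw, hw'⟩ := h2 y (c⁻¹ * u) hy h7
    refine ⟨c * w * t⁻¹, T.mul_mem (T.mul_mem hc hw) (T.inv_mem htT), ?_⟩
    push_cast
    rw [hw']
    push_cast
    have := t.ne_zero; have := c.ne_zero
    field_simp
    rw [ht, hcz]; ring
  -- products
  have hmul : ∀ x y : Lˣ, (Sm T H x ∨ P x) → (Sm T H y ∨ P y) → (Sm T H (x * y) ∨ P (x * y)) := by
    rintro x y (hx | hx) (hy | hy)
    · by_cases h : x * y ∈ H
      · exact Or.inr (h3' x y hx hy h)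
      · exact Or.inl (h3 x y hx hy h)
    · rw [mul_comm]; exact Or.inl (hy.2 x hx)
    · exact Or.inl (hx.2 y hy)
    · refine Or.inr ⟨H.mul_mem hx.1 hy.1, fun z hz => ?_⟩
      rw [mul_assoc]
      exact hx.2 _ (hy.2 z hz)
  -- (7)
  have h7 : ∀ x u : Lˣ, (Sm T H x ∨ P x) → (u : L) = 1 + x → (Sm T H u ∨ P u) := by
    rintro x u (hx | hx) hux
    · exact Or.inr (h5 x u hx hux).1
    · by_cases huH : u ∈ H
      · by_cases hPu : P u
        · exact Or.inr hPu
        · exfalso
          obtain ⟨y, z, hy, hz, hyz⟩ := h4' u huH hPu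
          have hyzH : y * z ∈ H := hyz ▸ H.inv_mem huH
          -- `1 - y z = x / u`
          have ht : ((x * u⁻¹ : Lˣ) : L) = 1 - y * z := by
            rw [← Units.val_mul, ← hyz]; push_cast
            have := u.ne_zero
            field_simp
            rw [hux]; ring
          have h8 := h6 y z (x * u⁻¹) hy hz hyzH ht
          -- `u = x * (x u⁻¹)⁻¹`
          have h9 : P u := by
            have : u = x * (x * u⁻¹)⁻¹ := by
              rw [mul_inv_rev, inv_inv, mul_comm u, ← mul_assoc, mul_inv_cancel, one_mul]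
            rw [this]
            refine ⟨H.mul_mem hx.1 h8.1, fun z hz => ?_⟩
            rw [mul_assoc]; exact hx.2 _ (h8.2 z hz)
          exact hPu h9
      · rcases h0 u huH with h8 | h8
        · exact Or.inl h8
        · exfalso
          have h9 : Sm T H (x * u⁻¹) := hx.2 _ h8
          obtain ⟨t, ht, ht'⟩ := (h1 _ h8).2
          apply h9.1
          have : x * u⁻¹ = t := by
            ext; rw [ht']; push_cast
            have := u.ne_zero
            field_simp
            rw [hux]; ring
          rw [this]; exact hTH ht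
  have hone : P 1 := ⟨H.one_mem, fun y hy => by rwa [one_mul]⟩
  have hmone : P (-1) := ⟨hTH hneg, fun y hy => by rw [neg_one_mul]; exact h1 y hy⟩
  let A : ValuationSubring L :=
    { carrier := {x | x = 0 ∨ ∃ u : Lˣ, (u : L) = x ∧ (Sm T H u ∨ P u)}
      mul_mem' := by
        rintro a b (rfl | ⟨u, rfl, hu⟩) (rfl | ⟨w, rfl, hw⟩)
        · left; simp
        · left; simp
        · left; simp
        · exact Or.inr ⟨u * w, by simp, hmul u w hu hw⟩
      one_mem' := Or.inr ⟨1, rfl, Or.inr hone⟩
      zero_mem' := Or.inl rfl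
      neg_mem' := by
        rintro a (rfl | ⟨u, rfl, hu⟩)
        · left; simp
        · exact Or.inr ⟨-1 * u, by simp, hmul _ _ (Or.inr hmone) hu⟩
      add_mem' := by
        rintro a b (rfl | ⟨u, rfl, hu⟩) (rfl | ⟨w, rfl, hw⟩)
        · left; simp
        · right; exact ⟨w, by simp, hw⟩
        · right; exact ⟨u, by simp, hu⟩
        · by_cases h : (u : L) + w = 0
          · left; exact h
          right
          rcases h4 (w / u) with h8 | h8
          · have hne : (1 : L) + ((w / u : Lˣ) : L) ≠ 0 := by
              intro h9; apply h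
              push_cast [Units.val_div_eq_div_val] at h9
              have := u.ne_zero
              field_simp at h9
              simpa using h9
            refine ⟨u * Units.mk0 _ hne, ?_, hmul _ _ hu (h7 (w / u) _ h8 rfl)⟩
            rw [Units.val_mul, Units.val_mk0]
            push_cast [Units.val_div_eq_div_val]
            have := u.ne_zero
            field_simp
          · rw [inv_div] at h8
            have hne : (1 : L) + ((u / w : Lˣ) : L) ≠ 0 := by
              intro h9; apply h
              push_cast [Units.val_div_eq_div_val] at h9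
              have := w.ne_zero
              field_simp at h9
              rw [add_comm]
              simpa using h9
            refine ⟨w * Units.mk0 _ hne, ?_, hmul _ _ hw (h7 (u / w) _ h8 rfl)⟩
            rw [Units.val_mul, Units.val_mk0]
            push_cast [Units.val_div_eq_div_val]
            have := w.ne_zero
            field_simp
            ring
      mem_or_inv_mem' := by
        intro x
        by_cases hx : x = 0
        · left; left; exact hx
        · rcases h4 (Units.mk0 x hx) with h | h
          · left; right; exact ⟨_, rfl, h⟩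
          · right; right; exact ⟨_, rfl, h⟩ }
  refine ⟨A, fun x => ?_⟩
  change ((x : L) = 0 ∨ ∃ u : Lˣ, (u : L) = x ∧ (Sm T H u ∨ P u)) ↔ _
  constructor
  · rintro (h | ⟨u, hu, h⟩)
    · exact absurd h x.ne_zero
    · have : u = x := Units.ext hu
      rwa [this] at h
  · intro h
    exact Or.inr ⟨x, rfl, h⟩

end Pool.Agent.Lib.MP_2f3286_ag.Koe
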