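import Pool.Agent.Lib.MP_2f3286_ag.Koe.Main

/-!
# Sections of function fields and elliptic curves of rank zero
-/

open WeierstrassCurve WeierstrassCurve.Affine WeierstrassCurve.Affine.Point
open IsDedekindDomain NumberField
open Pool.Agent.Lib.MP_2f3286_ag

namespace Pool.Agent.Lib.MP_2f3286_ag.Koe

section cocycle

open Pool.Agent.Lib.MP_2f3286_ag.Top (act act_const act_baseChange act_eq_nhds act_mul)

variable {k : Type*} [Field k] {W : Affine k} {kb : Type*} [Field kb] [CharZero kb] [Algebra k kb]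
  {K M : Type*} [Field K] [Field M] [Algebra k K] [Algebra K M] [Algebra k M] [IsScalarTower k K M]
  [Algebra kb M] [IsScalarTower k kb M]
  [DecidableEq k] [DecidableEq kb] [DecidableEq K] [DecidableEq M]
  (s : Gal(kb/k) →* Gal(M/K))

/-- the Kummer cocycle of a division point -/
theorem exists_cocycle₀ [TopologicalSpace Gal(kb/k)] [IsTopologicalGroup Gal(kb/k)]
    [Algebra.IsAlgebraic K M] [W.IsElliptic] [IsAlgClosed kb] (hs : Continuous s)
    (hsec : ∀ σ a, s σ (algebraMap kb M a) = algebraMap kb M (σ a))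
    {n : ℕ} (hn : 1 ≤ n)
    (η : (W⁄K).Point) (T : (W⁄M).Point) (hT : n • T = baseChange K M η) :
    ∃ c : Gal(kb/k) → (W⁄kb).Point, (∀ σ, baseChange kb M (c σ) = act W (s σ) T - T) ∧
      (∀ σ τ, c (σ * τ) = c σ + act W σ (c τ)) ∧ IsLocallyConstant c := by
  have h1 : ∀ σ, ∃ c : (W⁄kb).Point, baseChange kb M c = act W (s σ) T - T := by
    intro σ
    apply Pt.Div.descend hn _ 0
    rw [smul_sub, ← map_nsmul, hT, _root_.map_zero, sub_eq_zero]
    exact act_baseChange (s σ) η
  choose c hc using h1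
  have hinj : Function.Injective (baseChange kb M (W' := W)) := map_injective _
  have hcoc : ∀ σ τ, c (σ * τ) = c σ + act W σ (c τ) := by
    intro σ τ
    apply hinj
    rw [map_add, ← act_const s hsec, hc, hc, hc, map_mul, act_mul, map_sub]
    abel
  refine ⟨c, hc, hcoc, ?_⟩
  have h2 : {σ : Gal(kb/k) | c σ = 0} ∈ nhds 1 := by
    refine Filter.mem_of_superset (act_eq_nhds s hs T) ?_
    intro σ hσ
    apply hinj
    rw [hc, _root_.map_zero, sub_eq_zero]
    exact hσ
  rw [IsLocallyConstant.iff_eventually_eq]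
  intro σ
  have h3 : Filter.Tendsto (fun τ : Gal(kb/k) => σ⁻¹ * τ) (nhds σ) (nhds 1) := by
    have : Continuous fun τ : Gal(kb/k) => σ⁻¹ * τ := continuous_const.mul continuous_id
    have h4 := this.tendsto σ
    rwa [inv_mul_cancel] at h4
  filter_upwards [h3 h2] with τ hτ
  have h5 := hcoc σ (σ⁻¹ * τ)
  rw [mul_inv_cancel_left] at h5
  rw [h5, show c (σ⁻¹ * τ) = 0 from hτ, _root_.map_zero, add_zero]

end cocycle

section

variable {k : Type*} [Field k] [NumberField k] {K M : Type*} [Field K] [Field M] [Algebra K M]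
  [Algebra (AlgebraicClosure k) M] {s : Gal(AlgebraicClosure k/k) →* Gal(M/K)}
  [Algebra k K] [Algebra k M] [IsScalarTower k K M] [IsScalarTower k (AlgebraicClosure k) M]

open Pool.Agent.Lib.MP_2f3286_ag.Top (LocalPoint kummer_class) in
open scoped Classical in
/-- the classes of a Selmer section along a point are those of rational points -/
theorem exists_classes₀ (W : WeierstrassCurve k) [W.IsElliptic] [Algebra.IsAlgebraic K M]
    (hs : Continuous s)
    (hsec : ∀ σ a, s σ (algebraMap (AlgebraicClosure k) M a) =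
      algebraMap (AlgebraicClosure k) M (σ a))
    (x : ∀ v : HeightOneSpectrum (𝓞 k), LocalPoint s v)
    {m : ℕ} (hm : 1 ≤ m) (hsha : Sel.ShaKilledBy W ∅ m) (η : (W⁄K).Point) {n : ℕ} (hn : 1 ≤ n)
    (hdiv : ∃ T : (W⁄M).Point, (n * m) • T = baseChange K M η) :
    ∃ R : (W⁄k).Point, Top.SameClass s n η R := by
  obtain ⟨T, hT⟩ := hdiv
  obtain ⟨c, hc1, hc2, hc3⟩ := exists_cocycle₀ s hs hsec (Nat.mul_pos hn hm) η T hT
  obtain ⟨e, he⟩ := hsha c hc3 hc2 (by
    intro v _
    refine ⟨(x v).ι, (x v).isPlaceOf.val s T, fun σ τ h => ?_⟩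
    rw [← (x v).isPlaceOf.val_const s, hc1, map_sub, (x v).isPlaceOf.val_act s σ τ h])
  obtain ⟨R, hR⟩ := kummer_class s hsec η T hT c hc1 e he
  exact ⟨R, hR⟩

end

open Pool.Agent.Lib.MP_2f3286_ag.Top (LocalPoint IsClass) in
open scoped Classical in
universe u in
/-- rank zero, over the base field of the elliptic curve -/
theorem assembly_zero {k : Type u} [Field k] [NumberField k]
    (W : WeierstrassCurve k) [W.IsShortNF] [W.IsElliptic]
    {K M : Type*} [Field K] [Field M] [Algebra k K] [Algebra K M] [Algebra.IsAlgebraic K M]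
    [IsAlgClosed M]
    [Algebra (AlgebraicClosure k) M] [Algebra k M] [IsScalarTower k K M]
    [IsScalarTower k (AlgebraicClosure k) M] (htr : Algebra.trdeg k K = 1)
    (η : (W⁄K).Point) (hη : ¬ ∃ Q : (W⁄k).Point, η = baseChange k K Q)
    (s : Gal(AlgebraicClosure k/k) →* Gal(M/K)) (hs : Continuous s)
    (hsec : ∀ σ a, s σ (algebraMap (AlgebraicClosure k) M a) =
      algebraMap (AlgebraicClosure k) M (σ a))
    (ι : ∀ v : HeightOneSpectrum (𝓞 k),
      AlgebraicClosure k →ₐ[k] AlgebraicClosure (v.adicCompletion k))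
    (A : HeightOneSpectrum (𝓞 k) → ValuationSubring M)
    (φ : ∀ v : HeightOneSpectrum (𝓞 k), A v →+* AlgebraicClosure (v.adicCompletion k))
    (hφ : ∀ v, Sel.IsPlaceOf s (v.adicCompletion k)
      (ι v : _ →+* AlgebraicClosure (v.adicCompletion k)) (A v) (φ v))
    (hrk : ∀ Q : (W⁄k).Point, IsOfFinAddOrder Q)
    (m : ℕ) (hm : 1 ≤ m) (hsha : Sel.ShaKilledBy W ∅ m)
    (hdiv : ∀ (η : (W⁄K).Point) (n : ℕ), 1 ≤ n → ∃ T : (W⁄M).Point, n • T = baseChange K M η) :
    ∃ (A₀ : ValuationSubring M) (ψ₀ : A₀ →+* AlgebraicClosure k),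
        Sel.IsPlaceOf s k (RingHom.id _) A₀ ψ₀ := by
  let x : ∀ v : HeightOneSpectrum (𝓞 k), LocalPoint s v := fun v =>
    LocalPoint.ofPlace (ι v) (A v) (φ v) (hφ v)
  have hfin : Finite (W⁄k).Point := by
    have h := Top.torsion_finite (W := (W⁄k))
    rw [Set.eq_univ_of_forall (s := {t : (W⁄k).Point | IsOfFinAddOrder t}) hrk] at h
    exact Set.finite_univ_iff.mp h
  -- one point for all levels
  obtain ⟨R, hR⟩ : ∃ R : (W⁄k).Point, ∀ n : ℕ, 1 ≤ n → IsClass s W n η R := by
    by_contra hcon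
    push Not at hcon
    choose N hN1 hN2 using hcon
    have := Fintype.ofFinite (W⁄k).Point
    have hpos : 1 ≤ ∏ R : (W⁄k).Point, N R := Nat.succ_le_of_lt
      (Finset.prod_pos fun R _ => hN1 R)
    obtain ⟨R, hR⟩ := exists_classes₀ W hs hsec x hm hsha η hpos
      (hdiv η _ (Nat.mul_pos hpos hm))
    obtain ⟨c, hc⟩ := Finset.dvd_prod_of_mem N (Finset.mem_univ R)
    rw [hc] at hR
    exact hN2 R (IsClass.of_mul s hR)
  -- the values
  let S : Finset (HeightOneSpectrum (𝓞 k)) :=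
    (E.finite_not_le_one W.a₄).toFinset ∪ (E.finite_not_le_one W.a₆).toFinset
  have hgal : ∀ v : HeightOneSpectrum (𝓞 k),
      IsGalois (v.adicCompletion k) (AlgebraicClosure (v.adicCompletion k)) := by
    intro v
    have : CharZero (v.adicCompletion k) := charZero_of_injective_algebraMap
      (algebraMap k (v.adicCompletion k)).injective
    infer_instance
  have hval : ∀ v, v ∉ S → Sel.HasValue (A v) (φ v) η (baseChange k (v.adicCompletion k) R) := by
    intro v hv
    have hv4 : E.fv v W.a₄ ≤ 1 ∧ E.fv v W.a₆ ≤ 1 := by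
      simp only [S, Finset.mem_union, Set.Finite.mem_toFinset, not_or] at hv
      exact ⟨not_not.mp hv.1, not_not.mp hv.2⟩
    apply Top.hasValue_ofPlace (hφ v)
    apply LocalPoint.hasValue
    obtain ⟨y, hy⟩ := (x v).isPlaceOf.exists_val s (fun σ => Top.act_baseChange (s σ) η)
    have h0 : y - baseChange k (v.adicCompletion k) R = 0 := by
      have hWΔ := E.Δ_ne_zero_of_isElliptic W
      have hWv : (W⁄(v.adicCompletion k)).Δ ≠ 0 := by
        rw [E.base_Δ]
        exact fun h => hWΔ ((map_eq_zero _).1 h)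
      have e4 : E.nv v (W⁄(v.adicCompletion k)).a₄ ≤ 1 := by
        have : (W⁄(v.adicCompletion k)).a₄ = algebraMap k (v.adicCompletion k) W.a₄ := rfl
        rw [this, E.nv_algebraMap]; exact hv4.1
      have e6 : E.nv v (W⁄(v.adicCompletion k)).a₆ ≤ 1 := by
        have : (W⁄(v.adicCompletion k)).a₆ = algebraMap k (v.adicCompletion k) W.a₆ := rfl
        rw [this, E.nv_algebraMap]; exact hv4.2
      apply E.eq_zero_of_divisible v e4 e6 hWv
      intro n hn
      obtain ⟨z, hz⟩ := (x v).isPlaceOf.class_val s (hR n hn) hy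
      exact ⟨z, by rw [hz]; abel⟩
    rw [← sub_eq_zero.mp h0]
    exact hy.symm
  -- a function
  have hk : ∀ c : K, IsAlgebraic k c → ∃ c₀ : k, algebraMap k K c₀ = c :=
    fun c hc => Top.const_of_algebraic s hsec hc
  obtain ⟨f, g, hfg, hηe, -, hf⟩ := Top.const_point hk η hη
  have hf' : ∀ c : k, f ≠ algebraMap k K c := fun c hc => hf c hc.symm
  have hplace : ∀ (f : K) (_ : ∀ c : k, f ≠ algebraMap k K c) (a : k)
      (_ : ∀ v, v ∉ S → ∃ h : algebraMap K M f ∈ A v, φ v ⟨algebraMap K M f, h⟩ =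
        ι v (algebraMap k (AlgebraicClosure k) a)),
      ∃ (A₀ : ValuationSubring M) (ψ₀ : A₀ →+* AlgebraicClosure k),
        Sel.IsPlaceOf s k (RingHom.id _) A₀ ψ₀ := by
    intro f hf a hfa
    obtain ⟨A₀, ψ₀, h, -⟩ := Top.place_of_value htr S s hs hsec
      (fun v => ι v.1) (fun v => A v.1) (fun v => φ v.1) (fun v => hφ v.1) f hf a
      (fun v => hfa v.1 v.2)
    exact ⟨A₀, ψ₀, h⟩
  rcases hR0 : R with _ | ⟨a, b, hab⟩
  · -- value zero
    refine hplace f⁻¹ ?_ 0 ?_
    · intro c hc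
      exact hf' c⁻¹ (by rw [map_inv₀, ← hc, inv_inv])
    · intro v hv
      have h5 := hval v hv
      rw [hR0, hηe] at h5
      rcases h5 with ⟨h6, -⟩ | ⟨a', b', h', h6, -⟩
      · have h7 : algebraMap K M f⁻¹ ∈ A v := by
          rw [map_inv₀]
          exact ((A v).mem_or_inv_mem _).resolve_left h6
        refine ⟨h7, ?_⟩
        rw [_root_.map_zero, _root_.map_zero]
        by_contra h8
        apply h6
        have h9 : (algebraMap K M f⁻¹)⁻¹ ∈ A v := (hφ v).2.1 _ h8
        rwa [map_inv₀, inv_inv] at h9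
      · exact absurd h6.symm (some_ne_zero _)
  · refine hplace f hf' a ?_
    intro v hv
    have h5 := hval v hv
    rw [hR0, hηe] at h5
    rcases h5 with ⟨-, h6⟩ | ⟨a', b', h', h6, ⟨h7, h8⟩, -⟩
    · exact absurd h6 (some_ne_zero _)
    · refine ⟨h7, ?_⟩
      rw [h8, AlgHom.commutes, ← (Top.some_inj' h6).1]
      exact (IsScalarTower.algebraMap_apply k (v.adicCompletion k) _ a).symm

section

variable {k : Type*} [Field k] [NumberField k] {kb : Type*} [Field kb] [Algebra k kb]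
  [IsAlgClosed kb] [Algebra.IsAlgebraic k kb] {K : Type*} [Field K] [Algebra k K]
  {Ω : Type*} [Field Ω] [Algebra K Ω] [Algebra.IsAlgebraic K Ω] [IsAlgClosed Ω]
  [Algebra kb Ω] [Algebra k Ω] [IsScalarTower k K Ω] [IsScalarTower k kb Ω]

open scoped Classical in
universe u in
theorem exists_place_zero_aux (htr : Algebra.trdeg k K = 1)
    (s : Gal(kb/k) →* Gal(Ω/K)) (hs : Continuous s)
    (hsec : ∀ σ a, s σ (algebraMap kb Ω a) = algebraMap kb Ω (σ a))
    {F : Type u} [Field F] [NumberField F] [Algebra k F]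
    [Algebra F kb] [IsScalarTower k F kb] [Algebra F Ω] [IsScalarTower F kb Ω]
    (W : WeierstrassCurve F) [W.IsShortNF] [W.IsElliptic]
    (hrk : ∀ Q : (W⁄F).Point, IsOfFinAddOrder Q)
    (m : ℕ) (hm : 1 ≤ m) (hsha : Sel.ShaKilledBy W ∅ m)
    (η : (W⁄Ω).Point) (h₁ : FixedPt s η)
    (hη : ¬ ∃ Q : (W⁄F).Point, η = Point.baseChange F Ω Q)
    {L : Type*} [Field L] [Algebra F L] [Algebra L Ω] [IsScalarTower F L Ω]
    [Algebra.IsAlgebraic L Ω]
    (hL : ∀ σ : Gal(kb/k), (∀ a : F, σ (algebraMap F _ a) = algebraMap F _ a) →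
      ∀ x : L, s σ (algebraMap L Ω x) = algebraMap L Ω x)
    (hL2 : ∀ x : Ω, (∀ σ : Gal(kb/k),
      (∀ a : F, σ (algebraMap F _ a) = algebraMap F _ a) → s σ x = x) →
      ∃ y : L, algebraMap L Ω y = x) :
    ∃ (A₀ : ValuationSubring Ω) (ψ₀ : A₀ →+* kb),
      MP_2f3286_bir.IsPlaceOf s k (RingHom.id _) A₀ ψ₀ := by
  have hfin : FiniteDimensional k F := FiniteDimensional.right ℚ k F
  have hkF : Algebra.IsAlgebraic k F := inferInstance
  have hFk : Algebra.IsAlgebraic F kb := Algebra.IsAlgebraic.tower_top (K := k) F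
  have : IsAlgClosure F kb := ⟨inferInstance, inferInstance⟩
  let e : AlgebraicClosure F ≃ₐ[F] kb := IsAlgClosure.equiv F (AlgebraicClosure F) kb
  letI iFb : Algebra (AlgebraicClosure F) Ω := ((algebraMap kb Ω).comp (e : _ →+* kb)).toAlgebra
  have he : ∀ a : AlgebraicClosure F, algebraMap (AlgebraicClosure F) Ω a =
      algebraMap kb Ω (e a) := fun _ => rfl
  have t1 : IsScalarTower F (AlgebraicClosure F) Ω := IsScalarTower.of_algebraMap_eq fun a => by
    rw [he, AlgEquiv.commutes, ← IsScalarTower.algebraMap_apply]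
  have t3 : IsScalarTower k F Ω := IsScalarTower.of_algebraMap_eq fun a => by
    rw [IsScalarTower.algebraMap_apply F kb Ω, ← IsScalarTower.algebraMap_apply k F kb,
      ← IsScalarTower.algebraMap_apply k kb Ω]
  have htr' : Algebra.trdeg F L = 1 := trdeg_fix (k := k) (K := K) (Ω := Ω) htr
  -- the points over `L`
  have hpt : ∀ η : (W⁄Ω).Point, FixedPt s η → ∃ η' : (W⁄L).Point, Point.baseChange L Ω η' = η := by
    intro η hη
    rcases η with _ | ⟨x, y, hxy⟩
    · exact ⟨0, rfl⟩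
    · obtain ⟨a, rfl⟩ := hL2 x fun σ hσ => (hη σ hσ).1
      obtain ⟨b, rfl⟩ := hL2 y fun σ hσ => (hη σ hσ).2
      exact ⟨Point.some a b
        ((Affine.baseChange_nonsingular (W := W) (Algebra.ofId L Ω).injective _ _).mp hxy), rfl⟩
  obtain ⟨η', hη'⟩ := hpt η h₁
  have hη2 : ¬ ∃ Q : (W⁄F).Point, η' = Point.baseChange F L Q := by
    rintro ⟨Q, hQ⟩
    exact hη ⟨Q, by rw [← hη', hQ]; exact Top.bc_bc Q⟩
  -- the section over `F`
  have hs' := resS_continuous s e hL hs
  have hsec' : ∀ (σ : Gal(AlgebraicClosure F/F)) (a : AlgebraicClosure F),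
      resS s e hL σ (algebraMap (AlgebraicClosure F) Ω a) =
        algebraMap (AlgebraicClosure F) Ω (σ a) := by
    intro σ a
    rw [resS_apply, he, hsec, resG_apply, e.symm_apply_apply, he]
  -- local places
  have hloc : ∀ v : HeightOneSpectrum (𝓞 F),
      ∃ (ι : AlgebraicClosure F →ₐ[F] AlgebraicClosure (v.adicCompletion F))
        (A : ValuationSubring Ω) (φ : A →+* AlgebraicClosure (v.adicCompletion F)),
        MP_2f3286_bir.IsPlaceOf (resS s e hL) (v.adicCompletion F)
          (ι : _ →+* AlgebraicClosure (v.adicCompletion F)) A φ := by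
    intro v
    let ι : AlgebraicClosure F →ₐ[F] AlgebraicClosure (v.adicCompletion F) := IsAlgClosed.lift
    obtain ⟨A, φ, h⟩ := local_place (resS s e hL) hs' hsec' v ι
    exact ⟨ι, A, φ, h⟩
  choose ι A φ hφ using hloc
  have hdiv : ∀ (η : (W⁄L).Point) (n : ℕ), 1 ≤ n →
      ∃ T : (W⁄Ω).Point, n • T = Point.baseChange L Ω η := by
    intro η n hn
    have : CharZero Ω := charZero_of_injective_algebraMap (algebraMap F Ω).injective
    exact Pt.Div.divisible (k := F) (kb := Ω) hn _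
  obtain ⟨A₀, ψ₀, h3⟩ := assembly_zero (k := F) W (K := L) (M := Ω) htr' η' hη2
    (resS s e hL) hs' hsec' ι A φ hφ hrk m hm hsha hdiv
  exact ⟨A₀, _, descend s hs hsec F (placeOn_of s e hL he h3)⟩

open scoped Classical in
universe u in
/-- A section over which an elliptic curve of rank zero acquires a point is geometric. -/
theorem exists_place_zero (htr : Algebra.trdeg k K = 1)
    (s : Gal(kb/k) →* Gal(Ω/K)) (hs : Continuous s)
    (hsec : ∀ σ a, s σ (algebraMap kb Ω a) = algebraMap kb Ω (σ a))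
    {F : Type u} [Field F] [NumberField F] [Algebra k F]
    [Algebra F kb] [IsScalarTower k F kb] [Algebra F Ω] [IsScalarTower F kb Ω]
    (W : WeierstrassCurve F) [W.IsShortNF] [W.IsElliptic]
    (hrk : ∀ Q : (W⁄F).Point, IsOfFinAddOrder Q)
    (m : ℕ) (hm : 1 ≤ m) (hsha : Sel.ShaKilledBy W ∅ m)
    (η : (W⁄Ω).Point) (h₁ : FixedPt s η)
    (hη : ¬ ∃ Q : (W⁄F).Point, η = Point.baseChange F Ω Q) :
    ∃ (A₀ : ValuationSubring Ω) (ψ₀ : A₀ →+* kb),
      MP_2f3286_bir.IsPlaceOf s k (RingHom.id _) A₀ ψ₀ := by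
  letI iFL : Algebra F (fixF s F) := (toFixF s F hsec).toAlgebra
  have t2 : IsScalarTower F (fixF s F) Ω := IsScalarTower.of_algebraMap_eq fun a => by
    change algebraMap F Ω a = algebraMap kb Ω (algebraMap F _ a)
    rw [← IsScalarTower.algebraMap_apply]
  have hLΩ : Algebra.IsAlgebraic (fixF s F) Ω := Algebra.IsAlgebraic.tower_top (K := K) (fixF s F)
  exact exists_place_zero_aux htr s hs hsec W hrk m hm hsha η h₁ hη (L := fixF s F)
    (fun σ hσ x => x.2 σ hσ) (fun x hx => ⟨⟨x, hx⟩, rfl⟩)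

end

end Pool.Agent.Lib.MP_2f3286_ag.Koe
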